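import Pool.Agent.Lib.MP_9277c3_lc.NS.Ctl

/-!
# D4: correctness of the control program
-/

namespace Pool.Agent.Lib.MP_9277c3_lc.NS

open CM NC

section

variable {α R F : Type} {x : List α} {cc : Cell α → ℕ} {A : ℕ} {body : F → NStmt R F}
  {ρ : CR → R} {X : Type} {en : X → ℕ} {P : Par X (ℕ → Bool)}
  {Rep : (R → ℕ) → St P.G (ℕ → Bool) → Prop}

/-! ### Rules -/

theorem Tr.nil {k : ℕ} {c : CR → ℕ} {st : St P.G (ℕ → Bool)} {Q : (CR → ℕ) → Prop} (h : Q c) :
    Tr x cc A body ρ P Rep k (sqN []) c st Q st :=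
  fun s hs hc => ⟨s, c, RunN.nil, hs, hc, h⟩

theorem Tr.cons {k : ℕ} {a : NStmt R F} {l : List (NStmt R F)} {c : CR → ℕ}
    {st st' st'' : St P.G (ℕ → Bool)} {Q Q' : (CR → ℕ) → Prop}
    (h₁ : Tr x cc A body ρ P Rep k a c st Q st')
    (h₂ : ∀ c', Q c' → Tr x cc A body ρ P Rep k (sqN l) c' st' Q' st'') :
    Tr x cc A body ρ P Rep k (sqN (a :: l)) c st Q' st'' := by
  intro s hs hc
  obtain ⟨s', c', hr, hs', hc', hq⟩ := h₁ s hs hc
  obtain ⟨s'', c'', hr', hs'', hc'', hq'⟩ := h₂ c' hq s' hs' hc'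
  exact ⟨s'', c'', RunN.cons hr hr', hs'', hc'', hq'⟩

theorem Tr.conseq {k : ℕ} {a : NStmt R F} {c : CR → ℕ} {st st' : St P.G (ℕ → Bool)}
    {Q Q' : (CR → ℕ) → Prop} (h : Tr x cc A body ρ P Rep k a c st Q st')
    (h' : ∀ c', Q c' → Q' c') : Tr x cc A body ρ P Rep k a c st Q' st' := by
  intro s hs hc
  obtain ⟨s', c', hr, hs', hc', hq⟩ := h s hs hc
  exact ⟨s', c', hr, hs', hc', h' _ hq⟩

theorem Tr.last {k : ℕ} {a : NStmt R F} {c : CR → ℕ}
    {st st' : St P.G (ℕ → Bool)} {Q : (CR → ℕ) → Prop}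
    (h : Tr x cc A body ρ P Rep k a c st Q st') :
    Tr x cc A body ρ P Rep k (sqN [a]) c st Q st' :=
  Tr.cons h fun _ hq => Tr.nil hq

theorem Tr.mono {k k' : ℕ} (hk : k ≤ k') {a : NStmt R F} {c : CR → ℕ}
    {st st' : St P.G (ℕ → Bool)} {Q : (CR → ℕ) → Prop}
    (h : Tr x cc A body ρ P Rep k a c st Q st') : Tr x cc A body ρ P Rep k' a c st Q st' := by
  intro s hs hc
  obtain ⟨s', c', hr, hs', hc', hq⟩ := h s hs hc
  exact ⟨s', c', hr.mono hk, hs', hc', hq⟩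

theorem Tr.set (hρ : Function.Injective ρ)
    (hRep : ∀ s s' st, Rep s st → (∀ r, (∀ c, ρ c ≠ r) → s' r = s r) → Rep s' st)
    {k : ℕ} {r : CR} {e : Exp R} {l : List (NStmt R F)} {c : CR → ℕ}
    {st st' : St P.G (ℕ → Bool)} {Q : (CR → ℕ) → Prop} (n : ℕ)
    (hn : ∀ s, (∀ r, s (ρ r) = c r) → e.eval x cc s = n) (hA : n < A)
    (h : Tr x cc A body ρ P Rep k (sqN l) (upd c r n) st Q st') :
    Tr x cc A body ρ P Rep k (sqN (asg (ρ r) e :: l)) c st Q st' := by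
  intro s hs hc
  have h1 : Rep (upd s (ρ r) n) st := hRep s _ st hs fun r' hr' => upd_ne (hr' r).symm _ _
  obtain ⟨s', c', hr, hs', hc', hq⟩ := h _ h1 (by
    intro r'
    by_cases h2 : r' = r
    · subst h2
      rw [upd_self, upd_self]
    · rw [upd_ne h2, upd_ne (fun h3 => h2 (hρ h3)), hc])
  exact ⟨s', c', RunN.set n (hn s hc) hA hr, hs', hc', hq⟩

theorem Tr.iteT {k : ℕ} {r : CR} {a b : NStmt R F} {c : CR → ℕ} {st st' : St P.G (ℕ → Bool)}
    {Q : (CR → ℕ) → Prop} (h : c r ≠ 0) (h' : Tr x cc A body ρ P Rep k a c st Q st') :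
    Tr x cc A body ρ P Rep k (Stmt.ite (ρ r) a b) c st Q st' := by
  intro s hs hc
  obtain ⟨s', c', hr, hs', hc', hq⟩ := h' s hs hc
  exact ⟨s', c', RunN.iteT _ _ _ _ _ _ _ _ (by rw [hc]; exact h) hr, hs', hc', hq⟩

theorem Tr.iteF {k : ℕ} {r : CR} {a b : NStmt R F} {c : CR → ℕ} {st st' : St P.G (ℕ → Bool)}
    {Q : (CR → ℕ) → Prop} (h : c r = 0) (h' : Tr x cc A body ρ P Rep k b c st Q st') :
    Tr x cc A body ρ P Rep k (Stmt.ite (ρ r) a b) c st Q st' := by
  intro s hs hc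
  obtain ⟨s', c', hr, hs', hc', hq⟩ := h' s hs hc
  exact ⟨s', c', RunN.iteF _ _ _ _ _ _ _ _ (by rw [hc]; exact h) hr, hs', hc', hq⟩

theorem Tr.call {k : ℕ} {f : F} {a : NStmt R F} {c : CR → ℕ} {st st' : St P.G (ℕ → Bool)}
    {Q : (CR → ℕ) → Prop} (hf : body f = a) (h : Tr x cc A body ρ P Rep k a c st Q st') :
    Tr x cc A body ρ P Rep (k + 1) (Stmt.call f) c st Q st' := by
  subst hf
  intro s hs hc
  obtain ⟨s', c', hr, hs', hc', hq⟩ := h s hs hc
  exact ⟨s', c', RunN.call _ _ _ _ _ _ hr, hs', hc', hq⟩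

/-! ### The control program -/

/-- Registers which are kept. -/
structure Kq (c c' : CR → ℕ) : Prop where
  lev : c' .lev = c .lev
  cB : c' .cB = c .cB
  cT : c' .cT = c .cT
  cK : c' .cK = c .cK

theorem Kq.trans {c c' c'' : CR → ℕ} (h : Kq c c') (h' : Kq c' c'') : Kq c c'' :=
  ⟨h'.lev.trans h.lev, h'.cB.trans h.cB, h'.cT.trans h.cT, h'.cK.trans h.cK⟩

theorem Cst.of_kq {c c' : CR → ℕ} (h : Cst P c) (h' : Kq c c') : Cst P c' :=
  ⟨h'.cB.trans h.cB, h'.cT.trans h.cT, h'.cK.trans h.cK⟩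

variable {op : OF → NStmt R F} {k₀ : ℕ} (hρ : Function.Injective ρ)
    (hRep : ∀ s s' st, Rep s st → (∀ r, (∀ c, ρ c ≠ r) → s' r = s r) → Rep s' st)
    (h : Ops x cc A body ρ en P Rep op k₀) (hA : P.T + 2 * P.S.K + 10 < A)

include hρ hRep h hA

theorem supP_tr {c : CR → ℕ} {st : St P.G (ℕ → Bool)} (hl : c .lev < P.T)
    (hrd : st.rd (c .lev + 1) < 2 * P.S.K) :
    Tr x cc A body ρ P Rep k₀ (supPC ρ op) c st
      (fun c' => c' .a = en (P.supP (c .lev) st).1 ∧ c' .jj = c .jj ∧ Kq c c')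
      (P.supP (c .lev) st).2 := by
  unfold supPC
  refine Tr.set hρ hRep (c .lev + 1) (by intro s hs; simp [hs]) (by omega) ?_
  have h1 := h.rdget (upd c .lp (c .lev + 1)) st (by simp; omega)
  simp only [upd_self] at h1
  refine Tr.cons h1 ?_
  rintro _ rfl
  refine Tr.set hρ hRep (st.rd (c .lev + 1) / 2) (by intro s hs; simp [hs]) (by omega) ?_
  set c₁ := upd (upd (upd c .lp (c .lev + 1)) .q (st.rd (c .lev + 1))) .ji
    (st.rd (c .lev + 1) / 2) with hc₁
  have e1 : c₁ .lp = c .lev + 1 := by simp [hc₁]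
  have e2 : c₁ .ji = st.rd (c .lev + 1) / 2 := by simp [hc₁]
  have h2 := h.use c₁ st (by rw [e1]; omega) (by rw [e2]; omega)
  rw [e1, e2] at h2
  refine Tr.cons h2 ?_
  rintro _ rfl
  have h3 := h.arg (upd c₁ .w (en (P.use (pos P.B (c .lev + 1)) (st.rd (c .lev + 1) / 2) st).1))
    (P.use (pos P.B (c .lev + 1)) (st.rd (c .lev + 1) / 2) st).2
    (P.use (pos P.B (c .lev + 1)) (st.rd (c .lev + 1) / 2) st).1
    (by simp only [ne_eq, reduceCtorEq, not_false_eq_true, upd_ne, e2]; omega) (by simp)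
  simp only [ne_eq, reduceCtorEq, not_false_eq_true, upd_ne, e2] at h3
  refine Tr.cons h3 ?_
  rintro _ rfl
  refine Tr.nil ⟨?_, ?_, ?_, ?_, ?_, ?_⟩
  · simp [Par.supP]
  all_goals simp [hc₁]

theorem sup_tr (hT : IsTop P.B P.T) {c : CR → ℕ} {st : St P.G (ℕ → Bool)} (hc : Cst P c)
    (hl : c .lev ≤ P.T) (hrd : c .lev < P.T → st.rd (c .lev + 1) < 2 * P.S.K) :
    Tr x cc A body ρ P Rep k₀ (supC ρ op) c st
      (fun c' => c' .a = en (P.sup (c .lev) st).1 ∧ c' .jj = c .jj ∧ Kq c c')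
      (P.sup (c .lev) st).2 := by
  unfold supC
  refine Tr.set hρ hRep (1 - ((c .lev + 1) % P.B)) (by intro s hs; simp [hs, hc.cB])
    (by omega) ?_
  by_cases ht : IsTop P.B (c .lev)
  · have ht' : (c .lev + 1) % P.B = 0 := ht
    refine Tr.last (Tr.iteT (by simp [ht']) ?_)
    refine Tr.set hρ hRep (c .lev) (by intro s hs; simp [hs]) (by omega) ?_
    set c₁ := upd (upd c .q (1 - ((c .lev + 1) % P.B))) .lp (c .lev) with hc₁
    have e1 : c₁ .lp = c .lev := by simp [hc₁]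
    have h1 := h.clget c₁ st (by rw [e1]; exact hl) (by rw [e1]; exact ht)
    rw [e1] at h1
    have e2 : P.sup (c .lev) st = (st.cl (c .lev), st) := by
      unfold Par.sup
      rw [if_pos ht]
    rw [e2]
    refine Tr.last (Tr.conseq h1 ?_)
    rintro _ rfl
    refine ⟨?_, ?_, ?_, ?_, ?_, ?_⟩ <;> simp [hc₁]
  · have ht' : (c .lev + 1) % P.B ≠ 0 := ht
    have hne : c .lev ≠ P.T := fun h' => ht (h' ▸ hT)
    have hlt : c .lev < P.T := by omega
    refine Tr.last (Tr.iteF (by simp; omega) ?_)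
    have h1 := supP_tr hρ hRep h hA (c := upd c .q (1 - ((c .lev + 1) % P.B))) (st := st)
      (by simpa using hlt) (by simpa using hrd hlt)
    have e2 : P.sup (c .lev) st = P.supP (c .lev) st := by
      unfold Par.sup
      rw [if_neg ht]
    rw [e2]
    simp only [ne_eq, reduceCtorEq, not_false_eq_true, upd_ne] at h1
    refine Tr.conseq h1 ?_
    rintro c' ⟨h2, h3, h4⟩
    exact ⟨h2, h3, ⟨by simpa using h4.lev, by simpa using h4.cB, by simpa using h4.cT,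
      by simpa using h4.cK⟩⟩

theorem act_tr {c : CR → ℕ} {st : St P.G (ℕ → Bool)} (hc : Cst P c)
    (hl : c .lev ≤ P.T) (hrd : c .lev < P.T → st.rd (c .lev + 1) < 2 * P.S.K) {v : X}
    (hv : c .v = en v) :
    Tr x cc A body ρ P Rep k₀ (actC ρ op) c st
      (fun c' => c' .jj = c .jj ∧ Kq c c') (P.act (c .lev) v st) := by
  unfold actC
  refine Tr.set hρ hRep (1 - ((c .lev - P.T) + (P.T - c .lev)))
    (by intro s hs; simp [hs, hc.cT]) (by omega) ?_
  set c₀ := upd c .q (1 - ((c .lev - P.T) + (P.T - c .lev))) with hc₀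
  by_cases ht : c .lev = P.T
  · refine Tr.last (Tr.iteT (by simp [hc₀, ht]) ?_)
    have h1 := h.test c₀ st v (by simp [hc₀, hv])
    have e2 : P.act (c .lev) v st =
        P.orFail st (@decide (¬P.acc v) (Classical.propDecidable _)) := by
      unfold Par.act
      rw [if_pos ht]
      congr
    rw [e2]
    refine Tr.conseq h1 ?_
    rintro _ rfl
    refine ⟨?_, ?_, ?_, ?_, ?_⟩ <;> simp [hc₀]
  · have hlt : c .lev < P.T := by omega
    have hr := hrd hlt
    refine Tr.last (Tr.iteF (by simp [hc₀]; omega) ?_)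
    refine Tr.set hρ hRep (c .lev + 1) (by intro s hs; simp [hs, hc₀]) (by omega) ?_
    set c₁ := upd c₀ .lp (c .lev + 1) with hc₁
    have e1 : c₁ .lp = c .lev + 1 := by simp [hc₁]
    have h1 := h.rdget c₁ st (by rw [e1]; omega)
    rw [e1] at h1
    refine Tr.cons h1 ?_
    rintro _ rfl
    refine Tr.set hρ hRep (st.rd (c .lev + 1) / 2) (by intro s hs; simp [hs]) (by omega) ?_
    set c₂ := upd (upd c₁ .q (st.rd (c .lev + 1))) .ji (st.rd (c .lev + 1) / 2) with hc₂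
    have e3 : c₂ .lp = c .lev + 1 := by simp [hc₂, hc₁]
    have e4 : c₂ .ji = st.rd (c .lev + 1) / 2 := by simp [hc₂]
    have h2 := h.use c₂ st (by rw [e3]; omega) (by rw [e4]; omega)
    rw [e3, e4] at h2
    refine Tr.cons h2 ?_
    rintro _ rfl
    set y := (P.use (pos P.B (c .lev + 1)) (st.rd (c .lev + 1) / 2) st).1 with hy
    set st₁ := (P.use (pos P.B (c .lev + 1)) (st.rd (c .lev + 1) / 2) st).2 with hst₁
    set c₃ := upd c₂ .w (en y) with hc₃
    have e5 : c₃ .ji = st.rd (c .lev + 1) / 2 := by simp [hc₃, e4]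
    have h3 := h.upd c₃ st₁ y v (by rw [e5]; omega) (by simp [hc₃])
      (by simp [hc₃, hc₂, hc₁, hc₀, hv])
    rw [e5] at h3
    refine Tr.cons h3 ?_
    rintro _ rfl
    refine Tr.set hρ hRep (st.rd (c .lev + 1) / 2 + 1) (by intro s hs; simp [hs, e5])
      (by omega) ?_
    refine Tr.set hρ hRep (st.rd (c .lev + 1) % 2)
      (by intro s hs; simp [hs, hc₃, hc₂]) (by omega) ?_
    set w := P.S.upd (st.rd (c .lev + 1) / 2) y v with hw
    set c₄ := upd (upd (upd c₃ .w (en w)) .ji (st.rd (c .lev + 1) / 2 + 1)) .e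
      (st.rd (c .lev + 1) % 2) with hc₄
    have e6 : c₄ .lp = c .lev + 1 := by simp [hc₄, hc₃, e3]
    have e7 : c₄ .ji = st.rd (c .lev + 1) / 2 + 1 := by simp [hc₄]
    have e8 : c₄ .w = en w := by simp [hc₄]
    have e9 : c₄ .cK = P.S.K := by simp [hc₄, hc₃, hc₂, hc₁, hc₀, hc.cK]
    by_cases hp : st.rd (c .lev + 1) % 2 = 0
    · refine Tr.last (Tr.iteF (by simp [hc₄, hp]) ?_)
      have h4 := h.store c₄ st₁ w (by rw [e6]; omega) (by rw [e7]; omega) e8
      rw [e6, e7] at h4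
      have e2 : P.act (c .lev) v st = P.store (c .lev + 1) (st.rd (c .lev + 1) / 2 + 1) w st₁ := by
        unfold Par.act
        rw [if_neg ht]
        simp only [hp, if_true]
        rfl
      rw [e2]
      refine Tr.conseq h4 ?_
      rintro _ rfl
      refine ⟨?_, ?_, ?_, ?_, ?_⟩ <;> simp [hc₄, hc₃, hc₂, hc₁, hc₀]
    · refine Tr.last (Tr.iteT (by simp only [hc₄, upd_self]; exact hp) ?_)
      have hcn : 1 + 5 * (1 - (1 - (P.S.K - (st.rd (c .lev + 1) / 2 + 1)))) =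
          cnt (P.S.K - (st.rd (c .lev + 1) / 2 + 1)) := by
        unfold cnt
        split_ifs <;> omega
      refine Tr.set hρ hRep (cnt (P.S.K - (st.rd (c .lev + 1) / 2 + 1)))
        (by intro s hs; rw [← hcn]; simp [hs, e7, e9])
        (by have := cnt_le (P.S.K - (st.rd (c .lev + 1) / 2 + 1)); omega) ?_
      set c₅ := upd c₄ .cn (cnt (P.S.K - (st.rd (c .lev + 1) / 2 + 1))) with hc₅
      have f1 : c₅ .lp = c .lev + 1 := by simp [hc₅, e6]
      have f2 : c₅ .ji = st.rd (c .lev + 1) / 2 + 1 := by simp [hc₅, e7]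
      have f3 : c₅ .w = en w := by simp [hc₅, e8]
      have f4 : c₅ .cn = cnt (P.S.K - (st.rd (c .lev + 1) / 2 + 1)) := by simp [hc₅]
      have h4 := h.check c₅ st₁ w (by rw [f1]; omega) (by rw [f2]; omega) f3
        (by rw [f4]; exact cnt_le _)
      rw [f1, f2, f4] at h4
      have e2 : P.act (c .lev) v st = P.check (c .lev + 1) (st.rd (c .lev + 1) / 2 + 1)
          (cnt (P.S.K - (st.rd (c .lev + 1) / 2 + 1))) w st₁ := by
        unfold Par.act
        rw [if_neg ht]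
        simp only [hp, if_false]
        rfl
      rw [e2]
      refine Tr.last (Tr.conseq h4 ?_)
      rintro _ rfl
      refine ⟨?_, ?_, ?_, ?_, ?_⟩ <;> simp [hc₅, hc₄, hc₃, hc₂, hc₁, hc₀]

omit hρ hRep h hA in
/-- The call of the procedure `run` on the level `t` does its work, with `k` nested calls. -/
def RunOK (x : List α) (cc : Cell α → ℕ) (A : ℕ) (body : F → NStmt R F) (ρ : CR → R)
    (φ : CF → F) (P : Par X (ℕ → Bool)) (Rep : (R → ℕ) → St P.G (ℕ → Bool) → Prop)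
    (k t : ℕ) : Prop :=
  ∀ c st, Cst P c → c .lev = t → (t < P.T → st.rd (t + 1) < 2 * P.S.K) →
    Tr x cc A body ρ P Rep k (Stmt.call (φ .run)) c st (fun c' => Kq c c') (P.run t st)

theorem seg_tr {φ : CF → F} (hseg : body (φ .seg) = segC ρ φ op) {k t : ℕ}
    (hk : k₀ ≤ k) (ht : t < P.T) (hrun : RunOK x cc A body ρ φ P Rep k t) :
    ∀ i j c st, Cst P c → c .lev = t + 1 → c .jj = j → i + j = P.S.K →
      (t + 1 < P.T → st.rd (t + 2) < 2 * P.S.K) →
      Tr x cc A body ρ P Rep (k + i) (segC ρ φ op) c st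
        (fun c' => c' .jj = c .jj ∧ Kq c c') (P.seg (P.run t) (t + 1) i j st) := by
  intro i
  induction i with
  | zero =>
    intro j c st hc hl hj hij hrd
    unfold segC
    refine Tr.set hρ hRep 0 (by intro s hs; simp [hs, hc.cK, hj]; omega) (by omega) ?_
    refine Tr.last (Tr.iteF (by simp) ?_)
    refine Tr.set hρ hRep (t + 1) (by intro s hs; simp [hs, hl]) (by omega) ?_
    refine Tr.set hρ hRep j (by intro s hs; simp [hs, hj]) (by omega) ?_
    set c₁ := upd (upd (upd c .e 0) .lp (t + 1)) .ji j with hc₁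
    have e1 : c₁ .lp = t + 1 := by simp [hc₁]
    have e2 : c₁ .ji = j := by simp [hc₁]
    have h1 := (h.use c₁ st (by rw [e1]; omega) (by rw [e2]; omega)).mono
      (show k₀ ≤ k + 0 by omega)
    rw [e1, e2] at h1
    refine Tr.cons h1 ?_
    rintro _ rfl
    set y := (P.use (pos P.B (t + 1)) j st).1 with hy
    set st₁ := (P.use (pos P.B (t + 1)) j st).2 with hst₁
    have h2 := (h.out (upd c₁ .w (en y)) st₁ y (by simp)).mono (show k₀ ≤ k + 0 by omega)
    refine Tr.cons h2 ?_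
    rintro _ rfl
    set c₂ := upd (upd c₁ .w (en y)) .v (en (P.S.out y)) with hc₂
    have e3 : c₂ .lev = t + 1 := by simp [hc₂, hc₁, hl]
    have hc' : Cst P c₂ := by
      constructor <;> simp [hc₂, hc₁, hc.cB, hc.cT, hc.cK]
    have h3 := (act_tr hρ hRep h hA (c := c₂) (st := st₁) hc' (by rw [e3]; omega)
      (by rw [e3]; intro h'; exact hrd h') (v := P.S.out y) (by simp [hc₂])).mono
      (show k₀ ≤ k + 0 by omega)
    rw [e3] at h3
    refine Tr.last (Tr.conseq h3 ?_)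
    rintro c' ⟨h4, h5⟩
    refine ⟨?_, ?_, ?_, ?_, ?_⟩
    · rw [h4]
      simp [hc₂, hc₁]
    · rw [h5.lev]
      simp [hc₂, hc₁]
    · rw [h5.cB]
      simp [hc₂, hc₁]
    · rw [h5.cT]
      simp [hc₂, hc₁]
    · rw [h5.cK]
      simp [hc₂, hc₁]
  | succ i ih =>
    intro j c st hc hl hj hij hrd
    unfold segC
    refine Tr.set hρ hRep (P.S.K - j) (by intro s hs; simp [hs, hc.cK, hj]) (by omega) ?_
    refine Tr.last (Tr.iteT (by simp; omega) ?_)
    refine Tr.set hρ hRep (t + 1) (by intro s hs; simp [hs, hl]) (by omega) ?_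
    refine Tr.set hρ hRep (2 * j) (by intro s hs; simp [hs, hj]) (by omega) ?_
    set c₁ := upd (upd (upd c .e (P.S.K - j)) .lp (t + 1)) .q (2 * j) with hc₁
    have e1 : c₁ .lp = t + 1 := by simp [hc₁]
    have e2 : c₁ .q = 2 * j := by simp [hc₁]
    have h1 := (h.rdset c₁ st (by rw [e1]; omega) (by rw [e2]; omega)).mono
      (show k₀ ≤ k + (i + 1) by omega)
    rw [e1, e2] at h1
    refine Tr.cons h1 ?_
    rintro _ rfl
    refine Tr.set hρ hRep t (by intro s hs; simp [hs, hc₁, hl]) (by omega) ?_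
    have hc1 : Cst P (upd c₁ .lev t) := by
      constructor <;> simp [hc₁, hc.cB, hc.cT, hc.cK]
    have h2 := (hrun (upd c₁ .lev t) (P.setRd st (t + 1) (2 * j)) hc1 (by simp)
      (by intro _; rw [Par.rd_setRd_self]; omega)).mono (show k ≤ k + (i + 1) by omega)
    refine Tr.cons h2 ?_
    intro c₂ hk₂
    have g1 : c₂ .lev = t := by rw [hk₂.lev]; simp
    have hc2 : Cst P c₂ := hc1.of_kq hk₂
    set st₂ := P.run t (P.setRd st (t + 1) (2 * j)) with hst₂
    have hrd2 : st₂.rd (t + 1) = 2 * j := by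
      rw [hst₂, Par.rdFix_run t _ (t + 1) (by omega), Par.rd_setRd_self]
    have hrd2' : t + 1 < P.T → st₂.rd (t + 2) < 2 * P.S.K := by
      intro h'
      rw [hst₂, Par.rdFix_run t _ (t + 2) (by omega), Par.rd_setRd_ne _ _ _ (by omega)]
      exact hrd h'
    refine Tr.set hρ hRep (t + 1) (by intro s hs; simp [hs, g1]) (by omega) ?_
    refine Tr.set hρ hRep (t + 1) (by intro s hs; simp [hs]) (by omega) ?_
    set c₃ := upd (upd c₂ .lev (t + 1)) .lp (t + 1) with hc₃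
    have e3 : c₃ .lp = t + 1 := by simp [hc₃]
    have h3 := (h.rdget c₃ st₂ (by rw [e3]; omega)).mono (show k₀ ≤ k + (i + 1) by omega)
    rw [e3, hrd2] at h3
    refine Tr.cons h3 ?_
    rintro _ rfl
    refine Tr.set hρ hRep (j + 1) (by intro s hs; simp [hs]) (by omega) ?_
    set c₄ := upd (upd c₃ .q (2 * j)) .jj (j + 1) with hc₄
    have hc4 : Cst P c₄ := by
      constructor <;> simp [hc₄, hc₃, hc2.cB, hc2.cT, hc2.cK]
    have h4 := Tr.call hseg (ih (j + 1) c₄ st₂ hc4 (by simp [hc₄, hc₃]) (by simp [hc₄])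
      (by omega) hrd2')
    refine Tr.cons h4 ?_
    rintro c₅ ⟨h5, hk₅⟩
    have g2 : c₅ .jj = j + 1 := by rw [h5]; simp [hc₄]
    have g3 : c₅ .lev = t + 1 := by rw [hk₅.lev]; simp [hc₄, hc₃]
    have hc5 : Cst P c₅ := hc4.of_kq hk₅
    set st₅ := P.seg (P.run t) (t + 1) i (j + 1) st₂ with hst₅
    have hrd5 : t + 1 < P.T → st₅.rd (t + 2) < 2 * P.S.K := by
      intro h'
      rw [hst₅, Par.rdFix_seg (Par.rdFix_run t) _ _ _ (t + 2) (by omega)]
      exact hrd2' h'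
    refine Tr.set hρ hRep j (by intro s hs; simp [hs, g2]) (by omega) ?_
    refine Tr.set hρ hRep (t + 1) (by intro s hs; simp [hs, g3]) (by omega) ?_
    refine Tr.set hρ hRep (2 * j + 1) (by intro s hs; simp [hs]) (by omega) ?_
    set c₆ := upd (upd (upd c₅ .jj j) .lp (t + 1)) .q (2 * j + 1) with hc₆
    have e4 : c₆ .lp = t + 1 := by simp [hc₆]
    have e5 : c₆ .q = 2 * j + 1 := by simp [hc₆]
    have h6 := (h.rdset c₆ st₅ (by rw [e4]; omega) (by rw [e5]; omega)).mono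
      (show k₀ ≤ k + (i + 1) by omega)
    rw [e4, e5] at h6
    refine Tr.cons h6 ?_
    rintro _ rfl
    refine Tr.set hρ hRep t (by intro s hs; simp [hs, hc₆, g3]) (by omega) ?_
    have hc6 : Cst P (upd c₆ .lev t) := by
      constructor <;> simp [hc₆, hc5.cB, hc5.cT, hc5.cK]
    have h7 := (hrun (upd c₆ .lev t) (P.setRd st₅ (t + 1) (2 * j + 1)) hc6 (by simp)
      (by intro _; rw [Par.rd_setRd_self]; omega)).mono (show k ≤ k + (i + 1) by omega)
    refine Tr.cons h7 ?_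
    intro c₇ hk₇
    have g4 : c₇ .lev = t := by rw [hk₇.lev]; simp
    have hc7 : Cst P c₇ := hc6.of_kq hk₇
    set st₇ := P.run t (P.setRd st₅ (t + 1) (2 * j + 1)) with hst₇
    have hrd7 : st₇.rd (t + 1) = 2 * j + 1 := by
      rw [hst₇, Par.rdFix_run t _ (t + 1) (by omega), Par.rd_setRd_self]
    refine Tr.set hρ hRep (t + 1) (by intro s hs; simp [hs, g4]) (by omega) ?_
    refine Tr.set hρ hRep (t + 1) (by intro s hs; simp [hs]) (by omega) ?_
    set c₈ := upd (upd c₇ .lev (t + 1)) .lp (t + 1) with hc₈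
    have e6 : c₈ .lp = t + 1 := by simp [hc₈]
    have h8 := (h.rdget c₈ st₇ (by rw [e6]; omega)).mono (show k₀ ≤ k + (i + 1) by omega)
    rw [e6, hrd7] at h8
    refine Tr.cons h8 ?_
    rintro _ rfl
    refine Tr.set hρ hRep j (by intro s hs; simp [hs]; omega) (by omega) ?_
    refine Tr.nil ⟨?_, ?_, ?_, ?_, ?_⟩
    · simp [hj]
    · simp [hc₈, hl]
    · simp [hc₈, hc7.cB, hc.cB]
    · simp [hc₈, hc7.cT, hc.cT]
    · simp [hc₈, hc7.cK, hc.cK]

theorem body_tr {φ : CF → F} (hseg : body (φ .seg) = segC ρ φ op) (hT : IsTop P.B P.T)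
    {k t : ℕ} (hk : k₀ ≤ k) (ht : t < P.T) (hrun : RunOK x cc A body ρ φ P Rep k t)
    {c : CR → ℕ} {st : St P.G (ℕ → Bool)} (hc : Cst P c) (hl : c .lev = t + 1)
    (hrd : t + 1 < P.T → st.rd (t + 2) < 2 * P.S.K) :
    Tr x cc A body ρ P Rep (k + P.S.K + 1) (bodyC ρ φ op) c st (fun c' => Kq c c')
      (P.body (t + 1) st) := by
  unfold bodyC
  refine Tr.iteT (by rw [hl]; omega) ?_
  have hk' : k₀ ≤ k + P.S.K + 1 := by omega
  have h1 := (sup_tr hρ hRep h hA hT (c := c) (st := st) hc (by rw [hl]; omega)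
    (by rw [hl]; exact hrd)).mono hk'
  rw [hl] at h1
  refine Tr.cons h1 ?_
  rintro c₁ ⟨ha, hj, hk₁⟩
  have hc1 : Cst P c₁ := hc.of_kq hk₁
  have hl1 : c₁ .lev = t + 1 := by rw [hk₁.lev, hl]
  set st₁ := (P.sup (t + 1) st).2 with hst₁
  have hrd1 : st₁.rd = st.rd := by simp [hst₁]
  set y := (P.sup (t + 1) st).1 with hy
  refine Tr.cons ((h.ini c₁ st₁ y ha).mono hk') ?_
  rintro _ rfl
  refine Tr.set hρ hRep (t + 1) (by intro s hs; simp [hs, hl1]) (by omega) ?_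
  refine Tr.set hρ hRep 0 (by intro s hs; simp) (by omega) ?_
  set c₂ := upd (upd (upd c₁ .w (en (P.S.ini y))) .lp (t + 1)) .ji 0 with hc₂
  have e1 : c₂ .lp = t + 1 := by simp [hc₂]
  have e2 : c₂ .ji = 0 := by simp [hc₂]
  have h2 := (h.store c₂ st₁ (P.S.ini y) (by rw [e1]; omega) (by rw [e2]; omega)
    (by simp [hc₂])).mono hk'
  rw [e1, e2] at h2
  refine Tr.cons h2 ?_
  rintro _ rfl
  refine Tr.set hρ hRep 0 (by intro s hs; simp) (by omega) ?_
  set st₂ := P.store (t + 1) 0 (P.S.ini y) st₁ with hst₂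
  have hrd2 : st₂.rd = st.rd := by rw [hst₂, Par.rd_store, hrd1]
  set c₃ := upd c₂ .jj 0 with hc₃
  have hc3 : Cst P c₃ := by
    constructor <;> simp [hc₃, hc₂, hc1.cB, hc1.cT, hc1.cK]
  have h3 := (Tr.call hseg (seg_tr hρ hRep h hA hseg hk ht hrun P.S.K 0 c₃ st₂ hc3
    (by simp [hc₃, hc₂, hl1]) (by simp [hc₃]) (by omega) (by rw [hrd2]; exact hrd)))
  refine Tr.cons h3 ?_
  rintro c₄ ⟨-, hk₄⟩
  have hc4 : Cst P c₄ := hc3.of_kq hk₄
  have hl4 : c₄ .lev = t + 1 := by rw [hk₄.lev]; simp [hc₃, hc₂, hl1]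
  set st₄ := P.seg (P.run t) (t + 1) P.S.K 0 st₂ with hst₄
  have hrd4 : t + 1 < P.T → st₄.rd (t + 2) < 2 * P.S.K := by
    intro h'
    rw [hst₄, Par.rdFix_seg (Par.rdFix_run t) _ _ _ (t + 2) (by omega), hrd2]
    exact hrd h'
  have h4 := (sup_tr hρ hRep h hA hT (c := c₄) (st := st₄) hc4 (by rw [hl4]; omega)
    (by rw [hl4]; exact hrd4)).mono hk'
  rw [hl4] at h4
  refine Tr.cons h4 ?_
  rintro c₅ ⟨ha5, -, hk₅⟩
  have hc5 : Cst P c₅ := hc4.of_kq hk₅
  have hl5 : c₅ .lev = t + 1 := by rw [hk₅.lev, hl4]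
  set st₅ := (P.sup (t + 1) st₄).2 with hst₅
  set y' := (P.sup (t + 1) st₄).1 with hy'
  refine Tr.cons ((h.ini c₅ st₅ y' ha5).mono hk') ?_
  rintro _ rfl
  refine Tr.set hρ hRep (t + 1) (by intro s hs; simp [hs, hl5]) (by omega) ?_
  refine Tr.set hρ hRep 0 (by intro s hs; simp) (by omega) ?_
  have hcn : 1 + 5 * (1 - (1 - P.S.K)) = cnt P.S.K := by
    unfold cnt
    split_ifs <;> omega
  refine Tr.set hρ hRep (cnt P.S.K) (by intro s hs; rw [← hcn]; simp [hs, hc5.cK])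
    (by have := cnt_le P.S.K; omega) ?_
  set c₆ := upd (upd (upd (upd c₅ .w (en (P.S.ini y'))) .lp (t + 1)) .ji 0) .cn (cnt P.S.K)
    with hc₆
  have f1 : c₆ .lp = t + 1 := by simp [hc₆]
  have f2 : c₆ .ji = 0 := by simp [hc₆]
  have f3 : c₆ .w = en (P.S.ini y') := by simp [hc₆]
  have f4 : c₆ .cn = cnt P.S.K := by simp [hc₆]
  have h5 := (h.check c₆ st₅ (P.S.ini y') (by rw [f1]; omega) (by rw [f2]; omega) f3
    (by rw [f4]; exact cnt_le _)).mono hk'
  rw [f1, f2, f4] at h5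
  refine Tr.last (Tr.conseq h5 ?_)
  rintro _ rfl
  constructor
  · simp [hc₆, hl5, hl]
  · simp [hc₆, hc5.cB, hc.cB]
  · simp [hc₆, hc5.cT, hc.cT]
  · simp [hc₆, hc5.cK, hc.cK]

theorem body0_tr {φ : CF → F} (hT : IsTop P.B P.T)
    {c : CR → ℕ} {st : St P.G (ℕ → Bool)} (hc : Cst P c) (hl : c .lev = 0)
    (hrd : 0 < P.T → st.rd 1 < 2 * P.S.K) :
    Tr x cc A body ρ P Rep k₀ (bodyC ρ φ op) c st (fun c' => Kq c c')
      (P.body 0 st) := by
  unfold bodyC
  refine Tr.iteF (by rw [hl]) ?_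
  have h1 := sup_tr hρ hRep h hA hT (c := c) (st := st) hc (by rw [hl]; omega)
    (by rw [hl]; exact hrd)
  rw [hl] at h1
  refine Tr.cons h1 ?_
  rintro c₁ ⟨ha, -, hk₁⟩
  have hc1 : Cst P c₁ := hc.of_kq hk₁
  have hl1 : c₁ .lev = 0 := by rw [hk₁.lev, hl]
  set st₁ := (P.sup 0 st).2 with hst₁
  have hrd1 : st₁.rd = st.rd := by simp [hst₁]
  set y := (P.sup 0 st).1 with hy
  refine Tr.cons (h.v0 c₁ st₁ y ha) ?_
  rintro _ rfl
  set c₂ := upd c₁ .v (en (P.S.V0 y)) with hc₂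
  have hc2 : Cst P c₂ := by
    constructor <;> simp [hc₂, hc1.cB, hc1.cT, hc1.cK]
  have hl2 : c₂ .lev = 0 := by simp [hc₂, hl1]
  have h2 := act_tr hρ hRep h hA (c := c₂) (st := st₁) hc2 (by rw [hl2]; omega)
    (by rw [hl2, hrd1]; exact hrd) (v := P.S.V0 y) (by simp [hc₂])
  rw [hl2] at h2
  refine Tr.cons h2 ?_
  rintro c₃ ⟨-, hk₃⟩
  have hc3 : Cst P c₃ := hc2.of_kq hk₃
  have hl3 : c₃ .lev = 0 := by rw [hk₃.lev, hl2]
  set st₃ := P.act 0 (P.S.V0 y) st₁ with hst₃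
  have hrd3 : st₃.rd = st.rd := by rw [hst₃, Par.rd_act, hrd1]
  have h3 := sup_tr hρ hRep h hA hT (c := c₃) (st := st₃) hc3 (by rw [hl3]; omega)
    (by rw [hl3, hrd3]; exact hrd)
  rw [hl3] at h3
  refine Tr.last (Tr.conseq h3 ?_)
  rintro c' ⟨-, -, hk₄⟩
  constructor
  · rw [hk₄.lev, hl3, hl]
  · rw [hk₄.cB, hc3.cB, hc.cB]
  · rw [hk₄.cT, hc3.cT, hc.cT]
  · rw [hk₄.cK, hc3.cK, hc.cK]

/-- From the body to the procedure. -/
theorem run_of_body {φ : CF → F} (hrunP : body (φ .run) = runC ρ φ op)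
    {k t : ℕ} (hk : k₀ ≤ k) (ht : t < P.T)
    (hb : ∀ c st, Cst P c → c .lev = t → (t < P.T → st.rd (t + 1) < 2 * P.S.K) →
      Tr x cc A body ρ P Rep k (bodyC ρ φ op) c st (fun c' => Kq c c') (P.body t st)) :
    RunOK x cc A body ρ φ P Rep (k + 1) t := by
  intro c st hc hl hrd
  have hr := hrd ht
  refine Tr.call hrunP ?_
  unfold runC
  refine Tr.set hρ hRep (1 - ((t + 1) % P.B)) (by intro s hs; simp [hs, hc.cB, hl])
    (by omega) ?_
  set c₁ := upd c .q (1 - ((t + 1) % P.B)) with hc₁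
  have hc1 : Cst P c₁ := by
    constructor <;> simp [hc₁, hc.cB, hc.cT, hc.cK]
  have hl1 : c₁ .lev = t := by simp [hc₁, hl]
  by_cases htop : IsTop P.B t
  · have ht' : (t + 1) % P.B = 0 := htop
    refine Tr.last (Tr.iteT (by simp [hc₁, ht']) ?_)
    have h1 := (supP_tr hρ hRep h hA (c := c₁) (st := st) (by rw [hl1]; exact ht)
      (by rw [hl1]; exact hr)).mono hk
    rw [hl1] at h1
    refine Tr.cons h1 ?_
    rintro c₂ ⟨ha, -, hk₂⟩
    have hc2 : Cst P c₂ := hc1.of_kq hk₂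
    have hl2 : c₂ .lev = t := by rw [hk₂.lev, hl1]
    refine Tr.set hρ hRep t (by intro s hs; simp [hs, hl2]) (by omega) ?_
    set c₃ := upd c₂ .lp t with hc₃
    have hc3 : Cst P c₃ := by
      constructor <;> simp [hc₃, hc2.cB, hc2.cT, hc2.cK]
    have hl3 : c₃ .lev = t := by simp [hc₃, hl2]
    have e1 : c₃ .lp = t := by simp [hc₃]
    set y := (P.supP t st).1 with hy
    set st₁ := (P.supP t st).2 with hst₁
    have h2 := (h.clset c₃ st₁ y (by rw [e1]; omega) (by rw [e1]; exact htop)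
      (by simp [hc₃, ha])).mono hk
    rw [e1] at h2
    refine Tr.cons h2 ?_
    rintro _ rfl
    set st₂ := P.setCl st₁ t y with hst₂
    have hrd2 : st₂.rd = st.rd := by rw [hst₂, Par.rd_setCl, hst₁, Par.rd_supP]
    refine Tr.cons (hb c₃ st₂ hc3 hl3 (by rw [hrd2]; exact hrd)) ?_
    intro c₄ hk₄
    have hc4 : Cst P c₄ := hc3.of_kq hk₄
    have hl4 : c₄ .lev = t := by rw [hk₄.lev, hl3]
    set st₄ := P.body t st₂ with hst₄
    have hrd4 : st₄.rd (t + 1) < 2 * P.S.K := by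
      rw [hst₄, Par.rdFix_body t _ (t + 1) (by omega), hrd2]
      exact hr
    have h5 := (supP_tr hρ hRep h hA (c := c₄) (st := st₄) (by rw [hl4]; exact ht)
      (by rw [hl4]; exact hrd4)).mono hk
    rw [hl4] at h5
    have e2 : P.run t st = (P.supP t st₄).2 := by
      unfold Par.run Par.wrap
      rw [if_pos htop]
    rw [e2]
    refine Tr.last (Tr.conseq h5 ?_)
    rintro c' ⟨-, -, hk₅⟩
    constructor
    · rw [hk₅.lev, hl4, hl]
    · rw [hk₅.cB, hc4.cB, hc.cB]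
    · rw [hk₅.cT, hc4.cT, hc.cT]
    · rw [hk₅.cK, hc4.cK, hc.cK]
  · have ht' : (t + 1) % P.B ≠ 0 := htop
    refine Tr.last (Tr.iteF (by simp [hc₁]; omega) ?_)
    have e2 : P.run t st = P.body t st := by
      unfold Par.run Par.wrap
      rw [if_neg htop]
    rw [e2]
    refine Tr.conseq (hb c₁ st hc1 hl1 hrd) ?_
    intro c' hk₅
    constructor
    · rw [hk₅.lev, hl1, hl]
    · rw [hk₅.cB, hc1.cB, hc.cB]
    · rw [hk₅.cT, hc1.cT, hc.cT]
    · rw [hk₅.cK, hc1.cK, hc.cK]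

/-- The body on the levels `t ≤ T`. -/
theorem main_tr {φ : CF → F} (hseg : body (φ .seg) = segC ρ φ op)
    (hrunP : body (φ .run) = runC ρ φ op) (hT : IsTop P.B P.T) :
    ∀ t, t ≤ P.T → ∀ c st, Cst P c → c .lev = t → (t < P.T → st.rd (t + 1) < 2 * P.S.K) →
      Tr x cc A body ρ P Rep (k₀ + t * (P.S.K + 2)) (bodyC ρ φ op) c st (fun c' => Kq c c')
        (P.body t st) := by
  intro t
  induction t with
  | zero =>
    intro _ c st hc hl hrd
    simpa using body0_tr hρ hRep h hA (φ := φ) hT hc hl hrd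
  | succ t ih =>
    intro ht c st hc hl hrd
    have h1 : RunOK x cc A body ρ φ P Rep (k₀ + t * (P.S.K + 2) + 1) t :=
      run_of_body hρ hRep h hA hrunP (by omega) (by omega) (ih (by omega))
    have h2 := body_tr hρ hRep h hA hseg hT (k := k₀ + t * (P.S.K + 2) + 1) (by omega)
      (by omega) h1 hc hl hrd
    refine h2.mono ?_
    have : k₀ + (t + 1) * (P.S.K + 2) = k₀ + t * (P.S.K + 2) + 1 + P.S.K + 1 := by ring
    omega

end

end Pool.Agent.Lib.MP_9277c3_lc.NS
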