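import Pool.Agent.Lib.MP_9277c3_lc.NS.Flow

/-!
# The functions of `Flow.lean` compute the relations of `Core.lean`
-/

set_option autoImplicit false

namespace Pool.Agent.Lib.MP_9277c3_lc.NS

open Classical

namespace FlowM

variable {X γ : Type} (P : Par X γ)

/-- The relation of the action of level `t`, if the round of the level above is `c`. -/
noncomputable def ActR (t c : ℕ) (τ : ZMod P.G.r) : Rel P.G :=
  if t = P.T then testAct P.G P.acc
  else if c % 2 = 0 then ActS P.S P.G (pos P.B (t + 1)) (c / 2) τ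
  else ActC P.S P.G (pos P.B (t + 1)) (c / 2) τ (cnt (P.S.K - (c / 2 + 1)))

/-- The relation of the argument for the body of level `t`. -/
def SupR (t c : ℕ) (a : X) : Rel P.G :=
  if IsTop P.B t then cstSup a else SupU P.S P.G (pos P.B (t + 1)) (c / 2)

theorem actR_even {t c j : ℕ} (h : t ≠ P.T) (hc : c = 2 * j) (τ : ZMod P.G.r) :
    ActR P t c τ = ActS P.S P.G (pos P.B (t + 1)) j τ := by
  unfold ActR
  rw [if_neg h, if_pos (by omega), show c / 2 = j by omega]

theorem actR_odd {t c j : ℕ} (h : t ≠ P.T) (hc : c = 2 * j + 1) (τ : ZMod P.G.r) :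
    ActR P t c τ = ActC P.S P.G (pos P.B (t + 1)) j τ (cnt (P.S.K - (j + 1))) := by
  unfold ActR
  rw [if_neg h, if_neg (by omega), show c / 2 = j by omega]

/-! ### The frame -/

/-- The frame of the body of level `t`. -/
structure Fr (t : ℕ) (st st' : St P.G γ) : Prop where
  rd : ∀ t', t + 1 ≤ t' → st'.rd t' = st.rd t'
  cl : ∀ t', t ≤ t' → st'.cl t' = st.cl t'
  tau1 : ∀ t', t + 1 < t' → ∀ j, st'.tau t' j = st.tau t' j
  tau2 : ∀ j, (j ≠ st.rd (t + 1) / 2 + 1 ∨ st.rd (t + 1) % 2 = 1) →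
    st'.tau (t + 1) j = st.tau (t + 1) j

/-- The frame of a run of level `t`. -/
structure FrR (t : ℕ) (st st' : St P.G γ) : Prop where
  rd : ∀ t', t + 1 ≤ t' → st'.rd t' = st.rd t'
  cl : ∀ t', t + 1 ≤ t' → st'.cl t' = st.cl t'
  tau1 : ∀ t', t + 1 < t' → ∀ j, st'.tau t' j = st.tau t' j
  tau2 : ∀ j, (j ≠ st.rd (t + 1) / 2 + 1 ∨ st.rd (t + 1) % 2 = 1) →
    st'.tau (t + 1) j = st.tau (t + 1) j

theorem use_tau (p j : ℕ) (st : St P.G γ) : (P.use p j st).2.tau = st.tau := rfl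
theorem use_rd (p j : ℕ) (st : St P.G γ) : (P.use p j st).2.rd = st.rd := rfl
theorem use_cl (p j : ℕ) (st : St P.G γ) : (P.use p j st).2.cl = st.cl := rfl
theorem use_fail (p j : ℕ) (st : St P.G γ) : (P.use p j st).2.fail = st.fail := rfl
theorem use_R (p j : ℕ) (st : St P.G γ) :
    (P.use p j st).2.R = addAt st.R p j (P.G.d (P.use p j st).1) := rfl

theorem act_top {t : ℕ} (h : t = P.T) (v : X) (st : St P.G γ) :
    P.act t v st = P.orFail st (decide (¬P.acc v)) := by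
  unfold Par.act
  rw [if_pos h]

theorem act_even {t : ℕ} (h : t ≠ P.T) (v : X) (st : St P.G γ) (hc : st.rd (t + 1) % 2 = 0) :
    P.act t v st = P.store (t + 1) (st.rd (t + 1) / 2 + 1)
      (P.S.upd (st.rd (t + 1) / 2) (P.use (pos P.B (t + 1)) (st.rd (t + 1) / 2) st).1 v)
      (P.use (pos P.B (t + 1)) (st.rd (t + 1) / 2) st).2 := by
  unfold Par.act
  rw [if_neg h]
  simp only [hc, if_true]

theorem act_odd {t : ℕ} (h : t ≠ P.T) (v : X) (st : St P.G γ) (hc : ¬ st.rd (t + 1) % 2 = 0) :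
    P.act t v st = P.check (t + 1) (st.rd (t + 1) / 2 + 1) (cnt (P.S.K - (st.rd (t + 1) / 2 + 1)))
      (P.S.upd (st.rd (t + 1) / 2) (P.use (pos P.B (t + 1)) (st.rd (t + 1) / 2) st).1 v)
      (P.use (pos P.B (t + 1)) (st.rd (t + 1) / 2) st).2 := by
  unfold Par.act
  rw [if_neg h]
  simp only [hc, if_false]

theorem act_frame (t : ℕ) (v : X) (st : St P.G γ) :
    (P.act t v st).rd = st.rd ∧ (P.act t v st).cl = st.cl ∧
    (∀ t' j, (t' ≠ t + 1 ∨ j ≠ st.rd (t + 1) / 2 + 1 ∨ st.rd (t + 1) % 2 = 1) →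
      (P.act t v st).tau t' j = st.tau t' j) := by
  by_cases h : t = P.T
  · rw [act_top P h]
    exact ⟨rfl, rfl, fun _ _ _ => rfl⟩
  · by_cases hc : st.rd (t + 1) % 2 = 0
    · rw [act_even P h v st hc]
      refine ⟨rfl, rfl, fun t' j hj => ?_⟩
      unfold Par.store Par.setTau
      simp only
      rw [if_neg]
      · rfl
      · rintro ⟨h1, h2⟩
        rcases hj with hj | hj | hj
        · exact hj h1
        · exact hj h2
        · omega
    · rw [act_odd P h v st hc]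
      exact ⟨rfl, rfl, fun _ _ _ => rfl⟩

theorem supP_frame (t : ℕ) (st : St P.G γ) :
    (P.supP t st).2.rd = st.rd ∧ (P.supP t st).2.cl = st.cl ∧ (P.supP t st).2.tau = st.tau ∧
      (P.supP t st).2.fail = st.fail := ⟨rfl, rfl, rfl, rfl⟩

theorem sup_frame (t : ℕ) (st : St P.G γ) :
    (P.sup t st).2.rd = st.rd ∧ (P.sup t st).2.cl = st.cl ∧ (P.sup t st).2.tau = st.tau ∧
      (P.sup t st).2.fail = st.fail := by
  unfold Par.sup
  split_ifs
  · exact ⟨rfl, rfl, rfl, rfl⟩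
  · exact supP_frame P t st

theorem body0_frame (st : St P.G γ) : Fr P 0 st (P.body0 st) := by
  unfold Par.body0
  obtain ⟨a1, a2, a3, a4⟩ := sup_frame P 0 st
  obtain ⟨b1, b2, b3⟩ := act_frame P 0 (P.S.V0 (P.sup 0 st).1) (P.sup 0 st).2
  obtain ⟨c1, c2, c3, c4⟩ := sup_frame P 0 (P.act 0 (P.S.V0 (P.sup 0 st).1) (P.sup 0 st).2)
  refine ⟨fun t' _ => ?_, fun t' _ => ?_, fun t' ht j => ?_, fun j hj => ?_⟩
  · rw [c1, b1, a1]
  · rw [c2, b2, a2]
  · rw [c3, b3 t' j (Or.inl (by omega)), a3]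
  · rw [c3, b3 _ j (Or.inr (by rw [a1]; exact hj)), a3]

theorem wrap_frame {t : ℕ} {f : St P.G γ → St P.G γ} (hf : ∀ st, Fr P t st (f st))
    (st : St P.G γ) : FrR P t st (P.wrap t f st) := by
  unfold Par.wrap
  split_ifs with h
  · set st1 := P.setCl (P.supP t st).2 t (P.supP t st).1 with hst1
    have h1 := hf st1
    obtain ⟨c1, c2, c3, c4⟩ := supP_frame P t (f st1)
    have e1 : st1.rd = st.rd := rfl
    have e3 : st1.tau = st.tau := rfl
    have e2 : ∀ t', t + 1 ≤ t' → st1.cl t' = st.cl t' := by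
      intro t' ht
      have : st1.cl t' = if t' = t then (P.supP t st).1 else st.cl t' := rfl
      rw [this, if_neg (by omega)]
    refine ⟨fun t' ht => ?_, fun t' ht => ?_, fun t' ht j => ?_, fun j hj => ?_⟩
    · rw [c1, h1.rd t' ht, e1]
    · rw [c2, h1.cl t' (by omega), e2 t' ht]
    · rw [c3, h1.tau1 t' ht, e3]
    · rw [c3, h1.tau2 j (by rw [e1]; exact hj), e3]
  · have h1 := hf st
    exact ⟨h1.rd, fun t' ht => h1.cl t' (by omega), h1.tau1, h1.tau2⟩

theorem setRd_rd_self (st : St P.G γ) (t c : ℕ) : (P.setRd st t c).rd t = c := by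
  show (if t = t then c else st.rd t) = c
  rw [if_pos rfl]

theorem setRd_rd_ne (st : St P.G γ) {t t' : ℕ} (c : ℕ) (h : t' ≠ t) :
    (P.setRd st t c).rd t' = st.rd t' := by
  show (if t' = t then c else st.rd t') = st.rd t'
  rw [if_neg h]

theorem seg_frame {t : ℕ} {f : St P.G γ → St P.G γ} (hf : ∀ st, FrR P t st (f st)) :
    ∀ i j st, Fr P (t + 1) st (P.seg f (t + 1) i j st) ∧
      ∀ j' ≤ j, (P.seg f (t + 1) i j st).tau (t + 1) j' = st.tau (t + 1) j' := by
  intro i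
  induction i with
  | zero =>
    intro j st
    obtain ⟨b1, b2, b3⟩ := act_frame P (t + 1) (P.S.out (P.use (pos P.B (t + 1)) j st).1)
      (P.use (pos P.B (t + 1)) j st).2
    have e : P.seg f (t + 1) 0 j st = P.act (t + 1) (P.S.out (P.use (pos P.B (t + 1)) j st).1)
      (P.use (pos P.B (t + 1)) j st).2 := rfl
    rw [e]
    refine ⟨⟨fun t' _ => ?_, fun t' _ => ?_, fun t' ht j => ?_, fun j hj => ?_⟩,
      fun j' _ => ?_⟩
    · rw [b1, use_rd]
    · rw [b2, use_cl]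
    · rw [b3 t' j (Or.inl (by omega)), use_tau]
    · rw [b3 _ j (Or.inr hj), use_tau]
    · rw [b3 _ j' (Or.inl (by omega)), use_tau]
  | succ i ih =>
    intro j st
    set st1 := P.setRd st (t + 1) (2 * j) with h1
    set st2 := f st1 with h2
    set st3 := P.seg f (t + 1) i (j + 1) st2 with h3
    set st4 := P.setRd st3 (t + 1) (2 * j + 1) with h4
    have e : P.seg f (t + 1) (i + 1) j st = f st4 := rfl
    rw [e]
    obtain ⟨F3, F3'⟩ := ih (j + 1) st2
    have F2 := hf st1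
    have F5 := hf st4
    have r1 : st1.rd (t + 1) = 2 * j := setRd_rd_self P st (t + 1) (2 * j)
    have r4 : st4.rd (t + 1) = 2 * j + 1 := setRd_rd_self P st3 (t + 1) (2 * j + 1)
    have r1' : ∀ t', t + 1 < t' → st1.rd t' = st.rd t' := fun t' ht =>
      setRd_rd_ne P st _ (by omega)
    have r4' : ∀ t', t + 1 < t' → st4.rd t' = st3.rd t' := fun t' ht =>
      setRd_rd_ne P st3 _ (by omega)
    have q1 : st1.tau = st.tau := rfl
    have q4 : st4.tau = st3.tau := rfl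
    have w1 : st1.cl = st.cl := rfl
    have w4 : st4.cl = st3.cl := rfl
    refine ⟨⟨fun t' ht => ?_, fun t' ht => ?_, fun t' ht j' => ?_, fun j' hj => ?_⟩,
      fun j' hj => ?_⟩
    · rw [F5.rd t' (by omega), r4' t' (by omega), F3.rd t' ht, F2.rd t' (by omega),
        r1' t' (by omega)]
    · rw [F5.cl t' (by omega), w4, F3.cl t' ht, F2.cl t' ht, w1]
    · rw [F5.tau1 t' (by omega), q4, F3.tau1 t' ht, F2.tau1 t' (by omega), q1]
    · have hr : st2.rd (t + 1 + 1) = st.rd (t + 1 + 1) := by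
        rw [F2.rd _ (by omega), r1' _ (by omega)]
      rw [F5.tau1 _ (by omega), q4, F3.tau2 j' (by rw [hr]; exact hj), F2.tau1 _ (by omega), q1]
    · rw [F5.tau2 j' (Or.inr (by rw [r4]; omega)), q4, F3' j' (by omega),
        F2.tau2 j' (Or.inl (by rw [r1]; omega)), q1]

theorem check_frame (t j n : ℕ) (s : X) (st : St P.G γ) :
    (P.check t j n s st).rd = st.rd ∧ (P.check t j n s st).cl = st.cl ∧
    (P.check t j n s st).tau = st.tau := ⟨rfl, rfl, rfl⟩

theorem store_tau_ne (t j : ℕ) (s : X) (st : St P.G γ) (t' j' : ℕ) (h : t' ≠ t ∨ j' ≠ j) :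
    (P.store t j s st).tau t' j' = st.tau t' j' := by
  show (if t' = t ∧ j' = j then _ else st.tau t' j') = st.tau t' j'
  rw [if_neg]
  rintro ⟨h1, h2⟩
  rcases h with h | h
  · exact h h1
  · exact h h2

theorem store_tau_self (t j : ℕ) (s : X) (st : St P.G γ) :
    (P.store t j s st).tau t j = P.G.ev s (st.R (pos P.B t) j) := by
  show (if t = t ∧ j = j then _ else st.tau t j) = _
  rw [if_pos ⟨rfl, rfl⟩]

theorem bodyS_frame {t : ℕ} {f : St P.G γ → St P.G γ} (hf : ∀ st, FrR P t st (f st))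
    (st : St P.G γ) : Fr P (t + 1) st (P.bodyS f (t + 1) st) := by
  unfold Par.bodyS
  simp only
  set st0 := (P.sup (t + 1) st).2 with h0
  set st1 := P.store (t + 1) 0 (P.S.ini (P.sup (t + 1) st).1) st0 with h1
  set st2 := P.seg f (t + 1) P.S.K 0 st1 with h2
  set st3 := (P.sup (t + 1) st2).2 with h3
  obtain ⟨a1, a2, a3, _⟩ := sup_frame P (t + 1) st
  obtain ⟨F2, F2'⟩ := seg_frame P hf P.S.K 0 st1
  obtain ⟨c1, c2, c3, _⟩ := sup_frame P (t + 1) st2
  obtain ⟨d1, d2, d3⟩ := check_frame P (t + 1) 0 (cnt P.S.K) (P.S.ini (P.sup (t + 1) st2).1) st3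
  have b1 : st1.rd = st0.rd := rfl
  have b2 : st1.cl = st0.cl := rfl
  refine ⟨fun t' ht => ?_, fun t' ht => ?_, fun t' ht j => ?_, fun j hj => ?_⟩
  · rw [d1, c1, F2.rd t' ht, b1, a1]
  · rw [d2, c2, F2.cl t' ht, b2, a2]
  · rw [d3, c3, F2.tau1 t' ht, h1, store_tau_ne P _ _ _ _ _ _ (Or.inl (by omega)), a3]
  · rw [d3, c3, F2.tau2 j (by rw [b1, a1]; exact hj), h1,
      store_tau_ne P _ _ _ _ _ _ (Or.inl (by omega)), a3]

theorem body_frame (t : ℕ) (st : St P.G γ) : Fr P t st (P.body t st) := by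
  induction t generalizing st with
  | zero => exact body0_frame P st
  | succ t ih => exact bodyS_frame P (wrap_frame P ih) st

theorem run_frame (t : ℕ) (st : St P.G γ) : FrR P t st (P.run t st) :=
  wrap_frame P (body_frame P t) st

/-! ### Soundness -/

theorem orFail_false {st : St P.G γ} {b : Bool} (h : (P.orFail st b).fail = false) :
    st.fail = false ∧ b = false := by
  have h' : (st.fail || b) = false := h
  simpa using h'

theorem act_sound (t : ℕ) (v : X) (st : St P.G γ) (h : (P.act t v st).fail = false) :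
    st.fail = false ∧ ActR P t (st.rd (t + 1)) ((P.act t v st).tau (t + 1) (st.rd (t + 1) / 2 + 1))
      st.R v (P.act t v st).R := by
  by_cases ht : t = P.T
  · rw [act_top P ht] at h ⊢
    obtain ⟨h1, h2⟩ := orFail_false P h
    refine ⟨h1, ?_⟩
    unfold ActR
    rw [if_pos ht]
    exact ⟨by simpa using h2, rfl⟩
  · by_cases hc : st.rd (t + 1) % 2 = 0
    · rw [act_even P ht v st hc] at h ⊢
      refine ⟨h, ?_⟩
      rw [actR_even P ht (j := st.rd (t + 1) / 2) (by omega), store_tau_self]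
      refine ⟨(P.use (pos P.B (t + 1)) (st.rd (t + 1) / 2) st).1, ?_, rfl⟩
      rw [use_R, addAt_ne' _ _ _ (by omega)]
    · rw [act_odd P ht v st hc] at h ⊢
      obtain ⟨h1, h2⟩ := orFail_false P (b := decide (P.G.ev (P.S.upd (st.rd (t + 1) / 2)
        (P.use (pos P.B (t + 1)) (st.rd (t + 1) / 2) st).1 v)
        ((P.use (pos P.B (t + 1)) (st.rd (t + 1) / 2) st).2.R (pos P.B (t + 1))
          (st.rd (t + 1) / 2 + 1)) ≠ 0)) h
      refine ⟨h1, ?_⟩
      rw [actR_odd P ht (j := st.rd (t + 1) / 2) (by omega)]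
      refine ⟨(P.use (pos P.B (t + 1)) (st.rd (t + 1) / 2) st).1, ?_, rfl⟩
      rw [use_R, addAt_ne' _ _ _ (by omega)] at h2
      simpa using h2

theorem supP_sound (t : ℕ) (st : St P.G γ) :
    SupU P.S P.G (pos P.B (t + 1)) (st.rd (t + 1) / 2) st.R (P.supP t st).1 (P.supP t st).2.R :=
  ⟨(P.use (pos P.B (t + 1)) (st.rd (t + 1) / 2) st).1, rfl, rfl⟩

theorem sup_sound (t : ℕ) (st : St P.G γ) :
    SupR P t (st.rd (t + 1)) (st.cl t) st.R (P.sup t st).1 (P.sup t st).2.R := by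
  unfold Par.sup SupR
  split_ifs
  · exact ⟨rfl, rfl⟩
  · exact supP_sound P t st

/-- Soundness of a function for the body of level `t`. -/
def SB (t : ℕ) (f : St P.G γ → St P.G γ) (ρ : Rel P.G → Rel P.G → Reg P.G → Reg P.G → Prop) :
    Prop :=
  ∀ st, (f st).fail = false → st.fail = false ∧
    ρ (SupR P t (st.rd (t + 1)) (st.cl t))
      (ActR P t (st.rd (t + 1)) ((f st).tau (t + 1) (st.rd (t + 1) / 2 + 1))) st.R (f st).R

/-- Soundness of a function for a run of level `t`. -/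
def SR (t : ℕ) (f : St P.G γ → St P.G γ) (ρ : Rel P.G → Rel P.G → Reg P.G → Reg P.G → Prop) :
    Prop :=
  ∀ st, (f st).fail = false → st.fail = false ∧
    ρ (SupU P.S P.G (pos P.B (t + 1)) (st.rd (t + 1) / 2))
      (ActR P t (st.rd (t + 1)) ((f st).tau (t + 1) (st.rd (t + 1) / 2 + 1))) st.R (f st).R

theorem body0_ok : SB P 0 P.body0 (Body0 P.S) := by
  intro st h
  unfold Par.body0 at h ⊢
  set st0 := (P.sup 0 st).2 with h0
  set st1 := P.act 0 (P.S.V0 (P.sup 0 st).1) st0 with h1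
  obtain ⟨a1, a2, a3, a4⟩ := sup_frame P 0 st
  obtain ⟨b1, b2, b3⟩ := act_frame P 0 (P.S.V0 (P.sup 0 st).1) st0
  obtain ⟨c1, c2, c3, c4⟩ := sup_frame P 0 st1
  rw [c4] at h
  obtain ⟨h2, h3⟩ := act_sound P 0 _ _ h
  rw [a4] at h2
  refine ⟨h2, (P.sup 0 st).1, (P.sup 0 st1).1, st0.R, st1.R, sup_sound P 0 st, ?_, ?_⟩
  · rw [a1] at h3
    rw [c3]
    exact h3
  · have := sup_sound P 0 st1
    rw [b1, b2, a1, a2] at this
    exact this

theorem wrap_ok {t : ℕ} {f : St P.G γ → St P.G γ}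
    {ρ : Rel P.G → Rel P.G → Reg P.G → Reg P.G → Prop} (hF : ∀ st, Fr P t st (f st))
    (hf : SB P t f ρ) : SR P t (P.wrap t f) (Wrap P.G P.B t ρ) := by
  intro st h
  unfold Par.wrap at h ⊢
  unfold Wrap
  by_cases ht : IsTop P.B t
  · simp only [if_pos ht] at h ⊢
    set st1 := P.setCl (P.supP t st).2 t (P.supP t st).1 with hst1
    obtain ⟨c1, c2, c3, c4⟩ := supP_frame P t (f st1)
    rw [c4] at h
    obtain ⟨h1, h2⟩ := hf st1 h
    have F := hF st1
    refine ⟨h1, (P.supP t st).1, (P.supP t (f st1)).1, (P.supP t st).2.R, (f st1).R,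
      supP_sound P t st, ?_, ?_⟩
    · have e1 : st1.cl t = (P.supP t st).1 := by
        show (if t = t then (P.supP t st).1 else _) = _
        rw [if_pos rfl]
      have e2 : st1.rd = st.rd := rfl
      have e3 : SupR P t (st1.rd (t + 1)) (st1.cl t) = cstSup (P.supP t st).1 := by
        unfold SupR
        rw [if_pos ht, e1]
      rw [e3, e2] at h2
      rw [c3]
      exact h2
    · have := supP_sound P t (f st1)
      rw [F.rd _ le_rfl] at this
      exact this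
  · simp only [if_neg ht] at h ⊢
    obtain ⟨h1, h2⟩ := hf st h
    refine ⟨h1, ?_⟩
    unfold SupR at h2
    rw [if_neg ht] at h2
    exact h2

theorem seg_ok {t : ℕ} (htT : t ≠ P.T) {f : St P.G γ → St P.G γ}
    {ρ : Rel P.G → Rel P.G → Reg P.G → Reg P.G → Prop} (hF : ∀ st, FrR P t st (f st))
    (hf : SR P t f ρ) : ∀ i j st, i + j = P.S.K → (P.seg f (t + 1) i j st).fail = false →
      st.fail = false ∧ Seg P.S ρ (pos P.B (t + 1))
        (ActR P (t + 1) (st.rd (t + 1 + 1))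
          ((P.seg f (t + 1) i j st).tau (t + 1 + 1) (st.rd (t + 1 + 1) / 2 + 1)))
        i j st.R (P.seg f (t + 1) i j st).R := by
  intro i
  induction i with
  | zero =>
    intro j st _ h
    have e : P.seg f (t + 1) 0 j st = P.act (t + 1) (P.S.out (P.use (pos P.B (t + 1)) j st).1)
      (P.use (pos P.B (t + 1)) j st).2 := rfl
    rw [e] at h ⊢
    obtain ⟨h1, h2⟩ := act_sound P (t + 1) _ _ h
    exact ⟨h1, (P.use (pos P.B (t + 1)) j st).1, h2⟩
  | succ i ih =>
    intro j st hij h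
    set st1 := P.setRd st (t + 1) (2 * j) with h1
    set st2 := f st1 with h2
    set st3 := P.seg f (t + 1) i (j + 1) st2 with h3
    set st4 := P.setRd st3 (t + 1) (2 * j + 1) with h4
    have e : P.seg f (t + 1) (i + 1) j st = f st4 := rfl
    rw [e] at h ⊢
    have F2 := hF st1
    have F5 := hF st4
    obtain ⟨F3, F3'⟩ := seg_frame P hF i (j + 1) st2
    have r1 : st1.rd (t + 1) = 2 * j := setRd_rd_self P st (t + 1) (2 * j)
    have r4 : st4.rd (t + 1) = 2 * j + 1 := setRd_rd_self P st3 (t + 1) (2 * j + 1)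
    have r1' : st1.rd (t + 1 + 1) = st.rd (t + 1 + 1) := setRd_rd_ne P st _ (by omega)
    obtain ⟨g4, k4⟩ := hf st4 h
    obtain ⟨g2, k3⟩ := ih (j + 1) st2 (by omega) g4
    obtain ⟨g1, k2⟩ := hf st1 g2
    refine ⟨g1, st2.tau (t + 1) (j + 1), st2.R, st3.R, ?_, ?_, ?_⟩
    · rw [r1, actR_even P htT (j := j) rfl, show 2 * j / 2 = j by omega] at k2
      exact k2
    · have e1 : st2.rd (t + 1 + 1) = st.rd (t + 1 + 1) := by
        rw [F2.rd _ (by omega), r1']
      have e2 : (f st4).tau (t + 1 + 1) = st3.tau (t + 1 + 1) := by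
        funext j'
        rw [F5.tau1 _ (by omega)]
        rfl
      rw [e2, ← e1]
      exact k3
    · rw [r4, actR_odd P htT (j := j) rfl, show (2 * j + 1) / 2 = j by omega] at k4
      have e3 : (f st4).tau (t + 1) (j + 1) = st2.tau (t + 1) (j + 1) := by
        rw [F5.tau2 _ (Or.inr (by rw [r4]; omega))]
        show st3.tau (t + 1) (j + 1) = _
        rw [F3' (j + 1) le_rfl]
      have e4 : P.S.K - (j + 1) = i := by omega
      rw [e3, e4] at k4
      exact k4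

theorem bodyS_ok {t : ℕ} (htT : t ≠ P.T) {f : St P.G γ → St P.G γ}
    {ρ : Rel P.G → Rel P.G → Reg P.G → Reg P.G → Prop} (hF : ∀ st, FrR P t st (f st))
    (hf : SR P t f ρ) : SB P (t + 1) (P.bodyS f (t + 1)) (BodyS P.S ρ (pos P.B (t + 1))) := by
  intro st h
  unfold Par.bodyS at h ⊢
  simp only at h ⊢
  set st0 := (P.sup (t + 1) st).2 with h0
  set st1 := P.store (t + 1) 0 (P.S.ini (P.sup (t + 1) st).1) st0 with h1
  set st2 := P.seg f (t + 1) P.S.K 0 st1 with h2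
  set st3 := (P.sup (t + 1) st2).2 with h3
  obtain ⟨a1, a2, a3, a4⟩ := sup_frame P (t + 1) st
  obtain ⟨F2, F2'⟩ := seg_frame P hF P.S.K 0 st1
  obtain ⟨c1, c2, c3, c4⟩ := sup_frame P (t + 1) st2
  obtain ⟨d1, d2, d3⟩ := check_frame P (t + 1) 0 (cnt P.S.K) (P.S.ini (P.sup (t + 1) st2).1) st3
  have b1 : st1.rd = st0.rd := rfl
  have b2 : st1.cl = st0.cl := rfl
  obtain ⟨h4, h5⟩ := orFail_false P (st := st3) (b := decide (P.G.ev (P.S.ini (P.sup (t + 1) st2).1)
    (st3.R (pos P.B (t + 1)) 0) ≠ 0)) h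
  rw [c4] at h4
  obtain ⟨h6, h7⟩ := seg_ok P htT hF hf P.S.K 0 st1 (by omega) h4
  have h6' : st.fail = false := by
    rw [← a4]
    exact h6
  refine ⟨h6', (P.sup (t + 1) st).1, (P.sup (t + 1) st2).1, st1.tau (t + 1) 0, st0.R, st2.R,
    st3.R, sup_sound P (t + 1) st, ?_, ?_, ?_, by simpa using h5, ?_⟩
  · rw [h1, store_tau_self]
  · rw [d3, c3]
    have e1 : st1.rd (t + 1 + 1) = st.rd (t + 1 + 1) := by rw [b1, a1]
    have e2 : st1.R = addAt st0.R (pos P.B (t + 1)) 0 (-P.G.cst (st1.tau (t + 1) 0)) := by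
      rw [h1, store_tau_self]
      rfl
    rw [e1] at h7
    rw [← e2]
    exact h7
  · have := sup_sound P (t + 1) st2
    rw [F2.rd _ le_rfl, F2.cl _ le_rfl, b1, b2, a1, a2] at this
    exact this
  · have e3 : st3.tau (t + 1) 0 = st1.tau (t + 1) 0 := by rw [c3, F2' 0 le_rfl]
    rw [← e3]
    rfl

theorem body_ok (t : ℕ) (ht : t ≤ P.T) : SB P t (P.body t) (Body P.S P.G P.B t) := by
  induction t with
  | zero => exact body0_ok P
  | succ t ih =>
    exact bodyS_ok P (by omega) (wrap_frame P (body_frame P t))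
      (wrap_ok P (body_frame P t) (ih (by omega)))

/-! ### Completeness -/

/-- `f` can bring `st` to `st'`, for every rest of the stream. -/
def Reach {α : Type} (f : St P.G γ → α × St P.G γ) (st : St P.G γ) (a : α) (st' : St P.G γ) :
    Prop :=
  ∀ g', ∃ g, f { st with u := g } = (a, { st' with u := g' })

/-- The same for functions without a value. -/
def ReachU (f : St P.G γ → St P.G γ) (st st' : St P.G γ) : Prop :=
  ∀ g', ∃ g, f { st with u := g } = { st' with u := g' }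

variable (hnx : ∀ x g, ∃ g', P.nxt g' = (x, g))

include hnx

theorem use_reach (p j : ℕ) (st : St P.G γ) (s : X) :
    Reach P (P.use p j) st s { st with R := addAt st.R p j (P.G.d s) } := by
  intro g'
  obtain ⟨g, hg⟩ := hnx s g'
  refine ⟨g, ?_⟩
  unfold Par.use Par.addR
  simp only [hg]

theorem supP_reach (t : ℕ) (st : St P.G γ) (a : X) (R' : Reg P.G)
    (h : SupU P.S P.G (pos P.B (t + 1)) (st.rd (t + 1) / 2) st.R a R') :
    Reach P (P.supP t) st a { st with R := R' } := by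
  obtain ⟨s, rfl, rfl⟩ := h
  intro g'
  obtain ⟨g, hg⟩ := use_reach P hnx (pos P.B (t + 1)) (st.rd (t + 1) / 2) st s g'
  refine ⟨g, ?_⟩
  unfold Par.supP
  simp only [hg]

theorem sup_reach (t : ℕ) (st : St P.G γ) (a : X) (R' : Reg P.G)
    (h : SupR P t (st.rd (t + 1)) (st.cl t) st.R a R') :
    Reach P (P.sup t) st a { st with R := R' } := by
  unfold SupR at h
  unfold Par.sup
  by_cases ht : IsTop P.B t
  · rw [if_pos ht] at h
    obtain ⟨rfl, rfl⟩ := h
    intro g'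
    exact ⟨g', by simp only [if_pos ht]⟩
  · rw [if_neg ht] at h
    simp only [if_neg ht]
    exact supP_reach P hnx t st a R' h

theorem act_reach (t : ℕ) (v : X) (st : St P.G γ) (τ : ZMod P.G.r) (R' : Reg P.G)
    (hτ : st.rd (t + 1) % 2 = 1 → τ = st.tau (t + 1) (st.rd (t + 1) / 2 + 1))
    (h : ActR P t (st.rd (t + 1)) τ st.R v R') :
    ∃ st', st'.R = R' ∧ st'.fail = st.fail ∧
      (t ≠ P.T → st'.tau (t + 1) (st.rd (t + 1) / 2 + 1) = τ) ∧ ReachU P (P.act t v) st st' := by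
  by_cases ht : t = P.T
  · unfold ActR at h
    rw [if_pos ht] at h
    obtain ⟨h1, h2⟩ := h
    refine ⟨st, h2.symm, rfl, fun h => absurd ht h, fun g' => ⟨g', ?_⟩⟩
    rw [act_top P ht]
    unfold Par.orFail
    simp [h1]
  · by_cases hc : st.rd (t + 1) % 2 = 0
    · rw [actR_even P ht (j := st.rd (t + 1) / 2) (by omega)] at h
      obtain ⟨s, h1, h2⟩ := h
      set st1 : St P.G γ := P.addR st (pos P.B (t + 1)) (st.rd (t + 1) / 2) (P.G.d s) with hst1
      have hev : P.G.ev (P.S.upd (st.rd (t + 1) / 2) s v)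
          (st1.R (pos P.B (t + 1)) (st.rd (t + 1) / 2 + 1)) = τ := by
        rw [hst1, h1]
        show P.G.ev _ (addAt st.R (pos P.B (t + 1)) (st.rd (t + 1) / 2) (P.G.d s) _ _) = _
        rw [addAt_ne' _ _ _ (by omega)]
      refine ⟨P.store (t + 1) (st.rd (t + 1) / 2 + 1) (P.S.upd (st.rd (t + 1) / 2) s v) st1,
        ?_, rfl, fun _ => ?_, fun g' => ?_⟩
      · rw [h2]
        show addAt st1.R (pos P.B (t + 1)) (st.rd (t + 1) / 2 + 1) (-P.G.cst (P.G.ev _ _)) = _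
        rw [hev]
        rfl
      · rw [store_tau_self, hev]
      · obtain ⟨g, hg⟩ := use_reach P hnx (pos P.B (t + 1)) (st.rd (t + 1) / 2) st s g'
        refine ⟨g, ?_⟩
        rw [act_even P ht v { st with u := g } hc]
        show P.store (t + 1) (st.rd (t + 1) / 2 + 1) (P.S.upd (st.rd (t + 1) / 2)
          (P.use (pos P.B (t + 1)) (st.rd (t + 1) / 2) { st with u := g }).1 v)
          (P.use (pos P.B (t + 1)) (st.rd (t + 1) / 2) { st with u := g }).2 = _
        rw [hg]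
        rfl
    · rw [actR_odd P ht (j := st.rd (t + 1) / 2) (by omega)] at h
      obtain ⟨s, h1, h2⟩ := h
      have hτ' := hτ (by omega)
      set st1 : St P.G γ := P.addR st (pos P.B (t + 1)) (st.rd (t + 1) / 2) (P.G.d s) with hst1
      have hev : P.G.ev (P.S.upd (st.rd (t + 1) / 2) s v)
          (st1.R (pos P.B (t + 1)) (st.rd (t + 1) / 2 + 1)) = 0 := by
        rw [← h1, hst1]
        show P.G.ev _ (addAt st.R (pos P.B (t + 1)) (st.rd (t + 1) / 2) (P.G.d s) _ _) = _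
        rw [addAt_ne' _ _ _ (by omega)]
      refine ⟨P.check (t + 1) (st.rd (t + 1) / 2 + 1) (cnt (P.S.K - (st.rd (t + 1) / 2 + 1)))
        (P.S.upd (st.rd (t + 1) / 2) s v) st1, ?_, ?_, fun _ => ?_, fun g' => ?_⟩
      · rw [h2, hτ']
        rfl
      · show (st1.fail || decide (P.G.ev (P.S.upd (st.rd (t + 1) / 2) s v)
          (st1.R (pos P.B (t + 1)) (st.rd (t + 1) / 2 + 1)) ≠ 0)) = st.fail
        rw [hev]
        show (st.fail || decide ((0 : ZMod P.G.r) ≠ 0)) = st.fail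
        simp
      · rw [hτ']
        rfl
      · obtain ⟨g, hg⟩ := use_reach P hnx (pos P.B (t + 1)) (st.rd (t + 1) / 2) st s g'
        refine ⟨g, ?_⟩
        rw [act_odd P ht v { st with u := g } hc]
        show P.check (t + 1) (st.rd (t + 1) / 2 + 1) (cnt (P.S.K - (st.rd (t + 1) / 2 + 1)))
          (P.S.upd (st.rd (t + 1) / 2)
          (P.use (pos P.B (t + 1)) (st.rd (t + 1) / 2) { st with u := g }).1 v)
          (P.use (pos P.B (t + 1)) (st.rd (t + 1) / 2) { st with u := g }).2 = _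
        rw [hg]
        rfl

omit hnx

/-- The frame does not see the stream. -/
theorem reach_frame {t : ℕ} {f : St P.G γ → St P.G γ} (hF : ∀ st, Fr P t st (f st))
    (hγ : Nonempty γ) {st st' : St P.G γ} (h : ReachU P f st st') : Fr P t st st' := by
  obtain ⟨g'⟩ := hγ
  obtain ⟨g, hg⟩ := h g'
  have F := hF { st with u := g }
  rw [hg] at F
  exact ⟨F.rd, F.cl, F.tau1, F.tau2⟩

theorem reach_frameR {t : ℕ} {f : St P.G γ → St P.G γ} (hF : ∀ st, FrR P t st (f st))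
    (hγ : Nonempty γ) {st st' : St P.G γ} (h : ReachU P f st st') : FrR P t st st' := by
  obtain ⟨g'⟩ := hγ
  obtain ⟨g, hg⟩ := h g'
  have F := hF { st with u := g }
  rw [hg] at F
  exact ⟨F.rd, F.cl, F.tau1, F.tau2⟩

/-- Completeness of a function for the body of level `t`. -/
def CB (t : ℕ) (f : St P.G γ → St P.G γ) (ρ : Rel P.G → Rel P.G → Reg P.G → Reg P.G → Prop) :
    Prop :=
  ∀ (st : St P.G γ) (τ : ZMod P.G.r) (R' : Reg P.G),
    (st.rd (t + 1) % 2 = 1 → τ = st.tau (t + 1) (st.rd (t + 1) / 2 + 1)) →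
    ρ (SupR P t (st.rd (t + 1)) (st.cl t)) (ActR P t (st.rd (t + 1)) τ) st.R R' →
    ∃ st', st'.R = R' ∧ st'.fail = st.fail ∧
      (t ≠ P.T → st'.tau (t + 1) (st.rd (t + 1) / 2 + 1) = τ) ∧ ReachU P f st st'

/-- Completeness of a function for a run of level `t`. -/
def CR (t : ℕ) (f : St P.G γ → St P.G γ) (ρ : Rel P.G → Rel P.G → Reg P.G → Reg P.G → Prop) :
    Prop :=
  ∀ (st : St P.G γ) (τ : ZMod P.G.r) (R' : Reg P.G),
    (st.rd (t + 1) % 2 = 1 → τ = st.tau (t + 1) (st.rd (t + 1) / 2 + 1)) →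
    ρ (SupU P.S P.G (pos P.B (t + 1)) (st.rd (t + 1) / 2)) (ActR P t (st.rd (t + 1)) τ) st.R R' →
    ∃ st', st'.R = R' ∧ st'.fail = st.fail ∧
      (t ≠ P.T → st'.tau (t + 1) (st.rd (t + 1) / 2 + 1) = τ) ∧ ReachU P f st st'

include hnx

theorem body0_cpl (hγ : Nonempty γ) : CB P 0 P.body0 (Body0 P.S) := by
  intro st τ R' hτ h
  obtain ⟨a, a', R₁, R₂, h1, h2, h3⟩ := h
  set st1 : St P.G γ := { st with R := R₁ } with hst1
  obtain ⟨st2, e1, e2, e3, e4⟩ := act_reach P hnx 0 (P.S.V0 a) st1 τ R₂ hτ h2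
  -- the frame of the action
  obtain ⟨g0⟩ := hγ
  obtain ⟨g1, hg1⟩ := e4 g0
  obtain ⟨b1, b2, b3⟩ := act_frame P 0 (P.S.V0 a) { st1 with u := g1 }
  rw [hg1] at b1 b2
  have r2 : st2.rd = st.rd := b1
  have c2 : st2.cl = st.cl := b2
  have h3' : SupR P 0 (st2.rd (0 + 1)) (st2.cl 0) st2.R a' R' := by
    rw [r2, c2, e1]
    exact h3
  refine ⟨{ st2 with R := R' }, rfl, e2, e3, fun g' => ?_⟩
  obtain ⟨g3, hg3⟩ := sup_reach P hnx 0 st2 a' R' h3' g'
  obtain ⟨g2, hg2⟩ := e4 g3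
  obtain ⟨g, hg⟩ := sup_reach P hnx 0 st a R₁ h1 g2
  refine ⟨g, ?_⟩
  unfold Par.body0
  rw [hg]
  show (P.sup 0 (P.act 0 (P.S.V0 a) { st1 with u := g2 })).2 = _
  rw [hg2, hg3]

theorem wrap_cpl {t : ℕ} (hγ : Nonempty γ) {f : St P.G γ → St P.G γ}
    {ρ : Rel P.G → Rel P.G → Reg P.G → Reg P.G → Prop} (hF : ∀ st, Fr P t st (f st))
    (hf : CB P t f ρ) : CR P t (P.wrap t f) (Wrap P.G P.B t ρ) := by
  intro st τ R' hτ h
  unfold Wrap at h
  by_cases ht : IsTop P.B t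
  · rw [if_pos ht] at h
    obtain ⟨a, a', R₁, R₂, h1, h2, h3⟩ := h
    set st1 : St P.G γ := P.setCl { st with R := R₁ } t a with hst1
    have e1 : st1.cl t = a := by
      show (if t = t then a else _) = _
      rw [if_pos rfl]
    have e2 : st1.rd = st.rd := rfl
    have h2' : ρ (SupR P t (st1.rd (t + 1)) (st1.cl t)) (ActR P t (st1.rd (t + 1)) τ) st1.R R₂ := by
      unfold SupR
      rw [if_pos ht, e1, e2]
      exact h2
    obtain ⟨st2, k1, k2, k3, k4⟩ := hf st1 τ R₂ hτ h2'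
    have F := reach_frame P hF hγ k4
    have h3' : SupU P.S P.G (pos P.B (t + 1)) (st2.rd (t + 1) / 2) st2.R a' R' := by
      rw [F.rd _ le_rfl, k1]
      exact h3
    refine ⟨{ st2 with R := R' }, rfl, k2, k3, fun g' => ?_⟩
    obtain ⟨g3, hg3⟩ := supP_reach P hnx t st2 a' R' h3' g'
    obtain ⟨g2, hg2⟩ := k4 g3
    obtain ⟨g, hg⟩ := supP_reach P hnx t st a R₁ h1 g2
    refine ⟨g, ?_⟩
    unfold Par.wrap
    rw [if_pos ht, hg]
    show (P.supP t (f { st1 with u := g2 })).2 = _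
    rw [hg2, hg3]
  · rw [if_neg ht] at h
    have h' : ρ (SupR P t (st.rd (t + 1)) (st.cl t)) (ActR P t (st.rd (t + 1)) τ) st.R R' := by
      unfold SupR
      rw [if_neg ht]
      exact h
    obtain ⟨st2, k1, k2, k3, k4⟩ := hf st τ R' hτ h'
    refine ⟨st2, k1, k2, k3, fun g' => ?_⟩
    obtain ⟨g, hg⟩ := k4 g'
    refine ⟨g, ?_⟩
    unfold Par.wrap
    rw [if_neg ht, hg]

theorem seg_cpl {t : ℕ} (hγ : Nonempty γ) (htT : t ≠ P.T) {f : St P.G γ → St P.G γ}
    {ρ : Rel P.G → Rel P.G → Reg P.G → Reg P.G → Prop} (hF : ∀ st, FrR P t st (f st))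
    (hf : CR P t f ρ) : ∀ i j (st : St P.G γ) (τ : ZMod P.G.r) (R' : Reg P.G), i + j = P.S.K →
      (st.rd (t + 1 + 1) % 2 = 1 → τ = st.tau (t + 1 + 1) (st.rd (t + 1 + 1) / 2 + 1)) →
      Seg P.S ρ (pos P.B (t + 1)) (ActR P (t + 1) (st.rd (t + 1 + 1)) τ) i j st.R R' →
      ∃ st', st'.R = R' ∧ st'.fail = st.fail ∧
        (t + 1 ≠ P.T → st'.tau (t + 1 + 1) (st.rd (t + 1 + 1) / 2 + 1) = τ) ∧
        ReachU P (P.seg f (t + 1) i j) st st' := by
  intro i
  induction i with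
  | zero =>
    intro j st τ R' _ hτ h
    obtain ⟨s, h⟩ := h
    set st1 : St P.G γ := { st with R := addAt st.R (pos P.B (t + 1)) j (P.G.d s) } with hst1
    obtain ⟨st2, e1, e2, e3, e4⟩ := act_reach P hnx (t + 1) (P.S.out s) st1 τ R' hτ h
    refine ⟨st2, e1, e2, e3, fun g' => ?_⟩
    obtain ⟨g2, hg2⟩ := e4 g'
    obtain ⟨g, hg⟩ := use_reach P hnx (pos P.B (t + 1)) j st s g2
    refine ⟨g, ?_⟩
    show P.act (t + 1) (P.S.out (P.use (pos P.B (t + 1)) j { st with u := g }).1)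
      (P.use (pos P.B (t + 1)) j { st with u := g }).2 = _
    rw [hg]
    exact hg2
  | succ i ih =>
    intro j st τ R' hij hτ h
    obtain ⟨σ, R₁, R₂, h1, h2, h3⟩ := h
    set st1 := P.setRd st (t + 1) (2 * j) with hst1
    have r1 : st1.rd (t + 1) = 2 * j := setRd_rd_self P st (t + 1) (2 * j)
    have r1' : st1.rd (t + 1 + 1) = st.rd (t + 1 + 1) := setRd_rd_ne P st _ (by omega)
    have h1' : ρ (SupU P.S P.G (pos P.B (t + 1)) (st1.rd (t + 1) / 2))
        (ActR P t (st1.rd (t + 1)) σ) st1.R R₁ := by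
      rw [r1, actR_even P htT (j := j) rfl, show 2 * j / 2 = j by omega]
      exact h1
    obtain ⟨st2, k1, k2, k3, k4⟩ := hf st1 σ R₁ (by rw [r1]; omega) h1'
    have F2 := reach_frameR P hF hγ k4
    have r2' : st2.rd (t + 1 + 1) = st.rd (t + 1 + 1) := by rw [F2.rd _ (by omega), r1']
    have t2' : st2.tau (t + 1 + 1) = st.tau (t + 1 + 1) := by
      funext j'
      rw [F2.tau1 _ (by omega)]
      rfl
    have h2' : Seg P.S ρ (pos P.B (t + 1)) (ActR P (t + 1) (st2.rd (t + 1 + 1)) τ) i (j + 1)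
        st2.R R₂ := by
      rw [r2', k1]
      exact h2
    obtain ⟨st3, m1, m2, m3, m4⟩ := ih (j + 1) st2 τ R₂ (by omega) (by rw [r2', t2']; exact hτ) h2'
    have F3 : Fr P (t + 1) st2 st3 ∧ ∀ j' ≤ j + 1, st3.tau (t + 1) j' = st2.tau (t + 1) j' := by
      obtain ⟨g0⟩ := hγ
      obtain ⟨g, hg⟩ := m4 g0
      obtain ⟨F, F'⟩ := seg_frame P hF i (j + 1) { st2 with u := g }
      rw [hg] at F F'
      exact ⟨⟨F.rd, F.cl, F.tau1, F.tau2⟩, F'⟩
    set st4 := P.setRd st3 (t + 1) (2 * j + 1) with hst4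
    have r4 : st4.rd (t + 1) = 2 * j + 1 := setRd_rd_self P st3 (t + 1) (2 * j + 1)
    have t4 : st4.tau (t + 1) (j + 1) = σ := by
      show st3.tau (t + 1) (j + 1) = σ
      rw [F3.2 _ le_rfl, ← k3 htT, r1, show 2 * j / 2 = j by omega]
    have h3' : ρ (SupU P.S P.G (pos P.B (t + 1)) (st4.rd (t + 1) / 2))
        (ActR P t (st4.rd (t + 1)) σ) st4.R R' := by
      rw [r4, actR_odd P htT (j := j) rfl, show (2 * j + 1) / 2 = j by omega,
        show P.S.K - (j + 1) = i by omega]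
      show ρ _ _ st3.R R'
      rw [m1]
      exact h3
    obtain ⟨st5, n1, n2, n3, n4⟩ := hf st4 σ R' (by
      intro _
      rw [r4, show (2 * j + 1) / 2 = j by omega, t4]) h3'
    have F5 := reach_frameR P hF hγ n4
    refine ⟨st5, n1, by rw [n2]; show st3.fail = _; rw [m2, k2]; rfl, ?_, fun g' => ?_⟩
    · intro ht1
      rw [F5.tau1 _ (by omega)]
      show st3.tau (t + 1 + 1) _ = τ
      rw [← r2']
      exact m3 ht1
    · obtain ⟨g4, hg4⟩ := n4 g'
      obtain ⟨g3, hg3⟩ := m4 g4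
      obtain ⟨g2, hg2⟩ := k4 g3
      refine ⟨g2, ?_⟩
      show f (P.setRd (P.seg f (t + 1) i (j + 1) (f { st1 with u := g2 })) (t + 1)
        (2 * j + 1)) = _
      rw [hg2, hg3]
      exact hg4

theorem bodyS_cpl {t : ℕ} (hγ : Nonempty γ) (htT : t ≠ P.T) {f : St P.G γ → St P.G γ}
    {ρ : Rel P.G → Rel P.G → Reg P.G → Reg P.G → Prop} (hF : ∀ st, FrR P t st (f st))
    (hf : CR P t f ρ) : CB P (t + 1) (P.bodyS f (t + 1)) (BodyS P.S ρ (pos P.B (t + 1))) := by
  intro st τ R' hτ h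
  obtain ⟨a, a', σ, R₁, R₂, R₃, h1, h2, h3, h4, h5, h6⟩ := h
  set st0 : St P.G γ := { st with R := R₁ } with hst0
  set st1 := P.store (t + 1) 0 (P.S.ini a) st0 with hst1
  have t1 : st1.tau (t + 1) 0 = σ := by
    rw [hst1, store_tau_self, h2]
  have R1 : st1.R = addAt R₁ (pos P.B (t + 1)) 0 (-P.G.cst σ) := by
    rw [h2]
    rfl
  have r1 : st1.rd = st.rd := rfl
  have c1 : st1.cl = st.cl := rfl
  have t1' : ∀ j, st1.tau (t + 1 + 1) j = st.tau (t + 1 + 1) j := fun j =>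
    store_tau_ne P _ _ _ _ _ _ (Or.inl (by omega))
  have h3' : Seg P.S ρ (pos P.B (t + 1)) (ActR P (t + 1) (st1.rd (t + 1 + 1)) τ) P.S.K 0
      st1.R R₂ := by
    rw [r1, R1]
    exact h3
  obtain ⟨st2, k1, k2, k3, k4⟩ := seg_cpl P hnx hγ htT hF hf P.S.K 0 st1 τ R₂ (by omega)
    (by rw [r1, t1']; exact hτ) h3'
  have F2 : Fr P (t + 1) st1 st2 ∧ ∀ j' ≤ 0, st2.tau (t + 1) j' = st1.tau (t + 1) j' := by
    obtain ⟨g0⟩ := hγ
    obtain ⟨g, hg⟩ := k4 g0
    obtain ⟨F, F'⟩ := seg_frame P hF P.S.K 0 { st1 with u := g }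
    rw [hg] at F F'
    exact ⟨⟨F.rd, F.cl, F.tau1, F.tau2⟩, F'⟩
  have h4' : SupR P (t + 1) (st2.rd (t + 1 + 1)) (st2.cl (t + 1)) st2.R a' R₃ := by
    rw [F2.1.rd _ le_rfl, F2.1.cl _ le_rfl, r1, c1, k1]
    exact h4
  set st3 : St P.G γ := { st2 with R := R₃ } with hst3
  have t3 : st3.tau (t + 1) 0 = σ := by
    show st2.tau (t + 1) 0 = σ
    rw [F2.2 0 le_rfl, t1]
  refine ⟨P.check (t + 1) 0 (cnt P.S.K) (P.S.ini a') st3, ?_, ?_, ?_, fun g' => ?_⟩
  · show addAt R₃ (pos P.B (t + 1)) 0 (P.G.cst (st3.tau (t + 1) 0) - cnt P.S.K • P.G.d _) = R'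
    rw [t3, h6]
  · show (st3.fail || decide (P.G.ev (P.S.ini a') (R₃ (pos P.B (t + 1)) 0) ≠ 0)) = st.fail
    rw [h5]
    show (st2.fail || decide ((0 : ZMod P.G.r) ≠ 0)) = st.fail
    rw [k2]
    show (st.fail || decide ((0 : ZMod P.G.r) ≠ 0)) = st.fail
    simp
  · intro ht1
    exact k3 ht1
  · obtain ⟨g3, hg3⟩ := sup_reach P hnx (t + 1) st2 a' R₃ h4' g'
    obtain ⟨g2, hg2⟩ := k4 g3
    obtain ⟨g, hg⟩ := sup_reach P hnx (t + 1) st a R₁ h1 g2
    refine ⟨g, ?_⟩
    unfold Par.bodyS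
    simp only
    rw [hg]
    show P.check (t + 1) 0 (cnt P.S.K) (P.S.ini (P.sup (t + 1)
      (P.seg f (t + 1) P.S.K 0 { st1 with u := g2 })).1) (P.sup (t + 1)
      (P.seg f (t + 1) P.S.K 0 { st1 with u := g2 })).2 = _
    rw [hg2, hg3]
    rfl

theorem body_cpl (hγ : Nonempty γ) (t : ℕ) (ht : t ≤ P.T) :
    CB P t (P.body t) (Body P.S P.G P.B t) := by
  induction t with
  | zero => exact body0_cpl P hnx hγ
  | succ t ih =>
    exact bodyS_cpl P hnx hγ (by omega) (wrap_frame P (body_frame P t))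
      (wrap_cpl P hnx hγ (body_frame P t) (ih (by omega)))

end FlowM

/-- The functions are correct. -/
theorem specFlow : SpecFlow := by
  intro X γ P st hB _ hT hfail hnx hγ
  rw [← body_iff (G := P.G) hB P.T (st.cl P.T) P.acc st.R]
  constructor
  · rintro ⟨g, hg⟩
    obtain ⟨_, h⟩ := FlowM.body_ok P P.T le_rfl { st with u := g } hg
    refine ⟨(P.body P.T { st with u := g }).R, ?_⟩
    have e1 : FlowM.SupR P P.T (({ st with u := g } : St P.G γ).rd (P.T + 1))
        (({ st with u := g } : St P.G γ).cl P.T) = cstSup (st.cl P.T) := by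
      unfold FlowM.SupR
      rw [if_pos hT]
    rw [e1] at h
    unfold FlowM.ActR at h
    rw [if_pos rfl] at h
    exact h
  · rintro ⟨R', h⟩
    have h' : Body P.S P.G P.B P.T (FlowM.SupR P P.T (st.rd (P.T + 1)) (st.cl P.T))
        (FlowM.ActR P P.T (st.rd (P.T + 1)) (st.tau (P.T + 1) (st.rd (P.T + 1) / 2 + 1)))
        st.R R' := by
      unfold FlowM.SupR FlowM.ActR
      rw [if_pos hT, if_pos rfl]
      exact h
    obtain ⟨st', _, k2, _, k4⟩ := FlowM.body_cpl P hnx hγ P.T le_rfl st _ R' (fun _ => rfl) h'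
    obtain ⟨g0⟩ := hγ
    obtain ⟨g, hg⟩ := k4 g0
    refine ⟨g, ?_⟩
    rw [hg]
    show st'.fail = false
    rw [k2, hfail]

end Pool.Agent.Lib.MP_9277c3_lc.NS
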