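import Pool.Agent.Lib.MP_9277c3_lc.NS.Frame
import Pool.Agent.Lib.MP_9277c3_lc.NC.Lang

/-!
# D4: the control program

The program `bodyC`, with the recursive procedures `seg` and `run`, computes the function
`Par.body` of `Flow.lean`. The operations on the data (use, store, check, the rounds, the kept
arguments, the functions of the scheme, the final test) are programs `op o` with the
specifications in the structure `Ops`; `Rep` is the relation between the registers and the states.
-/

namespace Pool.Agent.Lib.MP_9277c3_lc.NS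

open CM NC

/-- The registers of the control program. The level `lev`; the round `jj`; the level `lp` and the
index `ji` for the operations; `q`, `e` auxiliary registers; the values `a` (argument), `v` (value),
`w` (stored value); the number `cn` of uses; constants `cB`, `cT`, `cK`. -/
inductive CR : Type
  | lev | jj | lp | ji | q | e | a | v | w | cn | cB | cT | cK
  deriving DecidableEq

/-- The operations. -/
inductive OF : Type
  | use | store | check | rdget | rdset | clget | clset | arg | upd | ini | out | v0 | test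

/-- The procedures of the control program. -/
inductive CF : Type
  | seg | run

section

variable {R F : Type} (ρ : CR → R) (φ : CF → F) (op : OF → NStmt R F)

/-- The register, as an expression. -/
abbrev cv (c : CR) : Exp R := Exp.var (ρ c)

/-- The argument from the registers of the next higher level, to `a`. -/
def supPC : NStmt R F :=
  sqN [asg (ρ .lp) (cv ρ .lev + 1), op .rdget, asg (ρ .ji) (cv ρ .q / 2), op .use, op .arg]

/-- The argument for the body, to `a`. -/
def supC : NStmt R F :=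
  sqN [asg (ρ .q) (1 - ((cv ρ .lev + 1) % cv ρ .cB)),
    Stmt.ite (ρ .q) (sqN [asg (ρ .lp) (cv ρ .lev), op .clget]) (supPC ρ op)]

/-- The action on the value in `v`. -/
def actC : NStmt R F :=
  sqN [asg (ρ .q) (1 - ((cv ρ .lev - cv ρ .cT) + (cv ρ .cT - cv ρ .lev))),
    Stmt.ite (ρ .q) (op .test)
      (sqN [asg (ρ .lp) (cv ρ .lev + 1), op .rdget, asg (ρ .ji) (cv ρ .q / 2), op .use, op .upd,
        asg (ρ .ji) (cv ρ .ji + 1), asg (ρ .e) (cv ρ .q % 2),
        Stmt.ite (ρ .e)
          (sqN [asg (ρ .cn) (1 + 5 * (1 - (1 - (cv ρ .cK - cv ρ .ji)))), op .check])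
          (op .store)])]

/-- The rounds from the round in `jj` on. -/
def segC : NStmt R F :=
  sqN [asg (ρ .e) (cv ρ .cK - cv ρ .jj),
    Stmt.ite (ρ .e)
      (sqN [asg (ρ .lp) (cv ρ .lev), asg (ρ .q) (2 * cv ρ .jj), op .rdset,
        asg (ρ .lev) (cv ρ .lev - 1), Stmt.call (φ .run), asg (ρ .lev) (cv ρ .lev + 1),
        asg (ρ .lp) (cv ρ .lev), op .rdget, asg (ρ .jj) (cv ρ .q / 2 + 1),
        Stmt.call (φ .seg),
        asg (ρ .jj) (cv ρ .jj - 1), asg (ρ .lp) (cv ρ .lev), asg (ρ .q) (2 * cv ρ .jj + 1),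
        op .rdset,
        asg (ρ .lev) (cv ρ .lev - 1), Stmt.call (φ .run), asg (ρ .lev) (cv ρ .lev + 1),
        asg (ρ .lp) (cv ρ .lev), op .rdget, asg (ρ .jj) (cv ρ .q / 2)])
      (sqN [asg (ρ .lp) (cv ρ .lev), asg (ρ .ji) (cv ρ .jj), op .use, op .out, actC ρ op])]

/-- The body of the level in `lev`. -/
def bodyC : NStmt R F :=
  Stmt.ite (ρ .lev)
    (sqN [supC ρ op, op .ini, asg (ρ .lp) (cv ρ .lev), asg (ρ .ji) 0, op .store,
      asg (ρ .jj) 0, Stmt.call (φ .seg), supC ρ op, op .ini, asg (ρ .lp) (cv ρ .lev),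
      asg (ρ .ji) 0, asg (ρ .cn) (1 + 5 * (1 - (1 - cv ρ .cK))), op .check])
    (sqN [supC ρ op, op .v0, actC ρ op, supC ρ op])

/-- The run of the level in `lev`. -/
def runC : NStmt R F :=
  sqN [asg (ρ .q) (1 - ((cv ρ .lev + 1) % cv ρ .cB)),
    Stmt.ite (ρ .q)
      (sqN [supPC ρ op, asg (ρ .lp) (cv ρ .lev), op .clset, bodyC ρ φ op, supPC ρ op])
      (bodyC ρ φ op)]

end

section

variable {α R F : Type} (x : List α) (cc : Cell α → ℕ) (A : ℕ) (body : F → NStmt R F)
  (ρ : CR → R) {X : Type} (en : X → ℕ) (P : Par X (ℕ → Bool))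
  (Rep : (R → ℕ) → St P.G (ℕ → Bool) → Prop)

/-- The program `a` transforms the states with the control registers `c` which represent `st` into
states which represent `st'` and have control registers with the property `Q`. -/
def Tr (k : ℕ) (a : NStmt R F) (c : CR → ℕ) (st : St P.G (ℕ → Bool)) (Q : (CR → ℕ) → Prop)
    (st' : St P.G (ℕ → Bool)) : Prop :=
  ∀ s, Rep s st → (∀ r, s (ρ r) = c r) → ∃ s' c', RunN x cc A body k a s st.u s' st'.u ∧
    Rep s' st' ∧ (∀ r, s' (ρ r) = c' r) ∧ Q c'

/-- The specifications of the operations. -/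
structure Ops (op : OF → NStmt R F) (k₀ : ℕ) : Prop where
  use : ∀ c st, c .lp ≤ P.T → c .ji ≤ P.S.K → Tr x cc A body ρ P Rep k₀ (op .use) c st
    (fun c' => c' = CM.upd c .w (en (P.use (pos P.B (c .lp)) (c .ji) st).1))
    (P.use (pos P.B (c .lp)) (c .ji) st).2
  store : ∀ c st y, c .lp ≤ P.T → c .ji ≤ P.S.K → c .w = en y →
    Tr x cc A body ρ P Rep k₀ (op .store) c st (fun c' => c' = c) (P.store (c .lp) (c .ji) y st)
  check : ∀ c st y, c .lp ≤ P.T → c .ji ≤ P.S.K → c .w = en y → c .cn ≤ 6 →
    Tr x cc A body ρ P Rep k₀ (op .check) c st (fun c' => c' = c)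
      (P.check (c .lp) (c .ji) (c .cn) y st)
  rdget : ∀ c st, c .lp ≤ P.T →
    Tr x cc A body ρ P Rep k₀ (op .rdget) c st (fun c' => c' = CM.upd c .q (st.rd (c .lp))) st
  rdset : ∀ c st, c .lp ≤ P.T → c .q < 2 * P.S.K →
    Tr x cc A body ρ P Rep k₀ (op .rdset) c st (fun c' => c' = c) (P.setRd st (c .lp) (c .q))
  clget : ∀ c st, c .lp ≤ P.T → IsTop P.B (c .lp) →
    Tr x cc A body ρ P Rep k₀ (op .clget) c st
      (fun c' => c' = CM.upd c .a (en (st.cl (c .lp)))) st
  clset : ∀ c st y, c .lp ≤ P.T → IsTop P.B (c .lp) → c .a = en y →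
    Tr x cc A body ρ P Rep k₀ (op .clset) c st (fun c' => c' = c) (P.setCl st (c .lp) y)
  arg : ∀ c st y, c .ji < P.S.K → c .w = en y →
    Tr x cc A body ρ P Rep k₀ (op .arg) c st
      (fun c' => c' = CM.upd c .a (en (P.S.arg (c .ji) y))) st
  upd : ∀ c st y z, c .ji < P.S.K → c .w = en y → c .v = en z →
    Tr x cc A body ρ P Rep k₀ (op .upd) c st
      (fun c' => c' = CM.upd c .w (en (P.S.upd (c .ji) y z))) st
  ini : ∀ c st y, c .a = en y →
    Tr x cc A body ρ P Rep k₀ (op .ini) c st (fun c' => c' = CM.upd c .w (en (P.S.ini y))) st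
  out : ∀ c st y, c .w = en y →
    Tr x cc A body ρ P Rep k₀ (op .out) c st (fun c' => c' = CM.upd c .v (en (P.S.out y))) st
  v0 : ∀ c st y, c .a = en y →
    Tr x cc A body ρ P Rep k₀ (op .v0) c st (fun c' => c' = CM.upd c .v (en (P.S.V0 y))) st
  test : ∀ c st y, c .v = en y →
    Tr x cc A body ρ P Rep k₀ (op .test) c st (fun c' => c' = c)
      (P.orFail st (@decide (¬P.acc y) (Classical.propDecidable _)))

/-- The registers for constants have the right values. -/
structure Cst (c : CR → ℕ) : Prop where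
  cB : c .cB = P.B
  cT : c .cT = P.T
  cK : c .cK = P.S.K

end

end Pool.Agent.Lib.MP_9277c3_lc.NS
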