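import Mathlib

/-!
# N1: the verified storage gadget (helper1; idea helper75 / helper53)

Values are the elements of `Fin k`; `b ^ g ≥ k`, at most `m` uses; the modulus is
`RR m b g = m * g * b ^ 2 + 1` (no prime needed).  A register content is an element of
`Om m b g = (ZMod r × ZMod r) × (Fin g → ZMod r)`, read as the function
`x ↦ c + s * ∑ x_i ^ 2 + ∑ l_i * x_i` on `Fin k` (`x_i` = digits of `x` in base `b`).
`dd y` is the function `x ↦ ∑ (x_i - y_i) ^ 2`.

Main lemma `ev_sum_dd_eq_zero`: for a list `l` of at most `m` values,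
`∑ y ∈ l, dd y` vanishes at `x` iff all members of `l` are equal to `x`.
-/

namespace Pool.Agent.MP_9277c3_lc.NS

open Finset

/-- digits of `x : Fin k` in base `b` (`k ≤ b ^ g`): `x / b ^ i % b`. -/
def dig (k b g : ℕ) (h : k ≤ b ^ g) (x : Fin k) : Fin g → Fin b :=
  finFunctionFinEquiv.symm (Fin.castLE h x)

theorem dig_injective (k b g : ℕ) (h : k ≤ b ^ g) : Function.Injective (dig k b g h) := by
  intro x y hxy
  have := finFunctionFinEquiv.symm.injective hxy
  exact Fin.castLE_injective h this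

theorem dig_val (k b g : ℕ) (h : k ≤ b ^ g) (x : Fin k) (i : Fin g) :
    (dig k b g h x i : ℕ) = (x : ℕ) / b ^ (i : ℕ) % b := by
  simp [dig, finFunctionFinEquiv]

/-- modulus -/
abbrev RR (m b g : ℕ) : ℕ := m * g * b ^ 2 + 1

/-- register contents -/
abbrev Om (m b g : ℕ) : Type := (ZMod (RR m b g) × ZMod (RR m b g)) × (Fin g → ZMod (RR m b g))

variable {k m b g : ℕ} (h : k ≤ b ^ g)

/-- evaluation of a register content at `x`. -/
def ev (p : Om m b g) (x : Fin k) : ZMod (RR m b g) :=
  p.1.1 + p.1.2 * (∑ i, ((dig k b g h x i : ℕ) : ZMod (RR m b g)) ^ 2) +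
    ∑ i, p.2 i * ((dig k b g h x i : ℕ) : ZMod (RR m b g))

/-- constants -/
def cst (t : ZMod (RR m b g)) : Om m b g := ((t, 0), 0)

/-- squared distance to `y`. -/
def dd (y : Fin k) : Om m b g :=
  ((∑ i, ((dig k b g h y i : ℕ) : ZMod (RR m b g)) ^ 2, 1),
    fun i => -2 * ((dig k b g h y i : ℕ) : ZMod (RR m b g)))

/-- squared distance as a natural number -/
def dist2 (x y : Fin k) : ℕ :=
  ∑ i, ((dig k b g h x i : ℤ) - (dig k b g h y i : ℤ)).natAbs ^ 2

@[simp] theorem ev_zero (x : Fin k) : ev h (0 : Om m b g) x = 0 := by simp [ev]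

theorem ev_add (p q : Om m b g) (x : Fin k) : ev h (p + q) x = ev h p x + ev h q x := by
  simp only [ev, Prod.fst_add, Prod.snd_add, Pi.add_apply, add_mul, Finset.sum_add_distrib]
  ring

/-- `ev h · x` as a homomorphism. -/
def evHom (x : Fin k) : Om m b g →+ ZMod (RR m b g) where
  toFun p := ev h p x
  map_zero' := ev_zero h x
  map_add' p q := ev_add h p q x

theorem ev_sub (p q : Om m b g) (x : Fin k) : ev h (p - q) x = ev h p x - ev h q x :=
  map_sub (evHom h x) p q

theorem ev_neg (p : Om m b g) (x : Fin k) : ev h (-p) x = -ev h p x := map_neg (evHom h x) p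

theorem ev_nsmul (n : ℕ) (p : Om m b g) (x : Fin k) : ev h (n • p) x = n • ev h p x :=
  map_nsmul (evHom h x) n p

theorem ev_list_sum (l : List (Om m b g)) (x : Fin k) :
    ev h l.sum x = (l.map fun p => ev h p x).sum := map_list_sum (evHom h x) l

@[simp] theorem ev_cst (t : ZMod (RR m b g)) (x : Fin k) : ev h (cst t : Om m b g) x = t := by
  simp [ev, cst]

theorem cst_sub (s t : ZMod (RR m b g)) : (cst (s - t) : Om m b g) = cst s - cst t := by
  simp [cst]

theorem ev_dd (y x : Fin k) : ev h (dd h y : Om m b g) x = (dist2 h x y : ZMod (RR m b g)) := by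
  have h1 : ((dist2 h x y : ℕ) : ZMod (RR m b g)) =
      ((∑ i, ((dig k b g h x i : ℤ) - (dig k b g h y i : ℤ)) ^ 2 : ℤ) : ZMod (RR m b g)) := by
    rw [← Int.cast_natCast]
    congr 1
    simp [dist2]
  rw [h1]
  simp only [ev, dd]
  push_cast
  rw [one_mul, ← Finset.sum_add_distrib, ← Finset.sum_add_distrib]
  refine Finset.sum_congr rfl fun i _ => ?_
  ring

theorem dist2_eq_zero (x y : Fin k) : dist2 h x y = 0 ↔ x = y := by
  constructor
  · intro h0
    apply dig_injective k b g h
    funext i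
    have h1 := (Finset.sum_eq_zero_iff.1 h0) i (Finset.mem_univ i)
    have h2 : ((dig k b g h x i : ℤ) - (dig k b g h y i : ℤ)).natAbs = 0 := by
      exact pow_eq_zero_iff (two_ne_zero) |>.1 h1
    apply Fin.ext
    omega
  · rintro rfl
    simp [dist2]

theorem dist2_le (x y : Fin k) : dist2 h x y ≤ g * b ^ 2 := by
  have : ∀ i ∈ (Finset.univ : Finset (Fin g)),
      ((dig k b g h x i : ℤ) - (dig k b g h y i : ℤ)).natAbs ^ 2 ≤ b ^ 2 := by
    intro i _
    have h1 := (dig k b g h x i).isLt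
    have h2 := (dig k b g h y i).isLt
    apply Nat.pow_le_pow_left
    omega
  calc dist2 h x y ≤ ∑ _i : Fin g, b ^ 2 := Finset.sum_le_sum this
    _ = g * b ^ 2 := by simp

theorem ev_dd_self (x : Fin k) : ev h (dd h x : Om m b g) x = 0 := by
  rw [ev_dd, (dist2_eq_zero h x x).2 rfl]; simp

/-- Main lemma of the gadget: `m` uses, one check. -/
theorem ev_sum_dd_eq_zero (l : List (Fin k)) (hl : l.length ≤ m) (x : Fin k) :
    ev h ((l.map (dd h)).sum : Om m b g) x = 0 ↔ ∀ y ∈ l, y = x := by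
  rw [ev_list_sum, List.map_map]
  have h1 : (List.map ((fun p : Om m b g => ev h p x) ∘ dd h) l).sum =
      (((l.map fun y => dist2 h x y).sum : ℕ) : ZMod (RR m b g)) := by
    rw [Nat.cast_list_sum, List.map_map]
    congr 1
    apply List.map_congr_left
    intro y _
    exact ev_dd h y x
  rw [h1]
  have h2 : (l.map fun y => dist2 h x y).sum ≤ m * g * b ^ 2 := by
    calc (l.map fun y => dist2 h x y).sum ≤ (l.map fun _ => g * b ^ 2).sum :=
          List.sum_le_sum fun y _ => dist2_le h x y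
      _ = l.length * (g * b ^ 2) := by simp
      _ ≤ m * (g * b ^ 2) := Nat.mul_le_mul_right _ hl
      _ = m * g * b ^ 2 := by ring
  constructor
  · intro h0
    rw [ZMod.natCast_eq_zero_iff] at h0
    have h3 : (l.map fun y => dist2 h x y).sum = 0 :=
      Nat.eq_zero_of_dvd_of_lt h0 (by simp only [RR]; omega)
    intro y hy
    have h4 : dist2 h x y ≤ (l.map fun y => dist2 h x y).sum :=
      List.single_le_sum (by simp) _ (List.mem_map_of_mem hy)
    exact ((dist2_eq_zero h x y).1 (by omega)).symm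
  · intro hy
    have h3 : (l.map fun y => dist2 h x y) = l.map fun _ => 0 := by
      apply List.map_congr_left
      intro y hyl
      exact (dist2_eq_zero h x y).2 (hy y hyl).symm
    rw [h3]; simp

/-- STORE(s), then uses `l`, then CHECK(s'): if the two arguments agree, a successful test means that
all uses were `s`, and the content is restored. -/
theorem check_iff (R : Om m b g) (s : Fin k) (l : List (Fin k)) (hl : l.length ≤ m) :
    ev h (R - cst (ev h R s) + (l.map (dd h)).sum) s = 0 ↔ ∀ y ∈ l, y = s := by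
  rw [ev_add, ev_sub, ev_cst, sub_self, zero_add]
  exact ev_sum_dd_eq_zero h l hl s

theorem check_restore (R : Om m b g) (s : Fin k) (l : List (Fin k)) (hy : ∀ y ∈ l, y = s) :
    R - cst (ev h R s) + (l.map (dd h)).sum - l.length • dd h s + cst (ev h R s) = R := by
  have h1 : l.map (dd h : Fin k → Om m b g) = List.replicate l.length (dd h s) := by
    apply List.eq_replicate_iff.2
    refine ⟨by simp, ?_⟩
    intro p hp
    obtain ⟨y, hyl, rfl⟩ := List.mem_map.1 hp
    rw [hy y hyl]
  rw [h1, List.sum_replicate]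
  abel

/-! ### Size -/

theorem card_Om (m b g : ℕ) : Fintype.card (Om m b g) = (RR m b g) ^ (g + 2) := by
  have hM : Fintype.card (ZMod (RR m b g)) = RR m b g := ZMod.card _
  rw [Fintype.card_prod, Fintype.card_prod, Fintype.card_fun, hM, Fintype.card_fin]
  ring

/-- the parameters: base `LL m k`, number of digits `GG m k`. -/
def LL (m k : ℕ) : ℕ := Nat.log 2 k + m + 2

def GG (m k : ℕ) : ℕ := Nat.clog (LL m k) k

theorem two_le_LL (m k : ℕ) : 2 ≤ LL m k := by simp [LL]

theorem le_pow_GG (m k : ℕ) : k ≤ (LL m k) ^ (GG m k) :=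
  Nat.le_pow_clog (by have := two_le_LL m k; omega) k

theorem GG_lt_LL (m k : ℕ) : GG m k < LL m k := by
  have h1 : Nat.clog (LL m k) k ≤ Nat.clog 2 k := Nat.clog_anti_left (by norm_num) (two_le_LL m k)
  have h2 : Nat.clog 2 k ≤ Nat.log 2 k + 1 := by
    apply Nat.clog_le_of_le_pow
    exact (Nat.lt_pow_succ_log_self (by norm_num) k).le
  simp only [GG, LL] at *
  omega

theorem RR_le (m k : ℕ) : RR m (LL m k) (GG m k) ≤ (LL m k) ^ 4 := by
  have h1 := GG_lt_LL m k
  have h2 : m + 2 ≤ LL m k := by simp only [LL]; omega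
  have h3 : m * GG m k ≤ (LL m k - 1) * LL m k := Nat.mul_le_mul (by omega) h1.le
  have h4 : 1 ≤ (LL m k) ^ 3 := Nat.one_le_pow _ _ (by omega)
  have h5 : (LL m k - 1) * LL m k * (LL m k) ^ 2 + (LL m k) ^ 3 = (LL m k) ^ 4 := by
    obtain ⟨a, ha⟩ : ∃ a, LL m k = a + 1 := ⟨LL m k - 1, by omega⟩
    rw [ha]
    simp only [Nat.add_sub_cancel]
    ring
  calc RR m (LL m k) (GG m k) ≤ (LL m k - 1) * LL m k * (LL m k) ^ 2 + 1 :=
        Nat.add_le_add_right (Nat.mul_le_mul_right _ h3) 1
    _ ≤ (LL m k) ^ 4 := by omega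

theorem pow_GG_le (m k : ℕ) (hk : 1 ≤ k) : (LL m k) ^ (GG m k) ≤ LL m k * k := by
  rcases Nat.lt_or_ge 1 k with h | h
  · have h2 := two_le_LL m k
    have h3 : (LL m k) ^ (GG m k).pred < k := Nat.pow_pred_clog_lt_self (by omega) h
    have h4 : 0 < GG m k := Nat.clog_pos (by omega) h
    have h5 : GG m k = (GG m k).pred + 1 := (Nat.succ_pred_eq_of_pos h4).symm
    calc (LL m k) ^ (GG m k) = (LL m k) ^ ((GG m k).pred + 1) := by rw [← h5]
      _ = LL m k * (LL m k) ^ (GG m k).pred := by rw [pow_succ]; ring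
      _ ≤ LL m k * k := Nat.mul_le_mul_left _ h3.le
  · have hk1 : k = 1 := by omega
    subst hk1
    have : GG m 1 = 0 := by simp [GG, Nat.clog_one_right]
    rw [this]
    have := two_le_LL m 1
    simp; omega

theorem card_Om_le (m k : ℕ) (hk : 1 ≤ k) :
    Fintype.card (Om m (LL m k) (GG m k)) ≤ k ^ 4 * (LL m k) ^ 12 := by
  rw [card_Om]
  calc (RR m (LL m k) (GG m k)) ^ (GG m k + 2) ≤ ((LL m k) ^ 4) ^ (GG m k + 2) :=
        Nat.pow_le_pow_left (RR_le m k) _
    _ = ((LL m k) ^ (GG m k)) ^ 4 * (LL m k) ^ 8 := by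
        rw [← pow_mul, ← pow_mul, ← pow_add]; congr 1; ring
    _ ≤ (LL m k * k) ^ 4 * (LL m k) ^ 8 :=
        Nat.mul_le_mul_right _ (Nat.pow_le_pow_left (pow_GG_le m k hk) _)
    _ = k ^ 4 * (LL m k) ^ 12 := by
        rw [mul_pow]
        have : (LL m k) ^ 12 = (LL m k) ^ 4 * (LL m k) ^ 8 := by rw [← pow_add]
        rw [this]; ring

end Pool.Agent.MP_9277c3_lc.NS
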