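import Pool.Agent.Lib.MP_9277c3_lc.NS.Core
import Pool.Agent.Lib.MP_9277c3_lc.NS.Gadget

/-!
# N1: the instance of the structure `Gadget` (helper1)

`gad h : Gadget (Fin k)` for `h : k ≤ b ^ g`, at most six uses, modulus `6 * g * b ^ 2 + 1`.
-/

namespace Pool.Agent.Lib.MP_9277c3_lc.NS

open Pool.Agent.MP_9277c3_lc.NS (Om RR ev cst dd evHom ev_list_sum ev_sum_dd_eq_zero ev_dd_self)

/-- `cst` as a homomorphism. -/
def cstHom (m b g : ℕ) : ZMod (RR m b g) →+ Om m b g where
  toFun := cst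
  map_zero' := by simp [cst]
  map_add' s t := by simp [cst]

/-- The gadget. -/
def gad {k b g : ℕ} (h : k ≤ b ^ g) : Gadget (Fin k) where
  Om := Om 6 b g
  r := RR 6 b g
  ev := fun x => evHom h x
  cst := cstHom 6 b g
  d := dd h
  ev_cst := fun y c => Pool.Agent.MP_9277c3_lc.NS.ev_cst h c y
  ev_self := fun y => ev_dd_self h y
  sound := by
    intro y us hl h0
    have h1 : ev h ((us.map (dd h)).sum : Om 6 b g) y = 0 := by
      rw [ev_list_sum, List.map_map]
      exact h0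
    exact (ev_sum_dd_eq_zero h us hl y).1 h1

theorem gad_r {k b g : ℕ} (h : k ≤ b ^ g) : (gad h).r = 6 * g * b ^ 2 + 1 := rfl

end Pool.Agent.Lib.MP_9277c3_lc.NS
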