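import Pool.Agent.Lib.MP_9277c3_lc.helper78.CM.Init

/-!
# D1: arrays, stored as numbers

`enc B n f` is the number with the digits `f 0, ..., f (n - 1)` in base `B`; `enc2 B m n f` stores the
entries `f t j`, for `t < m` and `j < n`, as the digits with the numbers `t * n + j`.
The programs `getC` and `putC` read and write a digit with a variable number.
-/

set_option autoImplicit false

namespace Pool.Agent.Lib.MP_9277c3_lc.NS

open Finset CM

/-! ### Digits -/

/-- The number with the digits `f 0, ..., f (n - 1)` in base `B`. -/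
def enc (B n : ℕ) (f : ℕ → ℕ) : ℕ := ∑ i ∈ range n, f i * B ^ i

section

variable {B n : ℕ} {f g : ℕ → ℕ}

theorem enc_zero : enc B 0 f = 0 := rfl

theorem enc_succ : enc B (n + 1) f = enc B n f + f n * B ^ n := sum_range_succ _ _

theorem enc_congr (h : ∀ i < n, f i = g i) : enc B n f = enc B n g :=
  sum_congr rfl fun i hi => by rw [h i (mem_range.1 hi)]

theorem enc_lt (hB : 0 < B) (hf : ∀ i < n, f i < B) : enc B n f < B ^ n := by
  induction n with
  | zero => simp [enc]
  | succ n ih =>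
    rw [enc_succ, pow_succ]
    have h1 := ih fun i hi => hf i (Nat.lt_succ_of_lt hi)
    have h2 : f n + 1 ≤ B := hf n (Nat.lt_succ_self _)
    have h3 : (f n + 1) * B ^ n ≤ B * B ^ n := Nat.mul_le_mul_right _ h2
    have h4 : (f n + 1) * B ^ n = f n * B ^ n + B ^ n := by ring
    have h5 : B * B ^ n = B ^ n * B := Nat.mul_comm _ _
    omega

theorem digit_le (i : ℕ) (hi : i < n) : f i * B ^ i ≤ enc B n f :=
  single_le_sum (f := fun i => f i * B ^ i) (fun _ _ => Nat.zero_le _) (mem_range.2 hi)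

theorem enc_digit (hB : 0 < B) (hf : ∀ i < n, f i < B) {i : ℕ} (hi : i < n) :
    enc B n f / B ^ i % B = f i := by
  induction n with
  | zero => omega
  | succ n ih =>
    rw [enc_succ]
    have hf' : ∀ i < n, f i < B := fun i hi => hf i (Nat.lt_succ_of_lt hi)
    rcases Nat.lt_succ_iff_lt_or_eq.1 hi with h | h
    · have h1 : f n * B ^ n = (f n * B ^ (n - i - 1) * B) * B ^ i := by
        have : B ^ n = B ^ (n - i - 1) * B * B ^ i := by
          rw [← pow_succ, ← pow_add]
          congr 1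
          omega
        rw [this]
        ring
      rw [h1, Nat.add_mul_div_right _ _ (Nat.pow_pos hB), Nat.add_mul_mod_self_right]
      exact ih hf' h
    · subst h
      have h1 := enc_lt hB hf'
      rw [Nat.add_mul_div_right _ _ (Nat.pow_pos hB), Nat.div_eq_of_lt h1, Nat.zero_add,
        Nat.mod_eq_of_lt (hf i (Nat.lt_succ_self _))]

theorem enc_set {i v : ℕ} (hi : i < n) (hg : g i = v) (hne : ∀ j < n, j ≠ i → g j = f j) :
    enc B n f - f i * B ^ i + v * B ^ i = enc B n g := by
  have h1 : enc B n f = (∑ j ∈ (range n).erase i, f j * B ^ j) + f i * B ^ i :=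
    (sum_erase_add _ _ (mem_range.2 hi)).symm
  have h2 : enc B n g = (∑ j ∈ (range n).erase i, g j * B ^ j) + g i * B ^ i :=
    (sum_erase_add _ _ (mem_range.2 hi)).symm
  have h3 : ∑ j ∈ (range n).erase i, g j * B ^ j = ∑ j ∈ (range n).erase i, f j * B ^ j :=
    sum_congr rfl fun j hj => by
      rw [mem_erase, mem_range] at hj
      rw [hne j hj.2 hj.1]
  rw [h1, h2, h3, hg]
  omega

/-- The digits of a number. -/
theorem enc_digits (hB : 0 < B) {A : ℕ} (hA : A < B ^ n) : enc B n (fun i => A / B ^ i % B) = A := by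
  induction n generalizing A with
  | zero =>
    rw [pow_zero] at hA
    rw [enc_zero]
    omega
  | succ n ih =>
    have h1 : A % B ^ n < B ^ n := Nat.mod_lt _ (Nat.pow_pos hB)
    have h2 : enc B n (fun i => A / B ^ i % B) = A % B ^ n := by
      rw [← ih h1]
      refine enc_congr fun i hi => ?_
      have h3 : B ^ n = B ^ i * B * B ^ (n - i - 1) := by
        rw [← pow_succ, ← pow_add]
        congr 1
        omega
      rw [h3, Nat.mul_assoc, Nat.mod_mul_right_div_self, Nat.mod_mul_right_mod]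
    rw [enc_succ, h2]
    have h4 : A / B ^ n < B := by
      rw [Nat.div_lt_iff_lt_mul (Nat.pow_pos hB), ← pow_succ']
      exact hA
    rw [Nat.mod_eq_of_lt h4]
    exact Nat.mod_add_div' A (B ^ n)

end

/-! ### Arrays with two indices -/

/-- The entries `f t j`, `t < m`, `j < n`. -/
def enc2 (B m n : ℕ) (f : ℕ → ℕ → ℕ) : ℕ := enc B (m * n) fun i => f (i / n) (i % n)

section

variable {B m n : ℕ} {f g : ℕ → ℕ → ℕ}

theorem idx_lt {t j : ℕ} (ht : t < m) (hj : j < n) : t * n + j < m * n := by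
  have h1 : (t + 1) * n ≤ m * n := Nat.mul_le_mul_right _ ht
  have h2 : (t + 1) * n = t * n + n := by ring
  omega

theorem idx_div {t j : ℕ} (hj : j < n) : (t * n + j) / n = t := by
  rw [Nat.mul_comm, Nat.mul_add_div (by omega), Nat.div_eq_of_lt hj, Nat.add_zero]

theorem idx_mod {t j : ℕ} (hj : j < n) : (t * n + j) % n = j := by
  rw [Nat.mul_comm, Nat.mul_add_mod, Nat.mod_eq_of_lt hj]

theorem idx_pair {i : ℕ} (hi : i < m * n) : i / n < m ∧ i % n < n ∧ i / n * n + i % n = i := by
  have hn : 0 < n := by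
    rcases Nat.eq_zero_or_pos n with h | h
    · subst h; omega
    · exact h
  refine ⟨(Nat.div_lt_iff_lt_mul hn).2 hi, Nat.mod_lt _ hn, ?_⟩
  rw [Nat.mul_comm]
  exact Nat.div_add_mod i n

theorem enc2_congr (h : ∀ t < m, ∀ j < n, f t j = g t j) : enc2 B m n f = enc2 B m n g :=
  enc_congr fun i hi => by
    obtain ⟨h1, h2, _⟩ := idx_pair hi
    exact h _ h1 _ h2

theorem enc2_lt (hB : 0 < B) (hf : ∀ t < m, ∀ j < n, f t j < B) : enc2 B m n f < B ^ (m * n) :=
  enc_lt hB fun i hi => by
    obtain ⟨h1, h2, _⟩ := idx_pair hi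
    exact hf _ h1 _ h2

theorem enc2_digit (hB : 0 < B) (hf : ∀ t < m, ∀ j < n, f t j < B) {t j : ℕ} (ht : t < m)
    (hj : j < n) : enc2 B m n f / B ^ (t * n + j) % B = f t j := by
  rw [enc2, enc_digit hB (fun i hi => by
    obtain ⟨h1, h2, _⟩ := idx_pair hi
    exact hf _ h1 _ h2) (idx_lt ht hj), idx_div hj, idx_mod hj]

theorem enc2_set {t j v : ℕ} (ht : t < m) (hj : j < n) (hg : g t j = v)
    (hne : ∀ t' < m, ∀ j' < n, ¬(t' = t ∧ j' = j) → g t' j' = f t' j') :
    enc2 B m n f - f t j * B ^ (t * n + j) + v * B ^ (t * n + j) = enc2 B m n g := by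
  have h := enc_set (B := B) (f := fun i => f (i / n) (i % n)) (g := fun i => g (i / n) (i % n))
    (i := t * n + j) (v := v) (idx_lt ht hj) (by simp only [idx_div hj, idx_mod hj, hg])
    (fun i hi hne' => by
      obtain ⟨h1, h2, h3⟩ := idx_pair hi
      refine hne _ h1 _ h2 fun ⟨h4, h5⟩ => hne' ?_
      rw [← h3, h4, h5])
  simp only [idx_div hj, idx_mod hj] at h
  exact h

end

/-! ### Programs -/

section

variable {R F : Type}

/-- Sequential composition of a list of programs. -/
def sqn : List (AStmt R F) → AStmt R F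
  | [] => Stmt.skip
  | b :: l => Stmt.seq b (sqn l)

/-- The program `pw := b ^ idx`; the register `i` is the counter of a loop. -/
def powC (pw i : R) (b idx : Exp R) : AStmt R F :=
  sqn [set i idx, set pw 1, Stmt.loop i (sqn [set pw (Exp.var pw * b), set i (Exp.var i - 1)])]

/-- The program `dst := (the digit with the number idx of arr in base b)`. -/
def getC (dst arr pw i : R) (b idx : Exp R) : AStmt R F :=
  sqn [powC pw i b idx, set dst ((Exp.var arr / Exp.var pw) % b), set pw 0]

/-- The program `(the digit with the number idx of arr in base b) := val`. -/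
def putC (arr pw i : R) (b idx val : Exp R) : AStmt R F :=
  sqn [powC pw i b idx,
    set arr (Exp.var arr - (Exp.var arr / Exp.var pw) % b * Exp.var pw + val * Exp.var pw),
    set pw 0]

variable {α : Type} {x : List α} {cc : Cell α → ℕ} {A : ℕ} {body : F → AStmt R F} {k : ℕ}

theorem run_nil {s : R → ℕ} : RunA x cc A body k (sqn []) s s := RunA.skip _ _

theorem run_cons {b : AStmt R F} {l : List (AStmt R F)} {s t u : R → ℕ}
    (h₁ : RunA x cc A body k b s t) (h₂ : RunA x cc A body k (sqn l) t u) :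
    RunA x cc A body k (sqn (b :: l)) s u := RunA.seq _ _ _ _ _ _ h₁ h₂

theorem run_set_cons {q : R} {ex : Exp R} {l : List (AStmt R F)} {s u : R → ℕ} (n : ℕ)
    (hn : ex.eval x cc s = n) (hA : n < A) (h₂ : RunA x cc A body k (sqn l) (upd s q n) u) :
    RunA x cc A body k (sqn (set q ex :: l)) s u := by
  subst hn
  exact RunA.seq _ _ _ _ _ _ (RunA.asg _ _ _ _ hA) h₂

/-- The power is computed. -/
theorem run_pow {pw i : R} {b idx : Exp R} (hip : i ≠ pw) {s : R → ℕ} {B e : ℕ} (hB : 1 ≤ B)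
    (hb : ∀ n p, b.eval x cc (upd (upd s i n) pw p) = B) (hidx : idx.eval x cc s = e)
    (he : e < A) (hA : B ^ e < A) :
    RunA x cc A body k (powC pw i b idx) s (upd (upd s i 0) pw (B ^ e)) := by
  have hp : ∀ j ≤ e, B ^ j < A := fun j hj => (Nat.pow_le_pow_right hB hj).trans_lt hA
  refine run_set_cons e hidx he (run_set_cons 1 rfl (by have := hp 0 (Nat.zero_le _); simpa using this)
    (run_cons ?_ run_nil))
  refine RunA.loop i _ (fun n => upd (upd s i n) pw (B ^ (e - n))) (fun n => ?_) e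
    (fun n hn => ?_) ?_ ?_
  · rw [upd_ne hip, upd_self]
  · have h1 : B ^ (e - (n + 1)) * B = B ^ (e - n) := by
      rw [← pow_succ]; congr 1; omega
    refine run_set_cons (B ^ (e - n)) ?_ (hp _ (Nat.sub_le _ _)) (run_set_cons n ?_ (by omega)
      (run_nil.cast ?_))
    · rw [eval_mul, eval_var, upd_self, hb, h1]
    · rw [eval_sub, eval_var, eval_one, upd_ne hip, upd_ne hip, upd_self, Nat.add_sub_cancel]
    · rw [upd_upd, upd_comm (Ne.symm hip), upd_upd]
  · rw [Nat.sub_self, pow_zero]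
  · rw [Nat.sub_zero]

/-- A digit is read. -/
theorem run_get {dst arr pw i : R} {b idx : Exp R} (hip : i ≠ pw) (hai : arr ≠ i) (hap : arr ≠ pw)
    {s : R → ℕ} {B e : ℕ} (hB : 1 ≤ B) (hb : ∀ n p, b.eval x cc (upd (upd s i n) pw p) = B)
    (hidx : idx.eval x cc s = e) (he : e < A) (hA : B ^ e < A) (hBA : B ≤ A) (hdp : dst ≠ pw) :
    RunA x cc A body k (getC dst arr pw i b idx) s
      (upd (upd (upd s i 0) pw 0) dst (s arr / B ^ e % B)) := by
  refine run_cons (run_pow hip hB hb hidx he hA) ?_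
  refine run_set_cons (s arr / B ^ e % B) ?_ ((Nat.mod_lt _ hB).trans_le hBA)
    (run_set_cons 0 rfl (by omega) (run_nil.cast ?_))
  · rw [eval_mod, eval_div, hb, eval_var, eval_var, upd_self, upd_ne hap, upd_ne hai]
  · rw [upd_comm hdp, upd_upd]

/-- A digit is written. -/
theorem run_put {arr pw i : R} {b idx val : Exp R} (hip : i ≠ pw) (hai : arr ≠ i) (hap : arr ≠ pw)
    {s : R → ℕ} {B e v : ℕ} (hB : 1 ≤ B) (hb : ∀ n p, b.eval x cc (upd (upd s i n) pw p) = B)
    (hidx : idx.eval x cc s = e) (hval : ∀ p, val.eval x cc (upd (upd s i 0) pw p) = v)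
    (he : e < A) (hA : B ^ e < A) (hv : s arr - s arr / B ^ e % B * B ^ e + v * B ^ e < A) :
    RunA x cc A body k (putC arr pw i b idx val) s
      (upd (upd (upd s i 0) pw 0) arr (s arr - s arr / B ^ e % B * B ^ e + v * B ^ e)) := by
  refine run_cons (run_pow hip hB hb hidx he hA) ?_
  refine run_set_cons _ ?_ hv (run_set_cons 0 rfl (by omega) (run_nil.cast ?_))
  · simp only [eval_add, eval_sub, eval_mul, eval_mod, eval_div, hb, hval, eval_var, upd_self,
      upd_ne hap, upd_ne hai]
  · rw [upd_comm hap, upd_upd]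

theorem upd_eq_self' {s : R → ℕ} {q : R} {v : ℕ} (h : s q = v) : upd s q v = s := by
  rw [← h, upd_eq_self]

/-- A digit of an array is read. -/
theorem run_get_enc {dst arr pw i : R} {b idx : Exp R} (hip : i ≠ pw) (hai : arr ≠ i)
    (hap : arr ≠ pw) {s : R → ℕ} {B n e : ℕ} {f : ℕ → ℕ} (hB : 1 ≤ B)
    (hb : ∀ n p, b.eval x cc (upd (upd s i n) pw p) = B) (hidx : idx.eval x cc s = e)
    (hi0 : s i = 0) (hp0 : s pw = 0) (hf : ∀ i < n, f i < B) (harr : s arr = enc B n f)
    (he : e < n) (hA : B ^ n ≤ A) (hnA : n ≤ A) (hB2 : 2 ≤ B) (hdp : dst ≠ pw) :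
    RunA x cc A body k (getC dst arr pw i b idx) s (upd s dst (f e)) := by
  have h1 : B ^ e < B ^ n := Nat.pow_lt_pow_right hB2 he
  have h2 : B ≤ B ^ n := Nat.le_self_pow (by omega) _
  have h := run_get (x := x) (cc := cc) (A := A) (body := body) (k := k) (dst := dst) (arr := arr)
    hip hai hap hB hb hidx (by omega) (by omega) (by omega) hdp
  rw [upd_eq_self' hi0, upd_eq_self' hp0, harr, enc_digit hB hf he] at h
  exact h

/-- A digit of an array is written. -/
theorem run_put_enc {arr pw i : R} {b idx val : Exp R} (hip : i ≠ pw) (hai : arr ≠ i)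
    (hap : arr ≠ pw) {s : R → ℕ} {B n e v : ℕ} {f g : ℕ → ℕ} (hB2 : 2 ≤ B)
    (hb : ∀ n p, b.eval x cc (upd (upd s i n) pw p) = B) (hidx : idx.eval x cc s = e)
    (hval : ∀ p, val.eval x cc (upd (upd s i 0) pw p) = v)
    (hi0 : s i = 0) (hp0 : s pw = 0) (hf : ∀ i < n, f i < B) (harr : s arr = enc B n f)
    (he : e < n) (hA : B ^ n ≤ A) (hnA : n ≤ A) (hvB : v < B) (hg : g e = v)
    (hne : ∀ j < n, j ≠ e → g j = f j) :
    RunA x cc A body k (putC arr pw i b idx val) s (upd s arr (enc B n g)) := by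
  have hB : 1 ≤ B := by omega
  have h1 : B ^ e < B ^ n := Nat.pow_lt_pow_right hB2 he
  have h3 : enc B n f - f e * B ^ e + v * B ^ e = enc B n g := enc_set he hg hne
  have h4 : enc B n g < B ^ n := enc_lt hB fun j hj => by
    by_cases h : j = e
    · rw [h, hg]; exact hvB
    · rw [hne j hj h]; exact hf j hj
  have h := run_put (x := x) (cc := cc) (A := A) (body := body) (k := k) (arr := arr)
    hip hai hap hB hb hidx hval (by omega) (by omega) (by rw [harr, enc_digit hB hf he, h3]; omega)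
  rw [upd_eq_self' hi0, upd_eq_self' hp0, harr, enc_digit hB hf he, h3] at h
  exact h

/-- An entry of an array with two indices is read. -/
theorem run_get_enc2 {dst arr pw i : R} {b idx : Exp R} (hip : i ≠ pw) (hai : arr ≠ i)
    (hap : arr ≠ pw) {s : R → ℕ} {B m n t j : ℕ} {f : ℕ → ℕ → ℕ} (hB2 : 2 ≤ B)
    (hb : ∀ n p, b.eval x cc (upd (upd s i n) pw p) = B) (hidx : idx.eval x cc s = t * n + j)
    (hi0 : s i = 0) (hp0 : s pw = 0) (hf : ∀ t < m, ∀ j < n, f t j < B)
    (harr : s arr = enc2 B m n f) (ht : t < m) (hj : j < n) (hA : B ^ (m * n) ≤ A)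
    (hdp : dst ≠ pw) :
    RunA x cc A body k (getC dst arr pw i b idx) s (upd s dst (f t j)) := by
  have h1 := idx_lt ht hj
  have h2 : m * n < B ^ (m * n) := Nat.lt_pow_self hB2
  have h := run_get_enc (x := x) (cc := cc) (A := A) (body := body) (k := k) (dst := dst)
    (arr := arr) (n := m * n) (f := fun i => f (i / n) (i % n)) hip hai hap (by omega) hb hidx hi0
    hp0 (fun i hi => by
      obtain ⟨h1, h2, _⟩ := idx_pair hi
      exact hf _ h1 _ h2) harr h1 hA (by omega) hB2 hdp
  simpa only [idx_div hj, idx_mod hj] using h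

/-- An entry of an array with two indices is written. -/
theorem run_put_enc2 {arr pw i : R} {b idx val : Exp R} (hip : i ≠ pw) (hai : arr ≠ i)
    (hap : arr ≠ pw) {s : R → ℕ} {B m n t j v : ℕ} {f g : ℕ → ℕ → ℕ} (hB2 : 2 ≤ B)
    (hb : ∀ n p, b.eval x cc (upd (upd s i n) pw p) = B) (hidx : idx.eval x cc s = t * n + j)
    (hval : ∀ p, val.eval x cc (upd (upd s i 0) pw p) = v)
    (hi0 : s i = 0) (hp0 : s pw = 0) (hf : ∀ t < m, ∀ j < n, f t j < B)
    (harr : s arr = enc2 B m n f) (ht : t < m) (hj : j < n) (hA : B ^ (m * n) ≤ A) (hvB : v < B)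
    (hg : g t j = v) (hne : ∀ t' < m, ∀ j' < n, ¬(t' = t ∧ j' = j) → g t' j' = f t' j') :
    RunA x cc A body k (putC arr pw i b idx val) s (upd s arr (enc2 B m n g)) := by
  have h1 := idx_lt ht hj
  have h2 : m * n < B ^ (m * n) := Nat.lt_pow_self hB2
  exact run_put_enc (x := x) (cc := cc) (A := A) (body := body) (k := k) (arr := arr)
    (n := m * n) (f := fun i => f (i / n) (i % n)) (g := fun i => g (i / n) (i % n)) hip hai hap
    hB2 hb hidx hval hi0 hp0 (fun i hi => by
      obtain ⟨h1, h2, _⟩ := idx_pair hi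
      exact hf _ h1 _ h2) harr h1 hA (by omega) hvB (by simp only [idx_div hj, idx_mod hj, hg])
    (fun i hi hne' => by
      obtain ⟨h1, h2, h3⟩ := idx_pair hi
      refine hne _ h1 _ h2 fun ⟨h4, h5⟩ => hne' ?_
      rw [← h3, h4, h5])

end

end Pool.Agent.Lib.MP_9277c3_lc.NS
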