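import Pool.Agent.Lib.MP_9277c3_lc.NS.Pack
import Pool.Agent.Lib.MP_9277c3_lc.NS.Arr
import Pool.Agent.Lib.MP_9277c3_lc.helper78.CM.Prog

/-!
# D2: programs for packed contents of registers

`evC`: `e := ` the value of the packed content `W` at `s`. `addD`: add `c` times `dd s` to `W`.
`addC`: add the constant `c` to `W`. The programs `useP`, `storeP` and `checkP` are the operations of
the engine on a packed content.
-/

namespace Pool.Agent.Lib.MP_9277c3_lc.NS

open Finset Pool.Agent.Lib.MP_9277c3_lc.CM
open Pool.Agent.MP_9277c3_lc.NS (Om RR ev cst dd dig dig_val evHom)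

/-- The registers: the packed content `W`, the argument `s`, the multiplier or constant `c`, the value
`e`, the number of uses `n`, the stored value `t`, the constants `cb = b`, `cr = RR m b g`, `cg = g`,
`cpg = RR m b g ^ (g - 1)`, and auxiliary registers `y`, `z`, `q`, `k` which are `0` before and
after. -/
inductive Rd : Type
  | W | s | c | e | n | t | cb | cr | cg | cpg | y | z | q | k

section

open Rd

variable {F : Type}

/-- `e := ` the value of `W` at `s`. -/
def evC : AStmt Rd F :=
  sqn [set y (W / cr / cr), set z s, set k cg, set e (W % cr),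
    Stmt.loop k (sqn [set e ((e + (y % cr) * (z % cb)) % cr),
      set q ((q + (z % cb) * (z % cb)) % cr),
      set y (y / cr), set z (z / cb), set k (k - 1)]),
    set e ((e + (W / cr % cr) * q) % cr), set y 0, set z 0, set q 0]

/-- `W := W + c • dd s`. -/
def addD : AStmt Rd F :=
  sqn [set y (W / cr / cr), set z s, set k cg,
    Stmt.loop k (sqn [set q ((q + (z % cb) * (z % cb)) % cr),
      set y (y / cr + ((y % cr + c * ((cr - 2) * (z % cb))) % cr) * cpg),
      set z (z / cb), set k (k - 1)]),
    set W ((W % cr + c * q) % cr + cr * ((W / cr % cr + c) % cr + cr * y)),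
    set y 0, set z 0, set q 0]

/-- `W := W + cst c`. -/
def addC : AStmt Rd F := set W (W / cr * cr + (W % cr + c) % cr)

/-- The use of the register `W`, with the value `s`. -/
def useP : AStmt Rd F := sqn [set c 1, addD, set c 0]

/-- Store the value `s` in the register `W`; the stored number is `e`. -/
def storeP : AStmt Rd F := sqn [evC, set c (cr - e), addC, set c 0]

/-- Check the value `s` of the register `W`, which has been used `n` times, with the stored number `t`;
the check is passed iff `e = 0`. -/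
def checkP : AStmt Rd F := sqn [evC, set c t, addC, set c (cr - n), addD, set c 0]

/-- The registers for constants have the right values, and the auxiliary registers are `0`. -/
structure OkR (m b g : ℕ) (s : Rd → ℕ) : Prop where
  cb : s .cb = b
  cr : s .cr = RR m b g
  cg : s .cg = g
  cpg : s .cpg = RR m b g ^ (g - 1)
  y : s .y = 0
  z : s .z = 0
  q : s .q = 0
  k : s .k = 0

end

section

variable {α F : Type} {X : List α} {cc : Cell α → ℕ} {A : ℕ} {body : F → AStmt Rd F} {K k m b g : ℕ}

theorem RR_pos : 0 < RR m b g := by unfold RR; omega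

theorem g_lt_RR (hm : 1 ≤ m) (h : k ≤ b ^ g) (v : Fin k) : g < RR m b g := by
  have hk := v.pos
  rcases Nat.eq_zero_or_pos g with h0 | h0
  · subst h0; exact RR_pos
  · have hb : 1 ≤ b := by
      rcases Nat.eq_zero_or_pos b with h1 | h1
      · subst h1
        rw [Nat.zero_pow h0] at h
        omega
      · exact h1
    unfold RR
    have h1 : 1 ≤ b ^ 2 := Nat.one_le_pow _ _ hb
    have h2 : 1 * g ≤ m * g := Nat.mul_le_mul_right _ hm
    have h3 : m * g * 1 ≤ m * g * b ^ 2 := Nat.mul_le_mul_left _ h1
    omega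

theorem RR_le (hA : RR m b g ^ (g + 2) ≤ A) : RR m b g ≤ A :=
  (Nat.le_self_pow (by omega) _).trans hA

theorem encZ_lt_A (hA : RR m b g ^ (g + 2) ≤ A) (V : ℕ → ZMod (RR m b g)) : encZ g V < A :=
  (encZ_lt g V).trans_le ((Nat.pow_le_pow_right RR_pos (by omega)).trans hA)

/-- The value of a packed content. -/
theorem run_evC (h : k ≤ b ^ g) (hm : 1 ≤ m) (hA : RR m b g ^ (g + 2) ≤ A) (hkA : k ≤ A)
    {s : Rd → ℕ} (hs : OkR m b g s) {p : Om m b g} (hW : s .W = pack p) {v : Fin k}
    (hv : s .s = v) : RunA X cc A body K evC s (upd s .e (ev h p v).val) := by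
  have hr := RR_le hA
  have hg := (g_lt_RR hm h v).trans_le hr
  have hvA : (v : ℕ) < A := v.2.trans_le hkA
  have hz : ∀ c : ZMod (RR m b g), c.val < A := fun c => (ZMod.val_lt c).trans_le hr
  refine run_set_cons (encZ g (lin p)) ?_ (encZ_lt_A hA _) ?_
  · simp only [eval_div, eval_var, hW, hs.cr]
    exact pack_div_div p
  refine run_set_cons v (by simp [hv]) hvA ?_
  refine run_set_cons g (by simp [hs.cg]) hg ?_
  refine run_set_cons (lins p v 0).val ?_ (hz _) ?_
  · simp [hW, hs.cr, lins_zero, pack_mod]
  refine run_cons (RunA.loop .k _ (fun n => upd (upd (upd (upd (upd s .y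
    (encZ g (lin p) / RR m b g ^ (g - n))) .z (v / b ^ (g - n))) .q (sqs m b g v (g - n)).val) .e
    (lins p v (g - n)).val) .k n) (by simp) g (fun n hn => ?_) ?_ rfl) ?_
  · refine run_set_cons (lins p v (g - n)).val ?_ (hz _) ?_
    · have h1 := lins_step p v (i := g - (n + 1)) (by omega)
      rw [show g - (n + 1) + 1 = g - n by omega] at h1
      simp [hs.cr, hs.cb, h1]
    · refine run_set_cons (sqs m b g v (g - n)).val ?_ (hz _) ?_
      · have h1 := sqs_step (m := m) (b := b) (g := g) v (g - (n + 1))
        rw [show g - (n + 1) + 1 = g - n by omega] at h1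
        simp [hs.cr, hs.cb, h1]
      · refine run_set_cons (encZ g (lin p) / RR m b g ^ (g - n)) ?_
          ((Nat.div_le_self _ _).trans_lt (encZ_lt_A hA _)) ?_
        · simp [hs.cr]
          rw [Nat.div_div_eq_div_mul, ← pow_succ, show g - (n + 1) + 1 = g - n by omega]
        · refine run_set_cons (v / b ^ (g - n)) ?_ ((Nat.div_le_self _ _).trans_lt hvA) ?_
          · simp [hs.cb]
            rw [Nat.div_div_eq_div_mul, ← pow_succ, show g - (n + 1) + 1 = g - n by omega]
          · refine run_set_cons n (by simp) (by omega) (run_nil.cast ?_)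
            funext a; cases a <;> simp
  · rw [Nat.sub_self, pow_zero, pow_zero, Nat.div_one, Nat.div_one, sqs_zero]
    funext a; cases a <;> simp [hs.q]
  · refine run_set_cons (ev h p v).val ?_ (hz _) (run_set_cons 0 rfl (by omega)
      (run_set_cons 0 rfl (by omega) (run_set_cons 0 rfl (by omega) (run_nil.cast ?_))))
    · have h1 := ev_step h p v
      simp only [eval_mod, eval_add, eval_mul, eval_div, eval_var, upd_self, upd_ne, ne_eq,
        reduceCtorEq, not_false_eq_true, hs.cr, hW, Nat.sub_zero]
      exact h1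
    · funext a; cases a <;> simp [hs.y, hs.z, hs.q, hs.k]

/-- Add a multiple of `dd s`. -/
theorem run_addD (h : k ≤ b ^ g) (hm : 1 ≤ m) (hA : RR m b g ^ (g + 2) ≤ A) (hkA : k ≤ A)
    {s : Rd → ℕ} (hs : OkR m b g s) {p : Om m b g} (hW : s .W = pack p) {v : Fin k}
    (hv : s .s = v) : RunA X cc A body K addD s (upd s .W (pack (p + s .c • dd h v))) := by
  have hr := RR_le hA
  have hg := (g_lt_RR hm h v).trans_le hr
  have hvA : (v : ℕ) < A := v.2.trans_le hkA
  have hz : ∀ c : ZMod (RR m b g), c.val < A := fun c => (ZMod.val_lt c).trans_le hr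
  refine run_set_cons (encZ g (lin p)) ?_ (encZ_lt_A hA _) ?_
  · simp only [eval_div, eval_var, hW, hs.cr]
    exact pack_div_div p
  refine run_set_cons v (by simp [hv]) hvA ?_
  refine run_set_cons g (by simp [hs.cg]) hg ?_
  refine run_cons (RunA.loop .k _ (fun n => upd (upd (upd (upd s .y
    (encZ g (rot g (lin p) (linD p (s .c) v) (g - n)))) .z (v / b ^ (g - n))) .q
    (sqs m b g v (g - n)).val) .k n) (by simp) g (fun n hn => ?_) ?_ rfl) ?_
  · refine run_set_cons (sqs m b g v (g - n)).val ?_ (hz _) ?_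
    · have h1 := sqs_step (m := m) (b := b) (g := g) v (g - (n + 1))
      rw [show g - (n + 1) + 1 = g - n by omega] at h1
      simp [hs.cr, hs.cb, h1]
    · refine run_set_cons (encZ g (rot g (lin p) (linD p (s .c) v) (g - n))) ?_
        (encZ_lt_A hA _) ?_
      · have h1 := linD_step p (s .c) v (i := g - (n + 1)) (by omega)
        rw [show g - (n + 1) + 1 = g - n by omega] at h1
        simp only [eval_mod, eval_add, eval_mul, eval_sub, eval_div, eval_var, eval_ofNat, upd_self,
          upd_ne, ne_eq, reduceCtorEq, not_false_eq_true, hs.cr, hs.cb, hs.cpg]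
        exact h1
      · refine run_set_cons (v / b ^ (g - n)) ?_ ((Nat.div_le_self _ _).trans_lt hvA) ?_
        · simp [hs.cb]
          rw [Nat.div_div_eq_div_mul, ← pow_succ, show g - (n + 1) + 1 = g - n by omega]
        · refine run_set_cons n (by simp) (by omega) (run_nil.cast ?_)
          funext a; cases a <;> simp
  · rw [Nat.sub_self, pow_zero, Nat.div_one, sqs_zero, encZ_rot_zero]
    funext a; cases a <;> simp [hs.q]
  · have hb1 : 1 ≤ b ∨ g = 0 := by
      rcases Nat.eq_zero_or_pos b with h1 | h1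
      · right
        by_contra h0
        subst h1
        rw [Nat.zero_pow (Nat.pos_of_ne_zero h0)] at h
        have := v.pos
        omega
      · exact Or.inl h1
    refine run_set_cons (pack (p + s .c • dd h v)) ?_ ((pack_lt _).trans_le hA)
      (run_set_cons 0 rfl (by omega) (run_set_cons 0 rfl (by omega) (run_set_cons 0 rfl (by omega)
      (run_nil.cast ?_))))
    · have h1 := pack_add_dd h hm hb1 p (s .c) v
      simp only [eval_mod, eval_add, eval_mul, eval_div, eval_var, upd_self, upd_ne, ne_eq,
        reduceCtorEq, not_false_eq_true, hs.cr, hW, Nat.sub_zero, encZ_rot_last]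
      exact h1
    · funext a; cases a <;> simp [hs.y, hs.z, hs.q, hs.k]

/-- Add a constant. -/
theorem run_addC (hA : RR m b g ^ (g + 2) ≤ A) {s : Rd → ℕ} (hs : OkR m b g s) {p : Om m b g}
    (hW : s .W = pack p) :
    RunA X cc A body K addC s (upd s .W (pack (p + cst (s .c : ZMod (RR m b g))))) := by
  have h1 := pack_add_cst p (s .c)
  have h2 : ((Exp.var Rd.W / Exp.var Rd.cr * Exp.var Rd.cr + (Exp.var Rd.W % Exp.var Rd.cr +
      Exp.var Rd.c) % Exp.var Rd.cr : Exp Rd)).eval X cc s =
      pack (p + cst (s .c : ZMod (RR m b g))) := by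
    simp only [eval_mod, eval_add, eval_mul, eval_div, eval_var, hs.cr, hW]
    exact h1
  have h3 := RunA.asg (x := X) (cc := cc) (A := A) (body := body) K Rd.W
    (Exp.var Rd.W / Exp.var Rd.cr * Exp.var Rd.cr + (Exp.var Rd.W % Exp.var Rd.cr +
      Exp.var Rd.c) % Exp.var Rd.cr) s (by rw [h2]; exact (pack_lt _).trans_le hA)
  rw [h2] at h3
  exact h3

theorem OkR.upd {s : Rd → ℕ} (hs : OkR m b g s) {a : Rd}
    (ha : a = .W ∨ a = .s ∨ a = .c ∨ a = .e ∨ a = .n ∨ a = .t) (v : ℕ) :
    OkR m b g (CM.upd s a v) := by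
  rcases ha with rfl | rfl | rfl | rfl | rfl | rfl <;>
  · constructor
    · simp [hs.cb]
    · simp [hs.cr]
    · simp [hs.cg]
    · simp [hs.cpg]
    · simp [hs.y]
    · simp [hs.z]
    · simp [hs.q]
    · simp [hs.k]

/-- The use of a register. -/
theorem run_useP (h : k ≤ b ^ g) (hm : 1 ≤ m) (hA : RR m b g ^ (g + 2) ≤ A) (hkA : k ≤ A)
    (hA1 : 1 < A)
    {s : Rd → ℕ} (hs : OkR m b g s) (hc : s .c = 0) {p : Om m b g} (hW : s .W = pack p) {v : Fin k}
    (hv : s .s = v) : RunA X cc A body K useP s (upd s .W (pack (p + dd h v))) := by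
  refine run_set_cons 1 rfl hA1 (run_cons (run_addD h hm hA hkA (hs.upd (by simp) 1) (p := p)
    (by simp [hW]) (v := v) (by simp [hv])) (run_set_cons 0 rfl (by omega) (run_nil.cast ?_)))
  rw [upd_self, one_nsmul]
  funext a; cases a <;> simp [hc]

/-- The value `ev` is subtracted. -/
theorem run_storeP (h : k ≤ b ^ g) (hm : 1 ≤ m) (hA : RR m b g ^ (g + 2) ≤ A) (hkA : k ≤ A)
    (hrA : RR m b g < A)
    {s : Rd → ℕ} (hs : OkR m b g s) (hc : s .c = 0) {p : Om m b g} (hW : s .W = pack p) {v : Fin k}
    (hv : s .s = v) : RunA X cc A body K storeP s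
      (upd (upd s .e (ev h p v).val) .W (pack (p + -cst (ev h p v)))) := by
  refine run_cons (run_evC h hm hA hkA hs hW hv) ?_
  refine run_set_cons (RR m b g - (ev h p v).val) (by simp [hs.cr]) (by omega) ?_
  refine run_cons (run_addC hA ((hs.upd (by simp) _).upd (by simp) _) (p := p) (by simp [hW])) ?_
  refine run_set_cons 0 rfl (by omega) (run_nil.cast ?_)
  rw [upd_self, ← sub_cst, sub_eq_add_neg]
  funext a; cases a <;> simp [hc]

/-- The check of a register. -/
theorem run_checkP (h : k ≤ b ^ g) (hm : 1 ≤ m) (hA : RR m b g ^ (g + 2) ≤ A) (hkA : k ≤ A)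
    (hrA : RR m b g < A)
    {s : Rd → ℕ} (hs : OkR m b g s) (hc : s .c = 0) {p : Om m b g} (hW : s .W = pack p) {v : Fin k}
    (hv : s .s = v) {τ : ZMod (RR m b g)} (ht : s .t = τ.val) (hn : s .n ≤ RR m b g) :
    RunA X cc A body K checkP s
      (upd (upd s .e (ev h p v).val) .W (pack (p + (cst τ - s .n • dd h v)))) := by
  refine run_cons (run_evC h hm hA hkA hs hW hv) ?_
  refine run_set_cons τ.val (by simp [ht]) ((ZMod.val_lt _).trans hrA) ?_
  refine run_cons (run_addC hA ((hs.upd (by simp) _).upd (by simp) _) (p := p) (by simp [hW])) ?_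
  refine run_set_cons (RR m b g - s .n) (by simp [hs.cr]) (by omega) ?_
  refine run_cons (run_addD h hm hA hkA ((((hs.upd (by simp) _).upd (by simp) _).upd (by simp)
    _).upd (by simp) _) (p := p + cst τ) (by simp) (v := v) (by simp [hv])) ?_
  refine run_set_cons 0 rfl (by omega) (run_nil.cast ?_)
  simp only [upd_self]
  rw [← sub_nsmul _ _ hn, add_sub_assoc]
  funext a; cases a <;> simp [hc]

end

end Pool.Agent.Lib.MP_9277c3_lc.NS
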