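import Pool.Agent.Lib.MP_9277c3_lc.NS.Arr
import Pool.Agent.Lib.MP_9277c3_lc.NS.Ctl
import Pool.Agent.Lib.MP_9277c3_lc.NS.GadgetInst
import Pool.Agent.Lib.MP_9277c3_lc.NS.PackC
import Pool.Agent.Lib.MP_9277c3_lc.NC.Time

/-!
# The operations of the engine as programs

`lay` is the state of the registers of the machine which represents a state of the engine.
-/

set_option autoImplicit false
set_option linter.constructorNameAsVariable false

namespace Pool.Agent.Lib.MP_9277c3_lc.NS

open CM NC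
open Pool.Agent.MP_9277c3_lc.NS (Om RR ev cst dd)

/-- The registers of the operations; `Y` are additional registers for constants. -/
inductive OL (Y : Type) : Type
  | AR | AT | AD | AC | fl
  | rB | rT | rN | rW
  | pw | i
  | loc (x : Rd)
  | ex (y : Y)

section upd

variable {C L : Type}

theorem upd_inr (c : C → ℕ) (l : L → ℕ) (r : L) (v : ℕ) :
    upd (Sum.elim c l) (Sum.inr r) v = Sum.elim c (upd l r v) := by
  funext q
  cases q with
  | inl q => rw [upd_ne (by simp)]; rfl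
  | inr q =>
    by_cases h : q = r
    · subst h
      rw [upd_self, Sum.elim_inr, upd_self]
    · rw [upd_ne (by simpa using h), Sum.elim_inr, Sum.elim_inr, upd_ne h]

theorem upd_inl (c : C → ℕ) (l : L → ℕ) (r : C) (v : ℕ) :
    upd (Sum.elim c l) (Sum.inl r) v = Sum.elim (upd c r v) l := by
  funext q
  cases q with
  | inr q => rw [upd_ne (by simp)]; rfl
  | inl q =>
    by_cases h : q = r
    · subst h
      rw [upd_self, Sum.elim_inl, upd_self]
    · rw [upd_ne (by simpa using h), Sum.elim_inl, Sum.elim_inl, upd_ne h]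

end upd

section lf

variable {α R F : Type} {x : List α} {cc : Cell α → ℕ} {A : ℕ}

/-- A deterministic program without procedures, as a program which can read bits. -/
abbrev lf (a : AStmt R Empty) : NStmt R F := NC.ren id Empty.elim a

/-- The procedures of programs without procedures. -/
abbrev nob : Empty → AStmt R Empty := Empty.elim

theorem run_lf {body : F → NStmt R F} {k : ℕ} {a : AStmt R Empty} {s t : R → ℕ}
    (h : RunA x cc A nob k a s t) (u : ℕ → Bool) : RunN x cc A body k (lf a) s u t u := by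
  have h1 := RunA.ren' (ρ := id) (φ := (Empty.elim : Empty → F)) (body := body)
    Function.injective_id (fun f => f.elim) (s := s) h u
  have e : mrg id t s = t := by
    funext q
    exact mrg_apply Function.injective_id t s q
  rwa [e] at h1

end lf

section

variable {α : Type} {Y : Type} {b g : ℕ}

/-- The constants in the registers of the programs of `PackC.lean`. -/
def layRd (b g : ℕ) : Rd → ℕ
  | .cb => b
  | .cr => RR 6 b g
  | .cg => g
  | .cpg => RR 6 b g ^ (g - 1)
  | _ => 0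

/-- The registers of the machine for a state of the engine. -/
def lay (pv : Y → ℕ) (K B T : ℕ) (st : St (gad (le_refl (b ^ g))) (ℕ → Bool)) : OL Y → ℕ
  | .AR => enc2 (RR 6 b g ^ (g + 2)) (2 * B) (K + 1) fun p j => pack (st.R p j)
  | .AT => enc2 (RR 6 b g) (T + 1) (K + 1) fun t j => (st.tau t j).val
  | .AD => enc (2 * K + 2) (T + 1) st.rd
  | .AC => enc (b ^ g) ((T + 1) / B) fun i => (st.cl (i * B + (B - 1))).val
  | .fl => st.fail.toNat
  | .rB => B
  | .rT => T
  | .rN => b ^ g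
  | .rW => RR 6 b g ^ (g + 2)
  | .pw => 0
  | .i => 0
  | .loc y => layRd b g y
  | .ex y => pv y

/-! ### Programs -/

/-- A register of the control program, as an expression. -/
abbrev vl (c : CR) : Exp (CR ⊕ OL Y) := Exp.var (Sum.inl c)

/-- A register of the operations, as an expression. -/
abbrev vr (c : OL Y) : Exp (CR ⊕ OL Y) := Exp.var (Sum.inr c)

/-- The number of the register. -/
def idxR (K : ℕ) : Exp (CR ⊕ OL Y) :=
  (vl .lp % (Exp.lit 2 * vr .rB)) * Exp.lit (K + 1) + vl .ji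

/-- The number of the stored value. -/
def idxT (K : ℕ) : Exp (CR ⊕ OL Y) := vl .lp * Exp.lit (K + 1) + vl .ji

/-- Read a register. -/
def getR (K : ℕ) : AStmt (CR ⊕ OL Y) Empty :=
  getC (Sum.inr (.loc .W)) (Sum.inr .AR) (Sum.inr .pw) (Sum.inr .i) (vr .rW) (idxR K)

/-- Write a register. -/
def putR (K : ℕ) : AStmt (CR ⊕ OL Y) Empty :=
  putC (Sum.inr .AR) (Sum.inr .pw) (Sum.inr .i) (vr .rW) (idxR K) (vr (.loc .W))

/-- Read a stored value. -/
def getT (K : ℕ) : AStmt (CR ⊕ OL Y) Empty :=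
  getC (Sum.inr (.loc .t)) (Sum.inr .AT) (Sum.inr .pw) (Sum.inr .i) (vr (.loc .cr)) (idxT K)

/-- Write a stored value. -/
def putT (K : ℕ) : AStmt (CR ⊕ OL Y) Empty :=
  putC (Sum.inr .AT) (Sum.inr .pw) (Sum.inr .i) (vr (.loc .cr)) (idxT K) (vr (.loc .e))

/-- Read the round. -/
def getD (K : ℕ) : AStmt (CR ⊕ OL Y) Empty :=
  getC (Sum.inl .q) (Sum.inr .AD) (Sum.inr .pw) (Sum.inr .i) (Exp.lit (2 * K + 2)) (vl .lp)

/-- Write the round. -/
def putD (K : ℕ) : AStmt (CR ⊕ OL Y) Empty :=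
  putC (Sum.inr .AD) (Sum.inr .pw) (Sum.inr .i) (Exp.lit (2 * K + 2)) (vl .lp) (vl .q)

/-- Read the kept argument. -/
def getL : AStmt (CR ⊕ OL Y) Empty :=
  getC (Sum.inl .a) (Sum.inr .AC) (Sum.inr .pw) (Sum.inr .i) (vr .rN) (vl .lp / vr .rB)

/-- Write the kept argument. -/
def putL : AStmt (CR ⊕ OL Y) Empty :=
  putC (Sum.inr .AC) (Sum.inr .pw) (Sum.inr .i) (vr .rN) (vl .lp / vr .rB) (vl .a)

/-- Mark a failure if `y` is not zero. -/
def failE (y : Exp (CR ⊕ OL Y)) : AStmt (CR ⊕ OL Y) Empty :=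
  set (Sum.inr .fl) (1 - (1 - (vr .fl + y)))

/-- The programs of `PackC.lean`. -/
def rd (a : AStmt Rd Empty) : AStmt (CR ⊕ OL Y) Empty :=
  renA (fun r => Sum.inr (.loc r)) Empty.elim a

/-- Guess a value and use a register. -/
def useO {F : Type} (K : ℕ) : NStmt (CR ⊕ OL Y) F :=
  sqN [guess (Sum.inl .w) (Sum.inr .rN) (Sum.inr .i) (Sum.inr .pw),
    lf (sqn [getR K, set (Sum.inr (.loc .s)) (vl .w), rd useP, putR K,
      set (Sum.inr (.loc .W)) 0, set (Sum.inr (.loc .s)) 0])]

/-- Store a value. -/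
def storeO {F : Type} (K : ℕ) : NStmt (CR ⊕ OL Y) F :=
  lf (sqn [getR K, set (Sum.inr (.loc .s)) (vl .w), rd storeP, putR K, putT K,
    set (Sum.inr (.loc .W)) 0, set (Sum.inr (.loc .s)) 0, set (Sum.inr (.loc .e)) 0])

/-- Check a value. -/
def checkO {F : Type} (K : ℕ) : NStmt (CR ⊕ OL Y) F :=
  lf (sqn [getR K, getT K, set (Sum.inr (.loc .s)) (vl .w), set (Sum.inr (.loc .n)) (vl .cn),
    rd checkP, failE (vr (.loc .e)), putR K,
    set (Sum.inr (.loc .W)) 0, set (Sum.inr (.loc .s)) 0, set (Sum.inr (.loc .e)) 0,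
    set (Sum.inr (.loc .n)) 0, set (Sum.inr (.loc .t)) 0])

/-! ### Correctness of the programs for the arrays -/

/-- The bound for the values. -/
structure Bnd (K B T b g A : ℕ) : Prop where
  hb : 2 ≤ b
  hg : 1 ≤ g
  hB : 1 ≤ B
  hR : (RR 6 b g ^ (g + 2)) ^ (2 * B * (K + 1)) ≤ A
  hT : RR 6 b g ^ ((T + 1) * (K + 1)) ≤ A
  hD : (2 * K + 2) ^ (T + 1) ≤ A
  hC : (b ^ g) ^ ((T + 1) / B) ≤ A
  hN : 2 * b ^ g ≤ A

/-- The registers of the machine represent the state, up to the registers for intermediate values. -/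
def Lays (pv : Y → ℕ) (K B T : ℕ) (st : St (gad (le_refl (b ^ g))) (ℕ → Bool))
    (l : OL Y → ℕ) : Prop :=
  ∀ r, (∀ y, r ≠ .loc y) → l r = lay pv K B T st r

theorem RR_two_le (hb : 2 ≤ b) (hg : 1 ≤ g) : 2 ≤ RR 6 b g := by
  have h1 : 0 < 6 * g * b ^ 2 := by positivity
  simp only [RR]
  omega

instance neZero_r : NeZero (gad (le_refl (b ^ g))).r := ⟨by rw [gad_r]; omega⟩

section

variable {pv : Y → ℕ} {K B T A k : ℕ} {st : St (gad (le_refl (b ^ g))) (ℕ → Bool)}
variable {l : OL Y → ℕ} {c : CR → ℕ} {x : List α} {cc : Cell α → ℕ}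
variable {body : Empty → AStmt (CR ⊕ OL Y) Empty}

theorem lays_lay : Lays pv K B T st (lay pv K B T st) := fun _ _ => rfl

theorem Lays.loc (h : Lays pv K B T st l) (y : Rd) (v : ℕ) :
    Lays pv K B T st (upd l (.loc y) v) :=
  fun r h4 => by rw [upd_ne (h4 y)]; exact h r h4

theorem Lays.eq (h : Lays pv K B T st l) (h0 : ∀ y, l (.loc y) = layRd b g y) :
    l = lay pv K B T st := by
  funext r
  by_cases h1 : ∃ y, r = .loc y
  · obtain ⟨y, rfl⟩ := h1
    exact h0 y
  · exact h r fun y hy => h1 ⟨y, hy⟩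

theorem run_getR (hQ : Bnd K B T b g A) (h : Lays pv K B T st l) (hj : c .ji ≤ K) :
    RunA x cc A body k (getR K) (Sum.elim c l)
      (Sum.elim c (upd l (.loc .W) (pack (st.R (pos B (c .lp)) (c .ji))))) := by
  have h1 : l .rW = RR 6 b g ^ (g + 2) := h .rW nofun
  have h2 : l .rB = B := h .rB nofun
  have h3 : l .AR = enc2 (RR 6 b g ^ (g + 2)) (2 * B) (K + 1) fun p j => pack (st.R p j) :=
    h .AR nofun
  have h4 := RR_two_le hQ.hb hQ.hg
  have h5 := hQ.hB
  rw [← upd_inr]
  refine run_get_enc2 (f := fun p j => pack (st.R p j)) (m := 2 * B) (n := K + 1) (by simp)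
    (by simp) (by simp) (h4.trans (Nat.le_self_pow (by omega) _)) (fun n p => ?_) ?_
    (h .i nofun) (h .pw nofun) (fun _ _ _ _ => pack_lt _) h3
    (Nat.mod_lt _ (by omega)) (by omega) hQ.hR (by simp)
  · rw [eval_var, upd_ne (by simp), upd_ne (by simp)]
    exact h1
  · simp only [idxR, pos, eval_add, eval_mul, eval_mod, eval_var, Sum.elim_inl, Sum.elim_inr, h2]
    rfl

theorem run_putR (hQ : Bnd K B T b g A)
    (h : Lays pv K B T st l) (hj : c .ji ≤ K) {v : Om 6 b g} (hw : l (.loc .W) = pack v)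
    {st' : St (gad (le_refl (b ^ g))) (ℕ → Bool)} (h1' : st'.R (pos B (c .lp)) (c .ji) = v)
    (h2' : ∀ p < 2 * B, ∀ i < K + 1, ¬(p = pos B (c .lp) ∧ i = c .ji) → st'.R p i = st.R p i)
    (h3' : st'.tau = st.tau) (h4' : st'.rd = st.rd) (h5' : st'.cl = st.cl)
    (h6' : st'.fail = st.fail) :
    ∃ l', RunA x cc A body k (putR K) (Sum.elim c l) (Sum.elim c l') ∧
      Lays pv K B T st' l' ∧ ∀ y, l' (.loc y) = l (.loc y) := by
  have h1 : l .rW = RR 6 b g ^ (g + 2) := h .rW nofun
  have h2 : l .rB = B := h .rB nofun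
  have h3 : l .AR = enc2 (RR 6 b g ^ (g + 2)) (2 * B) (K + 1) fun p j => pack (st.R p j) :=
    h .AR nofun
  have h4 := RR_two_le hQ.hb hQ.hg
  have h5 := hQ.hB
  refine ⟨upd l .AR (enc2 (RR 6 b g ^ (g + 2)) (2 * B) (K + 1) fun p j => pack (st'.R p j)), ?_, ?_,
    ?_⟩
  · rw [← upd_inr]
    refine run_put_enc2 (f := fun p j => pack (st.R p j)) (m := 2 * B) (n := K + 1) (v := pack v)
      (t := pos B (c .lp)) (j := c .ji) (by simp)
      (by simp) (by simp) (h4.trans (Nat.le_self_pow (by omega) _)) (fun n p => ?_) ?_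
      (fun p => ?_)
      (h .i nofun) (h .pw nofun) (fun _ _ _ _ => pack_lt _) h3
      (Nat.mod_lt _ (by omega)) (by omega) hQ.hR (pack_lt _) (by rw [h1'])
      (fun p hp i hi hne => by rw [h2' p hp i hi hne])
    · rw [eval_var, upd_ne (by simp), upd_ne (by simp)]
      exact h1
    · simp only [idxR, pos, eval_add, eval_mul, eval_mod, eval_var, Sum.elim_inl, Sum.elim_inr,
        h2]
      rfl
    · rw [eval_var, upd_ne (by simp), upd_ne (by simp)]
      exact hw
  · intro r hr4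
    by_cases hr : r = .AR
    · subst hr
      rw [upd_self]
      rfl
    · rw [upd_ne hr, h r hr4]
      cases r <;> simp_all [lay]
  · intro y
    rw [upd_ne (by simp)]

theorem run_getT (hQ : Bnd K B T b g A) (h : Lays pv K B T st l)
    (hcr : l (.loc .cr) = RR 6 b g) (hq : c .lp ≤ T) (hj : c .ji ≤ K) :
    RunA x cc A body k (getT K) (Sum.elim c l)
      (Sum.elim c (upd l (.loc .t) (st.tau (c .lp) (c .ji)).val)) := by
  have h3 : l .AT = enc2 (RR 6 b g) (T + 1) (K + 1) fun t j => (st.tau t j).val :=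
    h .AT nofun
  have h4 := RR_two_le hQ.hb hQ.hg
  rw [← upd_inr]
  refine run_get_enc2 (f := fun t j => (st.tau t j).val) (m := T + 1) (n := K + 1) (by simp)
    (by simp) (by simp) h4 (fun n p => ?_) ?_
    (h .i nofun) (h .pw nofun)
    (fun _ _ _ _ => ZMod.val_lt _) h3 (by omega) (by omega) hQ.hT (by simp)
  · rw [eval_var, upd_ne (by simp), upd_ne (by simp)]
    exact hcr
  · simp only [idxT, eval_add, eval_mul, eval_var, Sum.elim_inl]
    rfl

theorem run_putT (hQ : Bnd K B T b g A) (h : Lays pv K B T st l)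
    (hcr : l (.loc .cr) = RR 6 b g) (hq : c .lp ≤ T) (hj : c .ji ≤ K) {v : ZMod (RR 6 b g)}
    (hw : l (.loc .e) = v.val)
    {st' : St (gad (le_refl (b ^ g))) (ℕ → Bool)} (h1' : st'.tau (c .lp) (c .ji) = v)
    (h2' : ∀ p < T + 1, ∀ i < K + 1, ¬(p = c .lp ∧ i = c .ji) → st'.tau p i = st.tau p i)
    (h3' : st'.R = st.R) (h4' : st'.rd = st.rd) (h5' : st'.cl = st.cl)
    (h6' : st'.fail = st.fail) :
    ∃ l', RunA x cc A body k (putT K) (Sum.elim c l) (Sum.elim c l') ∧
      Lays pv K B T st' l' ∧ ∀ y, l' (.loc y) = l (.loc y) := by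
  have h3 : l .AT = enc2 (RR 6 b g) (T + 1) (K + 1) fun t j => (st.tau t j).val :=
    h .AT nofun
  have h4 := RR_two_le hQ.hb hQ.hg
  refine ⟨upd l .AT (enc2 (RR 6 b g) (T + 1) (K + 1) fun t j => (st'.tau t j).val), ?_, ?_, ?_⟩
  · rw [← upd_inr]
    refine run_put_enc2 (f := fun t j => (st.tau t j).val) (m := T + 1) (n := K + 1) (v := v.val)
      (t := c .lp) (j := c .ji) (by simp) (by simp) (by simp) h4 (fun n p => ?_) ?_
      (fun p => ?_)
      (h .i nofun) (h .pw nofun) (fun _ _ _ _ => ZMod.val_lt _)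
      h3 (by omega) (by omega) hQ.hT (ZMod.val_lt _) (by rw [h1']; rfl)
      (fun p hp i hi hne => by rw [h2' p hp i hi hne])
    · rw [eval_var, upd_ne (by simp), upd_ne (by simp)]
      exact hcr
    · simp only [idxT, eval_add, eval_mul, eval_var, Sum.elim_inl]
      rfl
    · rw [eval_var, upd_ne (by simp), upd_ne (by simp)]
      exact hw
  · intro r hr4
    by_cases hr : r = .AT
    · subst hr
      rw [upd_self]
      rfl
    · rw [upd_ne hr, h r hr4]
      cases r <;> simp_all [lay]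
  · intro y
    rw [upd_ne (by simp)]

theorem run_getD (hQ : Bnd K B T b g A) (hrd : ∀ t ≤ T, st.rd t < 2 * K + 2)
    (h : Lays pv K B T st l) (hq : c .lp ≤ T) :
    RunA x cc A body k (getD K) (Sum.elim c l)
      (Sum.elim (upd c .q (st.rd (c .lp))) l) := by
  have h3 : l .AD = enc (2 * K + 2) (T + 1) st.rd := h .AD nofun
  have h6 : T + 1 < (2 * K + 2) ^ (T + 1) := Nat.lt_pow_self (by omega)
  have h7 := hQ.hD
  rw [← upd_inl]
  exact run_get_enc (f := st.rd) (n := T + 1) (B := 2 * K + 2) (e := c .lp) (by simp)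
    (by simp) (by simp) (by omega) (fun n p => rfl) rfl
    (h .i nofun) (h .pw nofun)
    (fun t ht => hrd t (by omega)) h3 (by omega) hQ.hD (by omega) (by omega) (by simp)

theorem run_putD (hQ : Bnd K B T b g A) (hrd : ∀ t ≤ T, st.rd t < 2 * K + 2)
    (h : Lays pv K B T st l) (hq : c .lp ≤ T) (hy : c .q < 2 * K + 2)
    {st' : St (gad (le_refl (b ^ g))) (ℕ → Bool)} (h1' : st'.rd (c .lp) = c .q)
    (h2' : ∀ p < T + 1, p ≠ c .lp → st'.rd p = st.rd p)
    (h3' : st'.R = st.R) (h4' : st'.tau = st.tau) (h5' : st'.cl = st.cl)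
    (h6' : st'.fail = st.fail) :
    ∃ l', RunA x cc A body k (putD K) (Sum.elim c l) (Sum.elim c l') ∧
      Lays pv K B T st' l' ∧ ∀ y, l' (.loc y) = l (.loc y) := by
  have h3 : l .AD = enc (2 * K + 2) (T + 1) st.rd := h .AD nofun
  have h6 : T + 1 < (2 * K + 2) ^ (T + 1) := Nat.lt_pow_self (by omega)
  have h7 := hQ.hD
  refine ⟨upd l .AD (enc (2 * K + 2) (T + 1) st'.rd), ?_, ?_, ?_⟩
  · rw [← upd_inr]
    exact run_put_enc (f := st.rd) (n := T + 1) (v := c .q) (e := c .lp) (B := 2 * K + 2) (by simp)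
      (by simp) (by simp) (by omega) (fun n p => rfl) rfl
      (fun p => by rw [eval_var, upd_ne (by simp), upd_ne (by simp)]; rfl)
      (h .i nofun) (h .pw nofun)
      (fun t ht => hrd t (by omega)) h3 (by omega) hQ.hD (by omega) hy h1' h2'
  · intro r hr4
    by_cases hr : r = .AD
    · subst hr
      rw [upd_self]
      rfl
    · rw [upd_ne hr, h r hr4]
      cases r <;> simp_all [lay]
  · intro y
    rw [upd_ne (by simp)]

theorem top_div (hB : 1 ≤ B) {t : ℕ} (ht : IsTop B t) : t / B * B + (B - 1) = t := by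
  unfold IsTop at ht
  have h1 := Nat.div_add_mod (t + 1) B
  rw [ht, Nat.add_zero] at h1
  have h2 : 1 ≤ (t + 1) / B := by
    rcases Nat.eq_zero_or_pos ((t + 1) / B) with h | h
    · rw [h, Nat.mul_zero] at h1; omega
    · exact h
  obtain ⟨m, hm⟩ : ∃ m, (t + 1) / B = m + 1 := ⟨(t + 1) / B - 1, by omega⟩
  rw [hm, Nat.mul_add, Nat.mul_one] at h1
  have h3 : t = B * m + (B - 1) := by omega
  have h4 : t / B = m := by
    rw [h3, Nat.mul_add_div (by omega), Nat.div_eq_of_lt (by omega), Nat.add_zero]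
  rw [h4, Nat.mul_comm]
  exact h3.symm

theorem top_lt (hB : 1 ≤ B) {t : ℕ} (ht : IsTop B t) (htT : t ≤ T) : t / B < (T + 1) / B := by
  have h1 := top_div hB ht
  have h2 : (t / B + 1) * B ≤ T + 1 := by
    rw [Nat.add_mul, Nat.one_mul]
    omega
  exact (Nat.le_div_iff_mul_le (by omega)).2 h2

theorem run_getL (hQ : Bnd K B T b g A)
    (h : Lays pv K B T st l) (hq : c .lp ≤ T) (htop : IsTop B (c .lp)) :
    RunA x cc A body k getL (Sum.elim c l)
      (Sum.elim (upd c .a (st.cl (c .lp)).val) l) := by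
  have h1 : l .rN = b ^ g := h .rN nofun
  have h2 : l .rB = B := h .rB nofun
  have h3 : l .AC = enc (b ^ g) ((T + 1) / B) fun i => (st.cl (i * B + (B - 1))).val :=
    h .AC nofun
  have h4 : 2 ≤ b ^ g := hQ.hb.trans (Nat.le_self_pow (by have := hQ.hg; omega) _)
  have h6 : (T + 1) / B < (b ^ g) ^ ((T + 1) / B) := Nat.lt_pow_self (by omega)
  have h7 := hQ.hC
  have h8 := run_get_enc (x := x) (cc := cc) (A := A) (body := body) (k := k)
    (s := Sum.elim c l) (dst := Sum.inl .a) (arr := Sum.inr OL.AC) (pw := Sum.inr OL.pw)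
    (i := Sum.inr OL.i) (b := vr .rN)
    (idx := vl .lp / vr .rB) (e := c .lp / B)
    (f := fun i => (st.cl (i * B + (B - 1))).val) (n := (T + 1) / B) (B := b ^ g) (by simp)
    (by simp) (by simp) (by omega)
    (fun n p => by rw [eval_var, upd_ne (by simp), upd_ne (by simp)]; exact h1)
    (by rw [eval_div, eval_var, eval_var, Sum.elim_inl, Sum.elim_inr, h2])
    (h .i nofun) (h .pw nofun)
    (fun t ht => Fin.isLt _) h3 (top_lt hQ.hB htop hq) hQ.hC (by omega) (by omega) (by simp)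
  rw [upd_inl, top_div hQ.hB htop] at h8
  exact h8

theorem run_putL (hQ : Bnd K B T b g A)
    (h : Lays pv K B T st l) (hq : c .lp ≤ T) (htop : IsTop B (c .lp)) {v : Fin (b ^ g)}
    (hy : c .a = v.val)
    {st' : St (gad (le_refl (b ^ g))) (ℕ → Bool)} (h1' : st'.cl (c .lp) = v)
    (h2' : ∀ p, p ≠ c .lp → st'.cl p = st.cl p)
    (h3' : st'.R = st.R) (h4' : st'.tau = st.tau) (h5' : st'.rd = st.rd)
    (h6' : st'.fail = st.fail) :
    ∃ l', RunA x cc A body k putL (Sum.elim c l) (Sum.elim c l') ∧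
      Lays pv K B T st' l' ∧ ∀ y, l' (.loc y) = l (.loc y) := by
  have h1 : l .rN = b ^ g := h .rN nofun
  have h2 : l .rB = B := h .rB nofun
  have h3 : l .AC = enc (b ^ g) ((T + 1) / B) fun i => (st.cl (i * B + (B - 1))).val :=
    h .AC nofun
  have h4 : 2 ≤ b ^ g := hQ.hb.trans (Nat.le_self_pow (by have := hQ.hg; omega) _)
  have h6 : (T + 1) / B < (b ^ g) ^ ((T + 1) / B) := Nat.lt_pow_self (by omega)
  have h7 := hQ.hC
  have h5 := hQ.hB
  refine ⟨upd l .AC (enc (b ^ g) ((T + 1) / B) fun i => (st'.cl (i * B + (B - 1))).val), ?_, ?_,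
    ?_⟩
  · rw [← upd_inr]
    exact run_put_enc (f := fun i => (st.cl (i * B + (B - 1))).val) (n := (T + 1) / B)
      (v := v.val) (e := c .lp / B) (by simp) (by simp) (by simp) (by omega)
      (fun n p => by rw [eval_var, upd_ne (by simp), upd_ne (by simp)]; exact h1)
      (by rw [eval_div, eval_var, eval_var, Sum.elim_inl, Sum.elim_inr, h2])
      (fun p => by rw [eval_var, upd_ne (by simp), upd_ne (by simp)]; exact hy)
      (h .i nofun) (h .pw nofun)
      (fun t ht => Fin.isLt _) h3 (top_lt hQ.hB htop hq) hQ.hC (by omega) (Fin.isLt _)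
      (by rw [top_div hQ.hB htop, h1']) (fun i hi hne => by
        rw [h2']
        intro h9
        apply hne
        rw [← h9, Nat.mul_comm, Nat.mul_add_div (by omega), Nat.div_eq_of_lt (by omega),
          Nat.add_zero])
  · intro r hr4
    by_cases hr : r = .AC
    · subst hr
      rw [upd_self]
      rfl
    · rw [upd_ne hr, h r hr4]
      cases r <;> simp_all [lay]
  · intro y
    rw [upd_ne (by simp)]

theorem run_failE (hA : 2 ≤ A) (h : Lays pv K B T st l) {ye : Exp (CR ⊕ OL Y)} {v : ℕ}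
    (hy : ye.eval x cc (Sum.elim c l) = v)
    {st' : St (gad (le_refl (b ^ g))) (ℕ → Bool)} (h1' : st'.fail = (st.fail || decide (v ≠ 0)))
    (h3' : st'.R = st.R) (h4' : st'.tau = st.tau) (h5' : st'.rd = st.rd)
    (h6' : st'.cl = st.cl) :
    ∃ l', RunA x cc A body k (failE ye) (Sum.elim c l) (Sum.elim c l') ∧
      Lays pv K B T st' l' ∧ ∀ y, l' (.loc y) = l (.loc y) := by
  have h3 : l .fl = st.fail.toNat := h .fl nofun
  refine ⟨upd l .fl st'.fail.toNat, ?_, ?_, ?_⟩
  · have e1 : (1 - (1 - (vr .fl + ye)) : Exp (CR ⊕ OL Y)).eval x cc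
        (Sum.elim c l) = st'.fail.toNat := by
      simp only [eval_sub, eval_add, eval_var, eval_one, Sum.elim_inr, h3, hy, h1']
      cases st.fail <;> by_cases hv : v = 0 <;> simp [hv]
      omega
    have h7 := RunA.asg (x := x) (cc := cc) (A := A) (body := body) k (Sum.inr OL.fl)
      (1 - (1 - (vr .fl + ye))) (Sum.elim c l) (by
        rw [e1]
        cases st'.fail <;> simp <;> omega)
    rw [e1, upd_inr] at h7
    exact h7
  · intro r hr4
    by_cases hr : r = .fl
    · subst hr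
      rw [upd_self]
      rfl
    · rw [upd_ne hr, h r hr4]
      cases r <;> simp_all [lay]
  · intro y
    rw [upd_ne (by simp)]

/-! ### The operations -/

theorem rd_inj : Function.Injective (fun r : Rd => (Sum.inr (.loc r) : CR ⊕ OL Y)) := by
  intro r r' h
  simpa using h

/-- A program of `PackC.lean`, with the result as changes of the registers. -/
theorem run_rd {a : AStmt Rd Empty} {t : Rd → ℕ}
    (h : RunA x cc A nob k a (fun r => l (.loc r)) t) :
    RunA x cc A body k (rd a) (Sum.elim c l)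
      (mrg (fun r => Sum.inr (.loc r)) t (Sum.elim c l)) :=
  RunA.renA' rd_inj (fun f => f.elim) h

theorem mrg1 (r : Rd) (v : ℕ) :
    mrg (fun r => (Sum.inr (.loc r) : CR ⊕ OL Y)) (upd (fun r => l (.loc r)) r v) (Sum.elim c l) =
      Sum.elim c (upd l (.loc r) v) := by
  rw [mrg_upd rd_inj]
  have h1 := mrg_self (ρ := fun r => (Sum.inr (.loc r) : CR ⊕ OL Y)) rd_inj (Sum.elim c l)
  simp only [Sum.elim_inr] at h1
  rw [h1, upd_inr]

theorem mrg2 (r r' : Rd) (v v' : ℕ) :
    mrg (fun r => (Sum.inr (.loc r) : CR ⊕ OL Y)) (upd (upd (fun r => l (.loc r)) r v) r' v')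
      (Sum.elim c l) = Sum.elim c (upd (upd l (.loc r) v) (.loc r') v') := by
  rw [mrg_upd rd_inj, mrg1, upd_inr]

theorem run_setr {r : OL Y} {e : Exp (CR ⊕ OL Y)} {v : ℕ} {L : List (AStmt (CR ⊕ OL Y) Empty)}
    {s' : CR ⊕ OL Y → ℕ} (hv : e.eval x cc (Sum.elim c l) = v) (hA : v < A)
    (h : RunA x cc A body k (sqn L) (Sum.elim c (upd l r v)) s') :
    RunA x cc A body k (sqn (set (Sum.inr r) e :: L)) (Sum.elim c l) s' :=
  run_set_cons v hv hA (by rw [upd_inr]; exact h)

/-- The engine with the scheme `S`. -/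
def mkP (S : Scheme (Fin (b ^ g))) (B T : ℕ) (acc : Fin (b ^ g) → Prop) (hN : 0 < b ^ g) :
    Par (Fin (b ^ g)) (ℕ → Bool) where
  S := S
  G := gad (le_refl (b ^ g))
  B := B
  T := T
  acc := acc
  nxt := fun u => (⟨gval (b ^ g) u, gval_lt hN u⟩, grest (b ^ g) u)

theorem Bnd.W_le (hQ : Bnd K B T b g A) : RR 6 b g ^ (g + 2) ≤ A := by
  have h5 := hQ.hB
  refine (Nat.le_self_pow (n := 2 * B * (K + 1)) ?_ _).trans hQ.hR
  positivity

theorem Bnd.N_le (hQ : Bnd K B T b g A) : b ^ g ≤ A := by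
  have := hQ.hN
  omega

theorem Bnd.r_lt (hQ : Bnd K B T b g A) : RR 6 b g < A := by
  refine lt_of_lt_of_le ?_ hQ.W_le
  have h4 := RR_two_le hQ.hb hQ.hg
  calc RR 6 b g = RR 6 b g ^ 1 := (pow_one _).symm
    _ < RR 6 b g ^ (g + 2) := Nat.pow_lt_pow_right h4 (by omega)

theorem Bnd.two_lt (hQ : Bnd K B T b g A) : 2 < A :=
  (RR_two_le hQ.hb hQ.hg).trans_lt hQ.r_lt

section ops

variable {F : Type} {bodyN : F → NStmt (CR ⊕ OL Y) F}

theorem run_useO' (hQ : Bnd K B T b g A) (hj : c .ji ≤ K) {y : Fin (b ^ g)}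
    (hw : c .w = y.val) {w : Om 6 b g} (hR : st.R (pos B (c .lp)) (c .ji) = w)
    {st' : St (gad (le_refl (b ^ g))) (ℕ → Bool)}
    (h1' : st'.R (pos B (c .lp)) (c .ji) = w + dd (le_refl (b ^ g)) y)
    (h2' : ∀ p < 2 * B, ∀ i < K + 1, ¬(p = pos B (c .lp) ∧ i = c .ji) → st'.R p i = st.R p i)
    (h3' : st'.tau = st.tau) (h4' : st'.rd = st.rd) (h5' : st'.cl = st.cl)
    (h6' : st'.fail = st.fail) :
    RunA x cc A nob k (sqn [getR K, set (Sum.inr (.loc .s)) (vl .w), rd useP, putR K,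
      set (Sum.inr (.loc .W)) 0, set (Sum.inr (.loc .s)) 0])
      (Sum.elim c (lay pv K B T st)) (Sum.elim c (lay pv K B T st')) := by
  have h2 := hQ.two_lt
  refine run_cons (run_getR hQ lays_lay hj) ?_
  refine run_setr (v := y) (by simpa using hw) (y.isLt.trans_le hQ.N_le) ?_
  rw [hR]
  refine run_cons (run_rd (run_useP (le_refl (b ^ g)) (by norm_num) hQ.W_le hQ.N_le
    (by omega) (m := 6) (p := w) (v := y) ?_ ?_ ?_ ?_)) ?_
  · constructor <;> simp [lay, layRd]
  · simp [lay, layRd]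
  · simp
  · simp
  rw [mrg1]
  obtain ⟨l₁, h3, h4, h5⟩ := run_putR (x := x) (cc := cc) (body := nob) (k := k) (c := c) hQ
    (((lays_lay (pv := pv) (K := K) (B := B) (T := T) (st := st)).loc .W (pack w)).loc .s
      y |>.loc .W (pack (w + dd (le_refl (b ^ g)) y))) hj
    (v := w + dd (le_refl (b ^ g)) y) (by simp) h1' h2' h3' h4' h5' h6'
  refine run_cons h3 (run_setr (v := 0) rfl (by omega) (run_setr (v := 0) rfl (by omega)
    (run_nil.cast ?_)))
  rw [((h4.loc .W 0).loc .s 0).eq fun r => ?_]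
  cases r <;> simp [h5, lay, layRd]

theorem run_storeO' (hQ : Bnd K B T b g A)
    (hp : c .lp ≤ T) (hj : c .ji ≤ K) {y : Fin (b ^ g)} (hw : c .w = y.val)
    {w : Om 6 b g} (hR : st.R (pos B (c .lp)) (c .ji) = w)
    {st' : St (gad (le_refl (b ^ g))) (ℕ → Bool)}
    (h1' : st'.R (pos B (c .lp)) (c .ji) = w + -cst (ev (le_refl (b ^ g)) w y))
    (h2' : ∀ p < 2 * B, ∀ i < K + 1, ¬(p = pos B (c .lp) ∧ i = c .ji) → st'.R p i = st.R p i)
    (h3' : st'.tau (c .lp) (c .ji) = ev (le_refl (b ^ g)) w y)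
    (h4' : ∀ p < T + 1, ∀ i < K + 1, ¬(p = c .lp ∧ i = c .ji) → st'.tau p i = st.tau p i)
    (h5' : st'.rd = st.rd) (h6' : st'.cl = st.cl) (h7' : st'.fail = st.fail) (u : ℕ → Bool) :
    RunN x cc A bodyN k (storeO K) (Sum.elim c (lay pv K B T st)) u
      (Sum.elim c (lay pv K B T st')) u := by
  refine run_lf ?_ u
  have h2 := hQ.two_lt
  refine run_cons (run_getR hQ lays_lay hj) ?_
  refine run_setr (v := y) (by simpa using hw) (y.isLt.trans_le hQ.N_le) ?_
  rw [hR]
  refine run_cons (run_rd (run_storeP (le_refl (b ^ g)) (by norm_num) hQ.W_le hQ.N_le hQ.r_lt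
    (m := 6) (p := w) (v := y) ?_ ?_ ?_ ?_)) ?_
  · constructor <;> simp [lay, layRd]
  · simp [lay, layRd]
  · simp
  · simp
  rw [mrg2]
  obtain ⟨l₁, h3, h4, h5⟩ := run_putR (x := x) (cc := cc) (body := nob) (k := k) (c := c) hQ
    ((((lays_lay (pv := pv) (K := K) (B := B) (T := T) (st := st)).loc .W (pack w)).loc .s
      y).loc .e (ev (le_refl (b ^ g)) w y).val |>.loc .W (pack (w +
      -cst (ev (le_refl (b ^ g)) w y)))) hj
    (v := w + -cst (ev (le_refl (b ^ g)) w y)) (by simp)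
    (st' := { st with R := st'.R }) h1' h2' rfl rfl rfl rfl
  refine run_cons h3 ?_
  obtain ⟨l₂, h6, h7, h8⟩ := run_putT (x := x) (cc := cc) (body := nob) (k := k) (c := c) hQ h4
    (by rw [h5]; simp [lay, layRd]) hp hj (v := ev (le_refl (b ^ g)) w y)
    (by rw [h5]; simp [lay, layRd]) (st' := st') h3' h4' rfl h5' h6' h7'
  refine run_cons h6 (run_setr (v := 0) rfl (by omega) (run_setr (v := 0) rfl (by omega)
    (run_setr (v := 0) rfl (by omega) (run_nil.cast ?_))))
  rw [(((h7.loc .W 0).loc .s 0).loc .e 0).eq fun r => ?_]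
  cases r <;> simp [h8, h5, lay, layRd]

theorem run_checkO' (hQ : Bnd K B T b g A)
    (hp : c .lp ≤ T) (hj : c .ji ≤ K) {y : Fin (b ^ g)} (hw : c .w = y.val) (hn : c .cn ≤ 6)
    {w : Om 6 b g} (hR : st.R (pos B (c .lp)) (c .ji) = w)
    {τ : ZMod (RR 6 b g)} (hτ : st.tau (c .lp) (c .ji) = τ)
    {st' : St (gad (le_refl (b ^ g))) (ℕ → Bool)}
    (h1' : st'.R (pos B (c .lp)) (c .ji) =
      w + (cst τ - c .cn • dd (le_refl (b ^ g)) y))
    (h2' : ∀ p < 2 * B, ∀ i < K + 1, ¬(p = pos B (c .lp) ∧ i = c .ji) → st'.R p i = st.R p i)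
    (h3' : st'.tau = st.tau) (h5' : st'.rd = st.rd) (h6' : st'.cl = st.cl)
    (h7' : st'.fail = (st.fail || decide ((ev (le_refl (b ^ g)) w y).val ≠ 0)))
    (u : ℕ → Bool) :
    RunN x cc A bodyN k (checkO K) (Sum.elim c (lay pv K B T st)) u
      (Sum.elim c (lay pv K B T st')) u := by
  refine run_lf ?_ u
  have h2 := hQ.two_lt
  have hr7 : 6 ≤ RR 6 b g := by
    have := Nat.mul_le_mul (Nat.mul_le_mul_left 6 hQ.hg) (Nat.pow_le_pow_left hQ.hb 2)
    simp only [RR]
    omega
  refine run_cons (run_getR hQ lays_lay hj) ?_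
  refine run_cons (run_getT hQ (lays_lay.loc _ _) (by simp [lay, layRd]) hp hj) ?_
  refine run_setr (v := y) (by simpa using hw) (y.isLt.trans_le hQ.N_le) ?_
  refine run_setr (v := c .cn) (by simp) (by have := hQ.r_lt; omega) ?_
  rw [hR, hτ]
  refine run_cons (run_rd (run_checkP (le_refl (b ^ g)) (by norm_num) hQ.W_le hQ.N_le hQ.r_lt
    (m := 6) (p := w) (v := y) (τ := τ) ?_ ?_ ?_ ?_ ?_ ?_)) ?_
  · constructor <;> simp [lay, layRd]
  · simp [lay, layRd]
  · simp
  · simp
  · simp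
    rfl
  · simp
    omega
  rw [mrg2]
  have e1 : (upd (upd (upd (upd (lay pv K B T st) (.loc .W) (pack w)) (.loc .t)
      (ZMod.val (n := (gad (le_refl (b ^ g))).r) τ)) (.loc .s) (y : ℕ)) (.loc .n) (c .cn))
      (.loc .n) = c .cn := upd_self _ _ _
  rw [e1]
  obtain ⟨l₀, h3, h4, h5⟩ := run_failE (x := x) (cc := cc) (body := nob) (k := k) (c := c)
    (A := A) h2.le ((((((lays_lay (pv := pv) (K := K) (B := B) (T := T) (st := st)).loc .W
      (pack w)).loc .t (ZMod.val (n := (gad (le_refl (b ^ g))).r) τ)).loc .s y).loc .n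
      (c .cn)).loc .e (ev (le_refl (b ^ g)) w y).val |>.loc .W (pack (w +
      (cst τ - c .cn • dd (le_refl (b ^ g)) y)))) (ye := vr (.loc .e))
    (v := (ev (le_refl (b ^ g)) w y).val) (by simp)
    (st' := { st with fail := st'.fail }) h7' rfl rfl rfl rfl
  refine run_cons h3 ?_
  obtain ⟨l₁, h6, h7, h8⟩ := run_putR (x := x) (cc := cc) (body := nob) (k := k) (c := c) hQ
    h4 hj (v := w + (cst τ - c .cn • dd (le_refl (b ^ g)) y)) (by rw [h5]; simp)
    (st' := st') h1' h2' h3' h5' h6' rfl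
  refine run_cons h6 (run_setr (v := 0) rfl (by omega) (run_setr (v := 0) rfl (by omega)
    (run_setr (v := 0) rfl (by omega) (run_setr (v := 0) rfl (by omega)
    (run_setr (v := 0) rfl (by omega) (run_nil.cast ?_))))))
  rw [(((((h7.loc .W 0).loc .s 0).loc .e 0).loc .n 0).loc .t 0).eq fun r => ?_]
  cases r <;> simp [h8, h5, lay, layRd]

end ops

end

/-! ### The specifications of `Ctl.lean` -/

/-- The registers of the machine represent the state. -/
def RepO (pv : Y → ℕ) (K B T : ℕ) (s : CR ⊕ OL Y → ℕ)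
    (st : St (gad (le_refl (b ^ g))) (ℕ → Bool)) : Prop :=
  (∀ r, s (Sum.inr r) = lay pv K B T st r) ∧ ∀ t ≤ T, st.rd t < 2 * K + 2

/-- `RepO` does not depend on the registers of the control program. -/
theorem RepO.congr {pv : Y → ℕ} {K B T : ℕ} {s s' : CR ⊕ OL Y → ℕ}
    {st : St (gad (le_refl (b ^ g))) (ℕ → Bool)} (h : RepO pv K B T s st)
    (hs : ∀ r, (∀ c, Sum.inl c ≠ r) → s' r = s r) : RepO pv K B T s' st :=
  ⟨fun r => by rw [hs _ (by simp)]; exact h.1 r, h.2⟩

section trs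

variable {F : Type} {S : Scheme (Fin (b ^ g))} {B T : ℕ} {acc : Fin (b ^ g) → Prop}
variable {hN : 0 < b ^ g} {x : List α} {cc : Cell α → ℕ} {A k : ℕ} {c : CR → ℕ} {pv : Y → ℕ}
variable {body : F → NStmt (CR ⊕ OL Y) F} {a : NStmt (CR ⊕ OL Y) F}
variable {st : St (mkP S B T acc hN).G (ℕ → Bool)}

/-- The specification from an execution. -/
theorem tr_of_run {st' : St (mkP S B T acc hN).G (ℕ → Bool)} {Q : (CR → ℕ) → Prop} {c' : CR → ℕ}
    (hQ : Q c')
    (hrd : (∀ t ≤ T, st.rd t < 2 * S.K + 2) → ∀ t ≤ T, st'.rd t < 2 * S.K + 2)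
    (h : (∀ t ≤ T, st.rd t < 2 * S.K + 2) → RunN x cc A body k a
      (Sum.elim c (lay pv S.K B T st)) st.u (Sum.elim c' (lay pv S.K B T st')) st'.u) :
    Tr x cc A body Sum.inl (mkP S B T acc hN) (RepO pv S.K B T) k a c st Q st' := by
  intro s hs hc
  have e1 : s = Sum.elim c (lay pv S.K B T st) := by
    funext r
    cases r with
    | inl r => exact hc r
    | inr r => exact hs.1 r
  subst e1
  exact ⟨_, c', h hs.2, ⟨fun r => rfl, hrd hs.2⟩, fun r => rfl, hQ⟩

/-- An assignment to a register of the control program. -/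
theorem tr_asg {r : CR} {e : Exp (CR ⊕ OL Y)} {n : ℕ}
    (he : e.eval x cc (Sum.elim c (lay pv S.K B T st)) = n) (hA : n < A) :
    Tr x cc A body Sum.inl (mkP S B T acc hN) (RepO pv S.K B T) k (asg (Sum.inl r) e) c st
      (fun c' => c' = CM.upd c r n) st := by
  refine tr_of_run (c' := CM.upd c r n) rfl id fun _ => ?_
  rw [← upd_inl, ← he]
  exact RunN.asg _ _ _ _ _ (by rw [he]; exact hA)

/-- A failure is marked if the value of the expression is not zero. -/
theorem tr_fail {e : Exp (CR ⊕ OL Y)} {n : ℕ}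
    (he : e.eval x cc (Sum.elim c (lay pv S.K B T st)) = n) (hA : 2 ≤ A) {p : Prop} [Decidable p]
    (hp : n ≠ 0 ↔ p) :
    Tr x cc A body Sum.inl (mkP S B T acc hN) (RepO pv S.K B T) k (lf (failE e)) c st
      (fun c' => c' = c) ((mkP S B T acc hN).orFail st (decide p)) := by
  refine tr_of_run (c' := c) rfl id fun _ => ?_
  obtain ⟨l', h1, h2, h3⟩ := run_failE (x := x) (cc := cc) (body := nob) (k := k) (c := c)
    (A := A) hA (lays_lay (pv := pv) (K := S.K) (B := B) (T := T) (st := st)) (ye := e) he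
    (st' := (mkP S B T acc hN).orFail st (decide p)) (by
      show (st.fail || decide p) = _
      congr 1
      exact decide_eq_decide.2 hp.symm) rfl rfl rfl rfl
  rw [← h2.eq fun y => by rw [h3]; rfl]
  exact run_lf h1 _

/-- The specifications of the functions of the scheme and of the test. -/
structure SchOps (x : List α) (cc : Cell α → ℕ) (A : ℕ) (body : F → NStmt (CR ⊕ OL Y) F)
    (P : Par (Fin (b ^ g)) (ℕ → Bool)) (Rep : (CR ⊕ OL Y → ℕ) → St P.G (ℕ → Bool) → Prop)
    (op : OF → NStmt (CR ⊕ OL Y) F) (k₀ : ℕ) : Prop where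
  arg : ∀ (c : CR → ℕ) st (y : Fin (b ^ g)), c .ji < P.S.K → c .w = y →
    Tr x cc A body Sum.inl P Rep k₀ (op .arg) c st
      (fun c' => c' = CM.upd c .a (P.S.arg (c .ji) y)) st
  upd : ∀ (c : CR → ℕ) st (y z : Fin (b ^ g)), c .ji < P.S.K → c .w = y → c .v = z →
    Tr x cc A body Sum.inl P Rep k₀ (op .upd) c st
      (fun c' => c' = CM.upd c .w (P.S.upd (c .ji) y z)) st
  ini : ∀ (c : CR → ℕ) st (y : Fin (b ^ g)), c .a = y →
    Tr x cc A body Sum.inl P Rep k₀ (op .ini) c st (fun c' => c' = CM.upd c .w (P.S.ini y)) st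
  out : ∀ (c : CR → ℕ) st (y : Fin (b ^ g)), c .w = y →
    Tr x cc A body Sum.inl P Rep k₀ (op .out) c st (fun c' => c' = CM.upd c .v (P.S.out y)) st
  v0 : ∀ (c : CR → ℕ) st (y : Fin (b ^ g)), c .a = y →
    Tr x cc A body Sum.inl P Rep k₀ (op .v0) c st (fun c' => c' = CM.upd c .v (P.S.V0 y)) st
  test : ∀ (c : CR → ℕ) st (y : Fin (b ^ g)), c .v = y →
    Tr x cc A body Sum.inl P Rep k₀ (op .test) c st (fun c' => c' = c)
      (P.orFail st (@decide (¬P.acc y) (Classical.propDecidable _)))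

/-- All operations; `sch` gives the programs for the functions of the scheme and the test. -/
def opO (K : ℕ) (sch : OF → NStmt (CR ⊕ OL Y) F) : OF → NStmt (CR ⊕ OL Y) F
  | .use => useO K
  | .store => storeO K
  | .check => checkO K
  | .rdget => lf (getD K)
  | .rdset => lf (putD K)
  | .clget => lf getL
  | .clset => lf putL
  | o => sch o

/-- The specifications of all operations. -/
theorem opsO (hQ : Bnd S.K B T b g A) {sch : OF → NStmt (CR ⊕ OL Y) F}
    (hs : SchOps x cc A body (mkP S B T acc hN) (RepO pv S.K B T) sch k) :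
    Ops x cc A body Sum.inl Fin.val (mkP S B T acc hN) (RepO pv S.K B T) (opO S.K sch) k where
  use := by
    intro c st hp hj
    refine tr_of_run (c' := CM.upd c .w (gval (b ^ g) st.u)) rfl id fun hrd => ?_
    have h2 := hQ.two_lt
    have hg : RunN x cc A body k (guess (Sum.inl .w) (Sum.inr .rN) (Sum.inr .i) (Sum.inr .pw))
        (Sum.elim c (lay pv S.K B T st)) st.u
        (Sum.elim (CM.upd c .w (gval (b ^ g) st.u)) (lay pv S.K B T st))
        (grest (b ^ g) st.u) :=
      (run_guess (R := CR ⊕ OL Y) (out := Sum.inl CR.w) (rN := Sum.inr OL.rN)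
      (i := Sum.inr OL.i) (b := Sum.inr OL.pw) (by simp) (by simp) (by simp) (by simp) (by simp)
      (by simp) rfl rfl hQ.hN hN k st.u).cast (upd_inl _ _ _ _)
    refine RunN.cons hg ?_
    have hj' : CM.upd c .w (gval (b ^ g) st.u) .ji ≤ S.K := by
      rw [upd_ne (by simp)]
      exact hj
    refine RunN.cons (run_lf (run_useO' (st := st) (c := CM.upd c .w (gval (b ^ g) st.u)) hQ hj'
      (y := ⟨gval (b ^ g) st.u, gval_lt hN _⟩) (by simp) (hR := rfl)
      (st' := ((mkP S B T acc hN).use (pos B (c .lp)) (c .ji) st).2)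
      ?_ ?_ rfl rfl rfl rfl) _) RunN.nil
    · simp only [ne_eq, reduceCtorEq, not_false_eq_true, upd_ne]
      exact addAt_self _ _ _ _
    · intro p _ i _ hne
      simp only [ne_eq, reduceCtorEq, not_false_eq_true, upd_ne] at hne
      show addAt _ _ _ _ _ _ = _
      simp only [addAt, if_neg hne]
  store := by
    intro c st y hp hj hw
    refine tr_of_run (c' := c) rfl id fun hrd => ?_
    show RunN x cc A body k (storeO S.K) (Sum.elim c (lay pv S.K B T st)) st.u
      (Sum.elim c (lay pv S.K B T ((mkP S B T acc hN).store (c .lp) (c .ji) y st))) st.u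
    refine run_storeO' (st := st) (st' := (mkP S B T acc hN).store (c .lp) (c .ji) y st) hQ hp hj
      hw (hR := rfl) ?_ ?_ ?_ ?_ rfl rfl rfl _
    · exact addAt_self _ _ _ _
    · exact fun p _ i _ hne => if_neg hne
    · exact if_pos ⟨rfl, rfl⟩
    · exact fun p _ i _ hne => if_neg hne
  check := by
    intro c st y hp hj hw hn
    refine tr_of_run (c' := c) rfl id fun hrd => ?_
    show RunN x cc A body k (checkO S.K) (Sum.elim c (lay pv S.K B T st)) st.u
      (Sum.elim c (lay pv S.K B T ((mkP S B T acc hN).check (c .lp) (c .ji) (c .cn) y st))) st.u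
    refine run_checkO' (st := st)
      (st' := (mkP S B T acc hN).check (c .lp) (c .ji) (c .cn) y st) hQ hp hj hw hn (hR := rfl)
      (hτ := rfl) ?_ ?_ rfl rfl rfl ?_ _
    · exact addAt_self _ _ _ _
    · exact fun p _ i _ hne => if_neg hne
    · show (st.fail || decide _) = _
      congr 1
      refine decide_eq_decide.2 (not_congr ?_)
      exact (ZMod.val_eq_zero _).symm
  rdget := by
    intro c st hp
    exact tr_of_run (c' := CM.upd c .q (st.rd (c .lp))) rfl id fun hrd =>
      run_lf (run_getD hQ hrd lays_lay hp) _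
  rdset := by
    intro c st hp hq
    refine tr_of_run (c' := c) rfl ?_ fun hrd => ?_
    · intro h t ht
      show (if _ then _ else _) < _
      split_ifs
      · have : c .q < 2 * S.K := hq
        omega
      · exact h t ht
    · obtain ⟨l', h1, h2, h3⟩ := run_putD (x := x) (cc := cc) (body := nob) (k := k) (c := c)
        hQ hrd (lays_lay (pv := pv)) hp (by have : c .q < 2 * S.K := hq; omega)
        (st' := (mkP S B T acc hN).setRd st (c .lp) (c .q)) (if_pos rfl)
        (fun p _ hne => if_neg hne) rfl rfl rfl rfl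
      rw [← h2.eq fun y => by rw [h3]; rfl]
      exact run_lf h1 _
  clget := by
    intro c st hp htop
    exact tr_of_run (c' := CM.upd c .a (st.cl (c .lp)).val) rfl id fun hrd =>
      run_lf (run_getL hQ lays_lay hp htop) _
  clset := by
    intro c st y hp htop hy
    refine tr_of_run (c' := c) rfl id fun hrd => ?_
    obtain ⟨l', h1, h2, h3⟩ := run_putL (x := x) (cc := cc) (body := nob) (k := k) (c := c)
      hQ (lays_lay (pv := pv) (K := S.K)) hp htop hy
      (st' := (mkP S B T acc hN).setCl st (c .lp) y) (if_pos rfl)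
      (fun p hne => if_neg hne) rfl rfl rfl rfl
    rw [← h2.eq fun y => by rw [h3]; rfl]
    exact run_lf h1 _
  arg := hs.arg
  upd := hs.upd
  ini := hs.ini
  out := hs.out
  v0 := hs.v0
  test := hs.test

end trs

/-! ### The initial state -/

section init

variable {pv : Y → ℕ} {K B T : ℕ}

/-- The initial state of the engine with the argument `x₀`. -/
def st0 (hN : 0 < b ^ g) (T : ℕ) (x₀ : Fin (b ^ g)) (u : ℕ → Bool) :
    St (gad (le_refl (b ^ g))) (ℕ → Bool) where
  R := fun _ _ => 0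
  tau := fun _ _ => 0
  rd := fun _ => 0
  cl := fun t => if t = T then x₀ else ⟨0, hN⟩
  fail := false
  u := u

/-- The registers of the machine for the initial state. -/
theorem lay_st0 (hB : 1 ≤ B) (hT : IsTop B T) (hN : 0 < b ^ g) (x₀ : Fin (b ^ g)) (u : ℕ → Bool) :
    lay pv K B T (st0 hN T x₀ u) = fun r => match r with
      | .AC => (x₀ : ℕ) * (b ^ g) ^ (T / B)
      | .rB => B
      | .rT => T
      | .rN => b ^ g
      | .rW => RR 6 b g ^ (g + 2)
      | .loc y => layRd b g y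
      | .ex y => pv y
      | _ => 0 := by
  funext r
  cases r with
  | AC =>
    show ∑ i ∈ Finset.range ((T + 1) / B), (((if i * B + (B - 1) = T then x₀ else
      (⟨0, hN⟩ : Fin (b ^ g))) : Fin (b ^ g)) : ℕ) * (b ^ g) ^ i = _
    rw [Finset.sum_eq_single (T / B)]
    · rw [if_pos (top_div hB hT)]
    · intro i _ hi
      rw [if_neg, Nat.zero_mul]
      intro h
      apply hi
      rw [← h, Nat.mul_comm, Nat.mul_add_div (by omega), Nat.div_eq_of_lt (by omega),
        Nat.add_zero]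
    · intro h
      exact absurd (Finset.mem_range.2 (top_lt hB hT le_rfl)) h
  | AR =>
    show enc2 _ _ _ (fun _ _ => pack (0 : Om 6 b g)) = 0
    rw [pack_zero]
    simp [enc2, enc]
  | AT =>
    show enc2 _ _ _ (fun _ _ => (0 : ZMod (gad (le_refl (b ^ g))).r).val) = 0
    simp [enc2, enc]
  | AD => simp [lay, st0, enc]
  | fl => rfl
  | rB => rfl
  | rT => rfl
  | rN => rfl
  | rW => rfl
  | pw => rfl
  | i => rfl
  | loc y => rfl
  | ex y => rfl

end init

end

end Pool.Agent.Lib.MP_9277c3_lc.NS
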