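import Pool.Agent.Lib.MP_9277c3_lc.NS.Sound

/-!
# The engine as a total function on states

The state consists of the registers, for each level `t` the stored values `tau t j`, the number of
the current round (`rd t = 2 * j` for the forward call in the round `j`, and `2 * j + 1` for the
backward call) and the kept argument `cl t` (used for the tops of the blocks), the mark `fail`, and
the stream of the guesses. There are no closures: the level `t` reads `rd (t + 1)`.
-/

namespace Pool.Agent.Lib.MP_9277c3_lc.NS

open Classical

/-- The states. -/
structure St {X : Type} (G : Gadget X) (γ : Type) where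
  R : Reg G
  tau : ℕ → ℕ → ZMod G.r
  rd : ℕ → ℕ
  cl : ℕ → X
  fail : Bool
  u : γ

/-- The parameters: the scheme, the algebra, the size of the blocks, the top level, the test for the
final value, and the source of the guesses. -/
structure Par (X γ : Type) where
  S : Scheme X
  G : Gadget X
  B : ℕ
  T : ℕ
  acc : X → Prop
  nxt : γ → X × γ

namespace Par

variable {X γ : Type} (P : Par X γ)

/-- Add `w` to the register `(p, j)`. -/
noncomputable def addR (st : St P.G γ) (p j : ℕ) (w : P.G.Om) : St P.G γ :=
  { st with R := addAt st.R p j w }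

/-- Mark a failure, if `b`. -/
def orFail (st : St P.G γ) (b : Bool) : St P.G γ := { st with fail := st.fail || b }

/-- Set the stored value `(t, j)`. -/
noncomputable def setTau (st : St P.G γ) (t j : ℕ) (c : ZMod P.G.r) : St P.G γ :=
  { st with tau := fun t' j' => if t' = t ∧ j' = j then c else st.tau t' j' }

/-- Set the round of the level `t`. -/
noncomputable def setRd (st : St P.G γ) (t c : ℕ) : St P.G γ :=
  { st with rd := fun t' => if t' = t then c else st.rd t' }

/-- Set the kept argument of the level `t`. -/
noncomputable def setCl (st : St P.G γ) (t : ℕ) (a : X) : St P.G γ :=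
  { st with cl := fun t' => if t' = t then a else st.cl t' }

/-- Use the register `(p, j)`. -/
noncomputable def use (p j : ℕ) (st : St P.G γ) : X × St P.G γ :=
  ((P.nxt st.u).1, P.addR { st with u := (P.nxt st.u).2 } p j (P.G.d (P.nxt st.u).1))

/-- Store the value `s` in the register `(p, j)` of the level `t`. -/
noncomputable def store (t j : ℕ) (s : X) (st : St P.G γ) : St P.G γ :=
  P.setTau (P.addR st (pos P.B t) j (-P.G.cst (P.G.ev s (st.R (pos P.B t) j)))) t j
    (P.G.ev s (st.R (pos P.B t) j))

/-- Check that the value `s` is stored in the register `(p, j)` of the level `t`, which has been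
used `n` times, and restore the register. -/
noncomputable def check (t j n : ℕ) (s : X) (st : St P.G γ) : St P.G γ :=
  P.addR (P.orFail st (decide (P.G.ev s (st.R (pos P.B t) j) ≠ 0))) (pos P.B t) j
    (P.G.cst (st.tau t j) - n • P.G.d s)

/-- The argument for the level `t`, from the registers of the level `t + 1`. -/
noncomputable def supP (t : ℕ) (st : St P.G γ) : X × St P.G γ :=
  (P.S.arg (st.rd (t + 1) / 2) (P.use (pos P.B (t + 1)) (st.rd (t + 1) / 2) st).1,
    (P.use (pos P.B (t + 1)) (st.rd (t + 1) / 2) st).2)

/-- The argument for the body of the level `t`. -/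
noncomputable def sup (t : ℕ) (st : St P.G γ) : X × St P.G γ :=
  if IsTop P.B t then (st.cl t, st) else P.supP t st

/-- The action on the value `v` of the level `t`. -/
noncomputable def act (t : ℕ) (v : X) (st : St P.G γ) : St P.G γ :=
  if t = P.T then P.orFail st (decide (¬P.acc v))
  else
    let q := P.use (pos P.B (t + 1)) (st.rd (t + 1) / 2) st
    if st.rd (t + 1) % 2 = 0 then
      P.store (t + 1) (st.rd (t + 1) / 2 + 1) (P.S.upd (st.rd (t + 1) / 2) q.1 v) q.2
    else
      P.check (t + 1) (st.rd (t + 1) / 2 + 1) (cnt (P.S.K - (st.rd (t + 1) / 2 + 1)))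
        (P.S.upd (st.rd (t + 1) / 2) q.1 v) q.2

/-- The rounds of the level `t`, from round `j` on, where `i` rounds remain and `run` is the run of
the level below. -/
noncomputable def seg (run : St P.G γ → St P.G γ) (t : ℕ) : ℕ → ℕ → St P.G γ → St P.G γ
  | 0, j, st => P.act t (P.S.out (P.use (pos P.B t) j st).1) (P.use (pos P.B t) j st).2
  | i + 1, j, st => run (P.setRd (seg run t i (j + 1) (run (P.setRd st t (2 * j)))) t (2 * j + 1))

/-- The body of level `0`. -/
noncomputable def body0 (st : St P.G γ) : St P.G γ :=
  (P.sup 0 (P.act 0 (P.S.V0 (P.sup 0 st).1) (P.sup 0 st).2)).2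

/-- The body of the level `t ≥ 1`. -/
noncomputable def bodyS (run : St P.G γ → St P.G γ) (t : ℕ) (st : St P.G γ) : St P.G γ :=
  let st₂ := P.seg run t P.S.K 0 (P.store t 0 (P.S.ini (P.sup t st).1) (P.sup t st).2)
  P.check t 0 (cnt P.S.K) (P.S.ini (P.sup t st₂).1) (P.sup t st₂).2

/-- A run of level `t` with the given body. -/
noncomputable def wrap (t : ℕ) (body : St P.G γ → St P.G γ) (st : St P.G γ) : St P.G γ :=
  if IsTop P.B t then (P.supP t (body (P.setCl (P.supP t st).2 t (P.supP t st).1))).2
  else body st

/-- The body of the level `t`. -/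
noncomputable def body : ℕ → St P.G γ → St P.G γ
  | 0 => P.body0
  | t + 1 => P.bodyS (P.wrap t (body t)) (t + 1)

/-- The run of the level `t`. -/
noncomputable def run (t : ℕ) : St P.G γ → St P.G γ := P.wrap t (P.body t)

end Par

/-- The statement about the functions: if the top level `T` is the top of a block, the kept argument
of `T` is `x`, and the source of the guesses can produce every value, then some stream of guesses
does not fail iff the value of `x` is accepted. -/
def SpecFlow : Prop := ∀ (X γ : Type) (P : Par X γ) (st : St P.G γ), 1 ≤ P.B → 1 ≤ P.S.K →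
  IsTop P.B P.T → st.fail = false → (∀ x g, ∃ g', P.nxt g' = (x, g)) → Nonempty γ →
  ((∃ g, (P.body P.T { st with u := g }).fail = false) ↔ P.acc (P.S.val P.T (st.cl P.T)))

end Pool.Agent.Lib.MP_9277c3_lc.NS
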