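import Pool.Agent.Lib.MP_9277c3_lc.NS.Core

/-!
# Soundness of the engine
-/

namespace Pool.Agent.Lib.MP_9277c3_lc.NS

open Classical

variable {X : Type} (S : Scheme X) (G : Gadget X) (B : ℕ)

/-- Soundness for the level `t`, if the positions in `D` may be changed by unsound computations. -/
def Snd (t : ℕ) (D : Set ℕ) (run : Rel G → Rel G → Reg G → Reg G → Prop) : Prop :=
  ∀ (sup act : Rel G) (P : Set ℕ), Loc P sup → Loc P act → (∀ q ∈ P, q ∉ Dirty B t) →
    ∀ R R', run sup act R R' → ∃ a v a' S₁ S₂ S₃, sup R a S₁ ∧ act S₁ v S₂ ∧ sup S₂ a' S₃ ∧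
      (∀ q ∉ D, R' q = S₃ q) ∧ (a = a' → v = S.val t a ∧ R' = S₃)

variable {S G B}

theorem cnt_le (i : ℕ) : cnt i ≤ 6 := by
  unfold cnt
  split_ifs <;> omega

theorem sum_eq (us : List X) (s : X) (h : ∀ u ∈ us, u = s) :
    (us.map G.d).sum = us.length • G.d s := by
  induction us with
  | nil => simp
  | cons a l ih =>
    rw [List.map_cons, List.sum_cons, ih fun u hu => h u (List.mem_cons_of_mem _ hu),
      h a List.mem_cons_self, List.length_cons, succ_nsmul, add_comm]

theorem ev_sum (y : X) (us : List X) :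
    G.ev y (us.map G.d).sum = (us.map fun u => G.ev y (G.d u)).sum := by
  rw [map_list_sum, List.map_map]
  rfl

theorem seg_sound {t p : ℕ} {act : Rel G} {P : Set ℕ}
    {run : Rel G → Rel G → Reg G → Reg G → Prop} (hp : p ∉ Dirty B t)
    (hrun : Snd S G B t (DirtyR B t) run) (hact : Loc P act) (hP : ∀ q ∈ P, q ∉ DirtyR B t ∪ {p}) :
    ∀ i j R R', Seg S run p act i j R R' → ∃ (us : List X) (v : X) (T : Reg G),
      us.length = cnt i ∧ act R v T ∧ (∀ q ∉ DirtyR B t ∪ {p}, R' q = T q) ∧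
      (∀ j' < j, R' p j' = R p j') ∧ R' p j = R p j + (us.map G.d).sum ∧
      ∀ s, (∀ u ∈ us, u = s) → v = S.out (S.rounds (S.val t) i j s) ∧
        R' = addAt T p j (cnt i • G.d s) := by
  have hpD : p ∉ DirtyR B t := fun h => hp (dirtyR_subset t h)
  have hpP : p ∉ P := fun h => hP p h (Or.inr rfl)
  have hsing : ∀ q ∈ ({p} : Set ℕ), q ∉ Dirty B t := by
    intro q hq
    rw [Set.mem_singleton_iff] at hq
    subst hq
    exact hp
  intro i
  induction i with
  | zero =>
    intro j R R' h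
    obtain ⟨s, h⟩ := h
    have hPR : ∀ q ∈ P, R q = addAt R p j (G.d s) q := by
      intro q hq
      rw [addAt_ne]
      rintro rfl
      exact hpP hq
    refine ⟨[s], S.out s, _, rfl, hact.move _ _ _ R h hPR, ?_, ?_, ?_, ?_⟩
    · intro q hq
      by_cases hqP : q ∈ P
      · simp [hqP]
      · simp only [hqP, if_false]
        rw [hact.frame _ _ _ h q hqP, addAt_ne]
        rintro rfl
        exact hq (Or.inr rfl)
    · intro j' hj'
      rw [hact.frame _ _ _ h p hpP, addAt_ne' _ _ _ (by omega)]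
    · rw [hact.frame _ _ _ h p hpP, addAt_self]
      simp
    · intro s' hs'
      have : s = s' := hs' s (by simp)
      subst this
      refine ⟨rfl, ?_⟩
      funext q i
      by_cases hqP : q ∈ P
      · have : q ≠ p := by rintro rfl; exact hpP hqP
        simp [addAt, this, hqP]
      · rw [hact.frame _ _ _ h q hqP]
        by_cases hqp : q = p
        · subst hqp
          simp [addAt, hpP, cnt]
        · simp [addAt, hqp, hqP]
  | succ i ih =>
    intro j R R' h
    obtain ⟨τ, R₁, R₂, h₁, h₂, h₃⟩ := h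
    obtain ⟨a, v₁, a', S₁, S₂, S₃, ⟨s₁, ha, rfl⟩, ⟨s₂, hτ, rfl⟩, ⟨s₃, ha', rfl⟩, hq₁, hc₁⟩ :=
      hrun _ _ _ (loc_SupU S p j) (loc_ActS S p j τ) hsing _ _ h₁
    obtain ⟨us, v, T, hl, hT, hq, hlow, hj, hall⟩ := ih _ _ _ h₂
    obtain ⟨b, v₂, b', T₁, T₂, T₃, ⟨s₄, hb, rfl⟩, ⟨s₅, hev, rfl⟩, ⟨s₆, hb', rfl⟩, hq₃, hc₃⟩ :=
      hrun _ _ _ (loc_SupU S p j) (loc_ActC S p j τ (cnt i)) hsing _ _ h₃
    have hR1 : ∀ q, q ∉ DirtyR B t → q ≠ p → R₁ q = R q := by
      intro q hq hqp
      rw [hq₁ q hq, addAt_ne _ _ _ hqp, addAt_ne _ _ _ hqp, addAt_ne _ _ _ hqp,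
        addAt_ne _ _ _ hqp]
    have hPR : ∀ q ∈ P, R q = R₁ q := by
      intro q hq
      have := hP q hq
      simp only [Set.mem_union, Set.mem_singleton_iff, not_or] at this
      exact (hR1 q this.1 this.2).symm
    have hR1p : R₁ p = fun i' => R p i' + (if i' = j then G.d s₁ + G.d s₂ + G.d s₃ else 0) +
        (if i' = j + 1 then -G.cst τ else 0) := by
      rw [hq₁ p hpD]
      funext i'
      by_cases h1 : i' = j
      · subst h1
        simp [addAt, add_assoc]
      · by_cases h2 : i' = j + 1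
        · subst h2
          simp [addAt]
        · simp [addAt, h1, h2]
    have hR'p : R' p = fun i' => R₂ p i' + (if i' = j then G.d s₄ + G.d s₅ + G.d s₆ else 0) +
        (if i' = j + 1 then G.cst τ - cnt i • G.d (S.upd j s₅ v₂) else 0) := by
      rw [hq₃ p hpD]
      funext i'
      by_cases h1 : i' = j
      · subst h1
        simp [addAt, add_assoc]
      · by_cases h2 : i' = j + 1
        · subst h2
          simp [addAt]
        · simp [addAt, h1, h2]
    have hTq : ∀ q, q ∉ P → T q = R₁ q := fun q hqP => hact.frame _ _ _ hT q hqP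
    refine ⟨[s₁, s₂, s₃, s₄, s₅, s₆], v, _, by simp [cnt], hact.move _ _ _ R hT hPR, ?_, ?_, ?_, ?_⟩
    · intro q hq'
      simp only [Set.mem_union, Set.mem_singleton_iff, not_or] at hq'
      have e1 : R' q = R₂ q := by
        rw [hq₃ q hq'.1, addAt_ne _ _ _ hq'.2, addAt_ne _ _ _ hq'.2, addAt_ne _ _ _ hq'.2,
          addAt_ne _ _ _ hq'.2]
      rw [e1, hq q (by simp [hq'.1, hq'.2])]
      by_cases hqP : q ∈ P
      · simp [hqP]
      · simp only [hqP, if_false]
        rw [hTq q hqP, hR1 q hq'.1 hq'.2]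
    · intro j' hj'
      rw [hR'p]
      simp only
      rw [hlow j' (by omega), hR1p]
      have h1 : j' ≠ j := by omega
      have h2 : j' ≠ j + 1 := by omega
      simp [h1, h2]
    · rw [hR'p]
      simp only
      rw [hlow j (by omega), hR1p]
      simp only [if_true, Nat.left_eq_add, one_ne_zero, if_false, add_zero, List.map_cons,
        List.map_nil, List.sum_cons, List.sum_nil]
      abel
    · intro s hs
      have e1 : s₁ = s := hs _ (by simp)
      have e2 : s₂ = s := hs _ (by simp)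
      have e3 : s₃ = s := hs _ (by simp)
      have e4 : s₄ = s := hs _ (by simp)
      have e5 : s₅ = s := hs _ (by simp)
      have e6 : s₆ = s := hs _ (by simp)
      subst e1
      subst e2
      subst e3
      subst e4
      subst e5
      subst e6
      obtain ⟨rfl, hR1'⟩ := hc₁ (ha.trans ha'.symm)
      obtain ⟨rfl, hR3'⟩ := hc₃ (hb.trans hb'.symm)
      subst ha
      subst hb
      set s' := S.upd j s₆ (S.val t (S.arg j s₆)) with hs'
      have hτ' : τ = G.ev s' (R p (j + 1)) := by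
        rw [hτ, addAt_ne' _ _ _ (by omega)]
      have hev' : G.ev s' (R₂ p (j + 1)) = 0 := by
        rw [← hev, addAt_ne' _ _ _ (by omega)]
      have hus : ∀ u ∈ us, u = s' := by
        apply G.sound s' us (by rw [hl]; exact cnt_le i)
        rw [← ev_sum]
        have : R₂ p (j + 1) = R p (j + 1) - G.cst τ + (us.map G.d).sum := by
          rw [hj, hR1p]
          simp [sub_eq_add_neg]
        rw [this, map_add, map_sub, G.ev_cst, ← hτ', sub_self, zero_add] at hev'
        exact hev'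
      obtain ⟨hv, hR2⟩ := hall s' hus
      refine ⟨hv, ?_⟩
      funext q i'
      by_cases hqp : q = p
      · subst hqp
        rw [hR'p]
        simp only
        rw [hR2]
        simp only [addAt, hpP, if_false, true_and]
        rw [hTq q hpP, hR1p]
        by_cases h1 : i' = j
        · subst h1
          simp [cnt]
          abel
        · by_cases h2 : i' = j + 1
          · subst h2
            simp
          · simp [h1, h2]
      · rw [hR3', addAt_ne _ _ _ hqp, addAt_ne _ _ _ hqp, addAt_ne _ _ _ hqp,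
          addAt_ne _ _ _ hqp, hR2, addAt_ne _ _ _ hqp, addAt_ne _ _ _ hqp]
        by_cases hqP : q ∈ P
        · simp [hqP]
        · simp only [hqP, if_false]
          rw [hTq q hqP, hR1', addAt_ne _ _ _ hqp, addAt_ne _ _ _ hqp, addAt_ne _ _ _ hqp,
            addAt_ne _ _ _ hqp]

theorem bodyS_sound {t p : ℕ} {run : Rel G → Rel G → Reg G → Reg G → Prop}
    (hp : p ∉ Dirty B t) (hp1 : p = pos B (t + 1)) (hrun : Snd S G B t (DirtyR B t) run) :
    Snd S G B (t + 1) (Dirty B (t + 1)) (BodyS S run p) := by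
  intro sup act P hsup hact hP R R' h
  obtain ⟨a, a', τ, R₁, R₂, R₃, hs, hτ, hseg, hs', hev, rfl⟩ := h
  rw [dirty_succ, ← hp1] at hP ⊢
  have hpP : p ∉ P := fun h => hP p h (Or.inr rfl)
  obtain ⟨us, v, T, hl, hT, hq, _, h0, hall⟩ := seg_sound hp hrun hact hP _ _ _ _ hseg
  have hPR : ∀ q ∈ P, R₁ q = addAt R₁ p 0 (-G.cst τ) q := by
    intro q hqP
    rw [addAt_ne]
    rintro rfl
    exact hpP hqP
  have hT' := hact.move _ _ _ R₁ hT hPR
  have hPT : ∀ q ∈ P, (fun q => if q ∈ P then T q else R₁ q) q = R₂ q := by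
    intro q hq'
    simp only [hq', if_true]
    exact (hq q (hP q hq')).symm
  have hS := hsup.move _ _ _ _ hs' hPT
  have hTq : ∀ q, q ∉ P → T q = addAt R₁ p 0 (-G.cst τ) q := fun q hqP =>
    hact.frame _ _ _ hT q hqP
  have hR3q : ∀ q, q ∉ P → R₃ q = R₂ q := fun q hqP => hsup.frame _ _ _ hs' q hqP
  refine ⟨a, v, a', _, _, _, hs, hT', hS, ?_, ?_⟩
  · intro q hq'
    have hqp : q ≠ p := fun h => hq' (Or.inr h)
    rw [addAt_ne _ _ _ hqp]
    by_cases hqP : q ∈ P
    · simp [hqP]
    · simp only [hqP, if_false]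
      rw [hR3q q hqP, hq q hq', hTq q hqP, addAt_ne _ _ _ hqp]
  · rintro rfl
    have hev' : G.ev (S.ini a) (us.map G.d).sum = 0 := by
      rw [hR3q p hpP, h0, addAt_self, map_add, map_add, map_neg, G.ev_cst, ← hτ,
        add_neg_cancel, zero_add] at hev
      exact hev
    have hus : ∀ u ∈ us, u = S.ini a := by
      apply G.sound _ us (by rw [hl]; exact cnt_le _)
      rw [← ev_sum]
      exact hev'
    obtain ⟨hv, hR2⟩ := hall _ hus
    refine ⟨hv, ?_⟩
    funext q i
    by_cases hqp : q = p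
    · subst hqp
      by_cases hi : i = 0
      · subst hi
        rw [addAt_self, hR3q q hpP, hR2, addAt_self, hTq q hpP, addAt_self]
        simp [hpP]
      · rw [addAt_ne' _ _ _ hi, hR3q q hpP, hR2, addAt_ne' _ _ _ hi, hTq q hpP,
          addAt_ne' _ _ _ hi]
        simp [hpP]
    · rw [addAt_ne _ _ _ hqp]
      by_cases hqP : q ∈ P
      · simp [hqP]
      · simp only [hqP, if_false]
        rw [hR3q q hqP, hR2, addAt_ne _ _ _ hqp, hTq q hqP, addAt_ne _ _ _ hqp]

theorem body0_sound : Snd S G B 0 (Dirty B 0) (Body0 (G := G) S) := by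
  intro sup act P _ _ _ R R' h
  obtain ⟨a, a', R₁, R₂, h₁, h₂, h₃⟩ := h
  exact ⟨a, S.V0 a, a', R₁, R₂, R', h₁, h₂, h₃, fun _ _ => rfl, fun _ => ⟨rfl, rfl⟩⟩

theorem wrap_sound {t : ℕ} {body : Rel G → Rel G → Reg G → Reg G → Prop}
    (hb : Snd S G B t (Dirty B t) body) : Snd S G B t (DirtyR B t) (Wrap G B t body) := by
  intro sup act P hsup hact hP R R' h
  unfold Wrap at h
  unfold DirtyR
  split_ifs at h ⊢ with ht
  · obtain ⟨a, a', R₁, R₂, h₁, h₂, h₃⟩ := h
    obtain ⟨b, v, b', S₁, S₂, S₃, ⟨rfl, rfl⟩, g₂, ⟨rfl, rfl⟩, _, hc⟩ :=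
      hb _ _ P (loc_cstSup a P) hact hP _ _ h₂
    obtain ⟨rfl, rfl⟩ := hc rfl
    exact ⟨_, _, a', _, _, R', h₁, g₂, h₃, fun _ _ => rfl, fun _ => ⟨rfl, rfl⟩⟩
  · exact hb _ _ P hsup hact hP _ _ h

theorem body_sound (hB : 1 ≤ B) (t : ℕ) : Snd S G B t (Dirty B t) (Body S G B t) := by
  induction t with
  | zero => exact body0_sound
  | succ t ih => exact bodyS_sound (pos_notMem_dirty hB t) rfl (wrap_sound ih)

theorem run_sound (hB : 1 ≤ B) (t : ℕ) : Snd S G B t (DirtyR B t) (Run S G B t) :=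
  wrap_sound (body_sound hB t)

/-! ### Completeness -/

variable (S G B) in
/-- Completeness for the level `t`. -/
def Cpl (t : ℕ) (run : Rel G → Rel G → Reg G → Reg G → Prop) : Prop :=
  ∀ (sup act : Rel G) (P : Set ℕ), Loc P sup → Loc P act → (∀ q ∈ P, q ∉ Dirty B t) →
    ∀ R a S₁ S₂ S₃, sup R a S₁ → act S₁ (S.val t a) S₂ → sup S₂ a S₃ → run sup act R S₃

theorem seg_complete {t p : ℕ} {act : Rel G} {P : Set ℕ}
    {run : Rel G → Rel G → Reg G → Reg G → Prop} (hp : p ∉ Dirty B t)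
    (hrun : Cpl S G B t run) (hact : Loc P act) (hpP : p ∉ P) :
    ∀ i j R T s, act R (S.out (S.rounds (S.val t) i j s)) T →
      Seg S run p act i j R (addAt T p j (cnt i • G.d s)) := by
  have hsing : ∀ q ∈ ({p} : Set ℕ), q ∉ Dirty B t := by
    intro q hq
    rw [Set.mem_singleton_iff] at hq
    subst hq
    exact hp
  -- the relation `act` commutes with changes at the position `p`
  have hcomm : ∀ (R T : Reg G) (v : X) (j : ℕ) (w : G.Om), act R v T →
      act (addAt R p j w) v (addAt T p j w) := by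
    intro R T v j w h
    have h1 := hact.move _ _ _ (addAt R p j w) h (fun q hq => addAt_ne _ _ _ (by
      rintro rfl; exact hpP hq))
    convert h1 using 1
    funext q
    by_cases hq : q ∈ P
    · simp only [hq, if_true]
      exact addAt_ne _ _ _ (by rintro rfl; exact hpP hq)
    · simp only [hq, if_false]
      funext i
      have := congrFun (hact.frame _ _ _ h q hq) i
      simp [addAt, this]
  intro i
  induction i with
  | zero =>
    intro j R T s h
    refine ⟨s, ?_⟩
    have : cnt 0 • G.d s = G.d s := by simp [cnt]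
    rw [this]
    exact hcomm _ _ _ _ _ h
  | succ i ih =>
    intro j R T s h
    set s' := S.upd j s (S.val t (S.arg j s)) with hs'
    set τ := G.ev s' (R p (j + 1)) with hτ
    set R₁ := addAt (addAt R p j (3 • G.d s)) p (j + 1) (-G.cst τ) with hR1
    set T₁ := addAt (addAt T p j (3 • G.d s)) p (j + 1) (-G.cst τ) with hT1
    have hTp : T p = R p := hact.frame _ _ _ h p hpP
    have hact1 : act R₁ (S.out (S.rounds (S.val t) i (j + 1) s')) T₁ :=
      hcomm _ _ _ _ _ (hcomm _ _ _ _ _ h)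
    refine ⟨τ, R₁, addAt T₁ p (j + 1) (cnt i • G.d s'), ?_, ih _ _ _ _ hact1, ?_⟩
    · refine hrun _ _ _ (loc_SupU S p j) (loc_ActS S p j τ) hsing R (S.arg j s)
        (addAt R p j (G.d s)) (addAt (addAt (addAt R p j (G.d s)) p j (G.d s)) p (j + 1)
          (-G.cst τ)) _ ⟨s, rfl, rfl⟩ ⟨s, ?_, rfl⟩ ⟨s, rfl, ?_⟩
      · rw [addAt_ne' _ _ _ (by omega), hτ]
      · rw [hR1]
        funext q i'
        simp only [addAt]
        by_cases hq : q = p
        · by_cases h1 : i' = j
          · subst h1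
            simp [hq, succ_nsmul, add_assoc]
          · simp [hq, h1]
        · simp [hq]
    · set R₂ := addAt T₁ p (j + 1) (cnt i • G.d s') with hR2
      refine hrun _ _ _ (loc_SupU S p j) (loc_ActC S p j τ (cnt i)) hsing R₂ (S.arg j s)
        (addAt R₂ p j (G.d s)) (addAt (addAt (addAt R₂ p j (G.d s)) p j (G.d s)) p (j + 1)
          (G.cst τ - cnt i • G.d s')) _ ⟨s, rfl, rfl⟩ ⟨s, ?_, rfl⟩ ⟨s, rfl, ?_⟩
      · rw [addAt_ne' _ _ _ (by omega), ← hs', hR2, addAt_self, hT1, addAt_self,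
          addAt_ne' _ _ _ (by omega), hTp, map_add, map_add, map_neg, G.ev_cst, map_nsmul,
          G.ev_self, ← hτ]
        simp
      · rw [hR2, hT1]
        funext q i'
        simp only [addAt]
        by_cases hq : q = p
        · by_cases h1 : i' = j
          · subst h1
            simp [hq, cnt, succ_nsmul, add_assoc]
          · by_cases h2 : i' = j + 1
            · subst h2
              simp [hq]
            · simp [hq, h1, h2]
        · simp [hq]

theorem bodyS_complete {t p : ℕ} {run : Rel G → Rel G → Reg G → Reg G → Prop}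
    (hp : p ∉ Dirty B t) (hp1 : p = pos B (t + 1)) (hrun : Cpl S G B t run) :
    Cpl S G B (t + 1) (BodyS S run p) := by
  intro sup act P hsup hact hP R a S₁ S₂ S₃ h₁ h₂ h₃
  have hpP : p ∉ P := by
    intro h
    refine hP p h ?_
    rw [dirty_succ, ← hp1]
    exact Or.inr rfl
  have hcomm : ∀ (rel : Rel G), Loc P rel → ∀ (R T : Reg G) (v : X) (j : ℕ) (w : G.Om),
      rel R v T → rel (addAt R p j w) v (addAt T p j w) := by
    intro rel hrel R T v j w h
    have h1 := hrel.move _ _ _ (addAt R p j w) h (fun q hq => addAt_ne _ _ _ (by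
      rintro rfl; exact hpP hq))
    convert h1 using 1
    funext q
    by_cases hq : q ∈ P
    · simp only [hq, if_true]
      exact addAt_ne _ _ _ (by rintro rfl; exact hpP hq)
    · simp only [hq, if_false]
      funext i
      have := congrFun (hrel.frame _ _ _ h q hq) i
      simp [addAt, this]
  set τ := G.ev (S.ini a) (S₁ p 0) with hτ
  have e2 : S₂ p = S₁ p := hact.frame _ _ _ h₂ p hpP
  have e3 : S₃ p = S₂ p := hsup.frame _ _ _ h₃ p hpP
  refine ⟨a, a, τ, S₁, _, _, h₁, rfl, seg_complete hp hrun hact hpP S.K 0 _ _ (S.ini a)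
    (hcomm _ hact _ _ _ 0 (-G.cst τ) h₂), hcomm _ hsup _ _ _ 0 _ (hcomm _ hsup _ _ _ 0 _ h₃),
    ?_, ?_⟩
  · rw [addAt_self, addAt_self, e3, e2, map_add, map_add, map_neg, G.ev_cst, map_nsmul,
      G.ev_self, ← hτ]
    simp
  · rw [addAt_add, addAt_add]
    have : -G.cst τ + (cnt S.K • G.d (S.ini a) + (G.cst τ - cnt S.K • G.d (S.ini a))) = 0 := by
      abel
    rw [this, addAt_zero]

theorem body0_complete : Cpl S G B 0 (Body0 (G := G) S) := by
  intro sup act P _ _ _ R a S₁ S₂ S₃ h₁ h₂ h₃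
  exact ⟨a, a, S₁, S₂, h₁, h₂, h₃⟩

theorem wrap_complete {t : ℕ} {body : Rel G → Rel G → Reg G → Reg G → Prop}
    (hb : Cpl S G B t body) : Cpl S G B t (Wrap G B t body) := by
  intro sup act P hsup hact hP R a S₁ S₂ S₃ h₁ h₂ h₃
  unfold Wrap
  split_ifs with ht
  · exact ⟨a, a, S₁, S₂, h₁, hb _ _ P (loc_cstSup a P) hact hP _ _ _ _ _ ⟨rfl, rfl⟩ h₂
      ⟨rfl, rfl⟩, h₃⟩
  · exact hb _ _ P hsup hact hP _ _ _ _ _ h₁ h₂ h₃

theorem body_complete (hB : 1 ≤ B) (t : ℕ) : Cpl S G B t (Body S G B t) := by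
  induction t with
  | zero => exact body0_complete
  | succ t ih => exact bodyS_complete (pos_notMem_dirty hB t) rfl (wrap_complete ih)

theorem run_complete (hB : 1 ≤ B) (t : ℕ) : Cpl S G B t (Run S G B t) :=
  wrap_complete (body_complete hB t)

/-- The last action: a test. -/
def testAct (G : Gadget X) (acc : X → Prop) : Rel G := fun R v R' => acc v ∧ R' = R

theorem loc_testAct (acc : X → Prop) (P : Set ℕ) : Loc P (testAct G acc) := by
  constructor
  · rintro R x R' ⟨_, rfl⟩ q _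
    rfl
  · rintro R x R' T ⟨h0, rfl⟩ h
    refine ⟨h0, ?_⟩
    funext q
    by_cases hq : q ∈ P
    · simp [hq, h q hq]
    · simp [hq]

/-- The correctness of the engine. -/
theorem body_iff (hB : 1 ≤ B) (t : ℕ) (x : X) (acc : X → Prop) (R : Reg G) :
    (∃ R', Body S G B t (cstSup x) (testAct G acc) R R') ↔ acc (S.val t x) := by
  constructor
  · rintro ⟨R', h⟩
    obtain ⟨a, v, a', S₁, S₂, S₃, ⟨rfl, rfl⟩, ⟨hv, rfl⟩, ⟨rfl, rfl⟩, _, hc⟩ :=
      body_sound hB t _ _ ∅ (loc_cstSup x ∅) (loc_testAct acc ∅) (fun q hq => absurd hq id) _ _ h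
    obtain ⟨rfl, _⟩ := hc rfl
    exact hv
  · intro h
    exact ⟨R, body_complete hB t _ _ ∅ (loc_cstSup x ∅) (loc_testAct acc ∅)
      (fun q hq => absurd hq id) _ _ _ _ _ ⟨rfl, rfl⟩ ⟨h, rfl⟩ ⟨rfl, rfl⟩⟩

end Pool.Agent.Lib.MP_9277c3_lc.NS
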