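import Pool.Agent.Lib.MP_9277c3_lc.NS.Core
import Pool.Agent.Lib.MP_9277c3_lc.NS.Sound
import Pool.Agent.Lib.MP_9277c3_lc.NS.Flow
import Pool.Agent.Lib.MP_9277c3_lc.NS.FlowOK
import Pool.Agent.Lib.MP_9277c3_lc.NC.Time

section
/-!
# The engine with the list of the guesses

The same relations as in `Core.lean`, with the list of all guesses. In a completed computation the
list of the guesses is the list `w1 T x ++ w2 T x` of the true values, so it is unique.
-/
namespace Pool.Agent.Lib.MP_9277c3_lc.NS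

open Classical

section

variable {X : Type} (G : Gadget X)

/-- Relations with a parameter in `X` and a list of guesses. -/
abbrev RelL : Type := Reg G → X → Reg G → List X → Prop

variable {G}

/-- The relation depends only on the positions in `P`, and changes only these. -/
structure LocL (P : Set ℕ) (rel : RelL G) : Prop where
  frame : ∀ R x R' l, rel R x R' l → ∀ q ∉ P, R' q = R q
  move : ∀ R x R' l T, rel R x R' l → (∀ q ∈ P, T q = R q) →
    rel T x (fun q => if q ∈ P then R' q else T q) l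

/-- The constant. -/
def cstSupL (a : X) : RelL G := fun R x R' l => x = a ∧ R' = R ∧ l = []

theorem loc_cstSupL (a : X) (P : Set ℕ) : LocL P (cstSupL (G := G) a) := by
  constructor
  · rintro R x R' l ⟨rfl, rfl, rfl⟩ q _
    rfl
  · rintro R x R' l T ⟨rfl, rfl, rfl⟩ h
    refine ⟨rfl, ?_, rfl⟩
    funext q
    by_cases hq : q ∈ P
    · simp [hq, h q hq]
    · simp [hq]

variable (S : Scheme X)

/-- Use the register `(p, j)`. -/
def SupUL (G : Gadget X) (p j : ℕ) : RelL G := fun R a R' l =>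
  ∃ s, a = S.arg j s ∧ R' = addAt R p j (G.d s) ∧ l = [s]

/-- Use the register `(p, j)` and store the next value. -/
def ActSL (G : Gadget X) (p j : ℕ) (τ : ZMod G.r) : RelL G := fun R v R' l =>
  ∃ s, τ = G.ev (S.upd j s v) (R p (j + 1)) ∧
    R' = addAt (addAt R p j (G.d s)) p (j + 1) (-G.cst τ) ∧ l = [s]

/-- Use the register `(p, j)` and check the next value. -/
def ActCL (G : Gadget X) (p j : ℕ) (τ : ZMod G.r) (n : ℕ) : RelL G := fun R v R' l =>
  ∃ s, G.ev (S.upd j s v) (R p (j + 1)) = 0 ∧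
    R' = addAt (addAt R p j (G.d s)) p (j + 1) (G.cst τ - n • G.d (S.upd j s v)) ∧ l = [s]

theorem loc_SupUL (p j : ℕ) : LocL {p} (SupUL S G p j) := by
  constructor
  · rintro R x R' l ⟨s, rfl, rfl, rfl⟩ q hq
    exact addAt_ne _ _ _ hq
  · rintro R x R' l T ⟨s, rfl, rfl, rfl⟩ h
    have h0 := h p rfl
    refine ⟨s, rfl, ?_, rfl⟩
    funext q i
    by_cases hq : q = p
    · subst hq
      simp [addAt, h0]
    · simp [hq, addAt]

theorem loc_ActSL (p j : ℕ) (τ : ZMod G.r) : LocL {p} (ActSL S G p j τ) := by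
  constructor
  · rintro R x R' l ⟨s, _, rfl, rfl⟩ q hq
    rw [addAt_ne _ _ _ hq, addAt_ne _ _ _ hq]
  · rintro R x R' l T ⟨s, hτ, rfl, rfl⟩ h
    have h0 := h p rfl
    refine ⟨s, by rw [h0]; exact hτ, ?_, rfl⟩
    funext q i
    by_cases hq : q = p
    · subst hq
      simp [addAt, h0]
    · simp [hq, addAt]

theorem loc_ActCL (p j : ℕ) (τ : ZMod G.r) (n : ℕ) : LocL {p} (ActCL S G p j τ n) := by
  constructor
  · rintro R x R' l ⟨s, _, rfl, rfl⟩ q hq
    rw [addAt_ne _ _ _ hq, addAt_ne _ _ _ hq]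
  · rintro R x R' l T ⟨s, hτ, rfl, rfl⟩ h
    have h0 := h p rfl
    refine ⟨s, by rw [h0]; exact hτ, ?_, rfl⟩
    funext q i
    by_cases hq : q = p
    · subst hq
      simp [addAt, h0]
    · simp [hq, addAt]

variable (run : RelL G → RelL G → Reg G → Reg G → List X → Prop)

/-- The rounds from round `j` on, where `i` rounds remain. -/
def SegL (p : ℕ) (act : RelL G) : ℕ → ℕ → Reg G → Reg G → List X → Prop
  | 0, j, R, R', l => ∃ s l', act (addAt R p j (G.d s)) (S.out s) R' l' ∧ l = s :: l'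
  | i + 1, j, R, R', l => ∃ τ R₁ R₂ l₁ l₂ l₃, run (SupUL S G p j) (ActSL S G p j τ) R R₁ l₁ ∧
      SegL p act i (j + 1) R₁ R₂ l₂ ∧ run (SupUL S G p j) (ActCL S G p j τ (cnt i)) R₂ R' l₃ ∧
      l = l₁ ++ l₂ ++ l₃

/-- A run of level `0`. -/
def Body0L (sup act : RelL G) (R R' : Reg G) (l : List X) : Prop :=
  ∃ a a' R₁ R₂ l₁ l₂ l₃, sup R a R₁ l₁ ∧ act R₁ (S.V0 a) R₂ l₂ ∧ sup R₂ a' R' l₃ ∧
    l = l₁ ++ l₂ ++ l₃

/-- A run of a higher level with its own registers in the position `p`. -/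
def BodySL (p : ℕ) (sup act : RelL G) (R R' : Reg G) (l : List X) : Prop :=
  ∃ a a' τ R₁ R₂ R₃ l₁ l₂ l₃, sup R a R₁ l₁ ∧ τ = G.ev (S.ini a) (R₁ p 0) ∧
    SegL S run p act S.K 0 (addAt R₁ p 0 (-G.cst τ)) R₂ l₂ ∧ sup R₂ a' R₃ l₃ ∧
    G.ev (S.ini a') (R₃ p 0) = 0 ∧ R' = addAt R₃ p 0 (G.cst τ - cnt S.K • G.d (S.ini a')) ∧
    l = l₁ ++ l₂ ++ l₃

end

section

variable {X : Type} (S : Scheme X) (G : Gadget X) (B : ℕ)

/-- On the top of a block the argument is kept. -/
def WrapL (t : ℕ) (body : RelL G → RelL G → Reg G → Reg G → List X → Prop) (sup act : RelL G)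
    (R R' : Reg G) (l : List X) : Prop :=
  if IsTop B t then ∃ a a' R₁ R₂ l₁ l₂ l₃, sup R a R₁ l₁ ∧ body (cstSupL a) act R₁ R₂ l₂ ∧
    sup R₂ a' R' l₃ ∧ l = l₁ ++ l₂ ++ l₃
  else body sup act R R' l

/-- The body of level `t`. -/
def BodyL : ℕ → RelL G → RelL G → Reg G → Reg G → List X → Prop
  | 0 => Body0L S
  | t + 1 => BodySL S (WrapL G B t (BodyL t)) (pos B (t + 1))

/-- The completed runs of level `t`. -/
def RunL (t : ℕ) : RelL G → RelL G → Reg G → Reg G → List X → Prop := WrapL G B t (BodyL S G B t)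

/-- The guesses in a sub-run. -/
def subList (w₁ w₂ : X → List X) (s a : X) : List X := s :: w₁ a ++ s :: w₂ a ++ [s]

/-- The guesses before the last action, in the rounds from `j` on. -/
def W1 (F : X → X) (w₁ w₂ : X → List X) : ℕ → ℕ → X → List X
  | 0, _, s => [s]
  | i + 1, j, s => subList w₁ w₂ s (S.arg j s) ++ W1 F w₁ w₂ i (j + 1) (S.upd j s (F (S.arg j s)))

/-- The guesses after the last action, in the rounds from `j` on. -/
def W2 (F : X → X) (w₁ w₂ : X → List X) : ℕ → ℕ → X → List X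
  | 0, _, _ => []
  | i + 1, j, s => W2 F w₁ w₂ i (j + 1) (S.upd j s (F (S.arg j s))) ++
      subList w₁ w₂ s (S.arg j s)

/-- The lists of guesses of the level `t`, before and after the action. -/
def wl : ℕ → (X → List X) × (X → List X)
  | 0 => (fun _ => [], fun _ => [])
  | t + 1 => (fun x => W1 S (S.val t) (wl t).1 (wl t).2 S.K 0 (S.ini x),
      fun x => W2 S (S.val t) (wl t).1 (wl t).2 S.K 0 (S.ini x))

/-- Soundness for the level `t`, if the positions in `D` may be changed by unsound computations. -/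
def SndL (t : ℕ) (D : Set ℕ) (run : RelL G → RelL G → Reg G → Reg G → List X → Prop) : Prop :=
  ∀ (sup act : RelL G) (P : Set ℕ), LocL P sup → LocL P act → (∀ q ∈ P, q ∉ Dirty B t) →
    ∀ R R' l, run sup act R R' l → ∃ a v a' S₁ S₂ S₃ l₁ l₂ l₃, sup R a S₁ l₁ ∧ act S₁ v S₂ l₂ ∧
      sup S₂ a' S₃ l₃ ∧ (∀ q ∉ D, R' q = S₃ q) ∧ (a = a' → v = S.val t a ∧ R' = S₃ ∧
        l = l₁ ++ (wl S t).1 a ++ l₂ ++ (wl S t).2 a ++ l₃)

variable {S G B}

theorem segL_sound {t p : ℕ} {act : RelL G} {P : Set ℕ}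
    {run : RelL G → RelL G → Reg G → Reg G → List X → Prop} (hp : p ∉ Dirty B t)
    (hrun : SndL S G B t (DirtyR B t) run) (hact : LocL P act)
    (hP : ∀ q ∈ P, q ∉ DirtyR B t ∪ {p}) :
    ∀ i j R R' l, SegL S run p act i j R R' l → ∃ (us : List X) (v : X) (T : Reg G) (l' : List X),
      us.length = cnt i ∧ act R v T l' ∧ (∀ q ∉ DirtyR B t ∪ {p}, R' q = T q) ∧
      (∀ j' < j, R' p j' = R p j') ∧ R' p j = R p j + (us.map G.d).sum ∧
      ∀ s, (∀ u ∈ us, u = s) → v = S.out (S.rounds (S.val t) i j s) ∧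
        R' = addAt T p j (cnt i • G.d s) ∧
        l = W1 S (S.val t) (wl S t).1 (wl S t).2 i j s ++ l' ++
          W2 S (S.val t) (wl S t).1 (wl S t).2 i j s := by
  have hpD : p ∉ DirtyR B t := fun h => hp (dirtyR_subset t h)
  have hpP : p ∉ P := fun h => hP p h (Or.inr rfl)
  have hsing : ∀ q ∈ ({p} : Set ℕ), q ∉ Dirty B t := by
    intro q hq
    rw [Set.mem_singleton_iff] at hq
    subst hq
    exact hp
  intro i
  induction i with
  | zero =>
    intro j R R' l h
    obtain ⟨s, l', h, rfl⟩ := h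
    have hPR : ∀ q ∈ P, R q = addAt R p j (G.d s) q := by
      intro q hq
      rw [addAt_ne]
      rintro rfl
      exact hpP hq
    refine ⟨[s], S.out s, _, l', rfl, hact.move _ _ _ _ R h hPR, ?_, ?_, ?_, ?_⟩
    · intro q hq
      by_cases hqP : q ∈ P
      · simp [hqP]
      · simp only [hqP, if_false]
        rw [hact.frame _ _ _ _ h q hqP, addAt_ne]
        rintro rfl
        exact hq (Or.inr rfl)
    · intro j' hj'
      rw [hact.frame _ _ _ _ h p hpP, addAt_ne' _ _ _ (by omega)]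
    · rw [hact.frame _ _ _ _ h p hpP, addAt_self]
      simp
    · intro s' hs'
      have : s = s' := hs' s (by simp)
      subst this
      refine ⟨rfl, ?_, by simp [W1, W2]⟩
      funext q i
      by_cases hqP : q ∈ P
      · have : q ≠ p := by rintro rfl; exact hpP hqP
        simp [addAt, this, hqP]
      · rw [hact.frame _ _ _ _ h q hqP]
        by_cases hqp : q = p
        · subst hqp
          simp [addAt, hpP, cnt]
        · simp [addAt, hqp, hqP]
  | succ i ih =>
    intro j R R' l h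
    obtain ⟨τ, R₁, R₂, l₁, l₂, l₃, h₁, h₂, h₃, hll⟩ := h
    obtain ⟨a, v₁, a', S₁, S₂, S₃, m₁, m₂, m₃, ⟨s₁, ha, rfl, rfl⟩, ⟨s₂, hτ, rfl, rfl⟩,
      ⟨s₃, ha', rfl, rfl⟩, hq₁, hc₁⟩ :=
      hrun _ _ _ (loc_SupUL S p j) (loc_ActSL S p j τ) hsing _ _ _ h₁
    obtain ⟨us, v, T, l', hl, hT, hq, hlow, hj, hall⟩ := ih _ _ _ _ h₂
    obtain ⟨b, v₂, b', T₁, T₂, T₃, m₄, m₅, m₆, ⟨s₄, hb, rfl, rfl⟩, ⟨s₅, hev, rfl, rfl⟩,
      ⟨s₆, hb', rfl, rfl⟩, hq₃, hc₃⟩ :=
      hrun _ _ _ (loc_SupUL S p j) (loc_ActCL S p j τ (cnt i)) hsing _ _ _ h₃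
    have hR1 : ∀ q, q ∉ DirtyR B t → q ≠ p → R₁ q = R q := by
      intro q hq hqp
      rw [hq₁ q hq, addAt_ne _ _ _ hqp, addAt_ne _ _ _ hqp, addAt_ne _ _ _ hqp,
        addAt_ne _ _ _ hqp]
    have hPR : ∀ q ∈ P, R q = R₁ q := by
      intro q hq
      have := hP q hq
      simp only [Set.mem_union, Set.mem_singleton_iff, not_or] at this
      exact (hR1 q this.1 this.2).symm
    have hR1p : R₁ p = fun i' => R p i' + (if i' = j then G.d s₁ + G.d s₂ + G.d s₃ else 0) +
        (if i' = j + 1 then -G.cst τ else 0) := by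
      rw [hq₁ p hpD]
      funext i'
      by_cases h1 : i' = j
      · subst h1
        simp [addAt, add_assoc]
      · by_cases h2 : i' = j + 1
        · subst h2
          simp [addAt]
        · simp [addAt, h1, h2]
    have hR'p : R' p = fun i' => R₂ p i' + (if i' = j then G.d s₄ + G.d s₅ + G.d s₆ else 0) +
        (if i' = j + 1 then G.cst τ - cnt i • G.d (S.upd j s₅ v₂) else 0) := by
      rw [hq₃ p hpD]
      funext i'
      by_cases h1 : i' = j
      · subst h1
        simp [addAt, add_assoc]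
      · by_cases h2 : i' = j + 1
        · subst h2
          simp [addAt]
        · simp [addAt, h1, h2]
    have hTq : ∀ q, q ∉ P → T q = R₁ q := fun q hqP => hact.frame _ _ _ _ hT q hqP
    refine ⟨[s₁, s₂, s₃, s₄, s₅, s₆], v, _, l', by simp [cnt], hact.move _ _ _ _ R hT hPR,
      ?_, ?_, ?_, ?_⟩
    · intro q hq'
      simp only [Set.mem_union, Set.mem_singleton_iff, not_or] at hq'
      have e1 : R' q = R₂ q := by
        rw [hq₃ q hq'.1, addAt_ne _ _ _ hq'.2, addAt_ne _ _ _ hq'.2, addAt_ne _ _ _ hq'.2,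
          addAt_ne _ _ _ hq'.2]
      rw [e1, hq q (by simp [hq'.1, hq'.2])]
      by_cases hqP : q ∈ P
      · simp [hqP]
      · simp only [hqP, if_false]
        rw [hTq q hqP, hR1 q hq'.1 hq'.2]
    · intro j' hj'
      rw [hR'p]
      simp only
      rw [hlow j' (by omega), hR1p]
      have h1 : j' ≠ j := by omega
      have h2 : j' ≠ j + 1 := by omega
      simp [h1, h2]
    · rw [hR'p]
      simp only
      rw [hlow j (by omega), hR1p]
      simp only [if_true, Nat.left_eq_add, one_ne_zero, if_false, add_zero, List.map_cons,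
        List.map_nil, List.sum_cons, List.sum_nil]
      abel
    · intro s hs
      have e1 : s₁ = s := hs _ (by simp)
      have e2 : s₂ = s := hs _ (by simp)
      have e3 : s₃ = s := hs _ (by simp)
      have e4 : s₄ = s := hs _ (by simp)
      have e5 : s₅ = s := hs _ (by simp)
      have e6 : s₆ = s := hs _ (by simp)
      subst e1
      subst e2
      subst e3
      subst e4
      subst e5
      subst e6
      obtain ⟨rfl, hR1', hl₁⟩ := hc₁ (ha.trans ha'.symm)
      obtain ⟨rfl, hR3', hl₃⟩ := hc₃ (hb.trans hb'.symm)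
      subst ha
      subst hb
      set s' := S.upd j s₆ (S.val t (S.arg j s₆)) with hs'
      have hτ' : τ = G.ev s' (R p (j + 1)) := by
        rw [hτ, addAt_ne' _ _ _ (by omega)]
      have hev' : G.ev s' (R₂ p (j + 1)) = 0 := by
        rw [← hev, addAt_ne' _ _ _ (by omega)]
      have hus : ∀ u ∈ us, u = s' := by
        apply G.sound s' us (by rw [hl]; exact cnt_le i)
        rw [← ev_sum]
        have : R₂ p (j + 1) = R p (j + 1) - G.cst τ + (us.map G.d).sum := by
          rw [hj, hR1p]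
          simp [sub_eq_add_neg]
        rw [this, map_add, map_sub, G.ev_cst, ← hτ', sub_self, zero_add] at hev'
        exact hev'
      obtain ⟨hv, hR2, hl₂⟩ := hall s' hus
      refine ⟨hv, ?_, ?_⟩
      swap
      · rw [hll, hl₁, hl₂, hl₃]
        simp [W1, W2, subList, ← hs']
      funext q i'
      by_cases hqp : q = p
      · subst hqp
        rw [hR'p]
        simp only
        rw [hR2]
        simp only [addAt, hpP, if_false, true_and]
        rw [hTq q hpP, hR1p]
        by_cases h1 : i' = j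
        · subst h1
          simp [cnt]
          abel
        · by_cases h2 : i' = j + 1
          · subst h2
            simp
          · simp [h1, h2]
      · rw [hR3', addAt_ne _ _ _ hqp, addAt_ne _ _ _ hqp, addAt_ne _ _ _ hqp,
          addAt_ne _ _ _ hqp, hR2, addAt_ne _ _ _ hqp, addAt_ne _ _ _ hqp]
        by_cases hqP : q ∈ P
        · simp [hqP]
        · simp only [hqP, if_false]
          rw [hTq q hqP, hR1', addAt_ne _ _ _ hqp, addAt_ne _ _ _ hqp, addAt_ne _ _ _ hqp,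
            addAt_ne _ _ _ hqp]

theorem bodySL_sound {t p : ℕ} {run : RelL G → RelL G → Reg G → Reg G → List X → Prop}
    (hp : p ∉ Dirty B t) (hp1 : p = pos B (t + 1)) (hrun : SndL S G B t (DirtyR B t) run) :
    SndL S G B (t + 1) (Dirty B (t + 1)) (BodySL S run p) := by
  intro sup act P hsup hact hP R R' l h
  obtain ⟨a, a', τ, R₁, R₂, R₃, l₁, l₂, l₃, hs, hτ, hseg, hs', hev, rfl, hll⟩ := h
  rw [dirty_succ, ← hp1] at hP ⊢
  have hpP : p ∉ P := fun h => hP p h (Or.inr rfl)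
  obtain ⟨us, v, T, l', hl, hT, hq, _, h0, hall⟩ := segL_sound hp hrun hact hP _ _ _ _ _ hseg
  have hPR : ∀ q ∈ P, R₁ q = addAt R₁ p 0 (-G.cst τ) q := by
    intro q hqP
    rw [addAt_ne]
    rintro rfl
    exact hpP hqP
  have hT' := hact.move _ _ _ _ R₁ hT hPR
  have hPT : ∀ q ∈ P, (fun q => if q ∈ P then T q else R₁ q) q = R₂ q := by
    intro q hq'
    simp only [hq', if_true]
    exact (hq q (hP q hq')).symm
  have hS := hsup.move _ _ _ _ _ hs' hPT
  have hTq : ∀ q, q ∉ P → T q = addAt R₁ p 0 (-G.cst τ) q := fun q hqP =>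
    hact.frame _ _ _ _ hT q hqP
  have hR3q : ∀ q, q ∉ P → R₃ q = R₂ q := fun q hqP => hsup.frame _ _ _ _ hs' q hqP
  refine ⟨a, v, a', _, _, _, l₁, l', l₃, hs, hT', hS, ?_, ?_⟩
  · intro q hq'
    have hqp : q ≠ p := fun h => hq' (Or.inr h)
    rw [addAt_ne _ _ _ hqp]
    by_cases hqP : q ∈ P
    · simp [hqP]
    · simp only [hqP, if_false]
      rw [hR3q q hqP, hq q hq', hTq q hqP, addAt_ne _ _ _ hqp]
  · rintro rfl
    have hev' : G.ev (S.ini a) (us.map G.d).sum = 0 := by
      rw [hR3q p hpP, h0, addAt_self, map_add, map_add, map_neg, G.ev_cst, ← hτ,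
        add_neg_cancel, zero_add] at hev
      exact hev
    have hus : ∀ u ∈ us, u = S.ini a := by
      apply G.sound _ us (by rw [hl]; exact cnt_le _)
      rw [← ev_sum]
      exact hev'
    obtain ⟨hv, hR2, hl₂⟩ := hall _ hus
    refine ⟨hv, ?_, ?_⟩
    swap
    · rw [hll, hl₂]
      simp [wl]
    funext q i
    by_cases hqp : q = p
    · subst hqp
      by_cases hi : i = 0
      · subst hi
        rw [addAt_self, hR3q q hpP, hR2, addAt_self, hTq q hpP, addAt_self]
        simp [hpP]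
      · rw [addAt_ne' _ _ _ hi, hR3q q hpP, hR2, addAt_ne' _ _ _ hi, hTq q hpP,
          addAt_ne' _ _ _ hi]
        simp [hpP]
    · rw [addAt_ne _ _ _ hqp]
      by_cases hqP : q ∈ P
      · simp [hqP]
      · simp only [hqP, if_false]
        rw [hR3q q hqP, hR2, addAt_ne _ _ _ hqp, hTq q hqP, addAt_ne _ _ _ hqp]

theorem body0L_sound : SndL S G B 0 (Dirty B 0) (Body0L (G := G) S) := by
  intro sup act P _ _ _ R R' l h
  obtain ⟨a, a', R₁, R₂, l₁, l₂, l₃, h₁, h₂, h₃, hll⟩ := h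
  exact ⟨a, S.V0 a, a', R₁, R₂, R', l₁, l₂, l₃, h₁, h₂, h₃, fun _ _ => rfl,
    fun _ => ⟨rfl, rfl, by rw [hll]; simp [wl]⟩⟩

theorem wrapL_sound {t : ℕ} {body : RelL G → RelL G → Reg G → Reg G → List X → Prop}
    (hb : SndL S G B t (Dirty B t) body) : SndL S G B t (DirtyR B t) (WrapL G B t body) := by
  intro sup act P hsup hact hP R R' l h
  unfold WrapL at h
  unfold DirtyR
  split_ifs at h ⊢ with ht
  · obtain ⟨a, a', R₁, R₂, l₁, l₂, l₃, h₁, h₂, h₃, hll⟩ := h
    obtain ⟨b, v, b', S₁, S₂, S₃, m₁, m₂, m₃, ⟨rfl, rfl, rfl⟩, g₂, ⟨rfl, rfl, rfl⟩, _, hc⟩ :=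
      hb _ _ P (loc_cstSupL a P) hact hP _ _ _ h₂
    obtain ⟨rfl, rfl, hl₂⟩ := hc rfl
    exact ⟨_, _, a', _, _, R', l₁, m₂, l₃, h₁, g₂, h₃, fun _ _ => rfl,
      fun _ => ⟨rfl, rfl, by rw [hll, hl₂]; simp⟩⟩
  · exact hb _ _ P hsup hact hP _ _ _ h

theorem bodyL_sound (hB : 1 ≤ B) (t : ℕ) : SndL S G B t (Dirty B t) (BodyL S G B t) := by
  induction t with
  | zero => exact body0L_sound
  | succ t ih => exact bodySL_sound (pos_notMem_dirty hB t) rfl (wrapL_sound ih)

theorem runL_sound (hB : 1 ≤ B) (t : ℕ) : SndL S G B t (DirtyR B t) (RunL S G B t) :=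
  wrapL_sound (bodyL_sound hB t)

/-- The last action: a test. -/
def testActL (G : Gadget X) (acc : X → Prop) : RelL G := fun R v R' l => acc v ∧ R' = R ∧ l = []

theorem loc_testActL (acc : X → Prop) (P : Set ℕ) : LocL P (testActL G acc) := by
  constructor
  · rintro R x R' l ⟨_, rfl, rfl⟩ q _
    rfl
  · rintro R x R' l T ⟨h0, rfl, rfl⟩ h
    refine ⟨h0, ?_, rfl⟩
    funext q
    by_cases hq : q ∈ P
    · simp [hq, h q hq]
    · simp [hq]

/-- In a completed computation the list of the guesses is determined. -/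
theorem bodyL_unique (hB : 1 ≤ B) (t : ℕ) (x : X) (acc : X → Prop) (R R' : Reg G) (l : List X)
    (h : BodyL S G B t (cstSupL x) (testActL G acc) R R' l) :
    acc (S.val t x) ∧ R' = R ∧ l = (wl S t).1 x ++ (wl S t).2 x := by
  obtain ⟨a, v, a', S₁, S₂, S₃, l₁, l₂, l₃, ⟨rfl, rfl, rfl⟩, ⟨hv, rfl, rfl⟩, ⟨rfl, rfl, rfl⟩,
    _, hc⟩ := bodyL_sound hB t _ _ ∅ (loc_cstSupL x ∅) (loc_testActL acc ∅)
      (fun q hq => absurd hq id) _ _ _ h
  obtain ⟨rfl, rfl, hl⟩ := hc rfl
  exact ⟨hv, rfl, by rw [hl]; simp⟩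

end

end Pool.Agent.Lib.MP_9277c3_lc.NS
end

section
/-!
# Uniqueness of the guesses

The strong form of the soundness of `Flow.lean`: if the computation does not fail then the stream
begins with a list which depends only on the scheme and on the argument.
-/
namespace Pool.Agent.Lib.MP_9277c3_lc.NS

/-- The stream `g` begins with the list `l`, and `g'` is the rest. -/
def Takes {X γ : Type} (nxt : γ → X × γ) : γ → List X → γ → Prop
  | g, [], g' => g' = g
  | g, s :: l, g' => (nxt g).1 = s ∧ Takes nxt (nxt g).2 l g'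

theorem Takes.append {X γ : Type} {nxt : γ → X × γ} {l l' : List X} : ∀ {g g' g'' : γ},
    Takes nxt g l g' → Takes nxt g' l' g'' → Takes nxt g (l ++ l') g'' := by
  induction l with
  | nil => rintro g g' g'' rfl h; exact h
  | cons s l ih => exact fun h h' => ⟨h.1, ih h.2 h'⟩

/-- Soundness with uniqueness: a computation which does not fail has a true final value, and its
guesses are the list `w1 T x ++ w2 T x`. -/
def SpecFlowU : Prop := ∀ (X γ : Type) (P : Par X γ) (st : St P.G γ), 1 ≤ P.B → 1 ≤ P.S.K →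
  IsTop P.B P.T → (P.body P.T st).fail = false →
  st.fail = false ∧ P.acc (P.S.val P.T (st.cl P.T)) ∧
    Takes P.nxt st.u ((wl P.S P.T).1 (st.cl P.T) ++ (wl P.S P.T).2 (st.cl P.T)) (P.body P.T st).u

end Pool.Agent.Lib.MP_9277c3_lc.NS
end

section
/-!
# Soundness of the functions of `Flow.lean`, with the list of the guesses
-/
set_option autoImplicit false

namespace Pool.Agent.Lib.MP_9277c3_lc.NS

open Classical

namespace FlowM

variable {X γ : Type} (P : Par X γ)

/-- The relation of the action of level `t`, if the round of the level above is `c`. -/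
noncomputable def ActRL (t c : ℕ) (τ : ZMod P.G.r) : RelL P.G :=
  if t = P.T then testActL P.G P.acc
  else if c % 2 = 0 then ActSL P.S P.G (pos P.B (t + 1)) (c / 2) τ
  else ActCL P.S P.G (pos P.B (t + 1)) (c / 2) τ (cnt (P.S.K - (c / 2 + 1)))

/-- The relation of the argument for the body of level `t`. -/
def SupRL (t c : ℕ) (a : X) : RelL P.G :=
  if IsTop P.B t then cstSupL a else SupUL P.S P.G (pos P.B (t + 1)) (c / 2)

theorem actRL_even {t c j : ℕ} (h : t ≠ P.T) (hc : c = 2 * j) (τ : ZMod P.G.r) :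
    ActRL P t c τ = ActSL P.S P.G (pos P.B (t + 1)) j τ := by
  unfold ActRL
  rw [if_neg h, if_pos (by omega), show c / 2 = j by omega]

theorem actRL_odd {t c j : ℕ} (h : t ≠ P.T) (hc : c = 2 * j + 1) (τ : ZMod P.G.r) :
    ActRL P t c τ = ActCL P.S P.G (pos P.B (t + 1)) j τ (cnt (P.S.K - (j + 1))) := by
  unfold ActRL
  rw [if_neg h, if_neg (by omega), show c / 2 = j by omega]

theorem use_takes (p j : ℕ) (st : St P.G γ) :
    Takes P.nxt st.u [(P.use p j st).1] (P.use p j st).2.u := ⟨rfl, rfl⟩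

theorem store_u (t j : ℕ) (s : X) (st : St P.G γ) : (P.store t j s st).u = st.u := rfl

theorem check_u (t j n : ℕ) (s : X) (st : St P.G γ) : (P.check t j n s st).u = st.u := rfl

theorem actL_sound (t : ℕ) (v : X) (st : St P.G γ) (h : (P.act t v st).fail = false) :
    st.fail = false ∧ ∃ l, Takes P.nxt st.u l (P.act t v st).u ∧
      ActRL P t (st.rd (t + 1)) ((P.act t v st).tau (t + 1) (st.rd (t + 1) / 2 + 1))
        st.R v (P.act t v st).R l := by
  by_cases ht : t = P.T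
  · rw [act_top P ht] at h ⊢
    obtain ⟨h1, h2⟩ := orFail_false P h
    refine ⟨h1, [], rfl, ?_⟩
    unfold ActRL
    rw [if_pos ht]
    exact ⟨by simpa using h2, rfl, rfl⟩
  · by_cases hc : st.rd (t + 1) % 2 = 0
    · rw [act_even P ht v st hc] at h ⊢
      refine ⟨h, [(P.use (pos P.B (t + 1)) (st.rd (t + 1) / 2) st).1], use_takes P _ _ st, ?_⟩
      rw [actRL_even P ht (j := st.rd (t + 1) / 2) (by omega), store_tau_self]
      refine ⟨(P.use (pos P.B (t + 1)) (st.rd (t + 1) / 2) st).1, ?_, rfl, rfl⟩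
      rw [use_R, addAt_ne' _ _ _ (by omega)]
    · rw [act_odd P ht v st hc] at h ⊢
      obtain ⟨h1, h2⟩ := orFail_false P (b := decide (P.G.ev (P.S.upd (st.rd (t + 1) / 2)
        (P.use (pos P.B (t + 1)) (st.rd (t + 1) / 2) st).1 v)
        ((P.use (pos P.B (t + 1)) (st.rd (t + 1) / 2) st).2.R (pos P.B (t + 1))
          (st.rd (t + 1) / 2 + 1)) ≠ 0)) h
      refine ⟨h1, [(P.use (pos P.B (t + 1)) (st.rd (t + 1) / 2) st).1], use_takes P _ _ st, ?_⟩
      rw [actRL_odd P ht (j := st.rd (t + 1) / 2) (by omega)]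
      refine ⟨(P.use (pos P.B (t + 1)) (st.rd (t + 1) / 2) st).1, ?_, rfl, rfl⟩
      rw [use_R, addAt_ne' _ _ _ (by omega)] at h2
      simpa using h2

theorem supPL_sound (t : ℕ) (st : St P.G γ) :
    ∃ l, Takes P.nxt st.u l (P.supP t st).2.u ∧
      SupUL P.S P.G (pos P.B (t + 1)) (st.rd (t + 1) / 2) st.R (P.supP t st).1
        (P.supP t st).2.R l :=
  ⟨_, use_takes P _ _ st, (P.use (pos P.B (t + 1)) (st.rd (t + 1) / 2) st).1, rfl, rfl, rfl⟩

theorem supL_sound (t : ℕ) (st : St P.G γ) :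
    ∃ l, Takes P.nxt st.u l (P.sup t st).2.u ∧
      SupRL P t (st.rd (t + 1)) (st.cl t) st.R (P.sup t st).1 (P.sup t st).2.R l := by
  unfold Par.sup SupRL
  split_ifs
  · exact ⟨[], rfl, rfl, rfl, rfl⟩
  · exact supPL_sound P t st

/-- Soundness of a function for the body of level `t`. -/
def SBL (t : ℕ) (f : St P.G γ → St P.G γ)
    (ρ : RelL P.G → RelL P.G → Reg P.G → Reg P.G → List X → Prop) : Prop :=
  ∀ st, (f st).fail = false → st.fail = false ∧ ∃ l, Takes P.nxt st.u l (f st).u ∧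
    ρ (SupRL P t (st.rd (t + 1)) (st.cl t))
      (ActRL P t (st.rd (t + 1)) ((f st).tau (t + 1) (st.rd (t + 1) / 2 + 1))) st.R (f st).R l

/-- Soundness of a function for a run of level `t`. -/
def SRL (t : ℕ) (f : St P.G γ → St P.G γ)
    (ρ : RelL P.G → RelL P.G → Reg P.G → Reg P.G → List X → Prop) : Prop :=
  ∀ st, (f st).fail = false → st.fail = false ∧ ∃ l, Takes P.nxt st.u l (f st).u ∧
    ρ (SupUL P.S P.G (pos P.B (t + 1)) (st.rd (t + 1) / 2))
      (ActRL P t (st.rd (t + 1)) ((f st).tau (t + 1) (st.rd (t + 1) / 2 + 1))) st.R (f st).R l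

theorem body0L_ok : SBL P 0 P.body0 (Body0L P.S) := by
  intro st h
  unfold Par.body0 at h ⊢
  set st0 := (P.sup 0 st).2 with h0
  set st1 := P.act 0 (P.S.V0 (P.sup 0 st).1) st0 with h1
  obtain ⟨a1, a2, a3, a4⟩ := sup_frame P 0 st
  obtain ⟨b1, b2, b3⟩ := act_frame P 0 (P.S.V0 (P.sup 0 st).1) st0
  obtain ⟨c1, c2, c3, c4⟩ := sup_frame P 0 st1
  rw [c4] at h
  obtain ⟨h2, l₂, u₂, h3⟩ := actL_sound P 0 _ _ h
  rw [a4] at h2
  obtain ⟨l₁, u₁, h4⟩ := supL_sound P 0 st
  obtain ⟨l₃, u₃, h5⟩ := supL_sound P 0 st1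
  refine ⟨h2, l₁ ++ l₂ ++ l₃, (u₁.append u₂).append u₃, (P.sup 0 st).1, (P.sup 0 st1).1,
    st0.R, st1.R, l₁, l₂, l₃, h4, ?_, ?_, rfl⟩
  · rw [a1] at h3
    rw [c3]
    exact h3
  · rw [b1, b2, a1, a2] at h5
    exact h5

theorem wrapL_ok {t : ℕ} {f : St P.G γ → St P.G γ}
    {ρ : RelL P.G → RelL P.G → Reg P.G → Reg P.G → List X → Prop}
    (hF : ∀ st, Fr P t st (f st)) (hf : SBL P t f ρ) :
    SRL P t (P.wrap t f) (WrapL P.G P.B t ρ) := by
  intro st h
  unfold Par.wrap at h ⊢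
  unfold WrapL
  by_cases ht : IsTop P.B t
  · simp only [if_pos ht] at h ⊢
    set st1 := P.setCl (P.supP t st).2 t (P.supP t st).1 with hst1
    obtain ⟨c1, c2, c3, c4⟩ := supP_frame P t (f st1)
    rw [c4] at h
    obtain ⟨h1, l₂, u₂, h2⟩ := hf st1 h
    have F := hF st1
    obtain ⟨l₁, u₁, h4⟩ := supPL_sound P t st
    obtain ⟨l₃, u₃, h5⟩ := supPL_sound P t (f st1)
    refine ⟨h1, l₁ ++ l₂ ++ l₃, (Takes.append u₁ u₂).append u₃, (P.supP t st).1,
      (P.supP t (f st1)).1, (P.supP t st).2.R, (f st1).R, l₁, l₂, l₃, h4, ?_, ?_, rfl⟩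
    · have e1 : st1.cl t = (P.supP t st).1 := by
        show (if t = t then (P.supP t st).1 else _) = _
        rw [if_pos rfl]
      have e2 : st1.rd = st.rd := rfl
      have e3 : SupRL P t (st1.rd (t + 1)) (st1.cl t) = cstSupL (P.supP t st).1 := by
        unfold SupRL
        rw [if_pos ht, e1]
      rw [e3, e2] at h2
      rw [c3]
      exact h2
    · rw [F.rd _ le_rfl] at h5
      exact h5
  · simp only [if_neg ht] at h ⊢
    obtain ⟨h1, l, u, h2⟩ := hf st h
    refine ⟨h1, l, u, ?_⟩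
    unfold SupRL at h2
    rw [if_neg ht] at h2
    exact h2

theorem segL_ok {t : ℕ} (htT : t ≠ P.T) {f : St P.G γ → St P.G γ}
    {ρ : RelL P.G → RelL P.G → Reg P.G → Reg P.G → List X → Prop}
    (hF : ∀ st, FrR P t st (f st)) (hf : SRL P t f ρ) :
    ∀ i j st, i + j = P.S.K → (P.seg f (t + 1) i j st).fail = false →
      st.fail = false ∧ ∃ l, Takes P.nxt st.u l (P.seg f (t + 1) i j st).u ∧
        SegL P.S ρ (pos P.B (t + 1))
        (ActRL P (t + 1) (st.rd (t + 1 + 1))
          ((P.seg f (t + 1) i j st).tau (t + 1 + 1) (st.rd (t + 1 + 1) / 2 + 1)))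
        i j st.R (P.seg f (t + 1) i j st).R l := by
  intro i
  induction i with
  | zero =>
    intro j st _ h
    have e : P.seg f (t + 1) 0 j st = P.act (t + 1) (P.S.out (P.use (pos P.B (t + 1)) j st).1)
      (P.use (pos P.B (t + 1)) j st).2 := rfl
    rw [e] at h ⊢
    obtain ⟨h1, l, u, h2⟩ := actL_sound P (t + 1) _ _ h
    exact ⟨h1, [(P.use (pos P.B (t + 1)) j st).1] ++ l, (use_takes P _ _ st).append u,
      (P.use (pos P.B (t + 1)) j st).1, l, h2, rfl⟩
  | succ i ih =>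
    intro j st hij h
    set st1 := P.setRd st (t + 1) (2 * j) with h1
    set st2 := f st1 with h2
    set st3 := P.seg f (t + 1) i (j + 1) st2 with h3
    set st4 := P.setRd st3 (t + 1) (2 * j + 1) with h4
    have e : P.seg f (t + 1) (i + 1) j st = f st4 := rfl
    rw [e] at h ⊢
    have F2 := hF st1
    have F5 := hF st4
    obtain ⟨F3, F3'⟩ := seg_frame P hF i (j + 1) st2
    have r1 : st1.rd (t + 1) = 2 * j := setRd_rd_self P st (t + 1) (2 * j)
    have r4 : st4.rd (t + 1) = 2 * j + 1 := setRd_rd_self P st3 (t + 1) (2 * j + 1)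
    have r1' : st1.rd (t + 1 + 1) = st.rd (t + 1 + 1) := setRd_rd_ne P st _ (by omega)
    obtain ⟨g4, l₃, u₃, k4⟩ := hf st4 h
    obtain ⟨g2, l₂, u₂, k3⟩ := ih (j + 1) st2 (by omega) g4
    obtain ⟨g1, l₁, u₁, k2⟩ := hf st1 g2
    refine ⟨g1, l₁ ++ l₂ ++ l₃, (Takes.append u₁ u₂).append u₃, st2.tau (t + 1) (j + 1), st2.R,
      st3.R, l₁, l₂, l₃, ?_, ?_, ?_, rfl⟩
    · rw [r1, actRL_even P htT (j := j) rfl, show 2 * j / 2 = j by omega] at k2
      exact k2
    · have e1 : st2.rd (t + 1 + 1) = st.rd (t + 1 + 1) := by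
        rw [F2.rd _ (by omega), r1']
      have e2 : (f st4).tau (t + 1 + 1) = st3.tau (t + 1 + 1) := by
        funext j'
        rw [F5.tau1 _ (by omega)]
        rfl
      rw [e2, ← e1]
      exact k3
    · rw [r4, actRL_odd P htT (j := j) rfl, show (2 * j + 1) / 2 = j by omega] at k4
      have e3 : (f st4).tau (t + 1) (j + 1) = st2.tau (t + 1) (j + 1) := by
        rw [F5.tau2 _ (Or.inr (by rw [r4]; omega))]
        show st3.tau (t + 1) (j + 1) = _
        rw [F3' (j + 1) le_rfl]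
      have e4 : P.S.K - (j + 1) = i := by omega
      rw [e3, e4] at k4
      exact k4

theorem bodySL_ok {t : ℕ} (htT : t ≠ P.T) {f : St P.G γ → St P.G γ}
    {ρ : RelL P.G → RelL P.G → Reg P.G → Reg P.G → List X → Prop}
    (hF : ∀ st, FrR P t st (f st)) (hf : SRL P t f ρ) :
    SBL P (t + 1) (P.bodyS f (t + 1)) (BodySL P.S ρ (pos P.B (t + 1))) := by
  intro st h
  unfold Par.bodyS at h ⊢
  simp only at h ⊢
  set st0 := (P.sup (t + 1) st).2 with h0
  set st1 := P.store (t + 1) 0 (P.S.ini (P.sup (t + 1) st).1) st0 with h1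
  set st2 := P.seg f (t + 1) P.S.K 0 st1 with h2
  set st3 := (P.sup (t + 1) st2).2 with h3
  obtain ⟨a1, a2, a3, a4⟩ := sup_frame P (t + 1) st
  obtain ⟨F2, F2'⟩ := seg_frame P hF P.S.K 0 st1
  obtain ⟨c1, c2, c3, c4⟩ := sup_frame P (t + 1) st2
  obtain ⟨d1, d2, d3⟩ := check_frame P (t + 1) 0 (cnt P.S.K) (P.S.ini (P.sup (t + 1) st2).1) st3
  have b1 : st1.rd = st0.rd := rfl
  have b2 : st1.cl = st0.cl := rfl
  obtain ⟨h4, h5⟩ := orFail_false P (st := st3) (b := decide (P.G.ev (P.S.ini (P.sup (t + 1) st2).1)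
    (st3.R (pos P.B (t + 1)) 0) ≠ 0)) h
  rw [c4] at h4
  obtain ⟨h6, l₂, u₂, h7⟩ := segL_ok P htT hF hf P.S.K 0 st1 (by omega) h4
  have h6' : st.fail = false := by
    rw [← a4]
    exact h6
  obtain ⟨l₁, u₁, h8⟩ := supL_sound P (t + 1) st
  obtain ⟨l₃, u₃, h9⟩ := supL_sound P (t + 1) st2
  refine ⟨h6', l₁ ++ l₂ ++ l₃, (Takes.append u₁ u₂).append u₃, (P.sup (t + 1) st).1,
    (P.sup (t + 1) st2).1, st1.tau (t + 1) 0, st0.R, st2.R,
    st3.R, l₁, l₂, l₃, h8, ?_, ?_, ?_, by simpa using h5, ?_, rfl⟩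
  · rw [h1, store_tau_self]
  · rw [d3, c3]
    have e1 : st1.rd (t + 1 + 1) = st.rd (t + 1 + 1) := by rw [b1, a1]
    have e2 : st1.R = addAt st0.R (pos P.B (t + 1)) 0 (-P.G.cst (st1.tau (t + 1) 0)) := by
      rw [h1, store_tau_self]
      rfl
    rw [e1] at h7
    rw [← e2]
    exact h7
  · rw [F2.rd _ le_rfl, F2.cl _ le_rfl, b1, b2, a1, a2] at h9
    exact h9
  · have e3 : st3.tau (t + 1) 0 = st1.tau (t + 1) 0 := by rw [c3, F2' 0 le_rfl]
    rw [← e3]
    rfl

theorem bodyL_ok (t : ℕ) (ht : t ≤ P.T) : SBL P t (P.body t) (BodyL P.S P.G P.B t) := by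
  induction t with
  | zero => exact body0L_ok P
  | succ t ih =>
    exact bodySL_ok P (by omega) (wrap_frame P (body_frame P t))
      (wrapL_ok P (body_frame P t) (ih (by omega)))

end FlowM

/-- Soundness with uniqueness. -/
theorem specFlowU : SpecFlowU := by
  intro X γ P st hB _ hT hfail
  obtain ⟨h1, l, u, h⟩ := FlowM.bodyL_ok P P.T le_rfl st hfail
  have e1 : FlowM.SupRL P P.T (st.rd (P.T + 1)) (st.cl P.T) = cstSupL (st.cl P.T) := by
    unfold FlowM.SupRL
    rw [if_pos hT]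
  rw [e1] at h
  unfold FlowM.ActRL at h
  rw [if_pos rfl] at h
  obtain ⟨k1, k2, k3⟩ := bodyL_unique hB P.T (st.cl P.T) P.acc _ _ _ h
  refine ⟨h1, k1, ?_⟩
  rw [← k3]
  exact u

end Pool.Agent.Lib.MP_9277c3_lc.NS
end

section
/-!
# The stream of the guesses is unique

The source of guesses which reads the binary digits of numbers below `N = 2 ^ k` is a bijection, so
that two streams with the same rest for which the engine does not fail are equal.
-/
namespace Pool.Agent.Lib.MP_9277c3_lc.NS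

open Pool.Agent.Lib.MP_9277c3_lc.NC

/-- The stream is determined by a list which it begins with and by its rest. -/
theorem Takes.inj {X γ : Type} {nxt : γ → X × γ} (hinj : Function.Injective nxt) :
    ∀ {l : List X} {g g' r : γ}, Takes nxt g l r → Takes nxt g' l r → g = g'
  | [], _, _, _, h, h' => h.symm.trans h'
  | s :: l, g, g', r, h, h' => by
    have h1 : (nxt g).2 = (nxt g').2 := Takes.inj hinj h.2 h'.2
    exact hinj (Prod.ext (h.1.trans h'.1.symm) h1)

/-- Two streams with the same rest for which the engine does not fail are equal. -/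
theorem flow_uniq {X γ : Type} (P : Par X γ) (st : St P.G γ) (hB : 1 ≤ P.B) (hK : 1 ≤ P.S.K)
    (hT : IsTop P.B P.T) (hinj : Function.Injective P.nxt) {u u' : γ}
    (h : (P.body P.T { st with u := u }).fail = false)
    (h' : (P.body P.T { st with u := u' }).fail = false)
    (hr : (P.body P.T { st with u := u }).u = (P.body P.T { st with u := u' }).u) : u = u' := by
  obtain ⟨_, _, h1⟩ := specFlowU X γ P { st with u := u } hB hK hT h
  obtain ⟨_, _, h2⟩ := specFlowU X γ P { st with u := u' } hB hK hT h'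
  rw [← hr] at h2
  exact Takes.inj hinj h1 h2

/-- The source of guesses below `N`: the number and the rest of the bits. -/
def nxtB (N : ℕ) [NeZero N] (u : ℕ → Bool) : Fin N × (ℕ → Bool) :=
  (⟨gval N u, gval_lt (NeZero.pos N) u⟩, grest N u)

theorem nxtB_surj (N : ℕ) [NeZero N] (v : Fin N) (g : ℕ → Bool) : ∃ g', nxtB N g' = (v, g) := by
  obtain ⟨u, h1, h2⟩ := guess_surj v.2 g
  exact ⟨u, Prod.ext (Fin.ext h1) h2⟩

theorem nxtB_inj {N k : ℕ} [NeZero N] (hN : N = 2 ^ k) : Function.Injective (nxtB N) := by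
  intro u u' h
  subst hN
  have h1 : gval (2 ^ k) u = gval (2 ^ k) u' := congrArg (fun p => (p.1 : ℕ)) h
  have h2 : grest (2 ^ k) u = grest (2 ^ k) u' := congrArg Prod.snd h
  exact guess_inj h1 h2

end Pool.Agent.Lib.MP_9277c3_lc.NS
end
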