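import Pool.Agent.Lib.MP_9277c3_lc.NS.CtlOK
import Pool.Agent.Lib.MP_9277c3_lc.NS.FlowOK
import Pool.Agent.Lib.MP_9277c3_lc.NS.Uniq
import Pool.Agent.Lib.MP_9277c3_lc.NS.Ops
import Pool.Agent.Lib.MP_9277c3_lc.NC.Time

/-!
# The machine for a recursion scheme

If, for every input `x`, the operations of the engine are executed by fixed programs, then the
language of the inputs for which the value of the scheme is accepted is accepted by an unambiguous
nondeterministic Turing machine.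
-/

namespace Pool.Agent.Lib.MP_9277c3_lc.NS

open CM NC

instance : Finite CR := by
  refine Finite.of_injective (fun d : CR => match d with
    | .lev => (0 : Fin 13) | .jj => 1 | .lp => 2 | .ji => 3 | .q => 4 | .e => 5 | .a => 6
    | .v => 7 | .w => 8 | .cn => 9 | .cB => 10 | .cT => 11 | .cK => 12) ?_
  intro i j h
  cases i <;> cases j <;> first | rfl | exact absurd h (by decide)

instance : Finite CF := by
  refine Finite.of_injective (fun d : CF => match d with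
    | .seg => (0 : Fin 2) | .run => 1) ?_
  intro a b h
  cases a <;> cases b <;> first | rfl | exact absurd h (by decide)

/-- The engine for one input `x`: the parameter, the initial state, and the correctness of the
programs for the operations and of the initial program. -/
structure Inst {α R F : Type} (x : List α) (cc : Cell α → ℕ) (A k : ℕ) (body : F → NStmt R F)
    (ρ : CR → R) (op : OF → NStmt R F) (a₀ : NStmt R F) (fl : R) (L : Prop) where
  X : Type
  en : X → ℕ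
  P : Par X (ℕ → Bool)
  Rep : (R → ℕ) → St P.G (ℕ → Bool) → Prop
  st₀ : St P.G (ℕ → Bool)
  k₀ : ℕ
  congr : ∀ s s' st, Rep s st → (∀ r, (∀ c, ρ c ≠ r) → s' r = s r) → Rep s' st
  rfl' : ∀ s st, Rep s st → s fl = st.fail.toNat
  ops : Ops x cc A body ρ en P Rep op k₀
  hA : P.T + 2 * P.S.K + 10 < A
  hk : k₀ + P.T * (P.S.K + 2) ≤ k
  hB : 1 ≤ P.B
  hK : 1 ≤ P.S.K
  hT : IsTop P.B P.T
  inj : Function.Injective P.nxt
  surj : ∀ y g, ∃ g', P.nxt g' = (y, g)
  init : ∀ u, ∃ s c, RunN x cc A body k a₀ (fun _ => 0) u s u ∧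
    Rep s { st₀ with u := u } ∧ (∀ r, s (ρ r) = c r) ∧ c .lev = P.T ∧ Cst P c
  fail₀ : st₀.fail = false
  acc : L ↔ P.acc (P.S.val P.T (st₀.cl P.T))

section

variable {α R F : Type}

/-- The whole program. -/
def mainC (ρ : CR → R) (φ : CF → F) (op : OF → NStmt R F) (a₀ : NStmt R F) (fl : R) :
    NStmt R F :=
  sqN [a₀, bodyC ρ φ op, asg (ρ .q) (1 - Exp.var fl)]

theorem Inst.run {x : List α} {cc : Cell α → ℕ} {A k : ℕ} {body : F → NStmt R F} {ρ : CR → R}
    {op : OF → NStmt R F} {a₀ : NStmt R F} {fl : R} {L : Prop}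
    (I : Inst x cc A k body ρ op a₀ fl L) (hρ : Function.Injective ρ) {φ : CF → F}
    (hseg : body (φ .seg) = segC ρ φ op) (hrun : body (φ .run) = runC ρ φ op) (u : ℕ → Bool) :
    ∃ t, RunN x cc A body k (mainC ρ φ op a₀ fl) (fun _ => 0) u t
        (I.P.body I.P.T { I.st₀ with u := u }).u ∧
      (t (ρ .q) ≠ 0 ↔ (I.P.body I.P.T { I.st₀ with u := u }).fail = false) := by
  have hA := I.hA
  obtain ⟨s, c, h1, h2, h3, h4, h5⟩ := I.init u
  have h6 := main_tr hρ I.congr I.ops I.hA hseg hrun I.hT I.P.T le_rfl c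
    { I.st₀ with u := u } h5 h4 (fun h => absurd h (lt_irrefl _))
  obtain ⟨s', c', h7, h8, -, -⟩ := h6 s h2 h3
  have h9 := I.rfl' _ _ h8
  refine ⟨_, RunN.cons h1 (RunN.cons (h7.mono I.hk) (RunN.set (1 - s' fl) rfl (by omega)
    RunN.nil)), ?_⟩
  rw [upd_self, h9]
  generalize (I.P.body I.P.T { I.st₀ with u := u }).fail = y
  cases y <;> simp

/-- **The machine for a recursion scheme.** -/
theorem exists_machine [Finite α] [Finite R] [Finite F] (cc : Cell α → ℕ) {body : F → NStmt R F}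
    {ρ : CR → R} (hρ : Function.Injective ρ) {φ : CF → F} {op : OF → NStmt R F}
    (hseg : body (φ .seg) = segC ρ φ op) (hrun : body (φ .run) = runC ρ φ op)
    (a₀ : NStmt R F) (fl : R) :
    ∃ c : ℕ, ∀ (L : List α → Prop) (A k : ℕ → ℕ), (∀ n, 2 ≤ A n) →
      (∀ x, Nonempty (Inst x cc (A x.length) (k x.length) body ρ op a₀ fl (L x))) →
      ∃ M : NTM α, (M.AcceptsIn L fun n => c * (Nat.log 2 (A n) + k n + 1)) ∧
        M.Unambiguous := by
  obtain ⟨c, hc⟩ := exists_UNTM_of_run cc body (mainC ρ φ op a₀ fl) (ρ .q)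
  refine ⟨c, fun L A k hA hI => ?_⟩
  obtain ⟨M, hM, hU⟩ := hc L A k hA (fun x u => by
    obtain ⟨I⟩ := hI x
    obtain ⟨t, h1, -⟩ := I.run hρ hseg hrun u
    exact ⟨t, _, h1⟩) (fun x => by
    obtain ⟨I⟩ := hI x
    rw [I.acc, ← specFlow I.X (ℕ → Bool) I.P I.st₀ I.hB I.hK I.hT I.fail₀ I.surj ⟨fun _ => false⟩]
    constructor
    · rintro ⟨u, hu⟩
      obtain ⟨t, h1, h2⟩ := I.run hρ hseg hrun u
      exact ⟨u, t, _, h1, h2.2 hu⟩
    · rintro ⟨u, t, v, h1, h2⟩
      obtain ⟨t', h3, h4⟩ := I.run hρ hseg hrun u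
      obtain ⟨rfl, rfl⟩ := h1.det h3
      exact ⟨u, h4.1 h2⟩)
  refine ⟨M, hM, hU ?_⟩
  intro x u u' t t' h1 h2 h3 h4
  obtain ⟨I⟩ := hI x
  obtain ⟨r, g1, g2⟩ := I.run hρ hseg hrun u
  obtain ⟨r', g1', g2'⟩ := I.run hρ hseg hrun u'
  obtain ⟨rfl, e1⟩ := h1.det g1
  obtain ⟨rfl, e2⟩ := h2.det g1'
  exact flow_uniq I.P I.st₀ I.hB I.hK I.hT I.inj (g2.1 h3) (g2'.1 h4) (e1.symm.trans e2)

end

/-! ### The operations of `Ops.lean` -/

instance : Finite Rd := by
  refine Finite.of_injective (fun d : Rd => match d with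
    | .W => (0 : Fin 14) | .s => 1 | .c => 2 | .e => 3 | .n => 4 | .t => 5 | .cb => 6
    | .cr => 7 | .cg => 8 | .cpg => 9 | .y => 10 | .z => 11 | .q => 12 | .k => 13) ?_
  intro i j h
  cases i <;> cases j <;> first | rfl | exact absurd h (by decide)

instance {Y : Type} [Finite Y] : Finite (OL Y) := by
  refine Finite.of_injective (β := Fin 11 ⊕ Rd ⊕ Y) (fun d : OL Y => match d with
    | .AR => Sum.inl 0 | .AT => Sum.inl 1 | .AD => Sum.inl 2 | .AC => Sum.inl 3
    | .fl => Sum.inl 4 | .rB => Sum.inl 5 | .rT => Sum.inl 6 | .rN => Sum.inl 7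
    | .rW => Sum.inl 8 | .pw => Sum.inl 9 | .i => Sum.inl 10
    | .loc r => Sum.inr (Sum.inl r) | .ex y => Sum.inr (Sum.inr y)) ?_
  intro i j h
  cases i <;> cases j <;> simp_all

section

variable {α Y : Type}

/-- The procedures. -/
def bodyO (K : ℕ) (sch : OF → NStmt (CR ⊕ OL Y) CF) : CF → NStmt (CR ⊕ OL Y) CF
  | .seg => segC Sum.inl id (opO K sch)
  | .run => runC Sum.inl id (opO K sch)

/-- The engine for one input `x`, with the operations of `Ops.lean`. -/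
structure InstO (x : List α) (cc : Cell α → ℕ) (A k K : ℕ) (sch : OF → NStmt (CR ⊕ OL Y) CF)
    (a₀ : NStmt (CR ⊕ OL Y) CF) (L : Prop) where
  b : ℕ
  g : ℕ
  B : ℕ
  T : ℕ
  hN : 0 < b ^ g
  S : Scheme (Fin (b ^ g))
  acc : Fin (b ^ g) → Prop
  pv : Y → ℕ
  x₀ : Fin (b ^ g)
  k₀ : ℕ
  hK : S.K = K
  hK1 : 1 ≤ S.K
  bnd : Bnd S.K B T b g A
  two : ∃ j, b ^ g = 2 ^ j
  hA : T + 2 * S.K + 10 < A
  hk : k₀ + T * (S.K + 2) ≤ k
  hT : IsTop B T
  sops : SchOps x cc A (bodyO K sch) (mkP S B T acc hN) (RepO pv S.K B T) sch k₀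
  init : ∀ u, ∃ (c : CR → ℕ) (u' : ℕ → Bool), RunN x cc A (bodyO K sch) k a₀ (fun _ => 0) u
    (Sum.elim c (lay pv S.K B T (st0 hN T x₀ u'))) u ∧
    c .lev = T ∧ c .cB = B ∧ c .cT = T ∧ c .cK = S.K
  acc_iff : L ↔ acc (S.val T x₀)

/-- The stream does not matter for the registers. -/
theorem lay_u {b g : ℕ} (pv : Y → ℕ) (K B T : ℕ)
    {st st' : St (gad (le_refl (b ^ g))) (ℕ → Bool)} (hR : st'.R = st.R) (hτ : st'.tau = st.tau)
    (hr : st'.rd = st.rd) (hc : st'.cl = st.cl) (hf : st'.fail = st.fail) :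
    lay pv K B T st' = lay pv K B T st := by
  have e : st' = { st with u := st'.u } := by
    cases st
    cases st'
    simp_all
  rw [e]
  rfl

/-- The engine with the operations of `Ops.lean`. -/
noncomputable def InstO.inst {x : List α} {cc : Cell α → ℕ} {A k K : ℕ}
    {sch : OF → NStmt (CR ⊕ OL Y) CF} {a₀ : NStmt (CR ⊕ OL Y) CF} {L : Prop}
    (I : InstO x cc A k K sch a₀ L) :
    Inst x cc A k (bodyO K sch) Sum.inl (opO K sch) a₀ (Sum.inr .fl) L where
  X := Fin (I.b ^ I.g)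
  en := Fin.val
  P := mkP I.S I.B I.T I.acc I.hN
  Rep := RepO I.pv I.S.K I.B I.T
  st₀ := st0 I.hN I.T I.x₀ fun _ => false
  k₀ := I.k₀
  congr := fun _ _ _ h h' => RepO.congr h h'
  rfl' := fun _ _ h => h.1 .fl
  ops := by
    have h := opsO I.bnd I.sops
    have e : opO I.S.K sch = opO K sch := by rw [I.hK]
    rw [e] at h
    exact h
  hA := I.hA
  hk := I.hk
  hB := I.bnd.hB
  hK := I.hK1
  hT := I.hT
  inj := by
    obtain ⟨j, hj⟩ := I.two
    have : NeZero (I.b ^ I.g) := ⟨I.hN.ne'⟩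
    exact nxtB_inj hj
  surj := by
    have : NeZero (I.b ^ I.g) := ⟨I.hN.ne'⟩
    exact nxtB_surj (I.b ^ I.g)
  init := by
    intro u
    obtain ⟨c, u', h1, h2, h3, h4, h5⟩ := I.init u
    refine ⟨_, c, h1, ⟨fun r => ?_, fun t _ => ?_⟩, fun r => rfl, h2, ⟨h3, h4, h5⟩⟩
    · exact congrFun (lay_u I.pv I.S.K I.B I.T rfl rfl rfl rfl rfl) r
    · show 0 < 2 * I.S.K + 2
      omega
  fail₀ := rfl
  acc := by
    have e : (st0 I.hN I.T I.x₀ (fun _ => false)).cl I.T = I.x₀ := if_pos rfl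
    show L ↔ I.acc (I.S.val I.T ((st0 I.hN I.T I.x₀ (fun _ => false)).cl I.T))
    rw [e]
    exact I.acc_iff

/-- **The machine for a recursion scheme**, with the operations of `Ops.lean`. -/
theorem exists_machineO [Finite α] [Finite Y] (cc : Cell α → ℕ) (K : ℕ)
    (sch : OF → NStmt (CR ⊕ OL Y) CF) (a₀ : NStmt (CR ⊕ OL Y) CF) :
    ∃ c : ℕ, ∀ (L : List α → Prop) (A k : ℕ → ℕ), (∀ n, 2 ≤ A n) →
      (∀ x, Nonempty (InstO x cc (A x.length) (k x.length) K sch a₀ (L x))) →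
      ∃ M : NTM α, (M.AcceptsIn L fun n => c * (Nat.log 2 (A n) + k n + 1)) ∧
        M.Unambiguous := by
  obtain ⟨c, hc⟩ := exists_machine (R := CR ⊕ OL Y) (F := CF) cc (body := bodyO K sch)
    (ρ := Sum.inl) Sum.inl_injective (φ := id) (op := opO K sch) rfl rfl a₀ (Sum.inr .fl)
  exact ⟨c, fun L A k hA h => hc L A k hA fun x => (h x).map InstO.inst⟩

end

end Pool.Agent.Lib.MP_9277c3_lc.NS
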