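import Pool.Agent.Lib.MP_9277c3_lc.helper83.Init
import Pool.Agent.Lib.MP_9277c3_lc.NS.Ops

section
/-!
# D5: the parameters and their sizes

Block size and digit base `TP κ n` (a power of two, about `√(log n)`), `ng κ n = 4 * dP κ n` digits,
`nN κ n` values, modulus `nr κ n`, `nW κ n` contents of a register, top level `nT c κ n`, and the
bound `nA c κ n` for all numbers.
-/
namespace Pool.Agent.Lib.MP_9277c3_lc.NS

open CM CL

/-- The number of digits. -/
def ng (κ n : ℕ) : ℕ := 4 * dP κ n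

/-- The modulus. -/
def nr (κ n : ℕ) : ℕ := 6 * ng κ n * TP κ n ^ 2 + 1

/-- The number of values. -/
def nN (κ n : ℕ) : ℕ := TP κ n ^ ng κ n

/-- The number of contents of a register. -/
def nW (κ n : ℕ) : ℕ := nr κ n ^ (ng κ n + 2)

/-- The top level. -/
def nT (c κ n : ℕ) : ℕ := c * (TP κ n * TP κ n) - 1

/-- The bound for all numbers. -/
def nA (c κ n : ℕ) : ℕ := 2 ^ (1000 * (c + 1) * (TP κ n * mP κ n))

section

variable {c κ n : ℕ}

theorem nT_succ (hc : 1 ≤ c) (hκ : 64 ≤ κ) : nT c κ n + 1 = c * (TP κ n * TP κ n) := by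
  have h1 := T_ge (n := n) hκ
  have h2 : 1 ≤ c * (TP κ n * TP κ n) := Nat.one_le_iff_ne_zero.2 (by positivity)
  unfold nT
  omega

theorem nT_mod (hc : 1 ≤ c) (hκ : 64 ≤ κ) : (nT c κ n + 1) % TP κ n = 0 := by
  rw [nT_succ hc hκ, ← Nat.mul_assoc, Nat.mul_mod_left]

theorem nT_div (hc : 1 ≤ c) (hκ : 64 ≤ κ) : (nT c κ n + 1) / TP κ n = c * TP κ n := by
  have h1 := T_ge (n := n) hκ
  rw [nT_succ hc hκ, ← Nat.mul_assoc, Nat.mul_div_cancel _ (by omega)]

theorem nT_ge (hc : 1 ≤ c) (hκ : 64 ≤ κ) : c * mP κ n ≤ nT c κ n := by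
  have h1 := m_lt_T2 (K := κ) (n := n)
  have h2 : c * mP κ n < c * (TP κ n * TP κ n) := Nat.mul_lt_mul_of_pos_left h1 (by omega)
  have h3 := nT_succ (n := n) hc hκ
  omega

theorem nT_le (hc : 1 ≤ c) (hκ : 64 ≤ κ) : nT c κ n + 1 ≤ 4 * c * mP κ n := by
  have h1 := T2_le (n := n) hκ
  rw [nT_succ hc hκ]
  calc c * (TP κ n * TP κ n) ≤ c * (4 * mP κ n) := Nat.mul_le_mul_left _ h1
    _ = 4 * c * mP κ n := by ring

theorem ng_pos (hκ : 64 ≤ κ) : 1 ≤ ng κ n := by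
  have := d_pos (n := n) hκ
  unfold ng
  omega

theorem nN_eq : nN κ n = (TP κ n ^ dP κ n) ^ 4 := by
  rw [nN, ng, ← pow_mul, Nat.mul_comm]

theorem nN_two_pow : nN κ n = 2 ^ (lT κ n * ng κ n) := by
  rw [nN]
  conv_lhs => rw [TP]
  rw [← pow_mul]

theorem nN_le (hκ : 64 ≤ κ) : nN κ n ≤ 2 ^ (8 * mP κ n) := by
  rw [nN_eq]
  calc (TP κ n ^ dP κ n) ^ 4 ≤ (2 ^ (2 * mP κ n)) ^ 4 := Nat.pow_le_pow_left (Q_le_pow hκ) _
    _ = 2 ^ (8 * mP κ n) := by rw [← pow_mul]; congr 1; ring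

theorem nN_ge (hκ : 64 ≤ κ) : (κ * (n + 3)) ^ 20 ≤ nN κ n := by
  have h1 := four_le_Q (n := n) hκ
  rw [nN_eq]
  calc (κ * (n + 3)) ^ 20 = ((κ * (n + 3)) ^ 5) ^ 4 := by rw [← pow_mul]
    _ ≤ (4 * (κ * (n + 3)) ^ 5) ^ 4 := Nat.pow_le_pow_left (by omega) _
    _ ≤ (TP κ n ^ dP κ n) ^ 4 := Nat.pow_le_pow_left h1 _

theorem nr_le (hκ : 64 ≤ κ) : nr κ n ≤ TP κ n ^ 6 := by
  have h1 := d_le_m (n := n) hκ
  have h2 := m_lt_T2 (K := κ) (n := n)
  have h3 := T_ge (n := n) hκ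
  unfold nr ng
  generalize TP κ n = t at *
  have h4 : 24 * dP κ n + 24 ≤ 24 * (t * t) := by omega
  have h5 : 8 * 8 ≤ t * t := Nat.mul_le_mul h3 h3
  calc 6 * (4 * dP κ n) * t ^ 2 + 1 ≤ (24 * dP κ n + 24) * (t * t) := by nlinarith
    _ ≤ 24 * (t * t) * (t * t) := Nat.mul_le_mul_right _ h4
    _ ≤ (t * t) * (t * t) * (t * t) := by gcongr; omega
    _ = t ^ 6 := by ring

theorem one_lt_nr (hκ : 64 ≤ κ) : 1 < nr κ n := by
  have h1 := ng_pos (n := n) hκ
  have h2 := T_ge (n := n) hκ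
  unfold nr
  have : 0 < 6 * ng κ n * TP κ n ^ 2 := by positivity
  omega

theorem T_le_pow (hκ : 64 ≤ κ) : TP κ n ≤ 2 ^ mP κ n :=
  (T_le_m hκ).trans Nat.lt_two_pow_self.le

theorem nW_le (hκ : 64 ≤ κ) : nW κ n ≤ 2 ^ (60 * mP κ n) := by
  unfold nW
  calc nr κ n ^ (ng κ n + 2) ≤ (TP κ n ^ 6) ^ (ng κ n + 2) := Nat.pow_le_pow_left (nr_le hκ) _
    _ = (TP κ n ^ dP κ n) ^ 24 * TP κ n ^ 12 := by
        rw [← pow_mul, ← pow_mul, ← pow_add]
        congr 1
        unfold ng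
        ring
    _ ≤ (2 ^ (2 * mP κ n)) ^ 24 * (2 ^ mP κ n) ^ 12 :=
        Nat.mul_le_mul (Nat.pow_le_pow_left (Q_le_pow hκ) _) (Nat.pow_le_pow_left (T_le_pow hκ) _)
    _ = 2 ^ (60 * mP κ n) := by
        rw [← pow_mul, ← pow_mul, ← pow_add]
        congr 1
        ring

theorem le_nA {k : ℕ} (hk : k ≤ 1000 * (c + 1) * (TP κ n * mP κ n)) : 2 ^ k ≤ nA c κ n :=
  Nat.pow_le_pow_right (by norm_num) hk

theorem m_le_Tm (hκ : 64 ≤ κ) : mP κ n ≤ TP κ n * mP κ n :=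
  Nat.le_mul_of_pos_left _ (by have := T_ge (n := n) hκ; omega)

theorem two_le_nA (hκ : 64 ≤ κ) : 2 ≤ nA c κ n := by
  have h1 := m_le_Tm (n := n) hκ
  have h2 := m_ge (n := n) hκ
  have := le_nA (c := c) (κ := κ) (n := n) (k := 1) (by nlinarith)
  simpa using this

/-- The registers. -/
theorem nW_pow_le (hκ : 64 ≤ κ) : nW κ n ^ (2 * TP κ n * 6) ≤ nA c κ n := by
  calc nW κ n ^ (2 * TP κ n * 6) ≤ (2 ^ (60 * mP κ n)) ^ (2 * TP κ n * 6) :=
        Nat.pow_le_pow_left (nW_le hκ) _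
    _ = 2 ^ (720 * (TP κ n * mP κ n)) := by rw [← pow_mul]; congr 1; ring
    _ ≤ nA c κ n := le_nA (by nlinarith [Nat.zero_le (c * (TP κ n * mP κ n))])

theorem nr_pow_le_two (hκ : 64 ≤ κ) (k : ℕ) : nr κ n ^ k ≤ 2 ^ (6 * TP κ n * k) := by
  calc nr κ n ^ k ≤ (TP κ n ^ 6) ^ k := Nat.pow_le_pow_left (nr_le hκ) _
    _ ≤ ((2 ^ TP κ n) ^ 6) ^ k :=
        Nat.pow_le_pow_left (Nat.pow_le_pow_left Nat.lt_two_pow_self.le _) _
    _ = 2 ^ (6 * TP κ n * k) := by rw [← pow_mul, ← pow_mul]; congr 1; ring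

/-- The stored values. -/
theorem nr_pow_le (hc : 1 ≤ c) (hκ : 64 ≤ κ) : nr κ n ^ ((nT c κ n + 1) * 6) ≤ nA c κ n := by
  refine (nr_pow_le_two hκ _).trans (le_nA ?_)
  have h1 := nT_le (n := n) hc hκ
  calc 6 * TP κ n * ((nT c κ n + 1) * 6) ≤ 6 * TP κ n * (4 * c * mP κ n * 6) := by gcongr
    _ = 144 * c * (TP κ n * mP κ n) := by ring
    _ ≤ 1000 * (c + 1) * (TP κ n * mP κ n) := Nat.mul_le_mul_right _ (by omega)

/-- The rounds. -/
theorem rd_pow_le (hc : 1 ≤ c) (hκ : 64 ≤ κ) : 12 ^ (nT c κ n + 1) ≤ nA c κ n := by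
  have h1 := nT_le (n := n) hc hκ
  have h2 := m_le_Tm (n := n) hκ
  calc 12 ^ (nT c κ n + 1) ≤ (2 ^ 4) ^ (nT c κ n + 1) := Nat.pow_le_pow_left (by norm_num) _
    _ = 2 ^ (4 * (nT c κ n + 1)) := by rw [← pow_mul]
    _ ≤ nA c κ n := le_nA ?_
  calc 4 * (nT c κ n + 1) ≤ 4 * (4 * c * mP κ n) := Nat.mul_le_mul_left _ h1
    _ = 16 * c * mP κ n := by ring
    _ ≤ 1000 * (c + 1) * (TP κ n * mP κ n) := Nat.mul_le_mul (by omega) h2

/-- The kept arguments. -/
theorem nN_pow_le (hc : 1 ≤ c) (hκ : 64 ≤ κ) :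
    nN κ n ^ ((nT c κ n + 1) / TP κ n) ≤ nA c κ n := by
  rw [nT_div hc hκ]
  calc nN κ n ^ (c * TP κ n) ≤ (2 ^ (8 * mP κ n)) ^ (c * TP κ n) :=
        Nat.pow_le_pow_left (nN_le hκ) _
    _ = 2 ^ (8 * c * (TP κ n * mP κ n)) := by rw [← pow_mul]; congr 1; ring
    _ ≤ nA c κ n := le_nA (Nat.mul_le_mul_right _ (by omega))

/-- Small powers of the number of values. -/
theorem nN_pow_le' (hκ : 64 ≤ κ) {k : ℕ} (hk : k ≤ 100) : nN κ n ^ k ≤ nA c κ n := by
  have h2 := m_le_Tm (n := n) hκ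
  calc nN κ n ^ k ≤ (2 ^ (8 * mP κ n)) ^ k := Nat.pow_le_pow_left (nN_le hκ) _
    _ = 2 ^ (8 * mP κ n * k) := by rw [← pow_mul]
    _ ≤ nA c κ n := le_nA (by
        calc 8 * mP κ n * k ≤ 8 * mP κ n * 100 := Nat.mul_le_mul_left _ hk
          _ = 800 * mP κ n := by ring
          _ ≤ 1000 * (c + 1) * (TP κ n * mP κ n) := Nat.mul_le_mul (by omega) h2)

/-- Small powers of the number of contents. -/
theorem nW_pow_le' (hκ : 64 ≤ κ) {k : ℕ} (hk : k ≤ 16) : nW κ n ^ k ≤ nA c κ n := by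
  have h2 := m_le_Tm (n := n) hκ
  calc nW κ n ^ k ≤ (2 ^ (60 * mP κ n)) ^ k := Nat.pow_le_pow_left (nW_le hκ) _
    _ = 2 ^ (60 * mP κ n * k) := by rw [← pow_mul]
    _ ≤ nA c κ n := le_nA (by
        calc 60 * mP κ n * k ≤ 60 * mP κ n * 16 := Nat.mul_le_mul_left _ hk
          _ = 960 * mP κ n := by ring
          _ ≤ 1000 * (c + 1) * (TP κ n * mP κ n) := Nat.mul_le_mul (by omega) h2)

/-- Linear functions of the top level. -/
theorem nT_lin_le (hc : 1 ≤ c) (hκ : 64 ≤ κ) {a : ℕ} (ha : a ≤ 2 ^ 100) :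
    a * (nT c κ n + 1) ≤ nA c κ n := by
  have h1 := nT_le (n := n) hc hκ
  have h2 := m_le_Tm (n := n) hκ
  have h3 := m_ge (n := n) hκ
  have h4 : c ≤ 2 ^ c := Nat.lt_two_pow_self.le
  have h5 : mP κ n ≤ 2 ^ mP κ n := Nat.lt_two_pow_self.le
  calc a * (nT c κ n + 1) ≤ 2 ^ 100 * (4 * c * mP κ n) := Nat.mul_le_mul ha h1
    _ ≤ 2 ^ 100 * (2 ^ 2 * 2 ^ c * 2 ^ mP κ n) := by gcongr; norm_num
    _ = 2 ^ (102 + c + mP κ n) := by rw [← pow_add, ← pow_add, ← pow_add]; congr 1; ring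
    _ ≤ nA c κ n := le_nA (by nlinarith [Nat.zero_le (c * (TP κ n * mP κ n))])

theorem log_nA : Nat.log 2 (nA c κ n) = 1000 * (c + 1) * (TP κ n * mP κ n) :=
  Nat.log_pow (by norm_num) _

/-- The radix of the numbers of the recursion. -/
theorem radix_le (hκ : 64 ≤ κ) {K₀ a : ℕ} (h1 : K₀ ≤ κ) (h2 : a + 1 ≤ κ) :
    (K₀ * (n + 3) * (a * (n + 3) + 1)) ^ 8 ≤ nN κ n := by
  refine le_trans ?_ (nN_ge hκ)
  have h3 : 0 < κ * (n + 3) := by positivity
  calc (K₀ * (n + 3) * (a * (n + 3) + 1)) ^ 8 ≤ (κ * (n + 3) * (κ * (n + 3))) ^ 8 := by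
        refine Nat.pow_le_pow_left (Nat.mul_le_mul (Nat.mul_le_mul_right _ h1) ?_) _
        calc a * (n + 3) + 1 ≤ (a + 1) * (n + 3) := by nlinarith
          _ ≤ κ * (n + 3) := Nat.mul_le_mul_right _ h2
    _ = (κ * (n + 3)) ^ 16 := by rw [← pow_two, ← pow_mul]
    _ ≤ (κ * (n + 3)) ^ 20 := Nat.pow_le_pow_right h3 (by norm_num)

/-- The top level is high enough. -/
theorem top_ge (hκ : 64 ≤ κ) (a : ℕ) :
    a * (Nat.log 2 (n + 2) + 1) ≤ nT (2 * a + 1) κ n := by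
  refine le_trans ?_ (nT_ge (by omega) hκ)
  have h1 := log_le (n := n) hκ
  have h2 := m_ge (n := n) hκ
  calc a * (Nat.log 2 (n + 2) + 1) ≤ a * (2 * mP κ n) := Nat.mul_le_mul_left _ (by omega)
    _ = 2 * a * mP κ n := by ring
    _ ≤ (2 * a + 1) * mP κ n := Nat.mul_le_mul_right _ (by omega)

/-- The space. -/
theorem Tm_le (κ n : ℕ) (hκ : 64 ≤ κ) : TP κ n * mP κ n ≤
    2 * (5 * Nat.log 2 κ + 22) ^ 2 *
      (Nat.log 2 (n + 2) * (Nat.sqrt (Nat.log 2 (n + 2)) + 1)) := by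
  have h1 := m_le' κ n hκ
  have h2 := T2_le (n := n) hκ
  generalize 5 * Nat.log 2 κ + 22 = C at *
  generalize Nat.log 2 (n + 2) = L at *
  have hC : C ≤ C * C := Nat.le_mul_self C
  have h3 : L < (Nat.sqrt L + 1) * (Nat.sqrt L + 1) := Nat.lt_succ_sqrt L
  have h4 : TP κ n ≤ 2 * C * (Nat.sqrt L + 1) := by
    refine Nat.mul_self_le_mul_self_iff.1 ?_
    calc TP κ n * TP κ n ≤ 4 * (C * L) := h2.trans (Nat.mul_le_mul_left _ h1)
      _ ≤ 4 * (C * C * ((Nat.sqrt L + 1) * (Nat.sqrt L + 1))) := by gcongr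
      _ = 2 * C * (Nat.sqrt L + 1) * (2 * C * (Nat.sqrt L + 1)) := by ring
  calc TP κ n * mP κ n ≤ 2 * C * (Nat.sqrt L + 1) * (C * L) := Nat.mul_le_mul h4 h1
    _ = 2 * C ^ 2 * (L * (Nat.sqrt L + 1)) := by ring

/-- The space bound for the machine. -/
theorem space_le (hc : 1 ≤ c) (hκ : 64 ≤ κ) (c₀ k₀ : ℕ) :
    c₀ * (Nat.log 2 (nA c κ n) + (7 * (nT c κ n + 1) + k₀) + 1) ≤
      c₀ * ((1000 * (c + 1) + 28 * c + k₀ + 1) * (2 * (5 * Nat.log 2 κ + 22) ^ 2)) *
        (Nat.log 2 (n + 2) * (Nat.sqrt (Nat.log 2 (n + 2)) + 1)) := by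
  have h1 := nT_le (n := n) hc hκ
  have h2 := m_le_Tm (n := n) hκ
  have h3 := m_ge (n := n) hκ
  have h4 := Tm_le κ n hκ
  rw [log_nA]
  have h5 : 1000 * (c + 1) * (TP κ n * mP κ n) + (7 * (nT c κ n + 1) + k₀) + 1 ≤
      (1000 * (c + 1) + 28 * c + k₀ + 1) * (TP κ n * mP κ n) := by
    have h6 : 7 * (nT c κ n + 1) ≤ 28 * c * (TP κ n * mP κ n) := by
      calc 7 * (nT c κ n + 1) ≤ 7 * (4 * c * mP κ n) := Nat.mul_le_mul_left _ h1
        _ = 28 * c * mP κ n := by ring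
        _ ≤ 28 * c * (TP κ n * mP κ n) := Nat.mul_le_mul_left _ h2
    have h7 : 1 ≤ TP κ n * mP κ n := by omega
    have h8 : k₀ ≤ k₀ * (TP κ n * mP κ n) := Nat.le_mul_of_pos_right _ (by omega)
    nlinarith
  calc _ ≤ c₀ * ((1000 * (c + 1) + 28 * c + k₀ + 1) * (TP κ n * mP κ n)) :=
        Nat.mul_le_mul_left _ h5
    _ ≤ c₀ * ((1000 * (c + 1) + 28 * c + k₀ + 1) * (2 * (5 * Nat.log 2 κ + 22) ^ 2 *
        (Nat.log 2 (n + 2) * (Nat.sqrt (Nat.log 2 (n + 2)) + 1)))) := by gcongr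
    _ = _ := by ring

end

end Pool.Agent.Lib.MP_9277c3_lc.NS
end

section
/-!
# D6: computation of the parameters

The program `iniP` runs the library program `CL.initC` and computes from its results the parameters of
the engine: `b = TP`, `g = ng`, `r = nr`, `N = nN`, `W = nW`, `pg = nr ^ (ng - 1)`, `T = nT`, and the
array `ac = x0 * nN ^ (nT / b)`. The program `iniO` does this for the registers of `Ops.lean`.
-/
namespace Pool.Agent.Lib.MP_9277c3_lc.NS

open Finset CM NC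

/-! ### Programs without calls -/

/-- A program without calls. -/
def nc {P T F : Type} : Stmt P T F → Prop
  | Stmt.skip => True
  | Stmt.prim _ => True
  | Stmt.seq a b => nc a ∧ nc b
  | Stmt.ite _ a b => nc a ∧ nc b
  | Stmt.loop _ a => nc a
  | Stmt.call _ => False

section

variable {α R₀ F₀ R F : Type} {x : List α} {cc : Cell α → ℕ} {A : ℕ}

theorem eval_mrg {ρ : R₀ → R} (hρ : Function.Injective ρ) (s : R₀ → ℕ) (s' : R → ℕ) (e : Exp R₀) :
    (renE ρ e).eval x cc (mrg ρ s s') = e.eval x cc s := by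
  rw [eval_renE]
  congr 1
  funext r
  exact mrg_apply hρ _ _ _

/-- Programs without calls, with other names: no condition on the procedures. -/
theorem RunA.renA_nc {ρ : R₀ → R} {φ : F₀ → F} (hρ : Function.Injective ρ)
    {body₀ : F₀ → AStmt R₀ F₀} {body : F → AStmt R F} {k : ℕ} {a : AStmt R₀ F₀} {s t : R₀ → ℕ}
    (h : RunA x cc A body₀ k a s t) (ha : nc a) (s' : R → ℕ) :
    RunA x cc A body k (renA ρ φ a) (mrg ρ s s') (mrg ρ t s') := by
  induction h with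
  | skip k s => exact RunA.skip _ _
  | asg k r e s h =>
    have e1 := eval_mrg (x := x) (cc := cc) hρ s s' e
    have h1 := RunA.asg (body := body) (x := x) (cc := cc) (A := A) k (ρ r) (renE ρ e)
      (mrg ρ s s') (by rw [e1]; exact h)
    rw [e1, ← mrg_upd hρ] at h1
    exact h1
  | seq k a b s t u _ _ ih₁ ih₂ => exact RunA.seq _ _ _ _ _ _ (ih₁ ha.1) (ih₂ ha.2)
  | iteT k r a b s u h _ ih =>
    exact RunA.iteT _ _ _ _ _ _ (by rw [mrg_apply hρ]; exact h) (ih ha.1)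
  | iteF k r a b s u h _ ih =>
    exact RunA.iteF _ _ _ _ _ _ (by rw [mrg_apply hρ]; exact h) (ih ha.2)
  | loopF k r a s h => exact RunA.loopF _ _ _ _ (by rw [mrg_apply hρ]; exact h)
  | loopT k r a s u v h _ _ ih₁ ih₂ =>
    exact RunA.loopT _ _ _ _ _ _ (by rw [mrg_apply hρ]; exact h) (ih₁ ha) (ih₂ ha)
  | call k f s u _ _ => exact absurd ha id

/-- Programs without calls, with other names, as programs which read bits. -/
theorem RunA.ren_nc {ρ : R₀ → R} {φ : F₀ → F} (hρ : Function.Injective ρ)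
    {body₀ : F₀ → AStmt R₀ F₀} {body : F → NStmt R F} {k : ℕ} {a : AStmt R₀ F₀} {s t : R₀ → ℕ}
    (h : RunA x cc A body₀ k a s t) (ha : nc a) (s' : R → ℕ) (u : ℕ → Bool) :
    RunN x cc A body k (NC.ren ρ φ a) (mrg ρ s s') u (mrg ρ t s') u := by
  induction h with
  | skip k s => exact RunN.skip _ _ _
  | asg k r e s h =>
    have e1 := eval_mrg (x := x) (cc := cc) hρ s s' e
    have h1 := RunN.asg (body := body) (x := x) (cc := cc) (A := A) k (ρ r) (renE ρ e)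
      (mrg ρ s s') u (by rw [e1]; exact h)
    rw [e1, ← mrg_upd hρ] at h1
    exact h1
  | seq k a b s t u _ _ ih₁ ih₂ => exact RunN.seq _ _ _ _ _ _ _ _ _ (ih₁ ha.1) (ih₂ ha.2)
  | iteT k r a b s u h _ ih =>
    exact RunN.iteT _ _ _ _ _ _ _ _ (by rw [mrg_apply hρ]; exact h) (ih ha.1)
  | iteF k r a b s u h _ ih =>
    exact RunN.iteF _ _ _ _ _ _ _ _ (by rw [mrg_apply hρ]; exact h) (ih ha.2)
  | loopF k r a s h => exact RunN.loopF _ _ _ _ _ (by rw [mrg_apply hρ]; exact h)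
  | loopT k r a s u v h _ _ ih₁ ih₂ =>
    exact RunN.loopT _ _ _ _ _ _ _ _ _ (by rw [mrg_apply hρ]; exact h) (ih₁ ha) (ih₂ ha)
  | call k f s u _ _ => exact absurd ha id

/-- Programs without calls, with other names; the state of the large program is given. -/
theorem RunA.ren_nc' {ρ : R₀ → R} {φ : F₀ → F} (hρ : Function.Injective ρ)
    {body₀ : F₀ → AStmt R₀ F₀} {body : F → NStmt R F} {k : ℕ} {a : AStmt R₀ F₀} {s : R → ℕ}
    {t : R₀ → ℕ} (h : RunA x cc A body₀ k a (fun r => s (ρ r)) t) (ha : nc a) (u : ℕ → Bool) :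
    RunN x cc A body k (NC.ren ρ φ a) s u (mrg ρ t s) u := by
  have h1 := RunA.ren_nc (φ := φ) (body := body) hρ h ha s u
  rwa [mrg_self hρ] at h1

theorem nc_renA {ρ : R₀ → R} {φ : F₀ → F} {a : AStmt R₀ F₀} (ha : nc a) : nc (renA ρ φ a) := by
  induction a with
  | skip => trivial
  | prim p => trivial
  | seq a b iha ihb => exact ⟨iha ha.1, ihb ha.2⟩
  | ite t a b iha ihb => exact ⟨iha ha.1, ihb ha.2⟩
  | loop t a iha => exact iha ha
  | call f => exact absurd ha id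

theorem mrg_inl {R₁ : Type} (t : R₀ → ℕ) (s : R₀ ⊕ R₁ → ℕ) :
    mrg Sum.inl t s = Sum.elim t fun r => s (Sum.inr r) := by
  funext q
  rcases q with q | q
  · rw [mrg_apply Sum.inl_injective, Sum.elim_inl]
  · rw [mrg_of_not _ _ (by simp), Sum.elim_inr]

end

/-! ### The parameters -/

/-- The registers for the parameters; `i` is auxiliary. -/
inductive RP : Type
  | b | g | r | N | W | pg | T | ac | i

/-- The program. -/
def iniP (κ c : ℕ) (startE : Exp Rg) : AStmt (Rg ⊕ RP) Pr :=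
  sqn [renA Sum.inl id (CL.initC κ 0),
    set (Sum.inr .b) (Exp.var (Sum.inl .cT) : Exp (Rg ⊕ RP)),
    set (Sum.inr .g) (4 * (Exp.var (Sum.inl .cm) : Exp (Rg ⊕ RP))),
    set (Sum.inr .r) (6 * (Exp.var (Sum.inr .g) : Exp (Rg ⊕ RP)) * ((Exp.var (Sum.inr .b) : Exp (Rg ⊕ RP)) * (Exp.var (Sum.inr .b) : Exp (Rg ⊕ RP))) + 1),
    set (Sum.inr .N) ((Exp.var (Sum.inl .cQ) : Exp (Rg ⊕ RP)) * (Exp.var (Sum.inl .cQ) : Exp (Rg ⊕ RP)) *
      ((Exp.var (Sum.inl .cQ) : Exp (Rg ⊕ RP)) * (Exp.var (Sum.inl .cQ) : Exp (Rg ⊕ RP)))),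
    set (Sum.inr .W) 1,
    set (Sum.inr .i) ((Exp.var (Sum.inr .g) : Exp (Rg ⊕ RP)) + 2),
    Stmt.loop (Sum.inr .i) (sqn [
      set (Sum.inr .W) ((Exp.var (Sum.inr .W) : Exp (Rg ⊕ RP)) * (Exp.var (Sum.inr .r) : Exp (Rg ⊕ RP))),
      set (Sum.inr .i) ((Exp.var (Sum.inr .i) : Exp (Rg ⊕ RP)) - 1)]),
    set (Sum.inr .pg) ((Exp.var (Sum.inr .W) : Exp (Rg ⊕ RP)) / (Exp.var (Sum.inr .r) : Exp (Rg ⊕ RP)) / (Exp.var (Sum.inr .r) : Exp (Rg ⊕ RP)) /
      (Exp.var (Sum.inr .r) : Exp (Rg ⊕ RP))),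
    set (Sum.inr .T) (Exp.lit c * ((Exp.var (Sum.inl .cT) : Exp (Rg ⊕ RP)) * (Exp.var (Sum.inl .cT) : Exp (Rg ⊕ RP))) - 1),
    set (Sum.inr .ac) (renE Sum.inl startE),
    set (Sum.inr .i) ((Exp.var (Sum.inr .T) : Exp (Rg ⊕ RP)) / (Exp.var (Sum.inr .b) : Exp (Rg ⊕ RP))),
    Stmt.loop (Sum.inr .i) (sqn [
      set (Sum.inr .ac) ((Exp.var (Sum.inr .ac) : Exp (Rg ⊕ RP)) * (Exp.var (Sum.inr .N) : Exp (Rg ⊕ RP))),
      set (Sum.inr .i) ((Exp.var (Sum.inr .i) : Exp (Rg ⊕ RP)) - 1)])]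

/-- The values of the parameters. -/
def outS (c κ n x0 : ℕ) : RP → ℕ
  | .b => CL.TP κ n
  | .g => ng κ n
  | .r => nr κ n
  | .N => nN κ n
  | .W => nW κ n
  | .pg => nr κ n ^ (ng κ n - 1)
  | .T => nT c κ n
  | .ac => x0 * nN κ n ^ (nT c κ n / CL.TP κ n)
  | .i => 0

section

variable {α F : Type} {X : List α} {cc : Cell α → ℕ} {A : ℕ} {body : Pr → AStmt (Rg ⊕ RP) Pr}
  {c κ : ℕ}

theorem nc_initC {c : ℕ} : nc (CL.initC κ c) := by
  simp [CL.initC, CM.sq, nc, dvC]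

theorem nc_iniP {startE : Exp Rg} : nc (iniP κ c startE) := by
  have h : nc (renA (Sum.inl : Rg → Rg ⊕ RP) (id : Pr → Pr) (CL.initC κ 0)) := nc_renA nc_initC
  simp [iniP, sqn, nc, h]

theorem run_setR {k : ℕ} {a : RP} {ex : Exp (Rg ⊕ RP)} {l : List (AStmt (Rg ⊕ RP) Pr)}
    {f : Rg → ℕ} {t : RP → ℕ} {u : Rg ⊕ RP → ℕ} (n : ℕ) (hn : ex.eval X cc (Sum.elim f t) = n)
    (hA : n < A) (h₂ : RunA X cc A body k (sqn l) (Sum.elim f (upd t a n)) u) :
    RunA X cc A body k (sqn (CM.set (Sum.inr a) ex :: l)) (Sum.elim f t) u :=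
  run_set_cons n hn hA (h₂.congr_left (upd_inr f t a n))

/-- The parameters are computed. -/
theorem run_iniP (hc : 1 ≤ c) (hκ : 64 ≤ κ) (h1 : cc Cell.right = 1)
    (h2 : ∀ a, 2 ≤ cc (Cell.letter a)) (h3 : ∀ d, cc d ≤ κ) {startE : Exp Rg} {x0 : ℕ}
    (hA : nA c κ X.length ≤ A)
    (hx : startE.eval X cc (CL.initS 0 κ X.length) = x0) (hx0 : x0 < nN κ X.length) :
    RunA X cc A body 0 (iniP κ c startE) (fun _ => 0)
      (Sum.elim (CL.initS 0 κ X.length) (outS c κ X.length x0)) := by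
  set n := X.length with hn
  have hd := CL.d_pos (n := n) hκ
  have hTP := CL.T_ge (n := n) hκ
  have hg := ng_pos (n := n) hκ
  have hr := one_lt_nr (n := n) hκ
  have hm := m_ge (n := n) hκ
  have hTm := m_le_Tm (n := n) hκ
  have hA0 : 2 ^ CL.eP 0 κ n ≤ A := by
    refine (le_nA ?_).trans hA
    unfold CL.eP
    nlinarith [Nat.zero_le (c * (CL.TP κ n * mP κ n))]
  have hTr : CL.TP κ n ≤ nr κ n := by
    unfold nr
    have h5 : CL.TP κ n ≤ CL.TP κ n ^ 2 := Nat.le_self_pow (by norm_num) _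
    have h6 : 1 * CL.TP κ n ^ 2 ≤ 6 * ng κ n * CL.TP κ n ^ 2 :=
      Nat.mul_le_mul_right _ (by omega)
    omega
  have hrW : nr κ n ≤ nr κ n ^ (ng κ n + 2) := Nat.le_self_pow (by omega) _
  have hgW : ng κ n + 2 < nr κ n ^ (ng κ n + 2) := Nat.lt_pow_self (by omega)
  have hW : nr κ n ^ (ng κ n + 2) < A := by
    have h5 := (nW_pow_le' (c := c) (n := n) hκ (k := 2) (by norm_num)).trans hA
    unfold nW at h5
    have h6 : nr κ n ^ (ng κ n + 2) < (nr κ n ^ (ng κ n + 2)) ^ 2 := by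
      rw [← pow_mul]
      exact Nat.pow_lt_pow_right (by omega) (by omega)
    omega
  have hpw : ∀ j, j ≤ ng κ n + 2 → nr κ n ^ j < A := fun j hj =>
    (Nat.pow_le_pow_right (by omega) hj).trans_lt hW
  have hN2 : 2 ≤ nN κ n := by
    unfold nN
    calc 2 ≤ CL.TP κ n := by omega
      _ ≤ _ := Nat.le_self_pow (by omega) _
  have hNA : nN κ n < A := by
    have h5 := (nN_pow_le' (c := c) (n := n) hκ (k := 2) (by norm_num)).trans hA
    have h6 : nN κ n < nN κ n ^ 2 := by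
      rw [pow_two]
      exact Nat.lt_mul_self_iff.2 (by omega)
    omega
  have hT := nT_succ (n := n) hc hκ
  have hTA := (nT_lin_le (n := n) hc hκ (a := 1) (by norm_num)).trans hA
  rw [one_mul] at hTA
  have hTd : nT c κ n / CL.TP κ n + 1 ≤ (nT c κ n + 1) / CL.TP κ n := by
    rw [nT_div hc hκ]
    refine Nat.succ_le_of_lt ((Nat.div_lt_iff_lt_mul (by omega)).2 ?_)
    have h5 : c * CL.TP κ n * CL.TP κ n = c * (CL.TP κ n * CL.TP κ n) := Nat.mul_assoc _ _ _
    omega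
  have hpN : ∀ j, j ≤ nT c κ n / CL.TP κ n → x0 * nN κ n ^ j < A := by
    intro j hj
    calc x0 * nN κ n ^ j < nN κ n * nN κ n ^ j := Nat.mul_lt_mul_of_pos_right hx0 (by positivity)
      _ = nN κ n ^ (j + 1) := by ring
      _ ≤ nN κ n ^ ((nT c κ n + 1) / CL.TP κ n) := Nat.pow_le_pow_right (by omega) (by omega)
      _ ≤ nA c κ n := nN_pow_le hc hκ
      _ ≤ A := hA
  -- the library program
  have e0 : (mrg Sum.inl (fun _ => 0) fun _ => 0 : Rg ⊕ RP → ℕ) = fun _ => 0 := by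
    rw [mrg_inl]
    funext q
    rcases q with q | q <;> rfl
  have r0 := RunA.renA_nc (ρ := Sum.inl) (φ := (id : Pr → Pr)) (body := body) Sum.inl_injective
    (RunA.mono_A hA0 (CL.run_initC (body := fun _ => Stmt.skip) (c := 0) hκ h1 h2 h3)) nc_initC
    (fun _ => 0)
  rw [e0, mrg_inl, ← hn] at r0
  refine run_cons r0 ?_
  refine run_setR (CL.TP κ n) (by simp [CL.initS]) (by omega) ?_
  refine run_setR (ng κ n) (by simp [CL.initS, ng]) (by omega) ?_
  refine run_setR (nr κ n) ?_ (by omega) ?_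
  · simp only [eval_add, eval_mul, eval_var, eval_ofNat, eval_one, Sum.elim_inr, upd_self, upd_ne,
      ne_eq, reduceCtorEq, not_false_eq_true, nr]
    ring
  refine run_setR (nN κ n) ?_ hNA ?_
  · simp only [eval_mul, eval_var, Sum.elim_inl, CL.initS, nN_eq]
    ring
  refine run_setR 1 rfl (by omega) ?_
  refine run_setR (ng κ n + 2) (by simp) (by omega) ?_
  refine run_cons (RunA.loop (Sum.inr RP.i) _ (fun j => Sum.elim (CL.initS 0 κ n) (upd (upd (upd
    (upd (upd (upd (fun _ : RP => 0) .b (CL.TP κ n)) .g (ng κ n)) .r (nr κ n)) .N (nN κ n))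
    .W (nr κ n ^ (ng κ n + 2 - j))) .i j)) (by simp) (ng κ n + 2) (fun j hj => ?_) ?_
    rfl) ?_
  · refine run_setR (nr κ n ^ (ng κ n + 2 - j)) ?_ (hpw _ (by omega)) ?_
    · simp only [eval_mul, eval_var, Sum.elim_inr, upd_self, upd_ne, ne_eq, reduceCtorEq,
        not_false_eq_true]
      rw [← pow_succ, show ng κ n + 2 - (j + 1) + 1 = ng κ n + 2 - j by omega]
    · refine run_setR j (by simp) (by omega) (run_nil.cast ?_)
      congr 1
      funext q; cases q <;> simp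
  · rw [Nat.sub_self, pow_zero]
  rw [Nat.sub_zero]
  refine run_setR (nr κ n ^ (ng κ n - 1)) ?_ (hpw _ (by omega)) ?_
  · simp only [eval_div, eval_var, Sum.elim_inr, upd_self, upd_ne, ne_eq, reduceCtorEq,
      not_false_eq_true]
    rw [show ng κ n + 2 = ng κ n - 1 + 1 + 1 + 1 by omega, pow_succ,
      Nat.mul_div_cancel _ (by omega), pow_succ, Nat.mul_div_cancel _ (by omega), pow_succ,
      Nat.mul_div_cancel _ (by omega)]
  refine run_setR (nT c κ n) ?_ (by omega) ?_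
  · simp [CL.initS, nT, Exp.eval]
  refine run_setR x0 ?_ (by omega) ?_
  · rw [eval_renE]
    exact hx
  refine run_setR (nT c κ n / CL.TP κ n) (by simp) ((Nat.div_le_self _ _).trans_lt (by omega)) ?_
  refine run_cons (RunA.loop (Sum.inr RP.i) _ (fun j => Sum.elim (CL.initS 0 κ n) (upd (upd
    (outS c κ n x0) .ac (x0 * nN κ n ^ (nT c κ n / CL.TP κ n - j))) .i j)) (by simp)
    (nT c κ n / CL.TP κ n) (fun j hj => ?_) ?_ rfl) ?_
  · refine run_setR (x0 * nN κ n ^ (nT c κ n / CL.TP κ n - j)) ?_ (hpN _ (by omega)) ?_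
    · simp only [eval_mul, eval_var, Sum.elim_inr, upd_self, upd_ne, ne_eq, reduceCtorEq,
        not_false_eq_true, outS]
      rw [mul_assoc, ← pow_succ, show nT c κ n / CL.TP κ n - (j + 1) + 1 =
        nT c κ n / CL.TP κ n - j by omega]
    · refine run_setR j (by simp) ?_ (run_nil.cast ?_)
      · have h5 : nT c κ n / CL.TP κ n ≤ nT c κ n := Nat.div_le_self _ _
        omega
      · congr 1
        funext q; cases q <;> simp
  · rw [Nat.sub_self, pow_zero, mul_one]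
    congr 1
    funext q; cases q <;> simp [outS, nW]
  · refine run_nil.cast ?_
    rw [Nat.sub_zero]
    congr 1
    funext q; cases q <;> simp [outS]

end

/-! ### The registers of the machine -/

/-- The names of the registers. -/
def nmP : Rg ⊕ RP → CR ⊕ OL Rg
  | Sum.inl r => Sum.inr (.ex r)
  | Sum.inr .b => Sum.inr .rB
  | Sum.inr .g => Sum.inr (.loc .cg)
  | Sum.inr .r => Sum.inr (.loc .cr)
  | Sum.inr .N => Sum.inr .rN
  | Sum.inr .W => Sum.inr .rW
  | Sum.inr .pg => Sum.inr (.loc .cpg)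
  | Sum.inr .T => Sum.inr .rT
  | Sum.inr .ac => Sum.inr .AC
  | Sum.inr .i => Sum.inr .i

theorem nmP_inj : Function.Injective nmP := by
  rintro (a | a) (b | b) h
  · simpa [nmP] using h
  · cases b <;> simp [nmP] at h
  · cases a <;> simp [nmP] at h
  · cases a <;> cases b <;> simp_all [nmP]

/-- The initial program of the machine. -/
def iniO {F : Type} (f₀ : F) (κ c K : ℕ) (startE : Exp Rg) : NStmt (CR ⊕ OL Rg) F :=
  sqN [NC.ren nmP (fun _ => f₀) (iniP κ c startE),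
    asg (Sum.inr (.loc .cb)) (vr .rB),
    asg (Sum.inl .cB) (vr .rB),
    asg (Sum.inl .cT) (vr .rT),
    asg (Sum.inl .cK) (Exp.lit K),
    asg (Sum.inl .lev) (vr .rT)]

/-- The control registers after the initial program. -/
def iniCR (B T K : ℕ) : CR → ℕ
  | .cB => B
  | .cT => T
  | .cK => K
  | .lev => T
  | _ => 0

/-- The registers after the initial program. -/
theorem mrg_nmP (t : Rg ⊕ RP → ℕ) : mrg nmP t (fun _ => 0) = Sum.elim (fun _ => 0) fun q => match q with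
    | .AC => t (Sum.inr .ac)
    | .rB => t (Sum.inr .b)
    | .rT => t (Sum.inr .T)
    | .rN => t (Sum.inr .N)
    | .rW => t (Sum.inr .W)
    | .i => t (Sum.inr .i)
    | .loc .cr => t (Sum.inr .r)
    | .loc .cg => t (Sum.inr .g)
    | .loc .cpg => t (Sum.inr .pg)
    | .ex r => t (Sum.inl r)
    | _ => 0 := by
  funext q
  rcases q with q | q
  · refine mrg_of_not _ _ fun r => ?_
    rcases r with r | r
    · simp [nmP]
    · cases r <;> simp [nmP]
  · have key : ∀ q : OL Rg, (∀ r, nmP r ≠ Sum.inr q) → mrg nmP t (fun _ => 0) (Sum.inr q) = 0 :=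
      fun q h => mrg_of_not _ _ h
    have key' : ∀ r, mrg nmP t (fun _ => 0) (nmP r) = t r := fun r => mrg_apply nmP_inj _ _ r
    cases q with
    | AC => exact key' (Sum.inr .ac)
    | rB => exact key' (Sum.inr .b)
    | rT => exact key' (Sum.inr .T)
    | rN => exact key' (Sum.inr .N)
    | rW => exact key' (Sum.inr .W)
    | i => exact key' (Sum.inr .i)
    | ex r => exact key' (Sum.inl r)
    | AR => exact key _ (by rintro (r | r) <;> [skip; cases r] <;> simp [nmP])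
    | AT => exact key _ (by rintro (r | r) <;> [skip; cases r] <;> simp [nmP])
    | AD => exact key _ (by rintro (r | r) <;> [skip; cases r] <;> simp [nmP])
    | fl => exact key _ (by rintro (r | r) <;> [skip; cases r] <;> simp [nmP])
    | pw => exact key _ (by rintro (r | r) <;> [skip; cases r] <;> simp [nmP])
    | loc y =>
      cases y with
      | cr => exact key' (Sum.inr .r)
      | cg => exact key' (Sum.inr .g)
      | cpg => exact key' (Sum.inr .pg)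
      | W => exact key _ (by rintro (r | r) <;> [skip; cases r] <;> simp [nmP])
      | s => exact key _ (by rintro (r | r) <;> [skip; cases r] <;> simp [nmP])
      | c => exact key _ (by rintro (r | r) <;> [skip; cases r] <;> simp [nmP])
      | e => exact key _ (by rintro (r | r) <;> [skip; cases r] <;> simp [nmP])
      | n => exact key _ (by rintro (r | r) <;> [skip; cases r] <;> simp [nmP])
      | t => exact key _ (by rintro (r | r) <;> [skip; cases r] <;> simp [nmP])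
      | cb => exact key _ (by rintro (r | r) <;> [skip; cases r] <;> simp [nmP])
      | y => exact key _ (by rintro (r | r) <;> [skip; cases r] <;> simp [nmP])
      | z => exact key _ (by rintro (r | r) <;> [skip; cases r] <;> simp [nmP])
      | q => exact key _ (by rintro (r | r) <;> [skip; cases r] <;> simp [nmP])
      | k => exact key _ (by rintro (r | r) <;> [skip; cases r] <;> simp [nmP])

section

variable {α F : Type} {X : List α} {cc : Cell α → ℕ} {A : ℕ} {body : F → NStmt (CR ⊕ OL Rg) F}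
  {c κ K : ℕ}

/-- **The initial program.** -/
theorem run_iniO (f₀ : F) (hc : 1 ≤ c) (hκ : 64 ≤ κ) (h1 : cc Cell.right = 1)
    (h2 : ∀ a, 2 ≤ cc (Cell.letter a)) (h3 : ∀ d, cc d ≤ κ) {startE : Exp Rg}
    (hA : nA c κ X.length ≤ A) (hK : K < A)
    (hN : 0 < CL.TP κ X.length ^ ng κ X.length)
    (x0 : Fin (CL.TP κ X.length ^ ng κ X.length))
    (hx : startE.eval X cc (CL.initS 0 κ X.length) = x0)
    (hT : IsTop (CL.TP κ X.length) (nT c κ X.length)) (K' : ℕ) (u u' : ℕ → Bool) :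
    RunN X cc A body 0 (iniO f₀ κ c K startE) (fun _ => 0) u
      (Sum.elim (iniCR (CL.TP κ X.length) (nT c κ X.length) K)
        (lay (CL.initS 0 κ X.length) K' (CL.TP κ X.length) (nT c κ X.length)
          (st0 hN (nT c κ X.length) x0 u'))) u := by
  have hTP := CL.T_ge (n := X.length) hκ
  have hTA := (nT_lin_le (n := X.length) hc hκ (a := 1) (by norm_num)).trans hA
  rw [one_mul] at hTA
  have hTPA : CL.TP κ X.length < A := by
    have h7 : CL.TP κ X.length < 2 ^ CL.TP κ X.length := Nat.lt_two_pow_self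
    have h8 : 2 ^ CL.TP κ X.length ≤ nA c κ X.length := le_nA (by
      have h9 := m_ge (n := X.length) hκ
      have h10 : CL.TP κ X.length ≤ CL.TP κ X.length * mP κ X.length :=
        Nat.le_mul_of_pos_right _ (by omega)
      nlinarith [Nat.zero_le (c * (CL.TP κ X.length * mP κ X.length))])
    omega
  have r0 := RunA.ren_nc (ρ := nmP) (φ := fun _ : Pr => f₀) (body := body) nmP_inj
    (run_iniP (body := fun _ => Stmt.skip) hc hκ h1 h2 h3 hA hx x0.2) nc_iniP (fun _ => 0) u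
  rw [mrg_nmP, mrg_nmP] at r0
  have e0 : ∀ l : OL Rg → ℕ, l = (fun _ => 0) →
      (Sum.elim (fun _ => 0) l : CR ⊕ OL Rg → ℕ) = fun _ => 0 := by
    rintro _ rfl
    funext q
    rcases q with q | q <;> rfl
  rw [e0 _ (by funext q; cases q <;> first | rfl | (rename_i y; cases y <;> rfl))] at r0
  refine RunN.cons r0 ?_
  refine RunN.set (CL.TP κ X.length) rfl hTPA (RunN.set (CL.TP κ X.length) ?_ hTPA
    (RunN.set (nT c κ X.length) ?_ (by omega) (RunN.set K rfl hK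
    (RunN.set (nT c κ X.length) ?_ (by omega) (RunN.nil.cast ?_)))))
  · simp only [eval_var, upd_inr, Sum.elim_inr]
    rw [upd_ne (by simp)]
    rfl
  · simp only [eval_var, upd_inr, upd_inl, Sum.elim_inr]
    rw [upd_ne (by simp)]
    rfl
  · simp only [eval_var, upd_inr, upd_inl, Sum.elim_inr]
    rw [upd_ne (by simp)]
    rfl
  · rw [lay_st0 (by omega) hT hN]
    simp only [upd_inr, upd_inl]
    congr 1
    · funext q
      cases q <;> simp [iniCR]
    · funext q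
      cases q with
      | loc y => cases y <;> simp [layRd, outS, nr]
      | AC => simp [outS, nN]
      | rN => simp [outS, nN]
      | rW => simp [outS, nW, nr]
      | rB => simp [outS]
      | rT => simp [outS]
      | AR => simp
      | AT => simp
      | AD => simp
      | fl => simp
      | pw => simp
      | i => simp [outS]
      | ex r => simp

end

end Pool.Agent.Lib.MP_9277c3_lc.NS
end

section
/-!
# The bounds for the parameters
-/
namespace Pool.Agent.Lib.MP_9277c3_lc.NS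

open CM CL

/-- The parameters of `Num.lean` satisfy the bounds of `Ops.lean`. -/
theorem bndOK {c κ : ℕ} (hc : 1 ≤ c) (hκ : 64 ≤ κ) (n : ℕ) :
    Bnd 5 (TP κ n) (nT c κ n) (TP κ n) (ng κ n) (nA c κ n) where
  hb := by have := T_ge (n := n) hκ; omega
  hg := ng_pos hκ
  hB := by have := T_ge (n := n) hκ; omega
  hR := nW_pow_le hκ
  hT := nr_pow_le hc hκ
  hD := rd_pow_le hc hκ
  hC := nN_pow_le hc hκ
  hN := by
    have h1 : nN κ n ^ 2 ≤ nA c κ n := nN_pow_le' hκ (by norm_num)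
    have h2 : 2 ≤ nN κ n := by
      have h3 := T_ge (n := n) hκ
      exact (by omega : 2 ≤ TP κ n).trans (Nat.le_self_pow (by have := ng_pos (n := n) hκ; omega) _)
    calc 2 * TP κ n ^ ng κ n ≤ nN κ n * nN κ n := Nat.mul_le_mul_right _ h2
      _ = nN κ n ^ 2 := (pow_two _).symm
      _ ≤ nA c κ n := h1

/-- The number of values is a power of two. -/
theorem two_powN (κ n : ℕ) : ∃ j, TP κ n ^ ng κ n = 2 ^ j := ⟨_, nN_two_pow⟩

/-- The number of values is positive. -/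
theorem posN {κ : ℕ} (hκ : 64 ≤ κ) (n : ℕ) : 0 < TP κ n ^ ng κ n :=
  Nat.pow_pos (by have := T_ge (n := n) hκ; omega)

/-- The top level is the top of a block. -/
theorem isTopT {c κ : ℕ} (hc : 1 ≤ c) (hκ : 64 ≤ κ) (n : ℕ) : IsTop (TP κ n) (nT c κ n) :=
  nT_mod hc hκ

/-- The bound for the top level. -/
theorem nT_lt_A {c κ : ℕ} (hc : 1 ≤ c) (hκ : 64 ≤ κ) (n : ℕ) :
    nT c κ n + 2 * 5 + 10 < nA c κ n := by
  have h1 := nT_lin_le (n := n) (a := 32) hc hκ (by norm_num)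
  omega

end Pool.Agent.Lib.MP_9277c3_lc.NS
end
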