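import Pool.Agent.Lib.MP_9277c3_lc.NS.Dp3
import Pool.Agent.Lib.MP_9277c3_lc.helper78.CM.Dp4

/-!
# Systems with a countdown clock
-/

namespace Pool.Agent.Lib.MP_9277c3_lc.NS.Dp

open CM

/-- The system `S` with a clock: the node `v` with the clock `t` is coded by `v + N * t`. -/
def timed (N : ℕ) (S : Sys) : Sys where
  tag v := if v / N = 0 then 0 else S.tag (v % N)
  nx v := if v / N = 0 then 0 else S.nx (v % N) + N * (v / N - 1)
  kont v r := S.kont (v % N) (r % N) + N * (r / N)

section

variable {S : Sys} {N : ℕ} (hS : Sys.Closed S N)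

theorem closed_pos (hS : Sys.Closed S N) : 0 < N := lt_of_le_of_lt (Nat.zero_le _) (hS.nx 0)

theorem add_mul_div' {a t : ℕ} (ha : a < N) : (a + N * t) / N = t := by
  rw [Nat.add_mul_div_left _ _ (by omega), Nat.div_eq_of_lt ha, Nat.zero_add]

theorem add_mul_mod' {a t : ℕ} (ha : a < N) : (a + N * t) % N = a := by
  rw [Nat.add_mul_mod_self_left, Nat.mod_eq_of_lt ha]

include hS in
theorem timed_nx_div (v : ℕ) : (timed N S).nx v / N = v / N - 1 := by
  simp only [timed]
  split_ifs with h
  · rw [Nat.zero_div, h]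
  · exact add_mul_div' (hS.nx _)

include hS in
theorem timed_kont_div (v r : ℕ) : (timed N S).kont v r / N = r / N :=
  add_mul_div' (hS.kont _ _)

include hS in
theorem timed_clock : Clock (timed N S) (fun v => v / N) where
  nx_lt v h := by
    simp only [timed_nx_div hS]
    simp only [timed] at h
    split_ifs at h with h1
    · exact absurd rfl h
    · exact Nat.sub_lt (Nat.pos_of_ne_zero h1) (by norm_num)
  nx_le v := by
    simp only [timed_nx_div hS]
    exact Nat.sub_le _ _
  kont_le v r := (timed_kont_div hS v r).le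
  mono v w h := by
    by_contra h1
    exact absurd h (not_lt.2 (Nat.div_le_div_right (c := N) (Nat.le_of_not_lt h1)))

include hS in
/-- Every node has a value. -/
theorem timed_total : ∀ t v, v / N = t → ∃ c s, Ev (timed N S) v c s ∧
    s + 2 * (c / N) ≤ 2 * t + 1 := by
  intro t
  induction t using Nat.strong_induction_on with
  | _ t ih =>
    intro v hv
    by_cases h0 : (timed N S).tag v = 0
    · refine ⟨_, _, Ev.done v h0, ?_⟩
      rw [timed_nx_div hS, hv]
      omega
    · have ht : t ≠ 0 := by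
        rintro rfl
        apply h0
        simp only [timed, if_pos hv]
      have h1 : (timed N S).nx v / N = t - 1 := by rw [timed_nx_div hS, hv]
      obtain ⟨c, s, h2, h3⟩ := ih (t - 1) (by omega) _ h1
      by_cases h4 : (timed N S).tag v = 1
      · exact ⟨c, s + 1, Ev.unary _ _ _ h4 h2, by omega⟩
      · have h5 := timed_kont_div hS v c
        obtain ⟨c', s', h6, h7⟩ := ih (c / N) (by omega) _ h5
        exact ⟨c', s + s' + 1, Ev.binary _ _ _ _ _ h0 h4 h2 h6, by omega⟩

include hS in
theorem ev_lt {v c s : ℕ} (h : Ev S v c s) : c < N := by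
  induction h with
  | done v h => exact hS.nx v
  | unary _ _ _ _ _ ih => exact ih
  | binary _ _ _ _ _ _ _ _ _ _ ih => exact ih

include hS in
theorem timed_of_ev {v c s : ℕ} (h : Ev S v c s) : ∀ t, s ≤ t → v < N →
    Ev (timed N S) (v + N * t) (c + N * (t - s)) s := by
  have htag : ∀ v t, v < N → t ≠ 0 → (timed N S).tag (v + N * t) = S.tag v := fun v t hv ht => by
    simp only [timed, add_mul_div' hv, add_mul_mod' hv, if_neg ht]
  have hnx : ∀ v t, v < N → t ≠ 0 → (timed N S).nx (v + N * t) = S.nx v + N * (t - 1) :=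
    fun v t hv ht => by
      simp only [timed, add_mul_div' hv, add_mul_mod' hv, if_neg ht]
  induction h with
  | done v h =>
    intro t ht hv
    rw [← hnx v t hv (by omega)]
    exact Ev.done _ (by rw [htag v t hv (by omega), h])
  | unary v c s h _ ih =>
    intro t ht hv
    refine Ev.unary _ _ _ (by rw [htag v t hv (by omega), h]) ?_
    rw [hnx v t hv (by omega)]
    have h1 := ih (t - 1) (by omega) (hS.nx v)
    rwa [show t - 1 - s = t - (s + 1) by omega] at h1
  | binary v c s c' s' h0 h1 h2 _ ih ih' =>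
    intro t ht hv
    have h3 := ih (t - 1) (by omega) (hS.nx v)
    have h4 := ih' (t - 1 - s) (by omega) (hS.kont v c)
    have hc := ev_lt hS h2
    refine Ev.binary _ (c + N * (t - 1 - s)) s _ s' ?_ ?_ ?_ ?_
    · rw [htag v t hv (by omega)]; exact h0
    · rw [htag v t hv (by omega)]; exact h1
    · rw [hnx v t hv (by omega)]; exact h3
    · have h5 : (timed N S).kont (v + N * t) (c + N * (t - 1 - s)) =
          S.kont v c + N * (t - 1 - s) := by
        simp only [timed, add_mul_mod' hv, add_mul_mod' hc, add_mul_div' hc]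
      rw [h5, show t - (s + s' + 1) = t - 1 - s - s' by omega]
      exact h4

include hS in
theorem timed_le {v c s : ℕ} (h : Ev (timed N S) v c s) : c / N ≤ v / N := by
  induction h with
  | done v h => rw [timed_nx_div hS]; exact Nat.sub_le _ _
  | unary v c s _ _ ih => rw [timed_nx_div hS] at ih; exact ih.trans (Nat.sub_le _ _)
  | binary v c s c' s' _ _ _ _ ih ih' =>
    rw [timed_nx_div hS] at ih
    rw [timed_kont_div hS] at ih'
    exact ih'.trans (ih.trans (Nat.sub_le _ _))

include hS in
theorem ev_of_timed {v c s : ℕ} (h : Ev (timed N S) v c s) : 0 < c / N →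
    Ev S (v % N) (c % N) s := by
  have htag : ∀ v, v / N ≠ 0 → (timed N S).tag v = S.tag (v % N) := fun v hv => by
    simp only [timed, if_neg hv]
  have hnx : ∀ v, v / N ≠ 0 → (timed N S).nx v % N = S.nx (v % N) := fun v hv => by
    simp only [timed, if_neg hv]
    exact add_mul_mod' (hS.nx _)
  have h0' : ∀ v, v / N = 0 → (timed N S).tag v = 0 := fun v hv => by
    simp only [timed, if_pos hv]
  induction h with
  | done v h =>
    intro hc
    have hv : v / N ≠ 0 := by
      rw [timed_nx_div hS] at hc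
      omega
    rw [hnx v hv]
    exact Ev.done _ (by rw [← htag v hv, h])
  | unary v c s h h1 ih =>
    intro hc
    have hv : v / N ≠ 0 := fun hv => by rw [h0' v hv] at h; omega
    have h2 := ih hc
    rw [hnx v hv] at h2
    exact Ev.unary _ _ _ (by rw [← htag v hv, h]) h2
  | binary v c s c' s' h0 h1 h2 h3 ih ih' =>
    intro hc
    have hv : v / N ≠ 0 := fun hv => h0 (h0' v hv)
    have h4 := timed_le hS h3
    rw [timed_kont_div hS] at h4
    have h5 := ih (by omega)
    have h6 := ih' hc
    rw [hnx v hv] at h5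
    have h7 : (timed N S).kont v c % N = S.kont (v % N) (c % N) := add_mul_mod' (hS.kont _ _)
    rw [h7] at h6
    exact Ev.binary _ _ _ _ _ (by rw [← htag v hv]; exact h0) (by rw [← htag v hv]; exact h1) h5 h6

end

section

variable {S : Sys} {clk : ℕ → ℕ} (hC : Clock S clk)

/-- The request for the value of `y` on the level `T`. -/
def req (T y : ℕ) : X8 := ⟨2 + 2 * (T % 2), y, 0, 0, 0, 0, 0, 0⟩

include hC in
/-- The value of a node is computed on every level `T` with `2 * s < 2 ^ (T / 2)`. -/
theorem val_req {y c s T : ℕ} (h : Ev S y c s) (hs : 2 * s < 2 ^ (T / 2)) :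
    (val S T (req T y)).tag = 0 ∧ (val S T (req T y)).z = c := by
  obtain ⟨k, hk | hk⟩ : ∃ k, T = 2 * k ∨ T = 2 * k + 1 := ⟨T / 2, by omega⟩
  · have h1 : T / 2 = k := by omega
    have h2 : T % 2 = 0 := by omega
    rw [h1] at hs
    rw [req, h2, hk]
    exact val_of_ev hC h hs
  · have h1 : T / 2 = k := by omega
    have h2 : T % 2 = 1 := by omega
    rw [h1] at hs
    rw [req, h2, hk]
    obtain ⟨n, hn, h3⟩ := exists_sts_of_ev h
    obtain ⟨hA, hR⟩ := val_correct hC k
    rcases s_main hC hA hR y with ⟨h4, m, h5⟩ | ⟨h4, m, W, h5, h6, _⟩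
    · exact ⟨h4, (h3 []).end_value h5⟩
    · have h7 := (h3 []).lt_end h6
      rw [pow_succ] at h5
      omega

end

section

variable {α : Type} {M : DPDA α} (C : Cd M)

/-- The number of nodes. -/
def NN (x : List α) : ℕ := C.K * (x.length + 3)

/-- The first clock. -/
def TT (a : ℕ) (x : List α) : ℕ := a * (x.length + 3)

/-- The start node with the clock. -/
noncomputable def start (a : ℕ) (x : List α) : ℕ :=
  C.code (some M.start) 1 [M.bottom] + NN C x * TT a x

/-- The test for acceptance. -/
def Acc (x : List α) (v : X8) : Prop :=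
  v.tag = 0 ∧ v.z / NN C x ≠ 0 ∧
    C.tA (v.z % NN C x % C.K) (cell x (min (v.z % NN C x / C.K) (x.length + 1))) = 1

theorem tA_iff {x : List α} {q : Option M.State} {i : ℕ} (hi : i ≤ x.length + 1) :
    C.tA (C.code q i [] % C.K) (cell x (min (C.code q i [] / C.K) (x.length + 1))) = 1 ↔
      ∀ q', q = some q' → M.accepting q' (cell x i) := by
  classical
  rw [C.code_mod, C.code_div, min_eq_left hi]
  cases q with
  | none => simp [Cd.tA, C.dec_enc (q := none) (l := []) (Nat.zero_le _)]
  | some q =>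
    simp only [Cd.tA, C.dec_enc (q := some q) (l := []) (Nat.zero_le _), Option.some.injEq]
    constructor
    · intro h q' hq'
      subst hq'
      by_contra hcon
      rw [if_neg hcon] at h
      exact absurd h (by norm_num)
    · intro h
      rw [if_pos (h q rfl)]

/-- The recursion decides the language of a one-way automaton. -/
theorem accepts_iff_val
    (hM : ∀ q c X q' mv β, M.next q c X = some (q', mv, β) → mv ≠ Move.left) :
    ∃ a : ℕ, ∀ (x : List α) (T : ℕ), a * (Nat.log 2 (x.length + 2) + 1) ≤ T →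
      (M.Accepts x ↔ Acc C x (val (timed (NN C x) (C.sys x)) T (req T (start C a x)))) := by
  obtain ⟨a, ha⟩ := C.oneway_linear hM
  refine ⟨4 * a + 12, fun x T hT => ?_⟩
  have hcl : Sys.Closed (C.sys x) (NN C x) := C.closed x
  have hclk := timed_clock hcl
  have hstart : C.code (some M.start) 1 [M.bottom] < NN C x := C.code_lt (by omega)
  have hdiv : start C (4 * a + 12) x / NN C x = TT (4 * a + 12) x := add_mul_div' hstart
  have hmod : start C (4 * a + 12) x % NN C x = C.code (some M.start) 1 [M.bottom] :=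
    add_mul_mod' hstart
  obtain ⟨c, s, hev, hs⟩ := timed_total hcl _ _ hdiv
  have hsize : 2 * s < 2 ^ (T / 2) := by
    have h1 : x.length + 2 < 2 ^ (Nat.log 2 (x.length + 2) + 1) :=
      Nat.lt_pow_succ_log_self (by norm_num) _
    set L := Nat.log 2 (x.length + 2) + 1 with hL
    have h2 : (2 * a + 6) * L ≤ T / 2 := by
      rw [Nat.le_div_iff_mul_le (by norm_num)]
      calc (2 * a + 6) * L * 2 = (4 * a + 12) * L := by ring
        _ ≤ T := hT
    have hL1 : 1 ≤ L := by omega
    have h3 : 2 ^ ((2 * a + 6) * L) ≤ 2 ^ (T / 2) := Nat.pow_le_pow_right (by norm_num) h2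
    refine lt_of_lt_of_le ?_ h3
    have h4 : 2 * s ≤ 4 * ((4 * a + 12) * (x.length + 3)) + 2 := by
      unfold TT at hs
      omega
    have h5 : 4 * a + 12 ≤ 2 ^ (2 * a + 4) := by
      have h6 : a + 1 ≤ 2 ^ a := Nat.lt_two_pow_self
      have h7 : (2 : ℕ) ^ (2 * a + 4) = 16 * (2 ^ a * 2 ^ a) := by
        rw [pow_add, two_mul, pow_add]
        ring
      rw [h7]
      nlinarith
    have h8 : x.length + 3 ≤ 2 ^ L := h1
    have h9 : 4 * ((4 * a + 12) * (x.length + 3)) + 2 ≤ 4 * (2 ^ (2 * a + 4) * 2 ^ L) + 2 := by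
      gcongr
    have h10 : 4 * (2 ^ (2 * a + 4) * 2 ^ L) + 2 < 2 ^ (2 * a + 7) * 2 ^ L := by
      have h11 : 0 < 2 ^ (2 * a + 4) * 2 ^ L := by positivity
      have h12 : (2 : ℕ) ^ (2 * a + 7) = 8 * 2 ^ (2 * a + 4) := by
        rw [show 2 * a + 7 = 2 * a + 4 + 3 by ring, pow_add]
        ring
      rw [h12]
      nlinarith
    have h13 : 2 ^ (2 * a + 7) * 2 ^ L ≤ 2 ^ ((2 * a + 6) * L) := by
      rw [← pow_add]
      refine Nat.pow_le_pow_right (by norm_num) ?_
      have h14 : 2 ≤ L := by
        have : 0 < Nat.log 2 (x.length + 2) := Nat.log_pos (by norm_num) (by omega)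
        omega
      nlinarith
    omega
  obtain ⟨h1, h2⟩ := val_req hclk hev hsize
  unfold Acc
  rw [h1, h2]
  constructor
  · rintro ⟨t, l, h⟩
    obtain ⟨w, _, q, i, h3, h4⟩ := wtAcc_of_acceptsAt h
    obtain ⟨hi, n, hn, _⟩ := C.complete h3 (by omega) C.hD1
    have h5 := ha x (some M.start) 1 [M.bottom] C.hD1 (by omega) _ _ hn
    have h6 : n < TT (4 * a + 12) x := by
      unfold TT
      refine lt_of_le_of_lt h5 ?_
      nlinarith
    have h7 := timed_of_ev hcl hn (TT (4 * a + 12) x) h6.le hstart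
    obtain ⟨h8, _⟩ := hev.unique h7
    have h9 : C.code q i [] < NN C x := C.code_lt hi
    rw [← h8, add_mul_div' h9, add_mul_mod' h9]
    exact ⟨rfl, by omega, (tA_iff C hi).2 h4⟩
  · rintro ⟨_, h3, h4⟩
    have h5 := ev_of_timed hcl hev (Nat.pos_of_ne_zero h3)
    rw [hmod] at h5
    obtain ⟨q, i, hi, hc, w, _, hw⟩ := C.sound h5 (some M.start) 1 [M.bottom] C.hD1 (by omega) rfl
    rw [hc] at h4
    exact WtAcc.accepts (w := w) ⟨q, i, hw, (tA_iff C hi).1 h4⟩

end

end Pool.Agent.Lib.MP_9277c3_lc.NS.Dp
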