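import Pool.Agent.Lib.MP_9277c3_lc.NS.PkDef
import Pool.Agent.Lib.MP_9277c3_lc.NS.Dp4
import Pool.Agent.Lib.MP_9277c3_lc.NC.Lang

/-!
# D3: the functions of the scheme as expressions

All functions of the scheme `schN` (for the timed system of an automaton) are values of expressions
in which the only constant which is read from a register is `n + 1` (register `cn`).
-/

namespace Pool.Agent.Lib.MP_9277c3_lc.NS

open CM Dp

section

variable {α R : Type} (x : List α) (cc : Cell α → ℕ) (s : R → ℕ)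

/-- Conditions. -/
inductive Cnd (R : Type) : Type
  | eq (a b : Exp R) : Cnd R
  | le (a b : Exp R) : Cnd R
  | or (c d : Cnd R) : Cnd R
  | and (c d : Cnd R) : Cnd R

/-- The meaning of a condition. -/
def Cnd.holds : Cnd R → Prop
  | Cnd.eq a b => a.eval x cc s = b.eval x cc s
  | Cnd.le a b => a.eval x cc s ≤ b.eval x cc s
  | Cnd.or c d => c.holds ∨ d.holds
  | Cnd.and c d => c.holds ∧ d.holds

/-- The condition as an expression with the values `0`, `1`. -/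
def Cnd.exp : Cnd R → Exp R
  | Cnd.eq a b => 1 - ((a - b) + (b - a))
  | Cnd.le a b => 1 - (a - b)
  | Cnd.or c d => 1 - (1 - c.exp) * (1 - d.exp)
  | Cnd.and c d => c.exp * d.exp

open Classical in
theorem Cnd.eval_exp (c : Cnd R) :
    c.exp.eval x cc s = if c.holds x cc s then 1 else 0 := by
  induction c with
  | eq a b =>
    simp only [Cnd.exp, Cnd.holds, eval_sub, eval_add, eval_one]
    split_ifs with h <;> omega
  | le a b =>
    simp only [Cnd.exp, Cnd.holds, eval_sub, eval_one]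
    split_ifs with h <;> omega
  | or c d hc hd =>
    simp only [Cnd.exp, Cnd.holds, eval_sub, eval_mul, eval_one, hc, hd]
    by_cases h1 : c.holds x cc s <;> by_cases h2 : d.holds x cc s <;> simp [h1, h2]
  | and c d hc hd =>
    simp only [Cnd.exp, Cnd.holds, eval_mul, hc, hd]
    by_cases h1 : c.holds x cc s <;> by_cases h2 : d.holds x cc s <;> simp [h1, h2]

/-- Case distinction. -/
def ifE (c : Cnd R) (a b : Exp R) : Exp R := c.exp * a + (1 - c.exp) * b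

open Classical in
theorem eval_ifE (c : Cnd R) (a b : Exp R) : (ifE c a b).eval x cc s =
    if c.holds x cc s then a.eval x cc s else b.eval x cc s := by
  simp only [ifE, eval_add, eval_mul, eval_sub, eval_one, Cnd.eval_exp]
  split_ifs <;> simp

/-- States, as expressions. -/
structure E8 (R : Type) where
  tag : Exp R
  y : Exp R
  w : Exp R
  e : Exp R
  m : Exp R
  z : Exp R
  a : Exp R
  b : Exp R

/-- The value of a state. -/
def E8.ev (t : E8 R) : X8 :=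
  ⟨t.tag.eval x cc s, t.y.eval x cc s, t.w.eval x cc s, t.e.eval x cc s, t.m.eval x cc s,
    t.z.eval x cc s, t.a.eval x cc s, t.b.eval x cc s⟩

/-- The code of a state, as an expression. -/
def E8.pk (b : Exp R) (t : E8 R) : Exp R :=
  t.tag + b * (t.y + b * (t.w + b * (t.e + b * (t.m + b * (t.z + b * (t.a + b * t.b))))))

/-- The state of a code, as expressions. -/
def upkE (b X : Exp R) : E8 R :=
  ⟨X % b, X / b % b, X / b / b % b, X / b / b / b % b, X / b / b / b / b % b,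
    X / b / b / b / b / b % b, X / b / b / b / b / b / b % b,
    X / b / b / b / b / b / b / b % b⟩

theorem eval_pkE (b : Exp R) (t : E8 R) :
    (t.pk b).eval x cc s = NS.pk (b.eval x cc s) (t.ev x cc s) := rfl

theorem ev_upkE (b X : Exp R) :
    (upkE b X).ev x cc s = upk (b.eval x cc s) (X.eval x cc s) := rfl

/-- The function `arg`. -/
def argE8 (s : E8 R) (b : Exp R) : Exp R :=
  ifE (Cnd.eq s.tag 2) (E8.pk b ⟨4, s.y, 0, 0, 0, 0, 0, 0⟩) <|
  ifE (Cnd.eq s.tag 3) (E8.pk b ⟨9, s.y, 0, s.e, s.m, s.z, 0, 0⟩) <|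
  ifE (Cnd.eq s.tag 4) (E8.pk b ⟨2, s.y, 0, 0, 0, 0, 0, 0⟩) <|
  ifE (Cnd.or (Cnd.eq s.tag 5) (Cnd.eq s.tag 7)) (E8.pk b ⟨2, s.z, 0, 0, 0, 0, 0, 0⟩) <|
  ifE (Cnd.or (Cnd.eq s.tag 6) (Cnd.eq s.tag 8)) (E8.pk b ⟨9, s.y, 0, s.e, s.m, s.z, 0, 0⟩) <|
  ifE (Cnd.eq s.tag 9) (E8.pk b ⟨4, s.y, 0, 0, 0, 0, 0, 0⟩) <|
  ifE (Cnd.or (Cnd.eq s.tag 10) (Cnd.eq s.tag 12)) (E8.pk b ⟨3, s.w, 0, s.e, s.m, s.z, 0, 0⟩) <|
  ifE (Cnd.eq s.tag 11) (E8.pk b ⟨4, s.z, 0, 0, 0, 0, 0, 0⟩) (E8.pk b s)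

theorem eval_argE8 (t : E8 R) (b : Exp R) :
    (argE8 t b).eval x cc s = NS.pk (b.eval x cc s) (arg (t.ev x cc s)) := by
  simp only [argE8, eval_ifE, Cnd.holds, eval_pkE, eval_ofNat]
  unfold arg
  simp only [apply_ite (NS.pk (b.eval x cc s))]
  rfl

/-- The expression for `arg`. -/
def argE (b X : Exp R) : Exp R := argE8 (upkE b X) b

theorem eval_argE (b X : Exp R) : (argE b X).eval x cc s =
    NS.pk (b.eval x cc s) (arg (upk (b.eval x cc s) (X.eval x cc s))) := by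
  rw [argE, eval_argE8, ev_upkE]

/-- The function `upd`. -/
def updE8 (s v : E8 R) (b : Exp R) : Exp R :=
  ifE (Cnd.or (Cnd.eq s.tag 2) (Cnd.eq s.tag 3)) (E8.pk b v) <|
  ifE (Cnd.eq s.tag 4)
    (ifE (Cnd.eq v.tag 0) (E8.pk b ⟨0, 0, 0, 0, 0, v.z, 0, 0⟩)
      (E8.pk b ⟨5, s.y, 0, v.e, v.m, v.z, 0, 0⟩)) <|
  ifE (Cnd.or (Cnd.eq s.tag 5) (Cnd.eq s.tag 7))
    (ifE (Cnd.eq v.tag 0)
      (ifE (Cnd.eq s.e 0) (E8.pk b ⟨0, 0, 0, 0, 0, v.z, 0, 0⟩)
        (E8.pk b ⟨s.tag + 1, s.y, 0, s.e, s.m, v.z, 0, 0⟩))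
      (ifE (Cnd.eq v.e 0) (E8.pk b ⟨1, 0, s.z, s.e, s.m, v.z, s.e, s.m⟩)
        (E8.pk b ⟨1, 0, s.z, v.e, v.m, v.z, s.e, s.m⟩))) <|
  ifE (Cnd.eq s.tag 6)
    (ifE (Cnd.eq v.tag 0) (E8.pk b ⟨0, 0, 0, 0, 0, v.z, 0, 0⟩)
      (E8.pk b ⟨7, s.y, 0, v.e, 1, v.z, 0, 0⟩)) <|
  ifE (Cnd.eq s.tag 8)
    (ifE (Cnd.eq v.tag 0) (E8.pk b ⟨0, 0, 0, 0, 0, v.z, 0, 0⟩)
      (E8.pk b ⟨1, 0, 0, v.e, 1, v.z, 0, 0⟩)) <|
  ifE (Cnd.eq s.tag 9)
    (ifE (Cnd.and (Cnd.le 1 v.w) (Cnd.le s.e v.w))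
      (E8.pk b ⟨10, s.y, v.w, s.e, s.m, s.z, v.a, v.b⟩)
      (E8.pk b ⟨10, s.y, s.y, s.e, s.m, s.z, 0, 0⟩)) <|
  ifE (Cnd.or (Cnd.eq s.tag 10) (Cnd.eq s.tag 12))
    (ifE (Cnd.eq v.tag 0)
      (ifE (Cnd.eq s.a 0) (E8.pk b ⟨0, 0, 0, 0, 0, v.z, 0, 0⟩)
        (E8.pk b ⟨s.tag, s.y, s.y, s.a, s.b, v.z, 0, 0⟩))
      (ifE (Cnd.eq s.tag 12) (E8.pk b ⟨1, 0, 0, v.e, 1, v.z, 0, 0⟩)
        (E8.pk b ⟨11, s.y, s.w, v.e, 1, v.z, s.a, s.b⟩))) <|
  ifE (Cnd.eq s.tag 11)
    (ifE (Cnd.eq v.tag 0) (E8.pk b ⟨12, s.y, s.w, s.e, 1, v.z, s.a, s.b⟩)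
      (E8.pk b ⟨1, 0, 0, s.e, 1, s.z, 0, 0⟩))
    (E8.pk b s)

theorem eval_updE8 (t v : E8 R) (b : Exp R) :
    (updE8 t v b).eval x cc s = NS.pk (b.eval x cc s) (Dp.upd (t.ev x cc s) (v.ev x cc s)) := by
  simp only [updE8, eval_ifE, Cnd.holds, eval_pkE, eval_ofNat, eval_zero, eval_one,
    Nat.one_le_iff_ne_zero]
  unfold Dp.upd
  simp only [apply_ite (NS.pk (b.eval x cc s))]
  rfl

/-- The expression for `upd`. -/
def updE (b X V : Exp R) : Exp R := updE8 (upkE b X) (upkE b V) b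

theorem eval_updE (b X V : Exp R) : (updE b X V).eval x cc s =
    NS.pk (b.eval x cc s) (Dp.upd (upk (b.eval x cc s) (X.eval x cc s))
      (upk (b.eval x cc s) (V.eval x cc s))) := by
  rw [updE, eval_updE8, ev_upkE, ev_upkE]

end

/-! ### The system -/

section

variable {α : Type} (x : List α) (cc : Cell α → ℕ) (s : Rg → ℕ)

/-- The expressions compute the functions of the system, in the state `s`. -/
structure ImplAt (S : Sys) (E : SysE) : Prop where
  tag : ∀ e, (E.tag e).eval x cc s = S.tag (e.eval x cc s)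
  nx : ∀ e, (E.nx e).eval x cc s = S.nx (e.eval x cc s)
  kont : ∀ e e', (E.kont e e').eval x cc s = S.kont (e.eval x cc s) (e'.eval x cc s)

/-- The timed system, as expressions. -/
def timedE (N : Exp Rg) (E : SysE) : SysE where
  tag v := ifE (Cnd.eq (v / N) 0) 0 (E.tag (v % N))
  nx v := ifE (Cnd.eq (v / N) 0) 0 (E.nx (v % N) + N * (v / N - 1))
  kont v r := E.kont (v % N) (r % N) + N * (r / N)

variable {x cc s} in
theorem ImplAt.timed {S : Sys} {E : SysE} (h : ImplAt x cc s S E) (N : Exp Rg) :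
    ImplAt x cc s (timed (N.eval x cc s) S) (timedE N E) where
  tag e := by
    simp only [timedE, Dp.timed, eval_ifE, Cnd.holds, eval_div, eval_zero, h.tag, eval_mod]
  nx e := by
    simp only [timedE, Dp.timed, eval_ifE, Cnd.holds, eval_div, eval_zero, h.nx, eval_mod,
      eval_add, eval_mul, eval_sub, eval_one]
  kont e e' := by
    simp only [timedE, Dp.timed, eval_div, h.kont, eval_mod, eval_add, eval_mul]

/-- The function `V0`. -/
def V0E8 (E : SysE) (s : E8 Rg) (b : Exp Rg) : Exp Rg :=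
  ifE (Cnd.eq s.tag 2)
    (ifE (Cnd.eq (E.tag s.y) 0) (E8.pk b ⟨0, 0, 0, 0, 0, E.nx s.y, 0, 0⟩) <|
      ifE (Cnd.eq (E.tag s.y) 1) (E8.pk b ⟨1, 0, 0, 0, 1, E.nx s.y, 0, 0⟩)
        (E8.pk b ⟨1, 0, 0, s.y, 0, E.nx s.y, 0, 0⟩)) <|
    ifE (Cnd.eq s.m 0) (E8.pk b ⟨1, 0, 0, s.e, 1, E.kont s.e s.z, 0, 0⟩)
      (E8.pk b ⟨0, 0, 0, 0, 0, s.z, 0, 0⟩)

variable {x cc s} in
theorem eval_V0E8 {S : Sys} {E : SysE} (h : ImplAt x cc s S E) (t : E8 Rg) (b : Exp Rg) :
    (V0E8 E t b).eval x cc s = NS.pk (b.eval x cc s) (V0 S (t.ev x cc s)) := by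
  simp only [V0E8, eval_ifE, Cnd.holds, eval_pkE, eval_ofNat, eval_zero, eval_one, h.tag]
  unfold V0
  simp only [apply_ite (NS.pk (b.eval x cc s)), E8.ev, h.nx, h.kont, eval_zero, eval_one]

/-- The expression for `V0`. -/
def V0E (E : SysE) (b X : Exp Rg) : Exp Rg := V0E8 E (upkE b X) b

variable {x cc s} in
theorem eval_V0E {S : Sys} {E : SysE} (h : ImplAt x cc s S E) (b X : Exp Rg) :
    (V0E E b X).eval x cc s =
      NS.pk (b.eval x cc s) (V0 S (upk (b.eval x cc s) (X.eval x cc s))) := by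
  rw [V0E, eval_V0E8 h, ev_upkE]

end

section

variable {α : Type} {M : DPDA α} (C : Cd M)

theorem implAt_sysE (x : List α) {s : Rg → ℕ} (hs : s .cn = x.length + 1) :
    ImplAt x C.cc s (C.sys x) C.sysE where
  tag e := (C.impl x).tag s e hs
  nx e := (C.impl x).nx s e hs
  kont e e' := (C.impl x).kont s e e' hs

/-- The number of nodes, as an expression; `c` contains `n + 1`. -/
def NE {R : Type} (c : R) : Exp R := Exp.lit C.K * (Exp.var c + 2)

/-- The first clock, as an expression. -/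
def TE {R : Type} (a : ℕ) (c : R) : Exp R := Exp.lit a * (Exp.var c + 2)

/-- The base, as an expression. -/
def bE {R : Type} (a : ℕ) (c : R) : Exp R := NE C c * (TE a c + 1)

/-- The base. -/
def b8 (a : ℕ) (x : List α) : ℕ := NN C x * (TT a x + 1)

section

variable {R : Type} {x : List α} {s : R → ℕ} {c : R} (hs : s c = x.length + 1)

include hs

theorem eval_NE : (NE C c).eval x C.cc s = NN C x := by
  simp only [NE, eval_mul, eval_add, eval_var, eval_ofNat, hs]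
  rfl

theorem eval_TE (a : ℕ) : (TE a c).eval x C.cc s = TT a x := by
  simp only [TE, eval_mul, eval_add, eval_var, eval_ofNat, hs]
  rfl

theorem eval_bE (a : ℕ) : (bE C a c).eval x C.cc s = b8 C a x := by
  simp only [bE, eval_mul, eval_add, eval_one, eval_NE C hs, eval_TE C hs]
  rfl

end

/-- The expression for the start, for the level in `T`. -/
noncomputable def startX {R : Type} (a : ℕ) (c : R) (T : Exp R) : Exp R :=
  E8.pk (bE C a c) ⟨2 + 2 * (T % 2), Exp.lit (C.enc (some M.start) [M.bottom]) +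
    Exp.lit C.K * 1 + NE C c * TE a c, 0, 0, 0, 0, 0, 0⟩

theorem eval_startX {R : Type} {x : List α} {s : R → ℕ} {c : R} (hs : s c = x.length + 1)
    (a : ℕ) (T : Exp R) : (startX C a c T).eval x C.cc s =
      NS.pk (b8 C a x) (req (T.eval x C.cc s) (start C a x)) := by
  simp only [startX, eval_pkE, eval_bE C hs, E8.ev, eval_add, eval_mul, eval_ofNat, eval_mod,
    eval_one, eval_zero, eval_NE C hs, eval_TE C hs]
  rfl

/-- The expression for `V0` of the timed system of the automaton. -/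
noncomputable def V0X (a : ℕ) (X : Exp Rg) : Exp Rg :=
  V0E (timedE (NE C .cn) C.sysE) (bE C a .cn) X

theorem eval_V0X {x : List α} {s : Rg → ℕ} (hs : s .cn = x.length + 1) (a : ℕ) (X : Exp Rg) :
    (V0X C a X).eval x C.cc s = NS.pk (b8 C a x)
      (V0 (timed (NN C x) (C.sys x)) (upk (b8 C a x) (X.eval x C.cc s))) := by
  have h := (implAt_sysE C x hs).timed (NE C .cn)
  rw [eval_NE C hs] at h
  rw [V0X, eval_V0E h, eval_bE C hs]

/-- The expression for the test, with the values `0`, `1`. -/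
noncomputable def accX (a : ℕ) (X : Exp Rg) : Exp Rg :=
  ifE (Cnd.and (Cnd.eq (upkE (bE C a .cn) X).tag 0)
    (Cnd.le 1 ((upkE (bE C a .cn) X).z / NE C .cn)))
    (Exp.tab (fun i => C.tA (i % C.K) (C.dc (i / C.K))) (C.K * C.K)
      (C.idxE ((upkE (bE C a .cn) X).z % NE C .cn))) 0

open Classical in
theorem eval_accX {x : List α} {s : Rg → ℕ} (hs : s .cn = x.length + 1) (a : ℕ) (X : Exp Rg) :
    (accX C a X).eval x C.cc s = if Dp.Acc C x (upk (b8 C a x) (X.eval x C.cc s)) then 1 else 0 := by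
  have h0 := ev_upkE x C.cc s (bE C a .cn) X
  rw [eval_bE C hs] at h0
  unfold accX
  generalize upkE (bE C a .cn) X = t at h0 ⊢
  rw [← h0, eval_ifE]
  simp only [Cnd.holds, eval_div, eval_one, eval_zero, eval_NE C hs, Nat.one_le_iff_ne_zero, Dp.Acc,
    E8.ev]
  have h1 := Nat.mod_lt (t.z.eval x C.cc s % NN C x) C.K_pos
  have h2 := C.cc_lt (cell x (min (t.z.eval x C.cc s % NN C x / C.K) (x.length + 1)))
  have h3 : (Exp.tab (fun i => C.tA (i % C.K) (C.dc (i / C.K))) (C.K * C.K)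
      (C.idxE (t.z % NE C .cn))).eval x C.cc s = C.tA (t.z.eval x C.cc s % NN C x % C.K)
        (cell x (min (t.z.eval x C.cc s % NN C x / C.K) (x.length + 1))) := by
    simp only [Cd.eval_tab, C.eval_idxE hs, eval_mod, eval_NE C hs, if_pos (C.idx_lt h1 h2),
      C.idx_mod h1, C.idx_div h1, C.dc_cc]
  rw [h3]
  have h4 := C.tA_le (t.z.eval x C.cc s % NN C x % C.K)
    (cell x (min (t.z.eval x C.cc s % NN C x / C.K) (x.length + 1)))
  split_ifs with h5 h6 h6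
  · exact h6.2.2
  · have h7 : C.tA (t.z.eval x C.cc s % NN C x % C.K)
        (cell x (min (t.z.eval x C.cc s % NN C x / C.K) (x.length + 1))) ≠ 1 :=
      fun h => h6 ⟨h5.1, h5.2, h⟩
    omega
  · exact absurd ⟨h6.1, h6.2.1⟩ h5
  · rfl

end

end Pool.Agent.Lib.MP_9277c3_lc.NS
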