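import Pool.Agent.Lib.MP_9277c3_lc.NS.Core
import Pool.Agent.Lib.MP_9277c3_lc.NS.Ops
import Pool.Agent.Lib.MP_9277c3_lc.NS.PkE
import Pool.Agent.Lib.MP_9277c3_lc.NS.Main
import Pool.Agent.Lib.MP_9277c3_lc.NS.BndOK

section
/-!
# The scheme on `Fin N` of a scheme on the numbers

All functions are reduced modulo `N`. If all functions of the scheme on the numbers map numbers
below `N` to numbers below `N`, the values of the two schemes agree.
-/
namespace Pool.Agent.Lib.MP_9277c3_lc.NS

namespace Scheme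

/-- The scheme on `Fin N` of a scheme on the numbers. -/
def red (S : Scheme ℕ) (N : ℕ) (hN : 0 < N) : Scheme (Fin N) where
  K := S.K
  V0 x := ⟨S.V0 x.val % N, Nat.mod_lt _ hN⟩
  ini x := ⟨S.ini x.val % N, Nat.mod_lt _ hN⟩
  out x := ⟨S.out x.val % N, Nat.mod_lt _ hN⟩
  arg j x := ⟨S.arg j x.val % N, Nat.mod_lt _ hN⟩
  upd j x v := ⟨S.upd j x.val v.val % N, Nat.mod_lt _ hN⟩

/-- The functions of the scheme keep the numbers below `N`. -/
structure Below (S : Scheme ℕ) (N : ℕ) : Prop where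
  V0 : ∀ x, x < N → S.V0 x < N
  ini : ∀ x, x < N → S.ini x < N
  out : ∀ x, x < N → S.out x < N
  arg : ∀ j x, x < N → S.arg j x < N
  upd : ∀ j x v, x < N → v < N → S.upd j x v < N

section

variable {S : Scheme ℕ} {N : ℕ} (hN : 0 < N) (h : Below S N)

include h

theorem rounds_below {F : ℕ → ℕ} (hF : ∀ x, x < N → F x < N) :
    ∀ i j s, s < N → S.rounds F i j s < N
  | 0, _, _, hs => hs
  | i + 1, j, s, hs =>
    rounds_below hF i (j + 1) _ (h.upd j s _ hs (hF _ (h.arg j s hs)))

theorem val_below : ∀ t x, x < N → S.val t x < N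
  | 0, x, hx => h.V0 x hx
  | t + 1, x, hx => h.out _ (rounds_below h (val_below t) _ _ _ (h.ini x hx))

theorem rounds_red {F : ℕ → ℕ} {F' : Fin N → Fin N} (hF : ∀ x : Fin N, (F' x).val = F x.val) :
    ∀ i j (s : Fin N), ((S.red N hN).rounds F' i j s).val = S.rounds F i j s.val
  | 0, _, _ => rfl
  | i + 1, j, s => by
    have e1 : ((S.red N hN).arg j s).val = S.arg j s.val :=
      Nat.mod_eq_of_lt (h.arg j _ s.isLt)
    have e2 : (F' ((S.red N hN).arg j s)).val = F (S.arg j s.val) := by rw [hF, e1]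
    have hlt : F (S.arg j s.val) < N := by rw [← e2]; exact Fin.isLt _
    have e3 : ((S.red N hN).upd j s (F' ((S.red N hN).arg j s))).val =
        S.upd j s.val (F (S.arg j s.val)) := by
      change S.upd j s.val (F' ((S.red N hN).arg j s)).val % N = _
      rw [e2]
      exact Nat.mod_eq_of_lt (h.upd j _ _ s.isLt hlt)
    change ((S.red N hN).rounds F' i (j + 1) _).val = S.rounds F i (j + 1) _
    rw [rounds_red hF i (j + 1), e3]

/-- The values agree. -/
theorem val_red_fin : ∀ t (x : Fin N), ((S.red N hN).val t x).val = S.val t x.val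
  | 0, x => Nat.mod_eq_of_lt (h.V0 _ x.isLt)
  | t + 1, x => by
    have e1 : ((S.red N hN).ini x).val = S.ini x.val := Nat.mod_eq_of_lt (h.ini _ x.isLt)
    have e2 := rounds_red hN h (val_red_fin t) S.K 0 ((S.red N hN).ini x)
    rw [e1] at e2
    change S.out ((S.red N hN).rounds ((S.red N hN).val t) S.K 0 ((S.red N hN).ini x)).val % N = _
    rw [e2]
    exact Nat.mod_eq_of_lt (h.out _ (rounds_below h (val_below h t) _ _ _ (h.ini _ x.isLt)))

theorem val_red (t x : ℕ) (hx : x < N) : ((S.red N hN).val t ⟨x, hx⟩).val = S.val t x :=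
  val_red_fin hN h t ⟨x, hx⟩

end

/-- If the values are below `N`, the test may be stated on the numbers. -/
theorem acc_red {S : Scheme ℕ} {N : ℕ} (hN : 0 < N) (h : Below S N) (acc : ℕ → Prop) (t x : ℕ)
    (hx : x < N) : acc ((S.red N hN).val t ⟨x, hx⟩).val ↔ acc (S.val t x) := by
  rw [val_red hN h t x hx]

theorem red_K (S : Scheme ℕ) (N : ℕ) (hN : 0 < N) : (S.red N hN).K = S.K := rfl

end Scheme

end Pool.Agent.Lib.MP_9277c3_lc.NS
end

section
/-!
# D3: the operations for the functions of the scheme and for the test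
-/
set_option autoImplicit false

namespace Pool.Agent.Lib.MP_9277c3_lc.NS

open CM NC Dp

section

variable {α : Type} {M : DPDA α} (C : Cd M)

/-- The scheme on the codes for the input `x`, with values below `N`. -/
noncomputable def schX (a : ℕ) (x : List α) (N : ℕ) (hN : 0 < N) : Scheme (Fin N) :=
  (schN (b8 C a x) (timed (NN C x) (C.sys x))).red N hN

/-- The test. -/
def accXP (a : ℕ) (x : List α) {N : ℕ} (y : Fin N) : Prop := Dp.Acc C x (upk (b8 C a x) y)

section

variable {Y : Type} (y₀ : Y)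

/-- The register of the input length. -/
abbrev lenR : CR ⊕ OL Y := Sum.inr (OL.ex y₀)

/-- Names of the registers: the constant, and the argument in `r`. -/
def sg (r : CR) : Rg → CR ⊕ OL Y
  | .cn => lenR y₀
  | _ => Sum.inl r

/-- The programs for the functions of the scheme. -/
noncomputable def schP {F : Type} (a : ℕ) : OF → NStmt (CR ⊕ OL Y) F
  | .arg => asg (Sum.inl .a) (argE (bE C a (lenR y₀)) (vl .w) % vr .rN)
  | .upd => asg (Sum.inl .w) (updE (bE C a (lenR y₀)) (vl .w) (vl .v) % vr .rN)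
  | .ini => asg (Sum.inl .w) (vl .a % vr .rN)
  | .out => asg (Sum.inl .v) (vl .w % vr .rN)
  | .v0 => asg (Sum.inl .v) (renE (sg y₀ .a) (V0X C a (Exp.var Rg.a)) % vr .rN)
  | .test => lf (failE (1 - renE (sg y₀ .v) (accX C a (Exp.var Rg.a))))
  | _ => Stmt.skip

end

section

variable {Y : Type} (y₀ : Y)

variable {C} {x : List α} {s : CR ⊕ OL Y → ℕ} (hs : s (lenR y₀) = x.length + 1) {N : ℕ}
  (hn : s (Sum.inr .rN) = N) (a : ℕ)

include hs

omit hs in
theorem eval_copy {c : CR} {y : ℕ} (hn : s (Sum.inr .rN) = N) (hy : s (Sum.inl c) = y) :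
    ((vl c : Exp (CR ⊕ OL Y)) % vr .rN).eval x C.cc s = y % N := by
  rw [eval_mod, eval_var, eval_var, hn, hy]

include hn

theorem eval_argO {y : ℕ} (hw : s (Sum.inl .w) = y) :
    (argE (bE C a (lenR y₀)) (vl .w) % vr .rN).eval x C.cc s =
      pk (b8 C a x) (arg (upk (b8 C a x) y)) % N := by
  rw [eval_mod, eval_argE, eval_bE C hs, eval_var, eval_var, hn, hw]

theorem eval_updO {y z : ℕ} (hw : s (Sum.inl .w) = y) (hv : s (Sum.inl .v) = z) :
    (updE (bE C a (lenR y₀)) (vl .w) (vl .v) % vr .rN).eval x C.cc s =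
      pk (b8 C a x) (Dp.upd (upk (b8 C a x) y) (upk (b8 C a x) z)) % N := by
  rw [eval_mod, eval_updE, eval_bE C hs, eval_var, eval_var, eval_var, hn, hw, hv]

theorem eval_v0O {y : ℕ} (hw : s (Sum.inl .a) = y) :
    (renE (sg y₀ .a) (V0X C a (Exp.var Rg.a)) % vr .rN).eval x C.cc s =
      pk (b8 C a x) (V0 (timed (NN C x) (C.sys x)) (upk (b8 C a x) y)) % N := by
  rw [eval_mod, eval_renE, eval_V0X C (x := x) (s := fun q => s (sg y₀ .a q)) hs, eval_var, eval_var,
    hn]
  simp only [sg, hw]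

end

open Classical in
theorem eval_testO {Y : Type} (y₀ : Y) {C : Cd M} {x : List α} {s : CR ⊕ OL Y → ℕ}
    (hs : s (lenR y₀) = x.length + 1) (a : ℕ) {y : ℕ} (hv : s (Sum.inl .v) = y) :
    (1 - renE (sg y₀ .v) (accX C a (Exp.var Rg.a))).eval x C.cc s =
      1 - if Dp.Acc C x (upk (b8 C a x) y) then 1 else 0 := by
  rw [eval_sub, eval_one, eval_renE, eval_accX C (x := x) (s := fun q => s (sg y₀ .v q)) hs, eval_var]
  simp only [sg, hv]

variable {Y : Type} {y₀ : Y} {pv : Y → ℕ} {b g : ℕ} {F : Type} {x : List α} {A k B T : ℕ} {hN : 0 < b ^ g}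
variable {body : F → NStmt (CR ⊕ OL Y) F}

/-- The specifications of the functions of the scheme and of the test. -/
theorem schOps (hp : pv y₀ = x.length + 1) (hA : b ^ g ≤ A) (hA2 : 2 ≤ A) (a : ℕ) :
    SchOps x C.cc A body (mkP (schX C a x (b ^ g) hN) B T (accXP C a x) hN)
      (RepO pv (schX C a x (b ^ g) hN).K B T) (schP C y₀ a) k where
  arg _ _ y _ hw := tr_asg (n := ((schX C a x (b ^ g) hN).arg 0 y).val)
    (eval_argO y₀ hp rfl a hw) ((Fin.isLt _).trans_le hA)
  upd _ _ y z _ hw hv := tr_asg (n := ((schX C a x (b ^ g) hN).upd 0 y z).val)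
    (eval_updO y₀ hp rfl a hw hv) ((Fin.isLt _).trans_le hA)
  ini _ _ y hw := tr_asg (n := ((schX C a x (b ^ g) hN).ini y).val)
    (eval_copy rfl hw) ((Fin.isLt _).trans_le hA)
  out _ _ y hw := tr_asg (n := ((schX C a x (b ^ g) hN).out y).val)
    (eval_copy rfl hw) ((Fin.isLt _).trans_le hA)
  v0 _ _ y hw := tr_asg (n := ((schX C a x (b ^ g) hN).V0 y).val)
    (eval_v0O y₀ hp rfl a hw) ((Fin.isLt _).trans_le hA)
  test _ _ y hv := by
    let : Decidable (¬(mkP (schX C a x (b ^ g) hN) B T (accXP C a x) hN).acc y) :=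
      Classical.propDecidable _
    refine tr_fail (eval_testO y₀ hp a hv) hA2 ?_
    show _ ↔ ¬accXP C a x y
    unfold accXP
    split_ifs with h <;> simp [h]

end

end Pool.Agent.Lib.MP_9277c3_lc.NS
end

section
/-!
# D3: the operations, with the negated test

For the complement of the language.
-/
set_option autoImplicit false

namespace Pool.Agent.Lib.MP_9277c3_lc.NS

open CM NC Dp

section

variable {α : Type} {M : DPDA α} (C : Cd M)

/-- The programs for the functions of the scheme, with the negated test. -/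
noncomputable def schPN {Y : Type} (y₀ : Y) {F : Type} (a : ℕ) : OF → NStmt (CR ⊕ OL Y) F
  | .test => lf (failE (renE (sg y₀ .v) (accX C a (Exp.var Rg.a))))
  | o => schP C y₀ a o

open Classical in
theorem eval_testN {Y : Type} (y₀ : Y) {C : Cd M} {x : List α} {s : CR ⊕ OL Y → ℕ}
    (hs : s (lenR y₀) = x.length + 1) (a : ℕ) {y : ℕ} (hv : s (Sum.inl .v) = y) :
    (renE (sg y₀ .v) (accX C a (Exp.var Rg.a))).eval x C.cc s =
      if Dp.Acc C x (upk (b8 C a x) y) then 1 else 0 := by
  rw [eval_renE, eval_accX C (x := x) (s := fun q => s (sg y₀ .v q)) hs, eval_var]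
  simp only [sg, hv]


variable {Y : Type} {y₀ : Y} {pv : Y → ℕ} {b g : ℕ} {F : Type} {x : List α} {A k B T : ℕ} {hN : 0 < b ^ g}
variable {body : F → NStmt (CR ⊕ OL Y) F}

/-- The specifications of the functions of the scheme and of the negated test. -/
theorem schOpsN (hp : pv y₀ = x.length + 1) (hA : b ^ g ≤ A) (hA2 : 2 ≤ A) (a : ℕ) :
    SchOps x C.cc A body (mkP (schX C a x (b ^ g) hN) B T (fun y => ¬accXP C a x y) hN)
      (RepO pv (schX C a x (b ^ g) hN).K B T) (schPN C y₀ a) k where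
  arg := (schOps C (body := body) (k := k) (B := B) (T := T) (hN := hN) hp hA hA2 a).arg
  upd := (schOps C (body := body) (k := k) (B := B) (T := T) (hN := hN) hp hA hA2 a).upd
  ini := (schOps C (body := body) (k := k) (B := B) (T := T) (hN := hN) hp hA hA2 a).ini
  out := (schOps C (body := body) (k := k) (B := B) (T := T) (hN := hN) hp hA hA2 a).out
  v0 := (schOps C (body := body) (k := k) (B := B) (T := T) (hN := hN) hp hA hA2 a).v0
  test _ _ y hv := by
    let : Decidable (¬(mkP (schX C a x (b ^ g) hN) B T (fun y => ¬accXP C a x y) hN).acc y) :=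
      Classical.propDecidable _
    refine tr_fail (eval_testN y₀ hp a hv) hA2 ?_
    show _ ↔ ¬¬accXP C a x y
    unfold accXP
    split_ifs with h <;> simp [h]

end

end Pool.Agent.Lib.MP_9277c3_lc.NS
end

section
/-!
# The recursion on the codes agrees with the recursion on the states
-/
set_option autoImplicit false

namespace Pool.Agent.Lib.MP_9277c3_lc.NS.PkV

open CM Dp

/-- All components are below `b`. -/
structure Bd (b : ℕ) (s : X8) : Prop where
  tag : s.tag < b
  y : s.y < b
  w : s.w < b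
  e : s.e < b
  m : s.m < b
  z : s.z < b
  a : s.a < b
  b : s.b < b

section

variable {b : ℕ}

theorem bd_upk (hb : 0 < b) (x : ℕ) : Bd b (upk b x) := by
  constructor <;> exact Nat.mod_lt _ hb

theorem digit {u v : ℕ} (hu : u < b) : (u + b * v) % b = u ∧ (u + b * v) / b = v := by
  constructor
  · rw [Nat.add_mul_mod_self_left, Nat.mod_eq_of_lt hu]
  · rw [Nat.add_mul_div_left _ _ (by omega), Nat.div_eq_of_lt hu, Nat.zero_add]

theorem upk_pk {s : X8} (h : Bd b s) : upk b (pk b s) = s := by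
  obtain ⟨tag, y, w, e, m, z, a, b'⟩ := s
  obtain ⟨h1, h2, h3, h4, h5, h6, h7, h8⟩ := h
  simp only at h1 h2 h3 h4 h5 h6 h7 h8
  simp only [upk, pk, (digit h1).1, (digit h1).2, (digit h2).1, (digit h2).2, (digit h3).1,
    (digit h3).2, (digit h4).1, (digit h4).2, (digit h5).1, (digit h5).2, (digit h6).1,
    (digit h6).2, (digit h7).1, (digit h7).2, Nat.mod_eq_of_lt h8]

theorem digit_lt {u v k : ℕ} (hu : u < b) (hv : v < b ^ k) : u + b * v < b ^ (k + 1) := by
  have h : b * (v + 1) ≤ b * b ^ k := Nat.mul_le_mul_left _ hv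
  rw [pow_succ']
  nlinarith

theorem pk_lt {s : X8} (h : Bd b s) : pk b s < b ^ 8 := by
  have h8 : s.b < b ^ 1 := by
    rw [pow_one]
    exact h.b
  exact digit_lt h.tag (digit_lt h.y (digit_lt h.w (digit_lt h.e (digit_lt h.m (digit_lt h.z
    (digit_lt h.a h8))))))

theorem bd_arg (hb : 12 < b) {s : X8} (h : Bd b s) : Bd b (arg s) := by
  obtain ⟨h1, h2, h3, h4, h5, h6, h7, h8⟩ := h
  unfold Dp.arg
  split_ifs <;> constructor <;> first | assumption | (simp only; omega)

theorem bd_upd (hb : 12 < b) {s v : X8} (h : Bd b s) (h' : Bd b v) : Bd b (upd s v) := by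
  obtain ⟨h1, h2, h3, h4, h5, h6, h7, h8⟩ := h
  obtain ⟨g1, g2, g3, g4, g5, g6, g7, g8⟩ := h'
  unfold Dp.upd
  split_ifs with c1 c2 c3 c4 <;> constructor <;> first | assumption | (simp only; omega)

/-- The system keeps the numbers below `b`. -/
structure SysBd (S : Sys) (b : ℕ) : Prop where
  nx : ∀ v, v < b → S.nx v < b
  kont : ∀ v r, v < b → r < b → S.kont v r < b

variable {S : Sys}

theorem bd_V0 (hb : 12 < b) (hS : SysBd S b) {s : X8} (h : Bd b s) : Bd b (V0 S s) := by
  have e1 := hS.nx _ h.y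
  have e2 := hS.kont _ _ h.e h.z
  obtain ⟨h1, h2, h3, h4, h5, h6, h7, h8⟩ := h
  unfold Dp.V0
  split_ifs <;> constructor <;> first | assumption | (simp only; omega)

theorem bd_iter {F : X8 → X8} (hb : 12 < b) (hF : ∀ s, Bd b s → Bd b (F s)) :
    ∀ (i : ℕ) (s : X8), Bd b s → Bd b ((D F)^[i] s)
  | 0, _, h => h
  | i + 1, s, h => bd_iter hb hF i _ (bd_upd hb h (hF _ (bd_arg hb h)))

theorem bd_val (hb : 12 < b) (hS : SysBd S b) : ∀ (t : ℕ) (s : X8), Bd b s → Bd b (val S t s)
  | 0, _, h => bd_V0 hb hS h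
  | t + 1, s, h => bd_iter hb (bd_val hb hS t) 5 s h

theorem rounds_pk {F : ℕ → ℕ} {F' : X8 → X8} (hb : 12 < b) (hF' : ∀ s, Bd b s → Bd b (F' s))
    (hF : ∀ s, Bd b s → F (pk b s) = pk b (F' s)) :
    ∀ (i j : ℕ) (s : X8), Bd b s → (schN b S).rounds F i j (pk b s) = pk b ((D F')^[i] s)
  | 0, _, _, _ => rfl
  | i + 1, j, s, h => by
    have h1 := bd_arg hb h
    have h2 := hF' _ h1
    have e : (schN b S).upd j (pk b s) (F ((schN b S).arg j (pk b s))) = pk b (D F' s) := by
      show pk b (Dp.upd (upk b (pk b s)) (upk b (F (pk b (Dp.arg (upk b (pk b s))))))) = _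
      rw [upk_pk h, hF _ h1, upk_pk h2]
      rfl
    show (schN b S).rounds F i (j + 1) _ = pk b ((D F')^[i] (D F' s))
    rw [e]
    exact rounds_pk hb hF' hF i (j + 1) _ (bd_upd hb h h2)

/-- The values on the codes. -/
theorem val_pk (hb : 12 < b) (hS : SysBd S b) : ∀ (t : ℕ) (s : X8), Bd b s →
    (schN b S).val t (pk b s) = pk b (val S t s)
  | 0, s, h => by
    show pk b (V0 S (upk b (pk b s))) = _
    rw [upk_pk h]
    rfl
  | t + 1, s, h => rounds_pk hb (bd_val hb hS t) (val_pk hb hS t) 5 0 s h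

theorem below (hb : 12 < b) (hS : SysBd S b) {N : ℕ} (hN : b ^ 8 ≤ N) :
    Scheme.Below (schN b S) N where
  V0 x _ := (pk_lt (bd_V0 hb hS (bd_upk (by omega) x))).trans_le hN
  ini _ h := h
  out _ h := h
  arg _ x _ := (pk_lt (bd_arg hb (bd_upk (by omega) x))).trans_le hN
  upd _ x v _ _ := (pk_lt (bd_upd hb (bd_upk (by omega) x) (bd_upk (by omega) v))).trans_le hN

end

section

variable {α : Type} {M : DPDA α} (C : Cd M)

theorem b8_gt (a : ℕ) (x : List α) : 12 < b8 C a x := by
  have h1 : 64 ≤ C.K := by unfold Cd.K; omega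
  have h2 : C.K * 3 ≤ C.K * (x.length + 3) := Nat.mul_le_mul_left _ (by omega)
  have h3 : NN C x * 1 ≤ NN C x * (TT a x + 1) := Nat.mul_le_mul_left _ (by omega)
  unfold b8
  unfold NN at *
  omega

theorem sysBd (a : ℕ) (x : List α) : SysBd (timed (NN C x) (C.sys x)) (b8 C a x) where
  nx v hv := by
    have hcl : Sys.Closed (C.sys x) (NN C x) := C.closed x
    have hN := closed_pos hcl
    have h1 : v / NN C x < TT a x + 1 := by
      rw [Nat.div_lt_iff_lt_mul hN, Nat.mul_comm]
      exact hv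
    have h2 : 0 < b8 C a x := by
      have := b8_gt C a x
      omega
    simp only [timed]
    split_ifs with h
    · exact h2
    · have h3 := hcl.nx (v % NN C x)
      have h4 : NN C x * (v / NN C x - 1 + 1) ≤ NN C x * (TT a x + 1) :=
        Nat.mul_le_mul_left _ (by omega)
      unfold b8
      nlinarith
  kont v r _ hr := by
    have hcl : Sys.Closed (C.sys x) (NN C x) := C.closed x
    have hN := closed_pos hcl
    have h1 : r / NN C x < TT a x + 1 := by
      rw [Nat.div_lt_iff_lt_mul hN, Nat.mul_comm]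
      exact hr
    simp only [timed]
    have h3 := hcl.kont (v % NN C x) (r % NN C x)
    have h4 : NN C x * (r / NN C x + 1) ≤ NN C x * (TT a x + 1) :=
      Nat.mul_le_mul_left _ (by omega)
    unfold b8
    nlinarith

theorem bd_req (a : ℕ) (x : List α) (T : ℕ) : Bd (b8 C a x) (req T (start C a x)) := by
  have hcl : Sys.Closed (C.sys x) (NN C x) := C.closed x
  have h0 := b8_gt C a x
  have h1 : C.code (some M.start) 1 [M.bottom] < NN C x := C.code_lt (by omega)
  have h2 : start C a x < b8 C a x := by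
    unfold start b8
    nlinarith
  have h3 : 2 + 2 * (T % 2) < b8 C a x := by omega
  constructor <;> first | exact h3 | exact h2 | (show 0 < b8 C a x; omega)

/-- **The value of the scheme on the codes.** -/
theorem x0_lt (a : ℕ) (x : List α) (T : ℕ) {N : ℕ} (h : b8 C a x ^ 8 ≤ N) :
    pk (b8 C a x) (req T (start C a x)) < N := (pk_lt (bd_req C a x T)).trans_le h

theorem accXP_iff (a : ℕ) (x : List α) (T : ℕ) {N : ℕ} (hN : 0 < N) (h : b8 C a x ^ 8 ≤ N) :
    accXP C a x ((schX C a x N hN).val T ⟨pk (b8 C a x) (req T (start C a x)), x0_lt C a x T h⟩) ↔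
      Dp.Acc C x (val (timed (NN C x) (C.sys x)) T (req T (start C a x))) := by
  have hb := b8_gt C a x
  have hS := sysBd C a x
  have hr := bd_req C a x T
  unfold accXP schX
  rw [Scheme.val_red hN (below hb hS h) T _ (x0_lt C a x T h), val_pk hb hS T _ hr,
    upk_pk (bd_val hb hS T _ hr)]

end

end Pool.Agent.Lib.MP_9277c3_lc.NS.PkV
end

section
/-!
# The machine for a test of the value of the recursion for a deterministic pushdown automaton

`exists_machineX`: the test and its program are arbitrary.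
-/
set_option autoImplicit false
set_option linter.constructorNameAsVariable false

namespace Pool.Agent.Lib.MP_9277c3_lc

/-- More space may be allowed. -/
theorem NTM.AcceptsIn.mono {α : Type} {A : NTM α} {L : List α → Prop} {s t : ℕ → ℕ}
    (h : A.AcceptsIn L s) (hst : ∀ n, s n ≤ t n) : A.AcceptsIn L t := fun x =>
  ⟨(h x).1, (h x).2.1, fun c hc j => ((h x).2.2 c hc j).trans_le (hst _)⟩

namespace NS

open CM NC CL Dp

section

variable {α : Type} {M : DPDA α} (C : Cd M)

/-- The parameter of the sizes. -/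
def kap (a : ℕ) : ℕ := C.K + a + 1

theorem kap_ge (a : ℕ) : 64 ≤ kap C a := by
  unfold kap Cd.K
  omega

theorem cc_le_kap (a : ℕ) (d : Cell α) : C.cc d ≤ kap C a := by
  have := C.cc_lt d
  unfold kap
  omega

/-- The number of values is large enough for the codes. -/
theorem b8_pow_le (a : ℕ) (x : List α) :
    b8 C a x ^ 8 ≤ TP (kap C a) x.length ^ ng (kap C a) x.length := by
  have h := radix_le (n := x.length) (K₀ := C.K) (a := a) (kap_ge C a)
    (by unfold kap; omega) (by unfold kap; omega)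
  exact h

/-- The initial value. -/
noncomputable def x0N (a : ℕ) (x : List α) : ℕ :=
  pk (b8 C a x) (req (nT (2 * a + 1) (kap C a) x.length) (start C a x))

/-- The expression for the initial value. -/
noncomputable def startR (a : ℕ) : Exp Rg :=
  startX C a Rg.cn (Exp.lit (2 * a + 1) * (Exp.var .cT * Exp.var .cT) - 1)

theorem eval_startR (a : ℕ) (x : List α) :
    (startR C a).eval x C.cc (CL.initS 0 (kap C a) x.length) = x0N C a x := by
  have h : (CL.initS 0 (kap C a) x.length) Rg.cn = x.length + 1 := rfl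
  rw [startR, eval_startX C h]
  rfl

/-- **The machine for a test of the value.** -/
theorem exists_machineX [Finite α] (a : ℕ) (sch : OF → NStmt (CR ⊕ OL Rg) CF) :
    ∃ c : ℕ, ∀ (L : List α → Prop) (acc : ∀ (x : List α) (N : ℕ), Fin N → Prop)
      (hlt : ∀ x : List α, x0N C a x < TP (kap C a) x.length ^ ng (kap C a) x.length)
      (_hs : ∀ (x : List α) (b g B T A k : ℕ) (body : CF → NStmt (CR ⊕ OL Rg) CF)
        (pv : Rg → ℕ) (hN : 0 < b ^ g), pv .cn = x.length + 1 → b ^ g ≤ A → 2 ≤ A →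
        SchOps x C.cc A body (mkP (schX C a x (b ^ g) hN) B T (acc x (b ^ g)) hN)
          (RepO pv (schX C a x (b ^ g) hN).K B T) sch k)
      (_hL : ∀ x : List α, L x ↔ acc x (TP (kap C a) x.length ^ ng (kap C a) x.length)
        ((schX C a x _ (posN (kap_ge C a) x.length)).val (nT (2 * a + 1) (kap C a) x.length)
          ⟨x0N C a x, hlt x⟩)),
      ∃ A : NTM α, (A.AcceptsIn L fun n =>
        c * (Nat.log 2 (n + 2) * (Nat.sqrt (Nat.log 2 (n + 2)) + 1))) ∧ A.Unambiguous := by
  have : Finite Rg := by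
    refine Finite.of_injective (β := Fin 64) (fun r => ⟨r.ctorIdx % 64, Nat.mod_lt _ (by norm_num)⟩)
      fun r r' h => ?_
    cases r <;> cases r' <;> first | rfl | (simp [Rg.ctorIdx] at h)
  obtain ⟨c₀, hc₀⟩ := exists_machineO (Y := Rg) C.cc 5 sch
    (iniO CF.seg (kap C a) (2 * a + 1) 5 (startR C a))
  refine ⟨c₀ * ((1000 * ((2 * a + 1) + 1) + 28 * (2 * a + 1) + 0 + 1) *
    (2 * (5 * Nat.log 2 (kap C a) + 22) ^ 2)), fun L acc hlt hs hL => ?_⟩
  have hκ := kap_ge C a
  have hc : 1 ≤ 2 * a + 1 := by omega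
  obtain ⟨A, hA, hU⟩ := hc₀ L (fun n => nA (2 * a + 1) (kap C a) n)
    (fun n => 7 * (nT (2 * a + 1) (kap C a) n + 1)) (fun n => two_le_nA hκ) fun x => ⟨{
      b := TP (kap C a) x.length
      g := ng (kap C a) x.length
      B := TP (kap C a) x.length
      T := nT (2 * a + 1) (kap C a) x.length
      hN := posN hκ x.length
      S := schX C a x _ (posN hκ x.length)
      acc := acc x _
      pv := CL.initS 0 (kap C a) x.length
      x₀ := ⟨x0N C a x, hlt x⟩
      k₀ := 0
      hK := rfl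
      hK1 := by
        show 1 ≤ 5
        norm_num
      bnd := bndOK hc hκ x.length
      two := two_powN _ _
      hA := nT_lt_A hc hκ x.length
      hk := by
        show 0 + _ * (5 + 2) ≤ _
        omega
      hT := isTopT hc hκ x.length
      sops := hs x _ _ _ _ _ _ _ _ _ rfl (by
        have h1 : nN (kap C a) x.length ^ 1 ≤ nA (2 * a + 1) (kap C a) x.length :=
          nN_pow_le' hκ (by norm_num)
        rw [pow_one] at h1
        exact h1) (two_le_nA hκ)
      init := fun u => ⟨iniCR (TP (kap C a) x.length) (nT (2 * a + 1) (kap C a) x.length) 5, u,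
        (run_iniO CF.seg hc hκ rfl (fun d => by simp [Cd.cc]) (cc_le_kap C a) le_rfl
          (by have := nT_lt_A hc hκ x.length; omega) (posN hκ x.length) ⟨x0N C a x, hlt x⟩
          (eval_startR C a x) (isTopT hc hκ x.length) 5 u u).mono (Nat.zero_le _),
        rfl, rfl, rfl, rfl⟩
      acc_iff := hL x }⟩
  refine ⟨A, hA.mono fun n => ?_, hU⟩
  exact space_le hc hκ c₀ 0

end

end NS

end Pool.Agent.Lib.MP_9277c3_lc
end

section
/-!
# One-way deterministic pushdown automata and unambiguous machines in space `(log n) ^ (3 / 2)`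
-/
set_option autoImplicit false

namespace Pool.Agent.Lib.MP_9277c3_lc.NS

open CM NC CL Dp

variable {α : Type}

/-- The machines for the language and for its complement. -/
theorem exists_machines [Finite α] {M : DPDA α} (C : Cd M) (a : ℕ)
    (hlt : ∀ x : List α, x0N C a x < TP (kap C a) x.length ^ ng (kap C a) x.length)
    (hL : ∀ x : List α, M.Accepts x ↔ accXP C a x
        ((schX C a x _ (posN (kap_ge C a) x.length)).val (nT (2 * a + 1) (kap C a) x.length)
          ⟨x0N C a x, hlt x⟩)) :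
    ∃ (c : ℕ) (A₁ A₂ : NTM α),
      (A₁.AcceptsIn M.Accepts fun n =>
        c * (Nat.log 2 (n + 2) * (Nat.sqrt (Nat.log 2 (n + 2)) + 1))) ∧ A₁.Unambiguous ∧
      (A₂.AcceptsIn (fun x => ¬M.Accepts x) fun n =>
        c * (Nat.log 2 (n + 2) * (Nat.sqrt (Nat.log 2 (n + 2)) + 1))) ∧ A₂.Unambiguous := by
  obtain ⟨c₁, h₁⟩ := exists_machineX C a (schP C Rg.cn a)
  obtain ⟨c₂, h₂⟩ := exists_machineX C a (schPN C Rg.cn a)
  obtain ⟨A₁, hA₁, hU₁⟩ := h₁ M.Accepts (fun x N y => accXP C a x y) hlt
    (fun x b g B T A k body pv hN h1 h2 h3 => schOps C h1 h2 h3 a) hL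
  obtain ⟨A₂, hA₂, hU₂⟩ := h₂ (fun x => ¬M.Accepts x) (fun x N y => ¬accXP C a x y) hlt
    (fun x b g B T A k body pv hN h1 h2 h3 => schOpsN C h1 h2 h3 a) (fun x => not_congr (hL x))
  exact ⟨c₁ + c₂, A₁, A₂, hA₁.mono fun n => Nat.mul_le_mul_right _ (Nat.le_add_right _ _), hU₁,
    hA₂.mono fun n => Nat.mul_le_mul_right _ (Nat.le_add_left _ _), hU₂⟩

/-- **Every one-way deterministic pushdown automaton language and its complement are accepted by
unambiguous nondeterministic Turing machines in space `O((log n) ^ (3 / 2))`.** -/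
theorem dpda_unambiguous (α : Type) [Finite α] (M : DPDA α)
    (hM : ∀ q c X q' mv β, M.next q c X = some (q', mv, β) → mv ≠ Move.left) :
    ∃ (c : ℕ) (A₁ A₂ : NTM α),
      (A₁.AcceptsIn M.Accepts fun n =>
        c * (Nat.log 2 (n + 2) * (Nat.sqrt (Nat.log 2 (n + 2)) + 1))) ∧ A₁.Unambiguous ∧
      (A₂.AcceptsIn (fun x => ¬M.Accepts x) fun n =>
        c * (Nat.log 2 (n + 2) * (Nat.sqrt (Nat.log 2 (n + 2)) + 1))) ∧ A₂.Unambiguous := by
  obtain ⟨C⟩ := exists_Cd M
  obtain ⟨a, ha⟩ := accepts_iff_val C hM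
  refine exists_machines C a (fun x => PkV.x0_lt C a x _ (b8_pow_le C a x)) fun x => ?_
  rw [ha x (nT (2 * a + 1) (kap C a) x.length) (top_ge (kap_ge C a) a)]
  exact (PkV.accXP_iff C a x _ _ (b8_pow_le C a x)).symm

end Pool.Agent.Lib.MP_9277c3_lc.NS
end
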