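import Mathlib

/-!
# Verified storage in dirty registers: the abstract engine

A recursion scheme `S` defines functions `S.val t : X → X` (`t` levels, on each level a chain of
`S.K` calls of the next lower level). The relation `Run` describes the completed computations of a
nondeterministic procedure which evaluates `S.val t`, with registers whose contents are elements of
a group `Om`; each level has its own registers, and the registers are shared by levels at distance
`2 * B`. `run_sound` and `run_complete` are the correctness of the procedure.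
-/

namespace Pool.Agent.Lib.MP_9277c3_lc.NS

open Classical

/-- A recursion scheme. -/
structure Scheme (X : Type) where
  K : ℕ
  V0 : X → X
  ini : X → X
  out : X → X
  arg : ℕ → X → X
  upd : ℕ → X → X → X

namespace Scheme

variable {X : Type} (S : Scheme X)

/-- `i` rounds, from round `j` on, where `F` is called. -/
def rounds (F : X → X) : ℕ → ℕ → X → X
  | 0, _, s => s
  | i + 1, j, s => rounds F i (j + 1) (S.upd j s (F (S.arg j s)))

/-- The function of level `t`. -/
def val : ℕ → X → X
  | 0, x => S.V0 x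
  | t + 1, x => S.out (S.rounds (val t) S.K 0 (S.ini x))

end Scheme

/-- The algebra of the registers. -/
structure Gadget (X : Type) where
  Om : Type
  [grp : AddCommGroup Om]
  r : ℕ
  ev : X → Om →+ ZMod r
  cst : ZMod r →+ Om
  d : X → Om
  ev_cst : ∀ y c, ev y (cst c) = c
  ev_self : ∀ y, ev y (d y) = 0
  sound : ∀ (y : X) (us : List X), us.length ≤ 6 → (us.map fun u => ev y (d u)).sum = 0 →
    ∀ u ∈ us, u = y

attribute [instance] Gadget.grp

section

variable {X : Type} (G : Gadget X)

/-- The registers: position and index. -/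
abbrev Reg : Type := ℕ → ℕ → G.Om

/-- Relations with a parameter in `X`. -/
abbrev Rel : Type := Reg G → X → Reg G → Prop

variable {G}

/-- Add `w` to the register `(p, j)`. -/
noncomputable def addAt (R : Reg G) (p j : ℕ) (w : G.Om) : Reg G :=
  fun q i => if q = p ∧ i = j then R q i + w else R q i

theorem addAt_self (R : Reg G) (p j : ℕ) (w : G.Om) : addAt R p j w p j = R p j + w := by
  simp [addAt]

theorem addAt_ne (R : Reg G) {p q : ℕ} (j : ℕ) (w : G.Om) (h : q ≠ p) : addAt R p j w q = R q := by
  funext i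
  simp [addAt, h]

theorem addAt_ne' (R : Reg G) (p : ℕ) {i j : ℕ} (w : G.Om) (h : i ≠ j) :
    addAt R p j w p i = R p i := by
  simp [addAt, h]

theorem addAt_ne'' (R : Reg G) (p q : ℕ) {i j : ℕ} (w : G.Om) (h : i ≠ j) :
    addAt R p j w q i = R q i := by
  simp [addAt, h]

theorem addAt_add (R : Reg G) (p j : ℕ) (w w' : G.Om) :
    addAt (addAt R p j w) p j w' = addAt R p j (w + w') := by
  funext q i
  by_cases h : q = p ∧ i = j
  · simp [addAt, h, add_assoc]
  · simp [addAt, h]

theorem addAt_comm (R : Reg G) (p j j' : ℕ) (w w' : G.Om) :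
    addAt (addAt R p j w) p j' w' = addAt (addAt R p j' w') p j w := by
  funext q i
  simp only [addAt]
  split_ifs <;> simp [add_right_comm]

theorem addAt_zero (R : Reg G) (p j : ℕ) : addAt R p j 0 = R := by
  funext q i
  simp [addAt]

/-- The relation depends only on the positions in `P`, and changes only these. -/
structure Loc (P : Set ℕ) (rel : Rel G) : Prop where
  frame : ∀ R x R', rel R x R' → ∀ q ∉ P, R' q = R q
  move : ∀ R x R' T, rel R x R' → (∀ q ∈ P, T q = R q) →
    rel T x (fun q => if q ∈ P then R' q else T q)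

/-- The constant. -/
def cstSup (a : X) : Rel G := fun R x R' => x = a ∧ R' = R

theorem loc_cstSup (a : X) (P : Set ℕ) : Loc P (cstSup (G := G) a) := by
  constructor
  · rintro R x R' ⟨rfl, rfl⟩ q _
    rfl
  · rintro R x R' T ⟨rfl, rfl⟩ h
    refine ⟨rfl, ?_⟩
    funext q
    by_cases hq : q ∈ P
    · simp [hq, h q hq]
    · simp [hq]

variable (S : Scheme X)

/-- Use the register `(p, j)`: guess its value `s` and add `d s`. -/
def SupU (G : Gadget X) (p j : ℕ) : Rel G := fun R a R' =>
  ∃ s, a = S.arg j s ∧ R' = addAt R p j (G.d s)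

/-- Use the register `(p, j)` and store the next value in the register `(p, j + 1)`. -/
def ActS (G : Gadget X) (p j : ℕ) (τ : ZMod G.r) : Rel G := fun R v R' =>
  ∃ s, τ = G.ev (S.upd j s v) (R p (j + 1)) ∧
    R' = addAt (addAt R p j (G.d s)) p (j + 1) (-G.cst τ)

/-- Use the register `(p, j)` and check that the next value is stored in the register
`(p, j + 1)`, which has been used `n` times; restore this register. -/
def ActC (G : Gadget X) (p j : ℕ) (τ : ZMod G.r) (n : ℕ) : Rel G := fun R v R' =>
  ∃ s, G.ev (S.upd j s v) (R p (j + 1)) = 0 ∧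
    R' = addAt (addAt R p j (G.d s)) p (j + 1) (G.cst τ - n • G.d (S.upd j s v))

theorem loc_SupU (p j : ℕ) : Loc {p} (SupU S G p j) := by
  constructor
  · rintro R x R' ⟨s, rfl, rfl⟩ q hq
    exact addAt_ne _ _ _ hq
  · rintro R x R' T ⟨s, rfl, rfl⟩ h
    have h0 := h p rfl
    refine ⟨s, rfl, ?_⟩
    funext q i
    by_cases hq : q = p
    · subst hq
      simp [addAt, h0]
    · simp [hq, addAt]

theorem loc_ActS (p j : ℕ) (τ : ZMod G.r) : Loc {p} (ActS S G p j τ) := by
  constructor
  · rintro R x R' ⟨s, _, rfl⟩ q hq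
    rw [addAt_ne _ _ _ hq, addAt_ne _ _ _ hq]
  · rintro R x R' T ⟨s, hτ, rfl⟩ h
    have h0 := h p rfl
    refine ⟨s, by rw [h0]; exact hτ, ?_⟩
    funext q i
    by_cases hq : q = p
    · subst hq
      simp [addAt, h0]
    · simp [hq, addAt]

theorem loc_ActC (p j : ℕ) (τ : ZMod G.r) (n : ℕ) : Loc {p} (ActC S G p j τ n) := by
  constructor
  · rintro R x R' ⟨s, _, rfl⟩ q hq
    rw [addAt_ne _ _ _ hq, addAt_ne _ _ _ hq]
  · rintro R x R' T ⟨s, hτ, rfl⟩ h
    have h0 := h p rfl
    refine ⟨s, by rw [h0]; exact hτ, ?_⟩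
    funext q i
    by_cases hq : q = p
    · subst hq
      simp [addAt, h0]
    · simp [hq, addAt]

/-- The number of uses of a register, if `i` rounds remain. -/
def cnt (i : ℕ) : ℕ := if i = 0 then 1 else 6

variable (run : Rel G → Rel G → Reg G → Reg G → Prop)

/-- The rounds from round `j` on, where `i` rounds remain. -/
def Seg (p : ℕ) (act : Rel G) : ℕ → ℕ → Reg G → Reg G → Prop
  | 0, j, R, R' => ∃ s, act (addAt R p j (G.d s)) (S.out s) R'
  | i + 1, j, R, R' => ∃ τ R₁ R₂, run (SupU S G p j) (ActS S G p j τ) R R₁ ∧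
      Seg p act i (j + 1) R₁ R₂ ∧ run (SupU S G p j) (ActC S G p j τ (cnt i)) R₂ R'

/-- A run of level `0`. -/
def Body0 (sup act : Rel G) (R R' : Reg G) : Prop :=
  ∃ a a' R₁ R₂, sup R a R₁ ∧ act R₁ (S.V0 a) R₂ ∧ sup R₂ a' R'

/-- A run of a higher level with its own registers in the position `p`. -/
def BodyS (p : ℕ) (sup act : Rel G) (R R' : Reg G) : Prop :=
  ∃ a a' τ R₁ R₂ R₃, sup R a R₁ ∧ τ = G.ev (S.ini a) (R₁ p 0) ∧
    Seg S run p act S.K 0 (addAt R₁ p 0 (-G.cst τ)) R₂ ∧ sup R₂ a' R₃ ∧
    G.ev (S.ini a') (R₃ p 0) = 0 ∧ R' = addAt R₃ p 0 (G.cst τ - cnt S.K • G.d (S.ini a'))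

end

section

variable {X : Type} (S : Scheme X) (G : Gadget X) (B : ℕ)

/-- The position of the registers of level `t`. -/
def pos (t : ℕ) : ℕ := t % (2 * B)

/-- The level `t` is the top of its block. -/
def IsTop (t : ℕ) : Prop := (t + 1) % B = 0

/-- On the top of a block the argument is kept. -/
def Wrap (t : ℕ) (body : Rel G → Rel G → Reg G → Reg G → Prop) (sup act : Rel G)
    (R R' : Reg G) : Prop :=
  if IsTop B t then ∃ a a' R₁ R₂, sup R a R₁ ∧ body (cstSup a) act R₁ R₂ ∧ sup R₂ a' R'
  else body sup act R R'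

/-- The body of level `t`. -/
def Body : ℕ → Rel G → Rel G → Reg G → Reg G → Prop
  | 0 => Body0 S
  | t + 1 => BodyS S (Wrap G B t (Body t)) (pos B (t + 1))

/-- The completed runs of level `t`. -/
def Run (t : ℕ) : Rel G → Rel G → Reg G → Reg G → Prop := Wrap G B t (Body S G B t)

/-- The positions which can be changed by an unsound body of level `t`. -/
def Dirty : ℕ → Set ℕ
  | 0 => ∅
  | t + 1 => (if IsTop B t then ∅ else Dirty t) ∪ {pos B (t + 1)}

/-- The positions which can be changed by an unsound run of level `t`. -/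
def DirtyR (t : ℕ) : Set ℕ := if IsTop B t then ∅ else Dirty B t

variable {B}

theorem mem_dirty {t q : ℕ} (h : q ∈ Dirty B t) : ∃ k, k ≤ t % B ∧ k ≤ t ∧ q = pos B (t - k) := by
  induction t with
  | zero => exact absurd h id
  | succ t ih =>
    rcases h with h | h
    · by_cases ht : IsTop B t
      · rw [if_pos ht] at h
        exact absurd h id
      · rw [if_neg ht] at h
        obtain ⟨k, hk, hk', rfl⟩ := ih h
        refine ⟨k + 1, ?_, by omega, by congr 1; omega⟩
        unfold IsTop at ht
        rcases Nat.eq_zero_or_pos B with rfl | hB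
        · simp at hk ⊢; omega
        · have h1 : t % B < B := Nat.mod_lt _ hB
          have h2 := Nat.div_add_mod t B
          by_cases h3 : t % B + 1 < B
          · have : (t + 1) % B = t % B + 1 := by
              rw [Nat.add_mod, Nat.mod_eq_of_lt (a := 1) (by omega), Nat.mod_eq_of_lt h3]
            omega
          · exfalso
            apply ht
            have h4 : t % B + 1 = B := by omega
            have h5 : t + 1 = B * (t / B) + B := by omega
            rw [h5, Nat.mul_add_mod, Nat.mod_self]
    · rw [Set.mem_singleton_iff] at h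
      subst h
      exact ⟨0, by omega, by omega, rfl⟩

theorem pos_notMem_dirty (hB : 1 ≤ B) (t : ℕ) : pos B (t + 1) ∉ Dirty B t := by
  intro h
  obtain ⟨k, hk, hk', h⟩ := mem_dirty h
  have h1 : t % B < B := Nat.mod_lt _ hB
  unfold pos at h
  have h2 : (t + 1) ≡ (t - k) [MOD (2 * B)] := h
  have h3 : (t - k) + (k + 1) ≡ (t - k) + 0 [MOD (2 * B)] := by
    rw [show (t - k) + (k + 1) = t + 1 by omega]
    exact h2
  have h4 := Nat.ModEq.add_left_cancel' _ h3
  have h5 := Nat.eq_zero_of_dvd_of_lt ((Nat.modEq_zero_iff_dvd).1 h4) (by omega)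
  omega

theorem dirtyR_subset (t : ℕ) : DirtyR B t ⊆ Dirty B t := by
  unfold DirtyR
  split_ifs
  · exact Set.empty_subset _
  · exact subset_rfl

theorem dirty_succ (t : ℕ) : Dirty B (t + 1) = DirtyR B t ∪ {pos B (t + 1)} := rfl

end

end Pool.Agent.Lib.MP_9277c3_lc.NS
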