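import Pool.Agent.Lib.MP_9277c3_lc.helper78.CM.Alg

/-!
# The recursion for systems: the state machine

A run of a system is computed by a recursion of logarithmic depth in which each level calls the
level below five times.
-/

namespace Pool.Agent.Lib.MP_9277c3_lc.NS.Dp

open CM

/-- The states of the evaluation: requests, results and intermediate states. -/
structure X8 where
  tag : ℕ
  y : ℕ
  w : ℕ
  e : ℕ
  m : ℕ
  z : ℕ
  a : ℕ
  b : ℕ

/-- The argument of the next call. -/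
def arg (s : X8) : X8 :=
  if s.tag = 2 then ⟨4, s.y, 0, 0, 0, 0, 0, 0⟩
  else if s.tag = 3 then ⟨9, s.y, 0, s.e, s.m, s.z, 0, 0⟩
  else if s.tag = 4 then ⟨2, s.y, 0, 0, 0, 0, 0, 0⟩
  else if s.tag = 5 ∨ s.tag = 7 then ⟨2, s.z, 0, 0, 0, 0, 0, 0⟩
  else if s.tag = 6 ∨ s.tag = 8 then ⟨9, s.y, 0, s.e, s.m, s.z, 0, 0⟩
  else if s.tag = 9 then ⟨4, s.y, 0, 0, 0, 0, 0, 0⟩
  else if s.tag = 10 ∨ s.tag = 12 then ⟨3, s.w, 0, s.e, s.m, s.z, 0, 0⟩
  else if s.tag = 11 then ⟨4, s.z, 0, 0, 0, 0, 0, 0⟩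
  else s

/-- The next state, when the value of the call is `v`. -/
def upd (s v : X8) : X8 :=
  if s.tag = 2 ∨ s.tag = 3 then v
  else if s.tag = 4 then
    if v.tag = 0 then ⟨0, 0, 0, 0, 0, v.z, 0, 0⟩ else ⟨5, s.y, 0, v.e, v.m, v.z, 0, 0⟩
  else if s.tag = 5 ∨ s.tag = 7 then
    if v.tag = 0 then
      if s.e = 0 then ⟨0, 0, 0, 0, 0, v.z, 0, 0⟩ else ⟨s.tag + 1, s.y, 0, s.e, s.m, v.z, 0, 0⟩
    else if v.e = 0 then ⟨1, 0, s.z, s.e, s.m, v.z, s.e, s.m⟩
    else ⟨1, 0, s.z, v.e, v.m, v.z, s.e, s.m⟩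
  else if s.tag = 6 then
    if v.tag = 0 then ⟨0, 0, 0, 0, 0, v.z, 0, 0⟩ else ⟨7, s.y, 0, v.e, 1, v.z, 0, 0⟩
  else if s.tag = 8 then
    if v.tag = 0 then ⟨0, 0, 0, 0, 0, v.z, 0, 0⟩ else ⟨1, 0, 0, v.e, 1, v.z, 0, 0⟩
  else if s.tag = 9 then
    if v.w ≠ 0 ∧ s.e ≤ v.w then ⟨10, s.y, v.w, s.e, s.m, s.z, v.a, v.b⟩
    else ⟨10, s.y, s.y, s.e, s.m, s.z, 0, 0⟩
  else if s.tag = 10 ∨ s.tag = 12 then
    if v.tag = 0 then
      if s.a = 0 then ⟨0, 0, 0, 0, 0, v.z, 0, 0⟩ else ⟨s.tag, s.y, s.y, s.a, s.b, v.z, 0, 0⟩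
    else if s.tag = 12 then ⟨1, 0, 0, v.e, 1, v.z, 0, 0⟩
    else ⟨11, s.y, s.w, v.e, 1, v.z, s.a, s.b⟩
  else if s.tag = 11 then
    if v.tag = 0 then ⟨12, s.y, s.w, s.e, 1, v.z, s.a, s.b⟩ else ⟨1, 0, 0, s.e, 1, s.z, 0, 0⟩
  else s

/-- The lowest level. -/
def V0 (S : Sys) (s : X8) : X8 :=
  if s.tag = 2 then
    if S.tag s.y = 0 then ⟨0, 0, 0, 0, 0, S.nx s.y, 0, 0⟩
    else if S.tag s.y = 1 then ⟨1, 0, 0, 0, 1, S.nx s.y, 0, 0⟩
    else ⟨1, 0, 0, s.y, 0, S.nx s.y, 0, 0⟩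
  else
    if s.m = 0 then ⟨1, 0, 0, s.e, 1, S.kont s.e s.z, 0, 0⟩ else ⟨0, 0, 0, 0, 0, s.z, 0, 0⟩

/-- One round. -/
def D (F : X8 → X8) (s : X8) : X8 := upd s (F (arg s))

/-- The values of the recursion. -/
def val (S : Sys) : ℕ → X8 → X8
  | 0, s => V0 S s
  | t + 1, s => (D (val S t))^[5] s

/-! ### The runs of a system -/

/-- Configurations. -/
inductive Cf : Type
  | run (v : ℕ) (W : List ℕ) : Cf
  | ret (r : ℕ) (W : List ℕ) : Cf

/-- The configuration with more symbols below. -/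
def Cf.app : Cf → List ℕ → Cf
  | Cf.run v W, U => Cf.run v (W ++ U)
  | Cf.ret r W, U => Cf.ret r (W ++ U)

/-- Steps. -/
inductive St (S : Sys) : Cf → Cf → Prop
  | pop (v : ℕ) (W : List ℕ) (h : S.tag v = 0) : St S (Cf.run v W) (Cf.ret (S.nx v) W)
  | move (v : ℕ) (W : List ℕ) (h : S.tag v = 1) : St S (Cf.run v W) (Cf.run (S.nx v) W)
  | push (v : ℕ) (W : List ℕ) (h0 : S.tag v ≠ 0) (h1 : S.tag v ≠ 1) :
      St S (Cf.run v W) (Cf.run (S.nx v) (v :: W))
  | cont (r e : ℕ) (W : List ℕ) : St S (Cf.ret r (e :: W)) (Cf.run (S.kont e r) W)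

/-- Sequences of steps. -/
inductive Sts (S : Sys) : ℕ → Cf → Cf → Prop
  | refl (c : Cf) : Sts S 0 c c
  | step (n : ℕ) (c c' c'' : Cf) (h : St S c c') (h' : Sts S n c' c'') : Sts S (n + 1) c c''

variable {S : Sys}

theorem St.det {c a b : Cf} (h : St S c a) (h' : St S c b) : a = b := by
  cases h with
  | pop v W h =>
    cases h' with
    | pop => rfl
    | move _ _ h1 => omega
    | push _ _ h0 => exact absurd h h0
  | move v W h =>
    cases h' with
    | pop _ _ h1 => omega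
    | move => rfl
    | push _ _ _ h1 => exact absurd h h1
  | push v W h0 h1 =>
    cases h' with
    | pop _ _ h => exact absurd h h0
    | move _ _ h => exact absurd h h1
    | push => rfl
  | cont r e W => cases h'; rfl

theorem Sts.trans {n m : ℕ} {a b c : Cf} (h : Sts S n a b) (h' : Sts S m b c) :
    Sts S (n + m) a c := by
  induction h with
  | refl c => rw [Nat.zero_add]; exact h'
  | step n c c' c'' h _ ih =>
    rw [Nat.add_right_comm]
    exact Sts.step _ _ _ _ h (ih h')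

theorem St.app {c c' : Cf} (h : St S c c') (U : List ℕ) : St S (c.app U) (c'.app U) := by
  cases h with
  | pop v W h => exact St.pop _ _ h
  | move v W h => exact St.move _ _ h
  | push v W h0 h1 => exact St.push _ _ h0 h1
  | cont r e W => exact St.cont _ _ _

theorem Sts.app {n : ℕ} {c c' : Cf} (h : Sts S n c c') (U : List ℕ) :
    Sts S n (c.app U) (c'.app U) := by
  induction h with
  | refl c => exact Sts.refl _
  | step n c c' c'' h _ ih => exact Sts.step _ _ _ _ (h.app U) ih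

/-- A run which returns from the empty stack cannot be continued. -/
theorem Sts.end_unique {n : ℕ} {c : Cf} {r : ℕ} (h : Sts S n c (Cf.ret r [])) :
    ∀ {m : ℕ} {d : Cf}, Sts S m c d → m ≤ n ∧ Sts S (n - m) d (Cf.ret r []) := by
  generalize hd : Cf.ret r [] = e at h
  induction h with
  | refl c =>
    intro m d h'
    subst hd
    cases h' with
    | refl => exact ⟨le_rfl, Sts.refl _⟩
    | step _ _ _ _ h1 _ => cases h1
  | step n c c' c'' h h1 ih =>
    intro m d h'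
    cases h' with
    | refl => exact ⟨Nat.zero_le _, Sts.step _ _ _ _ h h1⟩
    | step m _ c1 _ h2 h3 =>
      obtain rfl := h.det h2
      obtain ⟨h4, h5⟩ := ih hd h3
      refine ⟨by omega, ?_⟩
      rw [Nat.add_sub_add_right]
      exact h5

theorem Sts.end_value {n m : ℕ} {c : Cf} {r r' : ℕ} (h : Sts S n c (Cf.ret r []))
    (h' : Sts S m c (Cf.ret r' [])) : r' = r := by
  obtain ⟨_, h1⟩ := h.end_unique h'
  generalize n - m = k at h1
  cases h1 with
  | refl => rfl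
  | step _ _ _ _ h2 _ => cases h2

theorem Sts.lt_end {n m : ℕ} {c : Cf} {r v : ℕ} {W : List ℕ} (h : Sts S n c (Cf.ret r []))
    (h' : Sts S m c (Cf.run v W)) : m < n := by
  obtain ⟨h1, h2⟩ := h.end_unique h'
  rcases Nat.lt_or_ge m n with h3 | h3
  · exact h3
  · have : n - m = 0 := by omega
    rw [this] at h2
    cases h2

theorem exists_sts_of_ev {v c s : ℕ} (h : Ev S v c s) :
    ∃ n, n ≤ 2 * s ∧ ∀ W, Sts S n (Cf.run v W) (Cf.ret c W) := by
  induction h with
  | done v h =>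
    exact ⟨1, by omega, fun W => Sts.step _ _ _ _ (St.pop _ _ h) (Sts.refl _)⟩
  | unary v c s h _ ih =>
    obtain ⟨n, h1, h2⟩ := ih
    exact ⟨n + 1, by omega, fun W => Sts.step _ _ _ _ (St.move _ _ h) (h2 W)⟩
  | binary v c s c' s' h0 h1 _ _ ih ih' =>
    obtain ⟨n, h2, h3⟩ := ih
    obtain ⟨n', h4, h5⟩ := ih'
    refine ⟨n + (n' + 1) + 1, by omega, fun W => Sts.step _ _ _ _ (St.push _ _ h0 h1)
      ((h3 _).trans (Sts.step _ _ _ _ (St.cont _ _ _) (h5 W)))⟩

/-! ### Clocks -/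

/-- A countdown clock for a system. -/
structure Clock (S : Sys) (clk : ℕ → ℕ) : Prop where
  nx_lt : ∀ v, S.tag v ≠ 0 → clk (S.nx v) < clk v
  nx_le : ∀ v, clk (S.nx v) ≤ clk v
  kont_le : ∀ v r, clk (S.kont v r) ≤ clk r
  mono : ∀ v w, clk v < clk w → v < w

/-- The clock of a configuration. -/
def Cf.clk (clk : ℕ → ℕ) : Cf → ℕ
  | Cf.run v _ => clk v
  | Cf.ret r _ => clk r

section

variable {clk : ℕ → ℕ} (hC : Clock S clk)

include hC

theorem St.clk_le {c c' : Cf} (h : St S c c') : c'.clk clk ≤ c.clk clk := by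
  cases h with
  | pop v W h => exact hC.nx_le v
  | move v W h => exact hC.nx_le v
  | push v W h0 h1 => exact hC.nx_le v
  | cont r e W => exact hC.kont_le e r

theorem Sts.clk_le {n : ℕ} {c c' : Cf} (h : Sts S n c c') : c'.clk clk ≤ c.clk clk := by
  induction h with
  | refl c => exact le_rfl
  | step n c c' c'' h _ ih => exact ih.trans (h.clk_le hC)

/-- The clock decreases. -/
theorem Sts.clk_lt {n y z : ℕ} {W : List ℕ} (h : Sts S (n + 1) (Cf.run y []) (Cf.run z W)) :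
    clk z < clk y := by
  cases h with
  | step _ _ c' _ h h' =>
    cases h with
    | pop _ _ h =>
      cases h' with
      | step _ _ _ _ h1 _ => cases h1
    | move _ _ h => exact lt_of_le_of_lt (h'.clk_le hC) (hC.nx_lt y (by omega))
    | push _ _ h0 h1 => exact lt_of_le_of_lt (h'.clk_le hC) (hC.nx_lt y h0)

end

/-- The stack described by a frame: the mode `0` means that the frame is still on the stack. -/
def st (e m : ℕ) (V : List ℕ) : List ℕ := if m = 0 then e :: V else V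

theorem st_append (e m : ℕ) (V U : List ℕ) : st e m V ++ U = st e m (V ++ U) := by
  unfold st
  split_ifs <;> rfl

theorem st_one (e : ℕ) (V : List ℕ) : st e 1 V = V := by simp [st]

end Pool.Agent.Lib.MP_9277c3_lc.NS.Dp
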