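import Pool.Agent.Lib.MP_9277c3_lc.NS.Dp1

section
/-!
# The recursion for systems: correctness
-/
namespace Pool.Agent.Lib.MP_9277c3_lc.NS.Dp

open CM

/-- The frames of the two halves of a run: the second half starts at `w`, its stack is described by
the frame `a` in the mode `b`. -/
def GoodW (clk : ℕ → ℕ) (G : ℕ → ℕ → List ℕ → Prop) (w a b y e : ℕ) (V : List ℕ) : Prop :=
  e ≤ y ∧
  ((w ≠ 0 ∧ w ≤ y ∧ e ≤ w ∧ ∃ V', G w e V' ∧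
      ((a = 0 ∧ V = V') ∨ (a ≠ 0 ∧ clk w < clk a ∧ ∃ Va, G y a Va ∧ V = V' ++ st a b Va))) ∨
   ((w = 0 ∨ w < e) ∧ G y e V))

/-- `Good k y e V`: the frame `e`, with the stack `V` below it, can be reached from the root `y` on
the level `k`. -/
def Good (S : Sys) (clk : ℕ → ℕ) : ℕ → ℕ → ℕ → List ℕ → Prop
  | 0, y, e, V => e = y ∧ V = []
  | k + 1, y, e, V => GoodW clk (Good S clk k) (val S (2 * k + 1) ⟨4, y, 0, 0, 0, 0, 0, 0⟩).w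
      (val S (2 * k + 1) ⟨4, y, 0, 0, 0, 0, 0, 0⟩).a
      (val S (2 * k + 1) ⟨4, y, 0, 0, 0, 0, 0, 0⟩).b y e V

/-- The meaning of the value of a request `adv y`. -/
def AOut (S : Sys) (clk : ℕ → ℕ) (G : ℕ → List ℕ → Prop) (p y : ℕ) (v : X8) : Prop :=
  (v.tag = 0 ∧ ∃ n, Sts S n (Cf.run y []) (Cf.ret v.z [])) ∨
  (v.tag = 1 ∧ ∃ n W, p ≤ n ∧ Sts S n (Cf.run y []) (Cf.run v.z W) ∧
    ((v.e = 0 ∧ W = []) ∨
      (v.e ≠ 0 ∧ ∃ V, G v.e V ∧ clk v.z < clk v.e ∧ W = st v.e v.m V)))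

/-- The meaning of the value of a request `ret y e m r`. -/
def ROut (S : Sys) (clk : ℕ → ℕ) (G : ℕ → List ℕ → Prop) (p : ℕ) (c₀ : Cf) (e₀ : ℕ) (v : X8) :
    Prop :=
  (v.tag = 0 ∧ ∃ n, Sts S n c₀ (Cf.ret v.z [])) ∨
  (v.tag = 1 ∧ ∃ n V, Sts S n c₀ (Cf.run v.z V) ∧ G v.e V ∧ e₀ ≤ v.e ∧ clk v.z < clk v.e ∧
    v.m = 1 ∧ ∀ n' c, Sts S n' (Cf.run v.z []) (Cf.ret c []) → p ≤ n + n')

section

variable {S : Sys} {clk : ℕ → ℕ}

theorem Good.le {k y e : ℕ} {V : List ℕ} (h : Good S clk k y e V) : e ≤ y := by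
  cases k with
  | zero => exact h.1.le
  | succ k => exact h.1

theorem iterate_fin {F : X8 → X8} {s : X8} (h : s.tag = 0 ∨ s.tag = 1) (j : ℕ) :
    (D F)^[j] s = s := by
  induction j with
  | zero => rfl
  | succ j ih =>
    rw [Function.iterate_succ_apply]
    have : D F s = s := by
      rcases h with h | h <;> simp [D, upd, h]
    rw [this, ih]

theorem iterate_fin0 {F : X8 → X8} (z j : ℕ) :
    (D F)^[j] ⟨0, 0, 0, 0, 0, z, 0, 0⟩ = ⟨0, 0, 0, 0, 0, z, 0, 0⟩ := iterate_fin (Or.inl rfl) j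

theorem iterate_fin1 {F : X8 → X8} (w e m z a b j : ℕ) :
    (D F)^[j] ⟨1, 0, w, e, m, z, a, b⟩ = ⟨1, 0, w, e, m, z, a, b⟩ := iterate_fin (Or.inr rfl) j

variable (hC : Clock S clk)

include hC in
theorem Clock.ne_zero {v w : ℕ} (h : clk v < clk w) : w ≠ 0 := by
  have := hC.mono _ _ h
  omega

include hC in
theorem Clock.le {v w : ℕ} (h : v ≤ w) : clk v ≤ clk w := by
  by_contra h1
  have := hC.mono w v (by omega)
  omega

/-! ### The lowest level -/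

include hC in
theorem hA_zero (y : ℕ) : AOut S clk (Good S clk 0 y) (2 ^ 0) y
    (val S (2 * 0) ⟨2, y, 0, 0, 0, 0, 0, 0⟩) := by
  simp only [val, V0, if_true]
  by_cases h0 : S.tag y = 0
  · rw [if_pos h0]
    exact Or.inl ⟨rfl, 1, Sts.step _ _ _ _ (St.pop _ _ h0) (Sts.refl _)⟩
  · rw [if_neg h0]
    by_cases h1 : S.tag y = 1
    · rw [if_pos h1]
      exact Or.inr ⟨rfl, 1, [], le_rfl, Sts.step _ _ _ _ (St.move _ _ h1) (Sts.refl _),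
        Or.inl ⟨rfl, rfl⟩⟩
    · rw [if_neg h1]
      have h2 := hC.nx_lt y h0
      exact Or.inr ⟨rfl, 1, [y], le_rfl, Sts.step _ _ _ _ (St.push _ _ h0 h1) (Sts.refl _),
        Or.inr ⟨Clock.ne_zero hC h2, [], ⟨rfl, rfl⟩, h2, rfl⟩⟩

include hC in
theorem hR_zero (y e m r : ℕ) (V : List ℕ) (h : Good S clk 0 y e V) (hr : clk r < clk e) :
    ROut S clk (Good S clk 0 y) (2 ^ 0) (Cf.ret r (st e m V)) e
      (val S (2 * 0) ⟨9, y, 0, e, m, r, 0, 0⟩) := by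
  obtain ⟨rfl, rfl⟩ := h
  have h9 : (9 : ℕ) ≠ 2 := by norm_num
  simp only [val, V0, if_neg h9]
  by_cases hm : m = 0
  · rw [if_pos hm]
    subst hm
    refine Or.inr ⟨rfl, 1, [], Sts.step _ _ _ _ (St.cont _ _ _) (Sts.refl _), ⟨rfl, rfl⟩, le_rfl,
      lt_of_le_of_lt (hC.kont_le _ _) hr, rfl, fun n' c _ => by omega⟩
  · rw [if_neg hm]
    refine Or.inl ⟨rfl, 0, ?_⟩
    have : st e m [] = [] := by simp [st, hm]
    rw [this]
    exact Sts.refl _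

/-! ### The request `adv` -/

section

variable {k : ℕ}
  (hA : ∀ y, AOut S clk (Good S clk k y) (2 ^ k) y (val S (2 * k) ⟨2, y, 0, 0, 0, 0, 0, 0⟩))
  (hR : ∀ y e m r V, Good S clk k y e V → clk r < clk e →
    ROut S clk (Good S clk k y) (2 ^ k) (Cf.ret r (st e m V)) e
      (val S (2 * k) ⟨9, y, 0, e, m, r, 0, 0⟩))

/-- The meaning of the value of a request `advS y`. -/
def SOut (S : Sys) (clk : ℕ → ℕ) (k y : ℕ) (v : X8) : Prop :=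
  AOut S clk (GoodW clk (Good S clk k) v.w v.a v.b y) (2 ^ (k + 1)) y v

theorem SOut.done {k y z n : ℕ} (h : Sts S n (Cf.run y []) (Cf.ret z [])) :
    SOut S clk k y ⟨0, 0, 0, 0, 0, z, 0, 0⟩ := Or.inl ⟨rfl, n, h⟩

include hC hR in
theorem s_sr8 {y e m r n : ℕ} {V : List ℕ} (hG : Good S clk k y e V) (hr : clk r < clk e)
    (hS : Sts S n (Cf.run y []) (Cf.ret r (st e m V))) (hn : 2 ^ (k + 1) ≤ n) (j : ℕ) :
    SOut S clk k y ((D (val S (2 * k)))^[j + 1] ⟨8, y, 0, e, m, r, 0, 0⟩) := by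
  rw [Function.iterate_succ_apply]
  have hD : D (val S (2 * k)) ⟨8, y, 0, e, m, r, 0, 0⟩ =
      if (val S (2 * k) ⟨9, y, 0, e, m, r, 0, 0⟩).tag = 0 then
        ⟨0, 0, 0, 0, 0, (val S (2 * k) ⟨9, y, 0, e, m, r, 0, 0⟩).z, 0, 0⟩
      else ⟨1, 0, 0, (val S (2 * k) ⟨9, y, 0, e, m, r, 0, 0⟩).e, 1,
        (val S (2 * k) ⟨9, y, 0, e, m, r, 0, 0⟩).z, 0, 0⟩ := rfl
  rw [hD]
  rcases hR y e m r V hG hr with ⟨h0, n1, h1⟩ | ⟨h0, n1, V1, h1, h2, h3, h4, h5, h6⟩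
  · rw [if_pos h0, iterate_fin0]
    exact SOut.done (hS.trans h1)
  · rw [if_neg (by omega), iterate_fin1]
    refine Or.inr ⟨rfl, n + n1, V1, by omega, hS.trans h1, Or.inr ⟨?_, V1, ?_, h4, ?_⟩⟩
    · exact Clock.ne_zero hC h4
    · exact ⟨h2.le, Or.inr ⟨Or.inl rfl, h2⟩⟩
    · rw [st_one]

include hC in
/-- The run is continued from `z`, and the call for `z` has not returned. -/
theorem s_pos {y e m z n n1 : ℕ} {W W1 : List ℕ} {v : X8}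
    (hS : Sts S n (Cf.run y []) (Cf.run z W)) (hn : 2 ^ k ≤ n)
    (hW : (e = 0 ∧ W = []) ∨
      (e ≠ 0 ∧ ∃ V, Good S clk k y e V ∧ clk z < clk e ∧ W = st e m V))
    (hn1 : 2 ^ k ≤ n1) (hS1 : Sts S n1 (Cf.run z []) (Cf.run v.z W1))
    (hW1 : (v.e = 0 ∧ W1 = []) ∨
      (v.e ≠ 0 ∧ ∃ V, Good S clk k z v.e V ∧ clk v.z < clk v.e ∧ W1 = st v.e v.m V)) :
    SOut S clk k y (if v.e = 0 then ⟨1, 0, z, e, m, v.z, e, m⟩
      else ⟨1, 0, z, v.e, v.m, v.z, e, m⟩) := by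
  have hpos : 0 < 2 ^ k := Nat.pow_pos (by norm_num)
  have hS2 := hS.trans (hS1.app W)
  obtain ⟨n', rfl⟩ : ∃ n', n = n' + 1 := ⟨n - 1, by omega⟩
  obtain ⟨n1', rfl⟩ : ∃ n', n1 = n' + 1 := ⟨n1 - 1, by omega⟩
  have hz := hS.clk_lt hC
  have hz1 := hS1.clk_lt hC
  have hz0 : z ≠ 0 := Clock.ne_zero hC hz1
  have hzy : z < y := hC.mono _ _ hz
  have hp : 2 ^ (k + 1) ≤ n' + 1 + (n1' + 1) := by rw [pow_succ]; omega
  rcases hW1 with ⟨h1, rfl⟩ | ⟨h1, V1, h2, h3, rfl⟩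
  · rw [if_pos h1]
    refine Or.inr ⟨rfl, _, _, hp, hS2, ?_⟩
    rcases hW with ⟨h4, rfl⟩ | ⟨h4, V, h5, h6, rfl⟩
    · exact Or.inl ⟨h4, rfl⟩
    · refine Or.inr ⟨h4, V, ?_, hz1.trans h6, rfl⟩
      exact ⟨h5.le, Or.inr ⟨Or.inr (hC.mono _ _ h6), h5⟩⟩
  · rw [if_neg h1]
    refine Or.inr ⟨rfl, _, _, hp, hS2, Or.inr ⟨h1, V1 ++ W, ?_, h3, ?_⟩⟩
    · refine ⟨h2.le.trans hzy.le, Or.inl ⟨hz0, hzy.le, h2.le, V1, h2, ?_⟩⟩
      rcases hW with ⟨h4, rfl⟩ | ⟨h4, V, h5, h6, rfl⟩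
      · exact Or.inl ⟨h4, List.append_nil _⟩
      · exact Or.inr ⟨h4, h6, V, h5, rfl⟩
    · exact st_append _ _ _ _

include hC hA hR in
theorem s_sa7 {y e m z n : ℕ} {W : List ℕ}
    (hS : Sts S n (Cf.run y []) (Cf.run z W)) (hn : 2 ^ k ≤ n)
    (hW : (e = 0 ∧ W = []) ∨
      (e ≠ 0 ∧ ∃ V, Good S clk k y e V ∧ clk z < clk e ∧ W = st e m V))
    (hP : ∀ n' c, Sts S n' (Cf.run z []) (Cf.ret c []) → 2 ^ (k + 1) ≤ n + n') (j : ℕ) :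
    SOut S clk k y ((D (val S (2 * k)))^[j + 2] ⟨7, y, 0, e, m, z, 0, 0⟩) := by
  rw [Function.iterate_succ_apply]
  have hD : D (val S (2 * k)) ⟨7, y, 0, e, m, z, 0, 0⟩ =
      if (val S (2 * k) ⟨2, z, 0, 0, 0, 0, 0, 0⟩).tag = 0 then
        if e = 0 then ⟨0, 0, 0, 0, 0, (val S (2 * k) ⟨2, z, 0, 0, 0, 0, 0, 0⟩).z, 0, 0⟩
        else ⟨8, y, 0, e, m, (val S (2 * k) ⟨2, z, 0, 0, 0, 0, 0, 0⟩).z, 0, 0⟩
      else if (val S (2 * k) ⟨2, z, 0, 0, 0, 0, 0, 0⟩).e = 0 then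
        ⟨1, 0, z, e, m, (val S (2 * k) ⟨2, z, 0, 0, 0, 0, 0, 0⟩).z, e, m⟩
      else ⟨1, 0, z, (val S (2 * k) ⟨2, z, 0, 0, 0, 0, 0, 0⟩).e,
        (val S (2 * k) ⟨2, z, 0, 0, 0, 0, 0, 0⟩).m,
        (val S (2 * k) ⟨2, z, 0, 0, 0, 0, 0, 0⟩).z, e, m⟩ := rfl
  rw [hD]
  rcases hA z with ⟨h0, n1, h1⟩ | ⟨h0, n1, W1, h1, h2, h3⟩
  · rw [if_pos h0]
    have h2 := hS.trans (h1.app W)
    have h3 := hP n1 _ h1
    rcases hW with ⟨h4, rfl⟩ | ⟨h4, V, h5, h6, rfl⟩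
    · rw [if_pos h4, iterate_fin0]
      exact SOut.done h2
    · rw [if_neg h4]
      refine s_sr8 hC hR h5 (lt_of_le_of_lt ?_ h6) h2 h3 j
      exact h1.clk_le hC
  · rw [if_neg (by omega)]
    have h4 := s_pos hC hS hn hW h1 h2 h3
    have h5 : ∀ v : X8, (v.tag = 0 ∨ v.tag = 1) → SOut S clk k y v →
        SOut S clk k y ((D (val S (2 * k)))^[j + 1] v) := fun v hv h => by
      rw [iterate_fin hv]; exact h
    refine h5 _ ?_ h4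
    split_ifs <;> exact Or.inr rfl

include hC hA hR in
theorem s_sr6 {y e m r n : ℕ} {V : List ℕ} (hG : Good S clk k y e V) (hr : clk r < clk e)
    (hS : Sts S n (Cf.run y []) (Cf.ret r (st e m V))) (hn : 2 ^ k ≤ n) (j : ℕ) :
    SOut S clk k y ((D (val S (2 * k)))^[j + 3] ⟨6, y, 0, e, m, r, 0, 0⟩) := by
  rw [Function.iterate_succ_apply]
  have hD : D (val S (2 * k)) ⟨6, y, 0, e, m, r, 0, 0⟩ =
      if (val S (2 * k) ⟨9, y, 0, e, m, r, 0, 0⟩).tag = 0 then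
        ⟨0, 0, 0, 0, 0, (val S (2 * k) ⟨9, y, 0, e, m, r, 0, 0⟩).z, 0, 0⟩
      else ⟨7, y, 0, (val S (2 * k) ⟨9, y, 0, e, m, r, 0, 0⟩).e, 1,
        (val S (2 * k) ⟨9, y, 0, e, m, r, 0, 0⟩).z, 0, 0⟩ := rfl
  rw [hD]
  rcases hR y e m r V hG hr with ⟨h0, n1, h1⟩ | ⟨h0, n1, V1, h1, h2, h3, h4, h5, h6⟩
  · rw [if_pos h0, iterate_fin0]
    exact SOut.done (hS.trans h1)
  · rw [if_neg (by omega)]
    refine s_sa7 hC hA hR (hS.trans h1) (by omega) (Or.inr ⟨Clock.ne_zero hC h4, V1, h2, h4, ?_⟩)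
      (fun n' c hc => ?_) j
    · rw [st_one]
    · have := h6 n' c hc
      rw [pow_succ]
      omega

include hC hA hR in
theorem s_sa5 {y e m z n : ℕ} {W : List ℕ}
    (hS : Sts S n (Cf.run y []) (Cf.run z W)) (hn : 2 ^ k ≤ n)
    (hW : (e = 0 ∧ W = []) ∨
      (e ≠ 0 ∧ ∃ V, Good S clk k y e V ∧ clk z < clk e ∧ W = st e m V)) (j : ℕ) :
    SOut S clk k y ((D (val S (2 * k)))^[j + 4] ⟨5, y, 0, e, m, z, 0, 0⟩) := by
  rw [Function.iterate_succ_apply]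
  have hD : D (val S (2 * k)) ⟨5, y, 0, e, m, z, 0, 0⟩ =
      if (val S (2 * k) ⟨2, z, 0, 0, 0, 0, 0, 0⟩).tag = 0 then
        if e = 0 then ⟨0, 0, 0, 0, 0, (val S (2 * k) ⟨2, z, 0, 0, 0, 0, 0, 0⟩).z, 0, 0⟩
        else ⟨6, y, 0, e, m, (val S (2 * k) ⟨2, z, 0, 0, 0, 0, 0, 0⟩).z, 0, 0⟩
      else if (val S (2 * k) ⟨2, z, 0, 0, 0, 0, 0, 0⟩).e = 0 then
        ⟨1, 0, z, e, m, (val S (2 * k) ⟨2, z, 0, 0, 0, 0, 0, 0⟩).z, e, m⟩
      else ⟨1, 0, z, (val S (2 * k) ⟨2, z, 0, 0, 0, 0, 0, 0⟩).e,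
        (val S (2 * k) ⟨2, z, 0, 0, 0, 0, 0, 0⟩).m,
        (val S (2 * k) ⟨2, z, 0, 0, 0, 0, 0, 0⟩).z, e, m⟩ := rfl
  rw [hD]
  rcases hA z with ⟨h0, n1, h1⟩ | ⟨h0, n1, W1, h1, h2, h3⟩
  · rw [if_pos h0]
    have h2 := hS.trans (h1.app W)
    rcases hW with ⟨h4, rfl⟩ | ⟨h4, V, h5, h6, rfl⟩
    · rw [if_pos h4, iterate_fin0]
      exact SOut.done h2
    · rw [if_neg h4]
      refine s_sr6 hC hA hR h5 (lt_of_le_of_lt ?_ h6) h2 (by omega) j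
      exact h1.clk_le hC
  · rw [if_neg (by omega)]
    have h4 := s_pos hC hS hn hW h1 h2 h3
    have h5 : ∀ v : X8, (v.tag = 0 ∨ v.tag = 1) → SOut S clk k y v →
        SOut S clk k y ((D (val S (2 * k)))^[j + 3] v) := fun v hv h => by
      rw [iterate_fin hv]; exact h
    refine h5 _ ?_ h4
    split_ifs <;> exact Or.inr rfl

include hC hA hR in
theorem s_main (y : ℕ) : SOut S clk k y (val S (2 * k + 1) ⟨4, y, 0, 0, 0, 0, 0, 0⟩) := by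
  have h5 : val S (2 * k + 1) ⟨4, y, 0, 0, 0, 0, 0, 0⟩ =
      (D (val S (2 * k)))^[4 + 1] ⟨4, y, 0, 0, 0, 0, 0, 0⟩ := rfl
  rw [h5, Function.iterate_succ_apply]
  have hD : D (val S (2 * k)) ⟨4, y, 0, 0, 0, 0, 0, 0⟩ =
      if (val S (2 * k) ⟨2, y, 0, 0, 0, 0, 0, 0⟩).tag = 0 then
        ⟨0, 0, 0, 0, 0, (val S (2 * k) ⟨2, y, 0, 0, 0, 0, 0, 0⟩).z, 0, 0⟩
      else ⟨5, y, 0, (val S (2 * k) ⟨2, y, 0, 0, 0, 0, 0, 0⟩).e,
        (val S (2 * k) ⟨2, y, 0, 0, 0, 0, 0, 0⟩).m,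
        (val S (2 * k) ⟨2, y, 0, 0, 0, 0, 0, 0⟩).z, 0, 0⟩ := rfl
  rw [hD]
  rcases hA y with ⟨h0, n1, h1⟩ | ⟨h0, n1, W1, h1, h2, h3⟩
  · rw [if_pos h0, iterate_fin0]
    exact SOut.done h1
  · rw [if_neg (by omega)]
    exact s_sa5 hC hA hR h2 h1 h3 0

end

end

end Pool.Agent.Lib.MP_9277c3_lc.NS.Dp
end

section
/-!
# The recursion for systems: correctness, second part
-/
namespace Pool.Agent.Lib.MP_9277c3_lc.NS.Dp

open CM

section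

variable {S : Sys} {clk : ℕ → ℕ}

/-- The meaning of the value of a request `ret` on the next level. -/
def TOut (S : Sys) (clk : ℕ → ℕ) (k y : ℕ) (c₀ : Cf) (e₀ : ℕ) (v : X8) : Prop :=
  ROut S clk (Good S clk (k + 1) y) (2 ^ (k + 1)) c₀ e₀ v

/-- The data of a state in the evaluation of `ret`. -/
def TInv (S : Sys) (clk : ℕ → ℕ) (k y w e : ℕ) (V U : List ℕ) (a b : ℕ) : Prop :=
  Good S clk k w e V ∧
  ((a = 0 ∧ U = []) ∨ (a ≠ 0 ∧ clk w < clk a ∧ ∃ Va, Good S clk k y a Va ∧ U = st a b Va)) ∧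
  (∀ e' V', Good S clk k w e' V' → e ≤ e' → Good S clk (k + 1) y e' (V' ++ U)) ∧
  (a ≠ 0 → ∀ e' V', Good S clk k y e' V' → a ≤ e' → Good S clk (k + 1) y e' V')

/-- The states before a call of `ret`. -/
def TS (S : Sys) (clk : ℕ → ℕ) (k y : ℕ) (c₀ : Cf) (e₀ t a : ℕ) (s : X8) (n : ℕ) : Prop :=
  ∃ w e m r b V U, s = ⟨t, y, w, e, m, r, a, b⟩ ∧ TInv S clk k y w e V U a b ∧ clk r < clk e ∧
    e₀ ≤ e ∧ Sts S n c₀ (Cf.ret r (st e m V ++ U))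

/-- The states before a call of `adv`. -/
def T2S (S : Sys) (clk : ℕ → ℕ) (k y : ℕ) (c₀ : Cf) (e₀ a : ℕ) (s : X8) : Prop :=
  ∃ w e z b V U n, s = ⟨11, y, w, e, 1, z, a, b⟩ ∧ TInv S clk k y w e V U a b ∧ clk z < clk e ∧
    e₀ ≤ e ∧ Sts S n c₀ (Cf.run z (V ++ U)) ∧
    ∀ n' c, Sts S n' (Cf.run z []) (Cf.ret c []) → 2 ^ k ≤ n + n'

theorem TInv.mono {k y w e e' : ℕ} {V V' U : List ℕ} {a b : ℕ}
    (h : TInv S clk k y w e V U a b) (hG : Good S clk k w e' V') (he : e ≤ e') :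
    TInv S clk k y w e' V' U a b :=
  ⟨hG, h.2.1, fun e'' V'' h1 h2 => h.2.2.1 e'' V'' h1 (he.trans h2), h.2.2.2⟩

variable (hC : Clock S clk) {k y e₀ : ℕ} {c₀ : Cf}

theorem TOut.tag {v : X8} (h : TOut S clk k y c₀ e₀ v) : v.tag = 0 ∨ v.tag = 1 := by
  rcases h with h | h
  · exact Or.inl h.1
  · exact Or.inr h.1

theorem TOut.iterate {F : X8 → X8} {v : X8} (h : TOut S clk k y c₀ e₀ v) (j : ℕ) :
    TOut S clk k y c₀ e₀ ((D F)^[j] v) := by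
  rw [iterate_fin h.tag]
  exact h

theorem TOut.done {z n : ℕ} (h : Sts S n c₀ (Cf.ret z [])) :
    TOut S clk k y c₀ e₀ ⟨0, 0, 0, 0, 0, z, 0, 0⟩ := Or.inl ⟨rfl, n, h⟩

variable
  (hA : ∀ y, AOut S clk (Good S clk k y) (2 ^ k) y (val S (2 * k) ⟨2, y, 0, 0, 0, 0, 0, 0⟩))
  (hR : ∀ y e m r V, Good S clk k y e V → clk r < clk e →
    ROut S clk (Good S clk k y) (2 ^ k) (Cf.ret r (st e m V)) e
      (val S (2 * k) ⟨9, y, 0, e, m, r, 0, 0⟩))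

include hR in
theorem t_retP {w e m r : ℕ} {V : List ℕ} (hG : Good S clk k w e V) (hr : clk r < clk e) :
    ROut S clk (Good S clk k w) (2 ^ k) (Cf.ret r (st e m V)) e
      (val S (2 * k + 1) ⟨3, w, 0, e, m, r, 0, 0⟩) := by
  have h := hR w e m r V hG hr
  have h1 : (val S (2 * k) ⟨9, w, 0, e, m, r, 0, 0⟩).tag = 0 ∨
      (val S (2 * k) ⟨9, w, 0, e, m, r, 0, 0⟩).tag = 1 := by
    rcases h with h | h
    · exact Or.inl h.1
    · exact Or.inr h.1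
  have h2 : val S (2 * k + 1) ⟨3, w, 0, e, m, r, 0, 0⟩ =
      val S (2 * k) ⟨9, w, 0, e, m, r, 0, 0⟩ := by
    have h3 : val S (2 * k + 1) ⟨3, w, 0, e, m, r, 0, 0⟩ =
      (D (val S (2 * k)))^[4 + 1] ⟨3, w, 0, e, m, r, 0, 0⟩ := rfl
    rw [h3, Function.iterate_succ_apply]
    exact iterate_fin h1 4
  rw [h2]
  exact h

include hC hR in
/-- A call of `ret`. -/
theorem t_round {t a n : ℕ} (ht : t = 10 ∨ t = 12) {s : X8} (h : TS S clk k y c₀ e₀ t a s n)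
    (hn : t = 12 → 2 ^ k ≤ n) :
    TOut S clk k y c₀ e₀ (D (val S (2 * k + 1)) s) ∨
    (a ≠ 0 ∧ ∃ n', n ≤ n' ∧ TS S clk k y c₀ e₀ t 0 (D (val S (2 * k + 1)) s) n') ∨
    (t = 10 ∧ T2S S clk k y c₀ e₀ a (D (val S (2 * k + 1)) s)) := by
  obtain ⟨w, e, m, r, b, V, U, rfl, hI, hr, he, hS⟩ := h
  have hG := hI.1
  have hD : D (val S (2 * k + 1)) ⟨t, y, w, e, m, r, a, b⟩ =
      if (val S (2 * k + 1) ⟨3, w, 0, e, m, r, 0, 0⟩).tag = 0 then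
        if a = 0 then ⟨0, 0, 0, 0, 0, (val S (2 * k + 1) ⟨3, w, 0, e, m, r, 0, 0⟩).z, 0, 0⟩
        else ⟨t, y, y, a, b, (val S (2 * k + 1) ⟨3, w, 0, e, m, r, 0, 0⟩).z, 0, 0⟩
      else if t = 12 then ⟨1, 0, 0, (val S (2 * k + 1) ⟨3, w, 0, e, m, r, 0, 0⟩).e, 1,
        (val S (2 * k + 1) ⟨3, w, 0, e, m, r, 0, 0⟩).z, 0, 0⟩
      else ⟨11, y, w, (val S (2 * k + 1) ⟨3, w, 0, e, m, r, 0, 0⟩).e, 1,
        (val S (2 * k + 1) ⟨3, w, 0, e, m, r, 0, 0⟩).z, a, b⟩ := by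
    rcases ht with rfl | rfl <;> rfl
  rw [hD]
  rcases t_retP hR (m := m) hG hr with ⟨h0, n1, h1⟩ | ⟨h0, n1, V1, h1, h2, h3, h4, h5, h6⟩
  · rw [if_pos h0]
    have h2 := hS.trans (h1.app U)
    have h3 := h1.clk_le hC
    rcases hI.2.1 with ⟨h4, rfl⟩ | ⟨h4, h5, Va, h6, h7⟩
    · rw [if_pos h4]
      exact Or.inl (TOut.done h2)
    · rw [if_neg h4]
      refine Or.inr (Or.inl ⟨h4, _, Nat.le_add_right n n1, y, a, b, _, 0, Va, [], rfl, ?_, ?_, ?_, ?_⟩)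
      · refine ⟨h6, Or.inl ⟨rfl, rfl⟩, fun e' V' h8 h9 => ?_, fun h8 => absurd rfl h8⟩
        rw [List.append_nil]
        exact hI.2.2.2 h4 e' V' h8 h9
      · simp only [Cf.clk] at h3
        have := Clock.le hC hG.le
        omega
      · have := hC.mono _ _ h5
        have := hG.le
        omega
      · rw [List.append_nil, ← h7]
        exact h2
  · rw [if_neg (by omega)]
    have h7 := hS.trans (h1.app U)
    by_cases ht' : t = 12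
    · rw [if_pos ht']
      refine Or.inl (Or.inr ⟨rfl, _, _, h7, hI.2.2.1 _ _ h2 h3, he.trans h3, h4, rfl, ?_⟩)
      intro n' c hc
      have h8 := h6 n' c hc
      have h9 := hn ht'
      rw [pow_succ]
      omega
    · rw [if_neg ht']
      refine Or.inr (Or.inr ⟨by omega, w, _, _, b, V1, U, _, rfl, hI.mono h2 h3, h4, he.trans h3,
        h7, fun n' c hc => ?_⟩)
      have := h6 n' c hc
      omega

/-- The value of `adv` on the odd level. -/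
def SAll (S : Sys) (clk : ℕ → ℕ) (k : ℕ) : Prop :=
  ∀ y, SOut S clk k y (val S (2 * k + 1) ⟨4, y, 0, 0, 0, 0, 0, 0⟩)

variable (hA' : SAll S clk k)

include hC hA' in
/-- A call of `adv`. -/
theorem t2_round {a : ℕ} {s : X8} (h : T2S S clk k y c₀ e₀ a s) :
    TOut S clk k y c₀ e₀ (D (val S (2 * k + 1)) s) ∨
    (∃ n, 2 ^ k ≤ n ∧ TS S clk k y c₀ e₀ 12 a (D (val S (2 * k + 1)) s) n) := by
  obtain ⟨w, e, z, b, V, U, n, rfl, hI, hz, he, hS, hP⟩ := h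
  have hD : D (val S (2 * k + 1)) ⟨11, y, w, e, 1, z, a, b⟩ =
      if (val S (2 * k + 1) ⟨4, z, 0, 0, 0, 0, 0, 0⟩).tag = 0 then
        ⟨12, y, w, e, 1, (val S (2 * k + 1) ⟨4, z, 0, 0, 0, 0, 0, 0⟩).z, a, b⟩
      else ⟨1, 0, 0, e, 1, z, 0, 0⟩ := rfl
  rw [hD]
  rcases hA' z with ⟨h0, n1, h1⟩ | ⟨h0, n1, W1, h1, h2, h3⟩
  · rw [if_pos h0]
    refine Or.inr ⟨_, hP n1 _ h1, w, e, 1, _, b, V, U, rfl, hI, ?_, he, ?_⟩
    · exact lt_of_le_of_lt (h1.clk_le hC) hz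
    · rw [st_one]
      exact hS.trans (h1.app (V ++ U))
  · rw [if_neg (by omega)]
    refine Or.inl (Or.inr ⟨rfl, n, _, hS, hI.2.2.1 _ _ hI.1 le_rfl, he, hz, rfl, ?_⟩)
    intro n' c hc
    have := hc.lt_end h2
    omega

include hC hR in
theorem t_12_0 {n : ℕ} {s : X8} (h : TS S clk k y c₀ e₀ 12 0 s n) (hn : 2 ^ k ≤ n) (j : ℕ) :
    TOut S clk k y c₀ e₀ ((D (val S (2 * k + 1)))^[j + 1] s) := by
  rw [Function.iterate_succ_apply]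
  rcases t_round hC hR (Or.inr rfl) h (fun _ => hn) with h1 | ⟨h1, _⟩ | ⟨h1, _⟩
  · exact h1.iterate j
  · exact absurd rfl h1
  · omega

include hC hR in
theorem t_12 {n a : ℕ} {s : X8} (h : TS S clk k y c₀ e₀ 12 a s n) (hn : 2 ^ k ≤ n) (j : ℕ) :
    TOut S clk k y c₀ e₀ ((D (val S (2 * k + 1)))^[j + 2] s) := by
  rw [Function.iterate_succ_apply]
  rcases t_round hC hR (Or.inr rfl) h (fun _ => hn) with h1 | ⟨_, n', h1, h2⟩ | ⟨h1, _⟩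
  · exact h1.iterate _
  · exact t_12_0 hC hR h2 (hn.trans h1) j
  · omega

include hC hR hA' in
theorem t_11_0 {s : X8} (h : T2S S clk k y c₀ e₀ 0 s) (j : ℕ) :
    TOut S clk k y c₀ e₀ ((D (val S (2 * k + 1)))^[j + 2] s) := by
  rw [Function.iterate_succ_apply]
  rcases t2_round hC hA' h with h1 | ⟨n, h1, h2⟩
  · exact h1.iterate _
  · exact t_12_0 hC hR h2 h1 j

include hC hR hA' in
theorem t_11 {a : ℕ} {s : X8} (h : T2S S clk k y c₀ e₀ a s) (j : ℕ) :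
    TOut S clk k y c₀ e₀ ((D (val S (2 * k + 1)))^[j + 3] s) := by
  rw [Function.iterate_succ_apply]
  rcases t2_round hC hA' h with h1 | ⟨n, h1, h2⟩
  · exact h1.iterate _
  · exact t_12 hC hR h2 h1 j

include hC hR hA' in
theorem t_10_0 {n : ℕ} {s : X8} (h : TS S clk k y c₀ e₀ 10 0 s n) (j : ℕ) :
    TOut S clk k y c₀ e₀ ((D (val S (2 * k + 1)))^[j + 3] s) := by
  rw [Function.iterate_succ_apply]
  rcases t_round hC hR (Or.inl rfl) h (fun h => by omega) with h1 | ⟨h1, _⟩ | ⟨_, h1⟩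
  · exact h1.iterate _
  · exact absurd rfl h1
  · exact t_11_0 hC hR hA' h1 j

include hC hR hA' in
theorem t_10 {n a : ℕ} {s : X8} (h : TS S clk k y c₀ e₀ 10 a s n) (j : ℕ) :
    TOut S clk k y c₀ e₀ ((D (val S (2 * k + 1)))^[j + 4] s) := by
  rw [Function.iterate_succ_apply]
  rcases t_round hC hR (Or.inl rfl) h (fun h => by omega) with h1 | ⟨_, n', _, h1⟩ | ⟨_, h1⟩
  · exact h1.iterate _
  · exact t_10_0 hC hR hA' h1 j
  · exact t_11 hC hR hA' h1 j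

include hC hR hA' in
theorem t_main {e m r : ℕ} {V : List ℕ} (hG : Good S clk (k + 1) y e V) (hr : clk r < clk e) :
    TOut S clk k y (Cf.ret r (st e m V)) e (val S (2 * (k + 1)) ⟨9, y, 0, e, m, r, 0, 0⟩) := by
  have h5 : val S (2 * (k + 1)) ⟨9, y, 0, e, m, r, 0, 0⟩ =
      (D (val S (2 * k + 1)))^[4 + 1] ⟨9, y, 0, e, m, r, 0, 0⟩ := rfl
  rw [h5, Function.iterate_succ_apply]
  set v := val S (2 * k + 1) ⟨4, y, 0, 0, 0, 0, 0, 0⟩ with hv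
  have hD : D (val S (2 * k + 1)) ⟨9, y, 0, e, m, r, 0, 0⟩ =
      if v.w ≠ 0 ∧ e ≤ v.w then ⟨10, y, v.w, e, m, r, v.a, v.b⟩
      else ⟨10, y, y, e, m, r, 0, 0⟩ := rfl
  rw [hD]
  have hG' : GoodW clk (Good S clk k) v.w v.a v.b y e V := hG
  obtain ⟨hey, hG' | hG'⟩ := hG'
  · obtain ⟨h1, h2, h3, V', h4, h6⟩ := hG'
    rw [if_pos ⟨h1, h3⟩]
    obtain ⟨U, hU, hT⟩ : ∃ U, V = V' ++ U ∧ ((v.a = 0 ∧ U = []) ∨
        (v.a ≠ 0 ∧ clk v.w < clk v.a ∧ ∃ Va, Good S clk k y v.a Va ∧ U = st v.a v.b Va)) := by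
      rcases h6 with ⟨h6, rfl⟩ | ⟨h6, h7, Va, h8, rfl⟩
      · exact ⟨[], (List.append_nil _).symm, Or.inl ⟨h6, rfl⟩⟩
      · exact ⟨_, rfl, Or.inr ⟨h6, h7, Va, h8, rfl⟩⟩
    refine t_10 hC hR hA' (n := 0) ⟨v.w, e, m, r, v.b, V', U, rfl, ⟨h4, hT, ?_, ?_⟩, hr, le_rfl, ?_⟩ 0
    · intro e' V'' h7 h8
      refine ⟨h7.le.trans h2, Or.inl ⟨h1, h2, h7.le, V'', h7, ?_⟩⟩
      rcases hT with ⟨h9, rfl⟩ | ⟨h9, h10, Va, h11, rfl⟩
      · exact Or.inl ⟨h9, List.append_nil _⟩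
      · exact Or.inr ⟨h9, h10, Va, h11, rfl⟩
    · intro ha e' V'' h7 h8
      refine ⟨h7.le, Or.inr ⟨Or.inr ?_, h7⟩⟩
      rcases hT with ⟨h9, _⟩ | ⟨_, h10, _⟩
      · exact absurd h9 ha
      · exact lt_of_lt_of_le (hC.mono _ _ h10) h8
    · rw [st_append, ← hU]
      exact Sts.refl _
  · obtain ⟨h1, h2⟩ := hG'
    rw [if_neg (by
      rintro ⟨h3, h4⟩
      rcases h1 with h1 | h1 <;> omega)]
    refine t_10 hC hR hA' (n := 0) ⟨y, e, m, r, 0, V, [], rfl, ⟨h2, Or.inl ⟨rfl, rfl⟩, ?_, ?_⟩, hr,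
      le_rfl, ?_⟩ 0
    · intro e' V'' h7 h8
      rw [List.append_nil]
      refine ⟨h7.le, Or.inr ⟨?_, h7⟩⟩
      rcases h1 with h1 | h1
      · exact Or.inl h1
      · exact Or.inr (lt_of_lt_of_le h1 h8)
    · exact fun h => absurd rfl h
    · rw [List.append_nil]
      exact Sts.refl _

end

section

variable {S : Sys} {clk : ℕ → ℕ} (hC : Clock S clk)

include hC in
/-- The correctness of the recursion. -/
theorem val_correct (k : ℕ) :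
    (∀ y, AOut S clk (Good S clk k y) (2 ^ k) y (val S (2 * k) ⟨2, y, 0, 0, 0, 0, 0, 0⟩)) ∧
    (∀ y e m r V, Good S clk k y e V → clk r < clk e →
      ROut S clk (Good S clk k y) (2 ^ k) (Cf.ret r (st e m V)) e
        (val S (2 * k) ⟨9, y, 0, e, m, r, 0, 0⟩)) := by
  induction k with
  | zero => exact ⟨hA_zero hC, hR_zero hC⟩
  | succ k ih =>
    obtain ⟨hA, hR⟩ := ih
    have hA' : SAll S clk k := s_main hC hA hR
    refine ⟨fun y => ?_, fun y e m r V hG hr => t_main hC hR hA' hG hr⟩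
    have h := hA' y
    have h1 : (val S (2 * k + 1) ⟨4, y, 0, 0, 0, 0, 0, 0⟩).tag = 0 ∨
        (val S (2 * k + 1) ⟨4, y, 0, 0, 0, 0, 0, 0⟩).tag = 1 := by
      rcases h with h | h
      · exact Or.inl h.1
      · exact Or.inr h.1
    have h2 : val S (2 * (k + 1)) ⟨2, y, 0, 0, 0, 0, 0, 0⟩ =
        val S (2 * k + 1) ⟨4, y, 0, 0, 0, 0, 0, 0⟩ := by
      have h3 : val S (2 * (k + 1)) ⟨2, y, 0, 0, 0, 0, 0, 0⟩ =
        (D (val S (2 * k + 1)))^[4 + 1] ⟨2, y, 0, 0, 0, 0, 0, 0⟩ := rfl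
      rw [h3, Function.iterate_succ_apply]
      exact iterate_fin h1 4
    rw [h2]
    exact h

include hC in
/-- The value of a node is computed on the level `2 * k`, if the size of the computation is less than
`2 ^ k / 2`. -/
theorem val_of_ev {y c s k : ℕ} (h : Ev S y c s) (hs : 2 * s < 2 ^ k) :
    (val S (2 * k) ⟨2, y, 0, 0, 0, 0, 0, 0⟩).tag = 0 ∧
      (val S (2 * k) ⟨2, y, 0, 0, 0, 0, 0, 0⟩).z = c := by
  obtain ⟨n, hn, h1⟩ := exists_sts_of_ev h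
  rcases (val_correct hC k).1 y with ⟨h2, m, h3⟩ | ⟨h2, m, W, h3, h4, _⟩
  · exact ⟨h2, (h1 []).end_value h3⟩
  · have := (h1 []).lt_end h4
    omega

end

end Pool.Agent.Lib.MP_9277c3_lc.NS.Dp
end
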