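import Pool.Agent.Lib.MP_9277c3_lc.NS.Flow

/-!
# Frame lemmas for the engine

A run of level `t` does not change the rounds `rd l` of the levels `l > t`.
-/

namespace Pool.Agent.Lib.MP_9277c3_lc.NS

open Classical

namespace Par

variable {X γ : Type} (P : Par X γ)

@[simp] theorem rd_addR (st : St P.G γ) (p j : ℕ) (w : P.G.Om) : (P.addR st p j w).rd = st.rd := rfl
@[simp] theorem rd_orFail (st : St P.G γ) (b : Bool) : (P.orFail st b).rd = st.rd := rfl
@[simp] theorem rd_setTau (st : St P.G γ) (t j : ℕ) (c : ZMod P.G.r) :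
    (P.setTau st t j c).rd = st.rd := rfl
@[simp] theorem rd_setCl (st : St P.G γ) (t : ℕ) (a : X) : (P.setCl st t a).rd = st.rd := rfl
@[simp] theorem rd_use (p j : ℕ) (st : St P.G γ) : (P.use p j st).2.rd = st.rd := rfl
@[simp] theorem rd_store (t j : ℕ) (s : X) (st : St P.G γ) : (P.store t j s st).rd = st.rd := rfl
@[simp] theorem rd_check (t j n : ℕ) (s : X) (st : St P.G γ) :
    (P.check t j n s st).rd = st.rd := rfl
@[simp] theorem rd_supP (t : ℕ) (st : St P.G γ) : (P.supP t st).2.rd = st.rd := rfl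

theorem rd_setRd (st : St P.G γ) (t c l : ℕ) :
    (P.setRd st t c).rd l = if l = t then c else st.rd l := rfl

theorem rd_setRd_self (st : St P.G γ) (t c : ℕ) : (P.setRd st t c).rd t = c := by
  simp [rd_setRd]

theorem rd_setRd_ne (st : St P.G γ) {t l : ℕ} (c : ℕ) (h : l ≠ t) :
    (P.setRd st t c).rd l = st.rd l := by
  simp [rd_setRd, h]

@[simp] theorem rd_sup (t : ℕ) (st : St P.G γ) : (P.sup t st).2.rd = st.rd := by
  unfold sup
  split_ifs <;> rfl

@[simp] theorem rd_act (t : ℕ) (v : X) (st : St P.G γ) : (P.act t v st).rd = st.rd := by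
  unfold act
  by_cases h : t = P.T
  · rw [if_pos h]
    rfl
  · rw [if_neg h]
    by_cases h' : st.rd (t + 1) % 2 = 0
    · simp only [h', if_true]
      rfl
    · simp only [h', if_false]
      rfl

/-- The function does not change the rounds of the levels `> t`. -/
def RdFix (t : ℕ) (f : St P.G γ → St P.G γ) : Prop := ∀ st l, t < l → (f st).rd l = st.rd l

variable {P}

theorem rdFix_seg {t : ℕ} {run : St P.G γ → St P.G γ} (h : P.RdFix t run) :
    ∀ i j, P.RdFix (t + 1) (P.seg run (t + 1) i j) := by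
  intro i
  induction i with
  | zero =>
    intro j st l _
    simp [seg]
  | succ i ih =>
    intro j st l hl
    rw [seg, h _ l (by omega), rd_setRd_ne _ _ _ (by omega), ih (j + 1) _ l hl, h _ l (by omega),
      rd_setRd_ne _ _ _ (by omega)]

theorem rdFix_body0 : P.RdFix 0 P.body0 := by
  intro st l _
  simp [body0]

theorem rdFix_bodyS {t : ℕ} {run : St P.G γ → St P.G γ} (h : P.RdFix t run) :
    P.RdFix (t + 1) (P.bodyS run (t + 1)) := by
  intro st l hl
  simp only [bodyS, rd_check, rd_sup]
  rw [rdFix_seg h _ _ _ l hl]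
  simp

theorem rdFix_wrap {t : ℕ} {body : St P.G γ → St P.G γ} (h : P.RdFix t body) :
    P.RdFix t (P.wrap t body) := by
  intro st l hl
  unfold wrap
  split_ifs
  · rw [rd_supP, h _ l hl]
    simp
  · exact h _ l hl

theorem rdFix_body (t : ℕ) : P.RdFix t (P.body t) := by
  induction t with
  | zero => exact rdFix_body0
  | succ t ih => exact rdFix_bodyS (rdFix_wrap ih)

theorem rdFix_run (t : ℕ) : P.RdFix t (P.run t) := rdFix_wrap (rdFix_body t)

end Par

end Pool.Agent.Lib.MP_9277c3_lc.NS
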