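import Pool.Agent.Lib.MP_9277c3_lc.NS.GadgetInst
import Pool.Agent.Lib.MP_9277c3_lc.helper78.CM.Vec

/-!
# Packed contents of the registers

An element of `Om m b g` is stored as a number with `g + 2` digits in base `RR m b g`: the constant,
the coefficient of the sum of the squares, and the `g` linear coefficients. We prove the formulas
for the evaluation and for the addition of a multiple of `dd y`, as loops over the digits.
-/

namespace Pool.Agent.Lib.MP_9277c3_lc.NS

open Finset Pool.Agent.Lib.MP_9277c3_lc.CM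
open Pool.Agent.MP_9277c3_lc.NS (Om RR ev cst dd dig dig_val)

variable {k m b g : ℕ}

instance : NeZero (RR m b g) := ⟨by unfold RR; omega⟩

/-- The coefficients. -/
def cof (p : Om m b g) : ℕ → ZMod (RR m b g)
  | 0 => p.1.1
  | 1 => p.1.2
  | i + 2 => if h : i < g then p.2 ⟨i, h⟩ else 0

/-- The packed form. -/
def pack (p : Om m b g) : ℕ := encZ (g + 2) (cof p)

/-- The linear coefficients. -/
def lin (p : Om m b g) (i : ℕ) : ZMod (RR m b g) := cof p (i + 2)

theorem lin_eq (p : Om m b g) (i : ℕ) : lin p i = if h : i < g then p.2 ⟨i, h⟩ else 0 := rfl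

theorem lin_of_lt (p : Om m b g) {i : ℕ} (h : i < g) : lin p i = p.2 ⟨i, h⟩ := by
  rw [lin_eq, dif_pos h]

theorem lin_of_not (p : Om m b g) {i : ℕ} (h : ¬ i < g) : lin p i = 0 := by
  rw [lin_eq, dif_neg h]

theorem pack_lt (p : Om m b g) : pack p < RR m b g ^ (g + 2) := encZ_lt _ _

theorem pack_zero : pack (0 : Om m b g) = 0 := by
  unfold pack
  rw [show cof (0 : Om m b g) = 0 by
    funext i
    match i with
    | 0 => rfl
    | 1 => rfl
    | i + 2 => simp [cof]]
  exact encZ_zero _

theorem pack_mod (p : Om m b g) : pack p % RR m b g = p.1.1.val := encZ_mod _ _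

theorem pack_div_mod (p : Om m b g) : pack p / RR m b g % RR m b g = p.1.2.val := by
  unfold pack
  rw [encZ_div, encZ_mod]
  rfl

theorem pack_div_div (p : Om m b g) : pack p / RR m b g / RR m b g = encZ g (lin p) := by
  unfold pack
  rw [encZ_div, encZ_div]
  rfl

theorem pack_eq (p : Om m b g) :
    pack p = p.1.1.val + RR m b g * (p.1.2.val + RR m b g * encZ g (lin p)) := by
  unfold pack
  rw [encZ_succ, encZ_succ]
  rfl

/-- The digit `i` of `s` in base `b`, modulo `RR m b g`. -/
def dg (m b g s i : ℕ) : ZMod (RR m b g) := ((s / b ^ i % b : ℕ) : ZMod (RR m b g))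

/-- Partial sums of the squares. -/
def sqs (m b g s i : ℕ) : ZMod (RR m b g) := ∑ j ∈ range i, dg m b g s j ^ 2

/-- Partial sums of the linear form. -/
def lins (p : Om m b g) (s i : ℕ) : ZMod (RR m b g) :=
  p.1.1 + ∑ j ∈ range i, lin p j * dg m b g s j

theorem ev_eq (h : k ≤ b ^ g) (p : Om m b g) (x : Fin k) :
    ev h p x = lins p x g + p.1.2 * sqs m b g x g := by
  have h1 : ∀ i : Fin g, ((dig k b g h x i : ℕ) : ZMod (RR m b g)) = dg m b g x i := by
    intro i
    rw [dig_val]
    rfl
  unfold ev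
  simp only [h1]
  unfold lins sqs
  rw [Finset.sum_range, Finset.sum_range]
  have h2 : ∀ i : Fin g, lin p i = p.2 i := by
    intro i
    rw [lin_of_lt p i.2]
  simp only [h2]
  ring

theorem sqs_zero (s : ℕ) : sqs m b g s 0 = 0 := by simp [sqs]

theorem lins_zero (p : Om m b g) (s : ℕ) : lins p s 0 = p.1.1 := by simp [lins]

theorem val_step {r : ℕ} [NeZero r] (a c d : ZMod r) (e f : ℕ) (hc : c = ((e * f : ℕ) : ZMod r))
    (hd : d = a + c) : (a.val + e * f) % r = d.val := by
  rw [hd, hc, ← ZMod.val_natCast]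
  congr 1
  push_cast
  rw [ZMod.natCast_val, ZMod.cast_id', id_eq]

theorem sqs_step (s i : ℕ) : ((sqs m b g s i).val + s / b ^ i % b * (s / b ^ i % b)) % RR m b g =
    (sqs m b g s (i + 1)).val := by
  refine val_step (sqs m b g s i) (dg m b g s i ^ 2) _ _ _ ?_ ?_
  · unfold dg
    push_cast
    ring
  · unfold sqs
    rw [sum_range_succ]

theorem lins_step (p : Om m b g) (s : ℕ) {i : ℕ} (hi : i < g) :
    ((lins p s i).val + encZ g (lin p) / RR m b g ^ i % RR m b g * (s / b ^ i % b)) % RR m b g =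
      (lins p s (i + 1)).val := by
  refine val_step (lins p s i) (lin p i * dg m b g s i) _ _ _ ?_ ?_
  · rw [encZ_digit hi]
    unfold dg
    push_cast
    rw [ZMod.natCast_val, ZMod.cast_id', id_eq]
  · unfold lins
    rw [sum_range_succ]
    ring

theorem ev_step (h : k ≤ b ^ g) (p : Om m b g) (x : Fin k) :
    ((lins p x g).val + pack p / RR m b g % RR m b g * (sqs m b g x g).val) % RR m b g =
      (ev h p x).val := by
  refine val_step (lins p x g) (p.1.2 * sqs m b g x g) _ _ _ ?_ (ev_eq h p x)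
  rw [pack_div_mod]
  push_cast
  rw [ZMod.natCast_val, ZMod.cast_id', id_eq, ZMod.natCast_val, ZMod.cast_id', id_eq]

/-! ### Addition of a multiple of `dd y` -/

/-- The linear coefficients of `p + c • dd y`, where `y` is the number `s`. -/
def linD (p : Om m b g) (c s i : ℕ) : ZMod (RR m b g) :=
  lin p i + c * (((RR m b g - 2 : ℕ) : ZMod (RR m b g)) * dg m b g s i)

theorem neg_two {r : ℕ} (hr : 2 ≤ r) : ((r - 2 : ℕ) : ZMod r) = -2 := by
  rw [Nat.cast_sub hr, ZMod.natCast_self]
  simp

theorem two_le_RR (hm : 1 ≤ m) (hg : 1 ≤ g) (hb : 1 ≤ b) : 2 ≤ RR m b g := by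
  unfold RR
  have : 1 ≤ m * g * b ^ 2 := Nat.one_le_iff_ne_zero.2 (by positivity)
  omega

theorem rot_step' {p : ℕ} [NeZero p] {m k : ℕ} (hk : k < m) (V F : ℕ → ZMod p) :
    encZ m (rot m V F k) / p + (F k).val * p ^ (m - 1) = encZ m (rot m V F (k + 1)) := by
  obtain ⟨m, rfl⟩ : ∃ j, m = j + 1 := ⟨m - 1, by omega⟩
  rw [encZ_div, Nat.add_sub_cancel, encZ_succ']
  have h1 : F k = rot (m + 1) V F (k + 1) m := by
    rw [rot, if_neg (by omega), show m + (k + 1) - (m + 1) = k by omega]
  rw [← h1]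
  congr 1
  refine encZ_congr fun i hi => ?_
  rw [rot, rot, show i + 1 + k = i + (k + 1) by omega]

theorem rot_mod {p : ℕ} [NeZero p] {m k : ℕ} (hk : k < m) (V F : ℕ → ZMod p) :
    encZ m (rot m V F k) % p = (V k).val := by
  obtain ⟨m, rfl⟩ : ∃ j, m = j + 1 := ⟨m - 1, by omega⟩
  rw [encZ_mod, rot, if_pos (by omega), Nat.zero_add]

theorem linD_step (p : Om m b g) (c s : ℕ) {i : ℕ} (hi : i < g) :
    encZ g (rot g (lin p) (linD p c s) i) / RR m b g +
      (encZ g (rot g (lin p) (linD p c s) i) % RR m b g +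
        c * ((RR m b g - 2) * (s / b ^ i % b))) % RR m b g * RR m b g ^ (g - 1) =
      encZ g (rot g (lin p) (linD p c s) (i + 1)) := by
  rw [rot_mod hi, ← rot_step' hi]
  congr 2
  rw [← ZMod.val_natCast]
  congr 1
  push_cast
  rw [ZMod.natCast_val, ZMod.cast_id', id_eq]
  rfl

/-- The packed form of `p + c • dd y`. -/
theorem pack_add_dd (h : k ≤ b ^ g) (hm : 1 ≤ m) (hb : 1 ≤ b ∨ g = 0) (p : Om m b g) (c : ℕ)
    (x : Fin k) :
    (pack p % RR m b g + c * (sqs m b g x g).val) % RR m b g + RR m b g *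
      ((pack p / RR m b g % RR m b g + c) % RR m b g + RR m b g * encZ g (linD p c x)) =
      pack (p + c • dd h x) := by
  have h1 : ∀ i : Fin g, ((dig k b g h x i : ℕ) : ZMod (RR m b g)) = dg m b g x i := by
    intro i
    rw [dig_val]
    rfl
  rw [pack_eq (p + c • dd h x), pack_mod, pack_div_mod]
  congr 1
  · rw [← ZMod.val_natCast]
    congr 1
    push_cast
    rw [ZMod.natCast_val, ZMod.cast_id', id_eq, ZMod.natCast_val, ZMod.cast_id', id_eq]
    have h2 : (p + c • dd h x).1.1 = p.1.1 + c • (dd h x : Om m b g).1.1 := rfl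
    rw [h2, nsmul_eq_mul]
    unfold dd sqs
    simp only [h1]
    rw [Finset.sum_range]
  · congr 2
    · rw [← ZMod.val_natCast]
      congr 1
      push_cast
      rw [ZMod.natCast_val, ZMod.cast_id', id_eq]
      have h2 : (p + c • dd h x).1.2 = p.1.2 + c • (dd h x : Om m b g).1.2 := rfl
      rw [h2, nsmul_eq_mul]
      unfold dd
      simp
    · congr 1
      refine encZ_congr fun i hi => ?_
      have h2 : lin (p + c • dd h x) i = lin p i + c • lin (dd h x : Om m b g) i := by
        rw [lin_of_lt _ hi, lin_of_lt _ hi, lin_of_lt _ hi]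
        rfl
      rw [h2, linD, nsmul_eq_mul, neg_two (two_le_RR hm (by omega) (by omega))]
      congr 2
      rw [lin_of_lt _ hi]
      unfold dd
      simp only
      rw [← h1 ⟨i, hi⟩]

/-- The packed form of `p + cst t`. -/
theorem pack_add_cst (p : Om m b g) (t : ℕ) :
    pack p / RR m b g * RR m b g + (pack p % RR m b g + t) % RR m b g =
      pack (p + cst (t : ZMod (RR m b g))) := by
  have h0 : lin (p + cst (t : ZMod (RR m b g))) = lin p := by
    funext i
    by_cases hi : i < g
    · rw [lin_of_lt _ hi, lin_of_lt _ hi]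
      simp [cst]
    · rw [lin_of_not _ hi, lin_of_not _ hi]
  rw [pack_eq (p + cst (t : ZMod (RR m b g))), h0]
  have h1 : (p + cst (t : ZMod (RR m b g))).1.1 = p.1.1 + t := rfl
  have h2 : (p + cst (t : ZMod (RR m b g))).1.2 = p.1.2 := by simp [cst]
  rw [h1, h2, pack_mod]
  have h3 : pack p / RR m b g = p.1.2.val + RR m b g * encZ g (lin p) := by
    have h4 := Nat.div_add_mod (pack p / RR m b g) (RR m b g)
    rw [pack_div_mod, pack_div_div] at h4
    omega
  have h5 : (p.1.1.val + t) % RR m b g = (p.1.1 + (t : ZMod (RR m b g))).val := by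
    rw [← ZMod.val_natCast]
    congr 1
    push_cast
    rw [ZMod.natCast_val, ZMod.cast_id', id_eq]
  rw [h3, h5]
  ring

/-- Subtraction of a constant is addition of its negative. -/
theorem sub_cst (p : Om m b g) {t : ZMod (RR m b g)} :
    p - cst t = p + cst (((RR m b g - t.val : ℕ) : ZMod (RR m b g))) := by
  have h1 : ((RR m b g - t.val : ℕ) : ZMod (RR m b g)) = -t := by
    rw [Nat.cast_sub (ZMod.val_lt t).le, ZMod.natCast_self, zero_sub, ZMod.natCast_val,
      ZMod.cast_id', id_eq]
  rw [h1]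
  have h2 : (cst (-t) : Om m b g) = -cst t := by simp [cst]
  rw [h2, sub_eq_add_neg]

/-- Subtraction of `n • w` is addition of `(RR - n) • w`. -/
theorem sub_nsmul (p w : Om m b g) {n : ℕ} (hn : n ≤ RR m b g) :
    p - n • w = p + (RR m b g - n) • w := by
  have h1 : (RR m b g) • w = 0 := by
    have h2 : ∀ c : ZMod (RR m b g), (RR m b g) • c = 0 := fun c => by
      rw [nsmul_eq_mul, ZMod.natCast_self, zero_mul]
    refine Prod.ext (Prod.ext (h2 _) (h2 _)) ?_
    funext i
    exact h2 _
  have h3 : (RR m b g - n) • w + n • w = 0 := by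
    rw [← add_nsmul, Nat.sub_add_cancel hn, h1]
  rw [sub_eq_add_neg, add_right_inj, neg_eq_iff_add_eq_zero, add_comm]
  exact h3

end Pool.Agent.Lib.MP_9277c3_lc.NS
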