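import Pool.Agent.Lib.MP_9277c3_lc.NS.Dp1
import Pool.Agent.Lib.MP_9277c3_lc.NS.Core

/-!
# Packing of the states into numbers
-/

namespace Pool.Agent.Lib.MP_9277c3_lc.NS

open CM

/-- The code of a state, in base `b`. -/
def pk (b : ℕ) (s : Dp.X8) : ℕ :=
  s.tag + b * (s.y + b * (s.w + b * (s.e + b * (s.m + b * (s.z + b * (s.a + b * s.b))))))

/-- The state of a code. -/
def upk (b x : ℕ) : Dp.X8 :=
  ⟨x % b, x / b % b, x / b / b % b, x / b / b / b % b, x / b / b / b / b % b,
    x / b / b / b / b / b % b, x / b / b / b / b / b / b % b,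
    x / b / b / b / b / b / b / b % b⟩

/-- The scheme on the codes. -/
def schN (b : ℕ) (S : Sys) : Scheme ℕ where
  K := 5
  V0 x := pk b (Dp.V0 S (upk b x))
  ini x := x
  out x := x
  arg _ s := pk b (Dp.arg (upk b s))
  upd _ s v := pk b (Dp.upd (upk b s) (upk b v))

end Pool.Agent.Lib.MP_9277c3_lc.NS
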